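import Pool.Agent.DiamP.HvStar

/-!
# Heavy sums, part 7: the local lower bound (H3) of (6.7) (MP_d7a93a_pr)
-/

set_option autoImplicit false

open Finset Filter Topology

namespace Pool.Agent.DiamP.Hv

theorem rpow_four_third {T : ℝ} (hT : 0 < T) {h : ℝ} (hh : T * Real.sqrt T / 3 ≤ h) :
    h ^ (-(4 / 3) : ℝ) ≤ 9 / T ^ 2 := by
  have hs : 0 < Real.sqrt T := Real.sqrt_pos.2 hT
  have h0 : 0 < T * Real.sqrt T / 3 := by positivity
  have h1 : h ^ (-(4 / 3) : ℝ) ≤ (T * Real.sqrt T / 3) ^ (-(4 / 3) : ℝ) :=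
    Real.rpow_le_rpow_of_nonpos h0 hh (by norm_num)
  have e1 : T * Real.sqrt T = T ^ (3 / 2 : ℝ) := by
    rw [Real.sqrt_eq_rpow]
    nth_rewrite 1 [← Real.rpow_one T]
    rw [← Real.rpow_add hT]
    norm_num
  have e2 : (T * Real.sqrt T / 3) ^ (-(4 / 3) : ℝ) = 3 ^ (4 / 3 : ℝ) / T ^ 2 := by
    rw [e1, Real.div_rpow (by positivity) (by norm_num), ← Real.rpow_mul hT.le,
      Real.rpow_neg (by norm_num : (0:ℝ) ≤ 3), div_inv_eq_mul]
    have : (3 / 2 : ℝ) * -(4 / 3) = -(2 : ℕ) := by norm_num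
    rw [this, Real.rpow_neg hT.le, Real.rpow_natCast]
    field_simp
  have h3 : (3 : ℝ) ^ (4 / 3 : ℝ) ≤ 9 := by
    have : (3 : ℝ) ^ (4 / 3 : ℝ) ≤ 3 ^ (2 : ℝ) :=
      Real.rpow_le_rpow_of_exponent_le (by norm_num) (by norm_num)
    refine this.trans (le_of_eq ?_)
    norm_num
  rw [e2] at h1
  refine h1.trans ?_
  gcongr

/-- a law which is concentrated has a point of large mass -/
theorem exists_peak {p : ℕ → ℝ} (hp : IsLaw p) {m R : ℝ} (hR : 1 ≤ R)
    (h : pr p {n | R ≤ |(n : ℝ) - m|} ≤ 1 / 2) :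
    ∃ j : ℕ, |(j : ℝ) - m| < R ∧ 1 / (6 * R) ≤ p j := by
  by_contra hcon
  push Not at hcon
  set F : Finset ℕ := Icc ⌈m - R⌉₊ ⌊m + R⌋₊ with hF
  have hcard : (F.card : ℝ) ≤ 3 * R := by
    rw [hF, Nat.card_Icc]
    have h1 : m - R ≤ (⌈m - R⌉₊ : ℝ) := Nat.le_ceil _
    rcases Nat.lt_or_ge (⌊m + R⌋₊ + 1) ⌈m - R⌉₊ with h2 | h2
    · rw [Nat.sub_eq_zero_of_le h2.le]
      push_cast
      linarith
    · rw [Nat.cast_sub h2]
      push_cast
      rcases le_total 0 (m + R) with h3 | h3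
      · have h4 : (⌊m + R⌋₊ : ℝ) ≤ m + R := Nat.floor_le h3
        linarith
      · rw [Nat.floor_of_nonpos h3]
        push_cast
        have : (0 : ℝ) ≤ (⌈m - R⌉₊ : ℝ) := by positivity
        linarith
  have hsum : ∑ n ∈ F, (if |(n : ℝ) - m| < R then p n else 0) < 1 / 2 ∨
      F = ∅ := by
    rcases F.eq_empty_or_nonempty with h0 | h0
    · exact Or.inr h0
    · left
      have h1 : ∑ n ∈ F, (if |(n : ℝ) - m| < R then p n else 0) < ∑ _n ∈ F, 1 / (6 * R) := by
        refine sum_lt_sum_of_nonempty h0 fun n _ => ?_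
        split_ifs with h2
        · exact hcon n h2
        · positivity
      refine h1.trans_le ?_
      rw [sum_const, nsmul_eq_mul]
      calc (F.card : ℝ) * (1 / (6 * R)) ≤ 3 * R * (1 / (6 * R)) := by gcongr
        _ = 1 / 2 := by field_simp; norm_num
  have hmem : ∀ n : ℕ, |(n : ℝ) - m| < R → n ∈ F := by
    intro n hn
    rw [abs_lt] at hn
    rw [hF, mem_Icc]
    exact ⟨Nat.ceil_le.2 (by linarith), Nat.le_floor (by linarith)⟩
  set f : ℕ → ℝ := fun n => if |(n : ℝ) - m| < R then p n else 0 with hf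
  have hfs : HasSum f (∑ n ∈ F, f n) := hasSum_sum_of_ne_finset_zero fun n hn => by
    simp only [hf]
    rw [if_neg fun h => hn (hmem n h)]
  have hind := hp.summable_indicator {n : ℕ | R ≤ |(n : ℝ) - m|}
  have h1 : (1 : ℝ) ≤ ∑ n ∈ F, f n + pr p {n | R ≤ |(n : ℝ) - m|} := by
    rw [← hfs.tsum_eq, ← hp.tsum]
    unfold pr
    rw [← hfs.summable.tsum_add hind]
    refine hp.summable.tsum_le_tsum (fun n => ?_) (hfs.summable.add hind)
    by_cases h2 : |(n : ℝ) - m| < R
    · simp only [hf]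
      rw [if_pos h2]
      have : 0 ≤ Set.indicator {n : ℕ | R ≤ |(n : ℝ) - m|} p n :=
        Set.indicator_nonneg (fun _ _ => hp.nonneg _) _
      linarith
    · have h3 : n ∈ {n : ℕ | R ≤ |(n : ℝ) - m|} := not_lt.1 h2
      rw [Set.indicator_of_mem h3]
      simp only [hf]
      rw [if_neg h2]
      linarith
  rcases hsum with h2 | h2
  · linarith
  · rw [h2, sum_empty] at h1
    linarith

/-- an interval of length `δ T` of points of large mass -/
theorem peak {d : ℕ → ℝ} {K : ℝ} (hd : HT K d) (hD : DL d) :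
    ∃ lam δ c : ℝ, 1 ≤ lam ∧ 0 < δ ∧ δ ≤ 1 ∧ 0 < c ∧ ∀ T : ℝ, 1 ≤ T → ∀ h : ℕ,
      T * Real.sqrt T / 3 ≤ h → (h : ℝ) ≤ T * Real.sqrt T / 2 →
      ∃ j0 : ℕ, |(j0 : ℝ) - h * mean d| < lam * T ∧
        ∀ j : ℕ, |(j : ℝ) - j0| ≤ δ * T → c / T ≤ cvL (List.replicate h d) j := by
  have hK := hd.K_nonneg
  have hdK := dK_nonneg hK
  obtain ⟨c0, hc0, hw⟩ := hD.wl
  obtain ⟨K2, hK2, hb⟩ := win_conc hc0 0
  set lam := 4 * dK K + 2 with hlam
  have hlam1 : 1 ≤ lam := by linarith
  have hlampos : 0 < lam := by linarith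
  refine ⟨lam, min 1 (1 / (108 * K2 * lam)), 1 / (12 * lam), hlam1, lt_min one_pos (by positivity),
    min_le_left _ _, by positivity, fun T hT h hh1 hh2 => ?_⟩
  set δ := min 1 (1 / (108 * K2 * lam)) with hδ
  have hδ2 : 108 * K2 * lam * δ ≤ 1 := by
    have : δ ≤ 1 / (108 * K2 * lam) := min_le_right _ _
    rw [le_div_iff₀ (by positivity)] at this
    linarith
  have hTpos : 0 < T := by linarith
  have hs : 1 ≤ Real.sqrt T := by rw [Real.one_le_sqrt]; exact hT
  have hspos : 0 < Real.sqrt T := by linarith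
  have hhpos : (0 : ℝ) < h := lt_of_lt_of_le (by positivity) hh1
  have hh0 : h ≠ 0 := by
    intro h0; rw [h0] at hhpos; simp at hhpos
  have hmem : ∀ p ∈ List.replicate h d, HT K p := fun p hp => by
    rw [List.eq_of_mem_replicate hp]; exact hd
  have hlaw : IsLaw (cvL (List.replicate h d)) := isLaw_cvL fun p hp => (hmem p hp).law
  have hR : 1 ≤ lam * T := one_le_mul_of_one_le_of_one_le hlam1 hT
  have hdev := heavy_dev hK hmem (show 0 < lam * T by positivity)
  rw [meanL_replicate, List.length_replicate] at hdev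
  have hdev2 : (4 * dK K + 1) * (h : ℝ) * (lam * T) ^ (-(3 / 2) : ℝ) ≤ 1 / 2 := by
    rw [rpow_three_half (by positivity), mul_one_div, div_le_iff₀ (by positivity)]
    have h1 : Real.sqrt T ≤ Real.sqrt (lam * T) := Real.sqrt_le_sqrt (by nlinarith)
    have h2 : (4 * dK K + 1) ≤ lam := by linarith
    calc (4 * dK K + 1) * (h : ℝ) ≤ lam * (T * Real.sqrt T / 2) := by gcongr
      _ = 1 / 2 * (lam * T * Real.sqrt T) := by ring
      _ ≤ 1 / 2 * (lam * T * Real.sqrt (lam * T)) := by gcongr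
  obtain ⟨j0, hj0, hpj0⟩ := exists_peak hlaw hR (hdev.trans hdev2)
  refine ⟨j0, hj0, fun j hj => ?_⟩
  have hlip := (hb (List.replicate h d) (fun p hp => by
    rw [List.eq_of_mem_replicate hp]; exact hw) (by
      intro h0
      have := congrArg List.length h0
      simp at this
      exact hh0 this)).2 j0 j
  rw [List.length_replicate] at hlip
  have h43 := rpow_four_third hTpos hh1
  have h5 : K2 * |(j0 : ℝ) - j| * (h : ℝ) ^ (-(4 / 3) : ℝ) ≤ K2 * (δ * T) * (9 / T ^ 2) := by
    rw [abs_sub_comm]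
    gcongr
  have h6 : K2 * (δ * T) * (9 / T ^ 2) ≤ 1 / (12 * lam) / T := by
    have e : K2 * (δ * T) * (9 / T ^ 2) = (108 * K2 * lam * δ) * (1 / (12 * lam) / T) := by
      field_simp
      ring
    rw [e]
    have : 0 ≤ 1 / (12 * lam) / T := by positivity
    nlinarith
  have h7 : cvL (List.replicate h d) j0 - cvL (List.replicate h d) j ≤ 1 / (12 * lam) / T :=
    (le_abs_self _).trans (hlip.trans (h5.trans h6))
  have h8 : 1 / (6 * (lam * T)) = 1 / (12 * lam) / T + 1 / (12 * lam) / T := by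
    field_simp
    norm_num
  rw [h8] at hpj0
  linarith

/-- **(H3)** local lower bound -/
theorem H3 {r d g : ℕ → ℝ} {K : ℝ} (hr : HT K r) (hd : HT K d) (hg : HT K g) (hD : DL d)
    (A A2 : ℝ) : ∃ c : ℝ, 0 < c ∧ ∃ e0 : ℕ, ∀ v e : ℕ, e0 ≤ e → (v : ℝ) ≤ A2 * e → ∀ n : ℕ,
      |(n : ℝ) - meanL (SL r d g v e)| ≤ A * (e : ℝ) ^ (2 / 3 : ℝ) →
      c * (e : ℝ) ^ (-(2 / 3) : ℝ) ≤ cvL (SL r d g v e) n := by
  obtain ⟨lam, δ, c1, hlam, hδ, hδ1, hc1, hpeak⟩ := peak hd hD
  have hmd : 0 < mean d := by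
    have h1 : d 1 ≤ mean d := by
      have hs := (TB.of_HT hd).summable_m1
      rw [mean_eq_mn]
      unfold mn
      have := hs.le_tsum 1 fun n _ => mul_nonneg (by positivity) (hd.law.nonneg n)
      simpa using this
    exact (hD.pos 1).trans_le h1
  have hA : 0 ≤ |A| := abs_nonneg A
  have hA2 : 0 ≤ |A2| := abs_nonneg A2
  obtain ⟨c2, hc2, T0, hstar⟩ := star hd hD (A := |A| + lam) (A3 := |A2| + 2) (δ := δ) (a := 1 / 4)
    (by linarith) (by linarith) hδ (by norm_num)
  have hev : ∀ᶠ e : ℕ in atTop, max (max T0 1) ((6 * lam / mean d) ^ 2) ≤ (e : ℝ) ^ (2 / 3 : ℝ) := by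
    have h1 := (tendsto_rpow_atTop (show (0 : ℝ) < 2 / 3 by norm_num)).comp
      tendsto_natCast_atTop_atTop
    exact h1.eventually (eventually_ge_atTop _)
  obtain ⟨e1, he1⟩ := eventually_atTop.1 hev
  refine ⟨c1 * c2, by positivity, max e1 6, fun v e he hv n hn => ?_⟩
  have he6 : 6 ≤ e := le_trans (le_max_right _ _) he
  have hTe := he1 e (le_trans (le_max_left _ _) he)
  set T := (e : ℝ) ^ (2 / 3 : ℝ) with hT
  have hT0 : T0 ≤ T := (le_max_left _ _).trans ((le_max_left _ _).trans hTe)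
  have hT1 : 1 ≤ T := (le_max_right _ _).trans ((le_max_left _ _).trans hTe)
  have hTm : (6 * lam / mean d) ^ 2 ≤ T := (le_max_right _ _).trans hTe
  have hTpos : 0 < T := by linarith
  have hepos : (0 : ℝ) < e := by
    have : 0 < e := by omega
    exact_mod_cast this
  have hTT : T * Real.sqrt T = e := by
    rw [Real.sqrt_eq_rpow]
    nth_rewrite 1 [← Real.rpow_one T]
    rw [← Real.rpow_add hTpos, hT, ← Real.rpow_mul hepos.le]
    norm_num
  have hTinv : (e : ℝ) ^ (-(2 / 3) : ℝ) = 1 / T := by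
    rw [Real.rpow_neg hepos.le, one_div]
  have hsT : 6 * lam / mean d ≤ Real.sqrt T := Real.le_sqrt_of_sq_le hTm
  -- the split
  set h2 := e / 2 with hh2
  set h1 := e - e / 2 - 1 with hh1
  have hsum : h1 + 1 + h2 = e := by omega
  have hv' : (v : ℝ) ≤ |A2| * e := hv.trans (mul_le_mul_of_nonneg_right (le_abs_self _) hepos.le)
  set l1 := List.replicate v r ++ [g] with hl1
  have hl1m : ∀ p ∈ l1, HT K p := by
    intro p hp
    rw [hl1, List.mem_append, List.mem_singleton] at hp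
    rcases hp with h | h
    · rw [List.eq_of_mem_replicate h]; exact hr
    · rw [h]; exact hg
  have hperm : cvL (SL r d g v e) =
      cv (cvL (List.replicate h2 d)) (cvL (List.replicate (h1 + 1) d ++ l1)) := by
    rw [← cvL_append]
    apply cvL_perm
    have e1 : List.replicate e d = List.replicate h2 d ++ List.replicate (h1 + 1) d := by
      rw [← hsum, ← List.replicate_add, Nat.add_comm]
    rw [SL, e1, hl1]
    have e2 : List.replicate v r ++ (List.replicate h2 d ++ List.replicate (h1 + 1) d ++ [g]) =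
        (List.replicate v r ++ (List.replicate h2 d ++ List.replicate (h1 + 1) d)) ++ [g] := by
      simp only [List.append_assoc]
    have e3 : List.replicate h2 d ++ (List.replicate (h1 + 1) d ++ (List.replicate v r ++ [g])) =
        ((List.replicate h2 d ++ List.replicate (h1 + 1) d) ++ List.replicate v r) ++ [g] := by
      simp only [List.append_assoc]
    rw [e2, e3]
    exact (List.perm_append_comm).append_right _
  have hmean : meanL (SL r d g v e) = h2 * mean d + meanL (List.replicate (h1 + 1) d ++ l1) := by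
    rw [meanL_SL, hl1, meanL_append, meanL_append, meanL_replicate, meanL_replicate]
    have : (e : ℝ) = (h1 + 1 : ℕ) + h2 := by rw [← hsum]; push_cast; ring
    rw [this]
    simp
    ring
  have hx1 : T * Real.sqrt T / 3 ≤ h2 := by
    rw [hTT]
    have : e ≤ 3 * h2 := by omega
    have : (e : ℝ) ≤ 3 * h2 := by exact_mod_cast this
    linarith
  have hx2 : (h2 : ℝ) ≤ T * Real.sqrt T / 2 := by
    rw [hTT]
    have : 2 * h2 ≤ e := by omega
    have : 2 * (h2 : ℝ) ≤ e := by exact_mod_cast this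
    linarith
  obtain ⟨j0, hj0, hj⟩ := hpeak T hT1 h2 hx1 hx2
  have hx3 : 1 / 4 * (T * Real.sqrt T) ≤ h1 := by
    rw [hTT]
    have : e ≤ 4 * h1 := by omega
    have : (e : ℝ) ≤ 4 * h1 := by exact_mod_cast this
    linarith
  have hx4 : (h1 : ℝ) + l1.length ≤ (|A2| + 2) * (T * Real.sqrt T) := by
    rw [hTT]
    have e1 : (l1.length : ℝ) = v + 1 := by rw [hl1]; simp
    have e2 : (h1 : ℝ) + 1 ≤ e := by
      have : h1 + 1 ≤ e := by omega
      exact_mod_cast this
    rw [e1]
    have : (|A2| + 2) * (e : ℝ) = |A2| * e + 2 * e := by ring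
    rw [this]
    linarith
  have hn' : |(n : ℝ) - meanL (SL r d g v e)| ≤ |A| * T :=
    hn.trans (mul_le_mul_of_nonneg_right (le_abs_self _) hTpos.le)
  have hz : |((n : ℝ) - j0) - meanL (List.replicate (h1 + 1) d ++ l1)| ≤ (|A| + lam) * T := by
    have e1 : ((n : ℝ) - j0) - meanL (List.replicate (h1 + 1) d ++ l1) =
        ((n : ℝ) - meanL (SL r d g v e)) - ((j0 : ℝ) - h2 * mean d) := by
      rw [hmean]; ring
    rw [e1]
    refine (abs_sub _ _).trans ?_
    have : (|A| + lam) * T = |A| * T + lam * T := by ring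
    rw [this]
    exact add_le_add hn' hj0.le
  have hst := hstar T hT0 h1 l1 hl1m hx3 hx4 ((n : ℝ) - j0) hz
  -- `j0` is large
  have hj0big : δ * T ≤ j0 := by
    have h3 := (abs_lt.1 hj0).1
    have h4 : 2 * lam * T ≤ h2 * mean d := by
      have h5 : 6 * lam ≤ Real.sqrt T * mean d := by
        rwa [div_le_iff₀ hmd] at hsT
      calc 2 * lam * T = (6 * lam) * T / 3 := by ring
        _ ≤ (Real.sqrt T * mean d) * T / 3 := by gcongr
        _ = (T * Real.sqrt T / 3) * mean d := by ring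
        _ ≤ h2 * mean d := by gcongr
    have h6 : δ * T ≤ lam * T := by
      gcongr
      linarith
    have h7 : 2 * lam * T = lam * T + lam * T := by ring
    linarith
  have hlaw1 : IsLaw (cvL (List.replicate (h1 + 1) d ++ l1)) := isLaw_cvL (by
    intro p hp
    rcases List.mem_append.1 hp with h | h
    · rw [List.eq_of_mem_replicate h]; exact hd.law
    · exact (hl1m p h).law)
  have hlaw2 : IsLaw (cvL (List.replicate h2 d)) := isLaw_cvL (by
    intro p hp
    rw [List.eq_of_mem_replicate hp]; exact hd.law)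
  set p1 := cvL (List.replicate (h1 + 1) d ++ l1) with hp1
  set p2 := cvL (List.replicate h2 d) with hp2
  rw [hperm, hTinv, cv_comm, cv_eq_range]
  -- the `Ex` is a finite sum
  have hfin : Ex p1 (fun i => if |(i : ℝ) - ((n : ℝ) - j0)| ≤ δ * T then 1 else 0) =
      ∑ i ∈ range (n + 1), p1 i * (if |(i : ℝ) - ((n : ℝ) - j0)| ≤ δ * T then 1 else 0) := by
    unfold Ex
    refine tsum_eq_sum fun i hi => ?_
    dsimp only
    rw [if_neg, mul_zero]
    intro h3
    have h4 := (abs_le.1 h3).2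
    have h5 : n + 1 ≤ i := by
      have : ¬ i < n + 1 := by simpa using hi
      omega
    have h6 : (n : ℝ) + 1 ≤ i := by exact_mod_cast h5
    linarith
  rw [hfin] at hst
  calc c1 * c2 * (1 / T) = (c1 / T) * c2 := by ring
    _ ≤ (c1 / T) * ∑ i ∈ range (n + 1), p1 i *
        (if |(i : ℝ) - ((n : ℝ) - j0)| ≤ δ * T then 1 else 0) := by gcongr
    _ = ∑ i ∈ range (n + 1), p1 i * ((c1 / T) *
        (if |(i : ℝ) - ((n : ℝ) - j0)| ≤ δ * T then 1 else 0)) := by
          rw [mul_sum]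
          exact sum_congr rfl fun i _ => by ring
    _ ≤ ∑ i ∈ range (n + 1), p1 i * p2 (n - i) := by
          refine sum_le_sum fun i hi => mul_le_mul_of_nonneg_left ?_ (hlaw1.nonneg i)
          split_ifs with h3
          · rw [mul_one]
            apply hj
            have hin : i ≤ n := by have := mem_range.1 hi; omega
            rw [Nat.cast_sub hin]
            have : (n : ℝ) - i - j0 = -((i : ℝ) - (n - j0)) := by ring
            rw [this, abs_neg]
            exact h3
          · rw [mul_zero]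
            exact hlaw2.nonneg _

end Pool.Agent.DiamP.Hv
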