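import Pool.Agent.DiamP.Conv

/-!
# Heavy sums, part 1: algebra of `cv`, the functional `Ex`, truncation, Chebyshev (MP_d7a93a_pr, (6.7))
-/

set_option autoImplicit false

open Finset Filter Topology

namespace Pool.Agent.DiamP.Hv

/-! ## algebra -/

theorem mk_cvL (l : List (ℕ → ℝ)) : PowerSeries.mk (cvL l) = (l.map PowerSeries.mk).prod := by
  induction l with
  | nil => simp [mk_one0]
  | cons p l ih => rw [cvL_cons, mk_cv, ih]; simp

/-! ## the functional `Ex` -/

/-- the integral of `f` -/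
noncomputable def Ex (p : ℕ → ℝ) (f : ℕ → ℝ) : ℝ := ∑' n, p n * f n

theorem Ex_cv {p q : ℕ → ℝ} (hp : IsLaw p) (hq : IsLaw q) {f : ℕ → ℝ} {C : ℝ}
    (hf : ∀ n, |f n| ≤ C) : Ex (cv p q) f = Ex p fun a => Ex q fun b => f (a + b) := by
  have hp' : Summable fun n => ‖p n‖ := by
    simpa [Real.norm_of_nonneg (hp.nonneg _)] using hp.summable
  have hq' : Summable fun n => ‖q n‖ := by
    simpa [Real.norm_of_nonneg (hq.nonneg _)] using hq.summable
  exact hasSum_cv hp' hq' hf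

theorem Ex_nonneg {p : ℕ → ℝ} (hp : IsLaw p) {f : ℕ → ℝ} (hf : ∀ n, 0 ≤ f n) : 0 ≤ Ex p f :=
  tsum_nonneg fun n => mul_nonneg (hp.nonneg n) (hf n)

theorem Ex_one {p : ℕ → ℝ} (hp : IsLaw p) : Ex p (fun _ => 1) = 1 := by
  unfold Ex
  simp only [mul_one]
  exact hp.tsum

theorem Ex_mono {p : ℕ → ℝ} (hp : IsLaw p) {f g : ℕ → ℝ} {C : ℝ} (hf : ∀ n, |f n| ≤ C)
    (hg : ∀ n, |g n| ≤ C) (hfg : ∀ n, f n ≤ g n) : Ex p f ≤ Ex p g :=
  Summable.tsum_le_tsum (fun n => mul_le_mul_of_nonneg_left (hfg n) (hp.nonneg n))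
    (hp.summable_mul hf) (hp.summable_mul hg)

theorem Ex_le_one {p : ℕ → ℝ} (hp : IsLaw p) {f : ℕ → ℝ} (h0 : ∀ n, 0 ≤ f n) (h1 : ∀ n, f n ≤ 1) :
    Ex p f ≤ 1 := by
  have := Ex_mono hp (C := 1) (f := f) (g := fun _ => 1)
    (fun n => by rw [abs_of_nonneg (h0 n)]; exact h1 n) (fun n => by simp) h1
  rwa [Ex_one hp] at this

/-- a finite sum is a value of `Ex` -/
theorem sum_eq_Ex (p : ℕ → ℝ) (s : Finset ℕ) :
    ∑ n ∈ s, p n = Ex p (fun n => if n ∈ s then 1 else 0) := by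
  unfold Ex
  rw [tsum_eq_sum (s := s)]
  · refine sum_congr rfl fun n hn => ?_
    simp only [hn, if_true, mul_one]
  · intro n hn
    simp only [hn, if_false, mul_zero]

/-! ## truncation -/

/-- the law of `X · 1[X ≤ B]` -/
noncomputable def trc (p : ℕ → ℝ) (B : ℕ) (n : ℕ) : ℝ :=
  if n = 0 then p 0 + (1 - ∑ j ∈ range (B + 1), p j) else if n ≤ B then p n else 0

/-- the mass above `B` -/
noncomputable def tauB (p : ℕ → ℝ) (B : ℕ) : ℝ := 1 - ∑ j ∈ range (B + 1), p j

theorem tauB_nonneg {p : ℕ → ℝ} (hp : IsLaw p) (B : ℕ) : 0 ≤ tauB p B := by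
  have := hp.sum_le_one (range (B + 1))
  unfold tauB; linarith

theorem trc_ge {p : ℕ → ℝ} (hp : IsLaw p) (B : ℕ) {n : ℕ} (hn : n ≤ B) : p n ≤ trc p B n := by
  have := tauB_nonneg hp B
  unfold tauB at this
  unfold trc
  split_ifs with h
  · subst h; linarith
  · exact le_rfl

theorem trc_zero_of (p : ℕ → ℝ) (B : ℕ) {n : ℕ} (hn : B < n) : trc p B n = 0 := by
  unfold trc
  rw [if_neg (by omega), if_neg (by omega)]

theorem trc_nonneg {p : ℕ → ℝ} (hp : IsLaw p) (B n : ℕ) : 0 ≤ trc p B n := by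
  rcases Nat.lt_or_ge B n with h | h
  · rw [trc_zero_of p B h]
  · exact (hp.nonneg n).trans (trc_ge hp B h)

theorem isLaw_trc {p : ℕ → ℝ} (hp : IsLaw p) (B : ℕ) : IsLaw (trc p B) := by
  refine ⟨trc_nonneg hp B, ?_⟩
  have h : HasSum (trc p B) (∑ n ∈ range (B + 1), trc p B n) := hasSum_sum_of_ne_finset_zero
    (fun n hn => trc_zero_of p B (by simpa using hn))
  have e : ∑ n ∈ range (B + 1), trc p B n = 1 := by
    rw [sum_range_succ']
    have e1 : ∑ k ∈ range B, trc p B (k + 1) = ∑ k ∈ range B, p (k + 1) := by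
      refine sum_congr rfl fun k hk => ?_
      have := mem_range.1 hk
      unfold trc
      rw [if_neg (by omega), if_pos (by omega)]
    have e2 : trc p B 0 = p 0 + (1 - ∑ j ∈ range (B + 1), p j) := by simp [trc]
    rw [e1, e2, sum_range_succ' p B]
    ring
  rwa [e] at h

/-- replacing one law by its truncation costs at most the mass above `B` -/
theorem Ex_trc {p : ℕ → ℝ} (hp : IsLaw p) (B : ℕ) {f : ℕ → ℝ} (h0 : ∀ n, 0 ≤ f n)
    (h1 : ∀ n, f n ≤ 1) : Ex p f ≤ Ex (trc p B) f + tauB p B := by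
  have hab : ∀ n, |f n| ≤ 1 := fun n => by rw [abs_of_nonneg (h0 n)]; exact h1 n
  have hs := hp.summable_mul hab
  have hs' := (isLaw_trc hp B).summable_mul hab
  have key : ∀ n, p n * f n ≤ trc p B n * f n + (if n ≤ B then 0 else p n) := by
    intro n
    split_ifs with h
    · rw [add_zero]
      exact mul_le_mul_of_nonneg_right (trc_ge hp B h) (h0 n)
    · rw [trc_zero_of p B (by omega), zero_mul, zero_add]
      calc p n * f n ≤ p n * 1 := mul_le_mul_of_nonneg_left (h1 n) (hp.nonneg n)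
        _ = p n := mul_one _
  have ht : HasSum (fun n => if n ≤ B then 0 else p n) (tauB p B) := by
    have h3 : HasSum (fun n => if n ≤ B then p n else 0)
        (∑ n ∈ range (B + 1), if n ≤ B then p n else 0) := hasSum_sum_of_ne_finset_zero
      (fun n hn => by
        have : ¬ n ≤ B := by simpa [Nat.lt_succ_iff] using hn
        simp [this])
    have h4 := hp.sum.sub h3
    have e1 : (fun n => p n - (if n ≤ B then p n else 0)) = fun n => if n ≤ B then 0 else p n := by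
      funext n
      split_ifs <;> ring
    have e2 : ∑ n ∈ range (B + 1), (if n ≤ B then p n else 0) = ∑ n ∈ range (B + 1), p n := by
      refine sum_congr rfl fun n hn => ?_
      have := mem_range.1 hn
      rw [if_pos (by omega)]
    rw [e1, e2] at h4
    exact h4
  unfold Ex
  rw [← ht.tsum_eq, ← hs'.tsum_add ht.summable]
  exact hs.tsum_le_tsum key (hs'.add ht.summable)

/-- truncation of a whole list -/
theorem Ex_cvL_trc (B : ℕ) (l : List (ℕ → ℝ)) (hl : ∀ p ∈ l, IsLaw p) (f : ℕ → ℝ)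
    (h0 : ∀ n, 0 ≤ f n) (h1 : ∀ n, f n ≤ 1) :
    Ex (cvL l) f ≤ Ex (cvL (l.map fun p => trc p B)) f + (l.map fun p => tauB p B).sum := by
  induction l generalizing f with
  | nil => simp
  | cons p l ih =>
    have hp := hl p (by simp)
    have hl' : ∀ q ∈ l, IsLaw q := fun q hq => hl q (by simp [hq])
    have hab : ∀ n, |f n| ≤ 1 := fun n => by rw [abs_of_nonneg (h0 n)]; exact h1 n
    have hlt : ∀ q ∈ l.map (fun p => trc p B), IsLaw q := by
      intro q hq
      obtain ⟨r, hr, rfl⟩ := List.mem_map.1 hq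
      exact isLaw_trc (hl' r hr) B
    rw [cvL_cons, Ex_cv hp (isLaw_cvL hl') hab, List.map_cons, cvL_cons,
      Ex_cv (isLaw_trc hp B) (isLaw_cvL hlt) hab, List.map_cons, List.sum_cons]
    set T := (l.map fun p => tauB p B).sum with hT
    have hT0 : 0 ≤ T := by
      apply List.sum_nonneg
      intro x hx
      obtain ⟨r, hr, rfl⟩ := List.mem_map.1 hx
      exact tauB_nonneg (hl' r hr) B
    have g0 : ∀ a, 0 ≤ Ex (cvL (l.map fun p => trc p B)) (fun b => f (a + b)) :=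
      fun a => Ex_nonneg (isLaw_cvL hlt) fun b => h0 _
    have g1 : ∀ a, Ex (cvL (l.map fun p => trc p B)) (fun b => f (a + b)) ≤ 1 :=
      fun a => Ex_le_one (isLaw_cvL hlt) (fun b => h0 _) (fun b => h1 _)
    have i0 : ∀ a, 0 ≤ Ex (cvL l) (fun b => f (a + b)) :=
      fun a => Ex_nonneg (isLaw_cvL hl') fun b => h0 _
    have i1 : ∀ a, Ex (cvL l) (fun b => f (a + b)) ≤ 1 :=
      fun a => Ex_le_one (isLaw_cvL hl') (fun b => h0 _) (fun b => h1 _)
    have s1 : Ex p (fun a => Ex (cvL l) fun b => f (a + b)) ≤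
        Ex p (fun a => Ex (cvL (l.map fun p => trc p B)) (fun b => f (a + b)) + T) := by
      refine Ex_mono hp (C := 1 + T) (fun a => ?_) (fun a => ?_) fun a => ?_
      · rw [abs_of_nonneg (i0 a)]; linarith [i1 a]
      · rw [abs_of_nonneg (by linarith [g0 a])]; linarith [g1 a]
      · exact ih hl' _ (fun b => h0 _) (fun b => h1 _)
    have s2 : Ex p (fun a => Ex (cvL (l.map fun p => trc p B)) (fun b => f (a + b)) + T) =
        Ex p (fun a => Ex (cvL (l.map fun p => trc p B)) (fun b => f (a + b))) + T := by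
      unfold Ex
      have hsA : Summable fun n => p n * Ex (cvL (l.map fun p => trc p B)) (fun b => f (n + b)) :=
        hp.summable_mul (C := 1) fun a => by rw [abs_of_nonneg (g0 a)]; exact g1 a
      have hsB : Summable fun n => p n * T := hp.summable.mul_right T
      have : ∀ n, p n * (∑' (b : ℕ), cvL (List.map (fun p => trc p B) l) b * f (n + b) + T) =
          p n * Ex (cvL (l.map fun p => trc p B)) (fun b => f (n + b)) + p n * T := by
        intro n; unfold Ex; ring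
      rw [tsum_congr this, hsA.tsum_add hsB, tsum_mul_right, hp.tsum, one_mul]
      rfl
    have s3 := Ex_trc hp B (f := fun a => Ex (cvL (l.map fun p => trc p B)) (fun b => f (a + b))) g0 g1
    linarith

/-! ## mean and variance for laws with finite support -/

/-- mean -/
noncomputable def mn (p : ℕ → ℝ) : ℝ := ∑' n : ℕ, (n : ℝ) * p n

/-- second moment about `c` -/
noncomputable def vr (p : ℕ → ℝ) (c : ℝ) : ℝ := ∑' n : ℕ, p n * ((n : ℝ) - c) ^ 2

/-- support in `[0, B]` -/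
def Spt (p : ℕ → ℝ) (B : ℕ) : Prop := ∀ n, B < n → p n = 0

theorem Spt.summable {p : ℕ → ℝ} {B : ℕ} (h : Spt p B) (f : ℕ → ℝ) :
    Summable fun n => p n * f n :=
  summable_of_ne_finset_zero (s := range (B + 1)) fun n hn => by
    rw [h n (by simpa using hn), zero_mul]

theorem Spt.conv {p q : ℕ → ℝ} {B B' : ℕ} (h : Spt p B) (h' : Spt q B') : Spt (cv p q) (B + B') := by
  intro n hn
  unfold cv
  apply sum_eq_zero
  intro ij hij
  have := mem_antidiagonal.1 hij
  rcases Nat.lt_or_ge B ij.1 with h1 | h1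
  · rw [h _ h1, zero_mul]
  · rw [h' _ (by omega), mul_zero]

theorem sup_one0 : Spt one0 0 := by
  intro n hn
  unfold one0
  rw [if_neg (by omega)]

/-- the product formula for finite supports and arbitrary `f` -/
theorem Spt.Ex_conv {p q : ℕ → ℝ} (hp : IsLaw p) (hq : IsLaw q) {B B' : ℕ} (h : Spt p B)
    (h' : Spt q B') (f : ℕ → ℝ) : Ex (cv p q) f = Ex p fun a => Ex q fun b => f (a + b) := by
  set g : ℕ → ℝ := fun n => if n ≤ B + B' then f n else 0 with hg
  have hgb : ∀ n, |g n| ≤ ∑ j ∈ range (B + B' + 1), |f j| := by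
    intro n
    simp only [hg]
    split_ifs with hn
    · exact single_le_sum (f := fun j => |f j|) (fun j _ => abs_nonneg _)
        (mem_range.2 (by omega))
    · rw [abs_zero]
      exact sum_nonneg fun j _ => abs_nonneg _
  have h1 : Ex (cv p q) f = Ex (cv p q) g := by
    unfold Ex
    refine tsum_congr fun n => ?_
    simp only [hg]
    split_ifs with hn
    · rfl
    · rw [h.conv h' n (by omega), zero_mul, zero_mul]
  rw [h1, Ex_cv hp hq hgb]
  unfold Ex
  refine tsum_congr fun a => ?_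
  rcases Nat.lt_or_ge B a with ha | ha
  · rw [h a ha, zero_mul, zero_mul]
  · congr 1
    refine tsum_congr fun b => ?_
    rcases Nat.lt_or_ge B' b with hb | hb
    · rw [h' b hb, zero_mul, zero_mul]
    · simp only [hg]
      rw [if_pos (by omega)]

theorem Ex_const {p : ℕ → ℝ} (hp : IsLaw p) (c : ℝ) : Ex p (fun _ => c) = c := by
  unfold Ex
  rw [tsum_mul_right, hp.tsum, one_mul]

theorem Spt.Ex_add {p : ℕ → ℝ} {B : ℕ} (h : Spt p B) (f g : ℕ → ℝ) :
    Ex p (fun n => f n + g n) = Ex p f + Ex p g := by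
  unfold Ex
  rw [← (h.summable f).tsum_add (h.summable g)]
  refine tsum_congr fun n => ?_
  ring

theorem Ex_smul {p : ℕ → ℝ} (c : ℝ) (f : ℕ → ℝ) :
    Ex p (fun n => c * f n) = c * Ex p f := by
  unfold Ex
  rw [← tsum_mul_left]
  refine tsum_congr fun n => ?_
  ring

theorem mn_eq_Ex (p : ℕ → ℝ) : mn p = Ex p fun n => (n : ℝ) := by
  unfold mn Ex
  refine tsum_congr fun n => ?_
  ring

theorem Spt.mn_conv {p q : ℕ → ℝ} (hp : IsLaw p) (hq : IsLaw q) {B B' : ℕ} (h : Spt p B)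
    (h' : Spt q B') : mn (cv p q) = mn p + mn q := by
  rw [mn_eq_Ex, h.Ex_conv hp hq h']
  have e : (fun a : ℕ => Ex q fun b => ((a + b : ℕ) : ℝ)) = fun a : ℕ => (a : ℝ) + mn q := by
    funext a
    have : (fun b : ℕ => ((a + b : ℕ) : ℝ)) = fun b : ℕ => (a : ℝ) + (b : ℝ) := by
      funext b; push_cast; rfl
    rw [this, h'.Ex_add, Ex_const hq, mn_eq_Ex]
  rw [e, h.Ex_add, Ex_const hp, ← mn_eq_Ex]

theorem Spt.Ex_centred {p : ℕ → ℝ} (hp : IsLaw p) {B : ℕ} (h : Spt p B) :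
    Ex p (fun n => (n : ℝ) - mn p) = 0 := by
  have : (fun n : ℕ => (n : ℝ) - mn p) = fun n : ℕ => (n : ℝ) + -mn p := by
    funext n; ring
  rw [this, h.Ex_add, Ex_const hp, ← mn_eq_Ex]
  ring

theorem Spt.vr_conv {p q : ℕ → ℝ} (hp : IsLaw p) (hq : IsLaw q) {B B' : ℕ} (h : Spt p B)
    (h' : Spt q B') :
    vr (cv p q) (mn p + mn q) = vr p (mn p) + vr q (mn q) := by
  change Ex (cv p q) (fun n => ((n : ℝ) - (mn p + mn q)) ^ 2) =
    Ex p (fun n => ((n : ℝ) - mn p) ^ 2) + Ex q (fun n => ((n : ℝ) - mn q) ^ 2)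
  rw [h.Ex_conv hp hq h']
  have e : (fun a : ℕ => Ex q fun b => (((a + b : ℕ) : ℝ) - (mn p + mn q)) ^ 2) =
      fun a : ℕ => ((a : ℝ) - mn p) ^ 2 + Ex q (fun n => ((n : ℝ) - mn q) ^ 2) := by
    funext a
    have e1 : (fun b : ℕ => (((a + b : ℕ) : ℝ) - (mn p + mn q)) ^ 2) = fun b : ℕ =>
        (((a : ℝ) - mn p) ^ 2 + (2 * ((a : ℝ) - mn p)) * ((b : ℝ) - mn q)) + ((b : ℝ) - mn q) ^ 2 := by
      funext b; push_cast; ring
    rw [e1, h'.Ex_add, h'.Ex_add, Ex_const hq, Ex_smul, h'.Ex_centred hq]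
    ring
  rw [e, h.Ex_add, Ex_const hp]

theorem Spt.inL {l : List (ℕ → ℝ)} {B : ℕ} (h : ∀ p ∈ l, Spt p B) :
    Spt (cvL l) (l.length * B) := by
  induction l with
  | nil => simpa using sup_one0
  | cons p l ih =>
    rw [cvL_cons, List.length_cons]
    have := (h p (by simp)).conv (ih fun q hq => h q (by simp [hq]))
    intro n hn
    exact this n (by rw [Nat.succ_mul] at hn; omega)

theorem mn_one0 : mn one0 = 0 := by
  unfold mn one0
  rw [tsum_eq_single 0]
  · simp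
  · intro n hn; simp [hn]

theorem vr_one0 : vr one0 0 = 0 := by
  unfold vr one0
  rw [tsum_eq_single 0]
  · simp
  · intro n hn; simp [hn]

theorem mn_cvL {l : List (ℕ → ℝ)} {B : ℕ} (hl : ∀ p ∈ l, IsLaw p) (h : ∀ p ∈ l, Spt p B) :
    mn (cvL l) = (l.map mn).sum := by
  induction l with
  | nil => simp [mn_one0]
  | cons p l ih =>
    have hl' : ∀ q ∈ l, IsLaw q := fun q hq => hl q (by simp [hq])
    have h' : ∀ q ∈ l, Spt q B := fun q hq => h q (by simp [hq])
    rw [cvL_cons, (h p (by simp)).mn_conv (hl p (by simp)) (isLaw_cvL hl') (Spt.inL h'), ih hl' h']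
    simp

theorem vr_cvL {l : List (ℕ → ℝ)} {B : ℕ} (hl : ∀ p ∈ l, IsLaw p) (h : ∀ p ∈ l, Spt p B) :
    vr (cvL l) (mn (cvL l)) = (l.map fun p => vr p (mn p)).sum := by
  induction l with
  | nil => simp [mn_one0, vr_one0]
  | cons p l ih =>
    have hl' : ∀ q ∈ l, IsLaw q := fun q hq => hl q (by simp [hq])
    have h' : ∀ q ∈ l, Spt q B := fun q hq => h q (by simp [hq])
    rw [cvL_cons, (h p (by simp)).mn_conv (hl p (by simp)) (isLaw_cvL hl') (Spt.inL h'),
      (h p (by simp)).vr_conv (hl p (by simp)) (isLaw_cvL hl') (Spt.inL h'), ih hl' h']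
    simp

theorem vr_le {p : ℕ → ℝ} (hp : IsLaw p) {B : ℕ} (h : Spt p B) :
    vr p (mn p) ≤ ∑' n : ℕ, p n * (n : ℝ) ^ 2 := by
  change Ex p (fun n => ((n : ℝ) - mn p) ^ 2) ≤ Ex p (fun n => (n : ℝ) ^ 2)
  have e : (fun n : ℕ => ((n : ℝ) - mn p) ^ 2) =
      fun n : ℕ => ((n : ℝ) ^ 2 + (-2 * mn p) * (n : ℝ)) + mn p ^ 2 := by
    funext n; ring
  rw [e, h.Ex_add, h.Ex_add, Ex_const hp, Ex_smul, ← mn_eq_Ex]
  nlinarith [sq_nonneg (mn p)]

/-- Chebyshev -/
theorem cheb {p : ℕ → ℝ} (hp : IsLaw p) {B : ℕ} (h : Spt p B) (c : ℝ) {y : ℝ} (hy : 0 < y) :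
    Ex p (fun n => if y ≤ |(n : ℝ) - c| then 1 else 0) ≤ vr p c / y ^ 2 := by
  rw [le_div_iff₀ (by positivity)]
  unfold Ex vr
  rw [← tsum_mul_right]
  refine Summable.tsum_le_tsum (fun n => ?_) ?_ (h.summable _)
  · dsimp only
    split_ifs with hn
    · rw [mul_one]
      apply mul_le_mul_of_nonneg_left _ (hp.nonneg n)
      rw [← sq_abs ((n : ℝ) - c)]
      exact pow_le_pow_left₀ hy.le hn 2
    · rw [mul_zero, zero_mul]
      exact mul_nonneg (hp.nonneg n) (sq_nonneg _)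
  · exact (h.summable _).mul_right _

end Pool.Agent.DiamP.Hv
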