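import Pool.Agent.DiamP.Fourier
import Pool.Agent.DiamP.HvBase

/-!
# Heavy sums, part 3: Fourier bounds from window masses (MP_d7a93a_pr, (6.7))

`WL c m0 p`: a law with `p m0, p (m0+1) ≥ c` and mass `≥ c k ^ (-3/2)` in every window `[k, 2k]`.
-/

set_option autoImplicit false

open Finset Filter Topology Complex MeasureTheory
open scoped Real

namespace Pool.Agent.DiamP.Hv

/-- law with two consecutive atoms and window masses bounded below -/
structure WL (c : ℝ) (m0 : ℕ) (p : ℕ → ℝ) : Prop where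
  law : IsLaw p
  a0 : c ≤ p m0
  a1 : c ≤ p (m0 + 1)
  win : ∀ k : ℕ, 1 ≤ k → c / (k * Real.sqrt k) ≤ ∑ n ∈ Icc k (2 * k), p n

/-- the nonnegative weights behind `1 - ‖phi‖` -/
theorem _root_.Pool.Agent.DiamP.IsLaw.phi_weights {p : ℕ → ℝ} (hp : IsLaw p) (θ : ℝ) : ∃ d : ℕ → ℝ, (∀ n, 0 ≤ d n) ∧
    HasSum (fun n => p n * d n) (1 - ‖phi p θ‖) ∧
    ∀ m k : ℕ, 1 - Real.cos (m * θ) ≤ 2 * (d (m + k) + d k) := by
  obtain ⟨u, hu1, hu2⟩ : ∃ u : ℂ, ‖u‖ = 1 ∧ u * phi p θ = (‖phi p θ‖ : ℂ) := by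
    rcases eq_or_ne (phi p θ) 0 with h0 | h0
    · exact ⟨1, by simp, by simp [h0]⟩
    · refine ⟨(starRingEnd ℂ) (phi p θ) / ‖phi p θ‖, ?_, ?_⟩
      · have : ‖phi p θ‖ ≠ 0 := norm_ne_zero_iff.2 h0
        rw [norm_div, RCLike.norm_conj, Complex.norm_real, norm_norm, div_self this]
      · have : (‖phi p θ‖ : ℂ) ≠ 0 := by
          rw [Ne, Complex.ofReal_eq_zero]; exact norm_ne_zero_iff.2 h0
        rw [div_mul_eq_mul_div, mul_comm, Complex.mul_conj, Complex.normSq_eq_norm_sq]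
        push_cast
        rw [sq, mul_div_assoc, div_self this, mul_one]
  set d : ℕ → ℝ := fun n => 1 - (u * cexp (I * (n : ℂ) * (θ : ℂ))).re with hd
  have hdsq : ∀ n : ℕ, ‖u * cexp (I * (n : ℂ) * (θ : ℂ)) - 1‖ ^ 2 = 2 * d n := by
    intro n
    have h1 : ‖u * cexp (I * (n : ℂ) * (θ : ℂ))‖ = 1 := by rw [norm_mul, hu1, norm_ex, one_mul]
    set w := u * cexp (I * (n : ℂ) * (θ : ℂ)) with hw
    have h2 : ‖w‖ ^ 2 = w.re ^ 2 + w.im ^ 2 := by
      rw [← Complex.normSq_eq_norm_sq, Complex.normSq_apply]; ring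
    have h3 : ‖w - 1‖ ^ 2 = (w.re - 1) ^ 2 + w.im ^ 2 := by
      rw [← Complex.normSq_eq_norm_sq, Complex.normSq_apply]
      simp only [Complex.sub_re, Complex.one_re, Complex.sub_im, Complex.one_im, sub_zero]
      ring
    rw [h1] at h2
    simp only [hd]
    rw [h3]
    linear_combination -h2
  refine ⟨d, ?_, ?_, ?_⟩
  · intro n
    have := hdsq n
    have h2 : 0 ≤ ‖u * cexp (I * (n : ℂ) * (θ : ℂ)) - 1‖ ^ 2 := sq_nonneg _
    linarith
  · have h1 : HasSum (fun n : ℕ => (p n : ℂ) * cexp (I * (n : ℂ) * (θ : ℂ))) (phi p θ) :=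
      (hp.summable_norm_phi θ).of_norm.hasSum
    have h2 := (h1.mul_left u)
    rw [hu2] at h2
    have h3 := Complex.hasSum_re h2
    have h4 : HasSum (fun n : ℕ => p n * (u * cexp (I * (n : ℂ) * (θ : ℂ))).re) ‖phi p θ‖ := by
      have e : (fun n : ℕ => p n * (u * cexp (I * (n : ℂ) * (θ : ℂ))).re) =
          fun n : ℕ => (u * ((p n : ℂ) * cexp (I * (n : ℂ) * (θ : ℂ)))).re := by
        funext n
        have : u * ((p n : ℂ) * cexp (I * (n : ℂ) * (θ : ℂ))) =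
            (p n : ℂ) * (u * cexp (I * (n : ℂ) * (θ : ℂ))) := by ring
        rw [this, Complex.re_ofReal_mul]
      rw [e]
      simpa using h3
    have h5 := hp.sum.sub h4
    have e : (fun n => p n * d n) =
        fun n => p n - p n * (u * cexp (I * (n : ℂ) * (θ : ℂ))).re := by
      funext n
      simp only [hd]
      ring
    rw [e]
    exact h5
  · intro m k
    have h1 : ‖cexp (I * (m : ℂ) * (θ : ℂ)) - 1‖ ≤
        ‖u * cexp (I * ((m + k : ℕ) : ℂ) * (θ : ℂ)) - 1‖ +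
          ‖u * cexp (I * (k : ℂ) * (θ : ℂ)) - 1‖ := by
      have e1 : ‖cexp (I * (m : ℂ) * (θ : ℂ)) - 1‖ =
          ‖u * cexp (I * (k : ℂ) * (θ : ℂ)) * (cexp (I * (m : ℂ) * (θ : ℂ)) - 1)‖ := by
        rw [norm_mul, norm_mul, hu1, norm_ex, one_mul, one_mul]
      have e2 : u * cexp (I * (k : ℂ) * (θ : ℂ)) * (cexp (I * (m : ℂ) * (θ : ℂ)) - 1) =
          (u * cexp (I * ((m + k : ℕ) : ℂ) * (θ : ℂ)) - 1) -
            (u * cexp (I * (k : ℂ) * (θ : ℂ)) - 1) := by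
        have : I * ((m + k : ℕ) : ℂ) * (θ : ℂ) =
            I * (k : ℂ) * (θ : ℂ) + I * (m : ℂ) * (θ : ℂ) := by push_cast; ring
        rw [this, Complex.exp_add]
        ring
      rw [e1, e2]
      exact norm_sub_le _ _
    have h2 : ‖cexp (I * (m : ℂ) * (θ : ℂ)) - 1‖ ^ 2 = 2 * (1 - Real.cos (m * θ)) := by
      have e1 : I * (m : ℂ) * (θ : ℂ) = ((m * θ : ℝ) : ℂ) * I := by push_cast; ring
      rw [e1, ← Complex.normSq_eq_norm_sq, Complex.normSq_apply]
      have hre : (cexp (((m * θ : ℝ) : ℂ) * I) - 1).re = Real.cos (m * θ) - 1 := by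
        rw [Complex.sub_re, Complex.exp_ofReal_mul_I_re, Complex.one_re]
      have him : (cexp (((m * θ : ℝ) : ℂ) * I) - 1).im = Real.sin (m * θ) := by
        rw [Complex.sub_im, Complex.exp_ofReal_mul_I_im, Complex.one_im, sub_zero]
      rw [hre, him]
      have := Real.sin_sq_add_cos_sq (m * θ)
      linear_combination this
    have h3 := hdsq (m + k)
    have h4 := hdsq k
    set x := ‖u * cexp (I * ((m + k : ℕ) : ℂ) * (θ : ℂ)) - 1‖ with hx
    set y := ‖u * cexp (I * (k : ℂ) * (θ : ℂ)) - 1‖ with hy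
    have h5 : ‖cexp (I * (m : ℂ) * (θ : ℂ)) - 1‖ ^ 2 ≤ (x + y) ^ 2 :=
      pow_le_pow_left₀ (norm_nonneg _) h1 2
    have h6 : (x + y) ^ 2 ≤ 2 * (x ^ 2 + y ^ 2) := by nlinarith [sq_nonneg (x - y)]
    rw [h2] at h5
    linarith

theorem phi_win {c : ℝ} (hc : 0 < c) (m0 : ℕ) : ∃ κ : ℝ, 0 < κ ∧ ∀ p : ℕ → ℝ, WL c m0 p →
    ∀ θ : ℝ, |θ| ≤ π → κ * |θ| ^ (3 / 2 : ℝ) ≤ 1 - ‖phi p θ‖ := by
  have hπ := Real.pi_pos
  set θ0 : ℝ := π / (2 * (2 + m0)) with hθ0
  have hθ0p : 0 < θ0 := by positivity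
  set κ1 : ℝ := c / (2 + 2 / c) / (π ^ (3 / 2 : ℝ)) with hκ1
  set κ2 : ℝ := c * θ0 ^ 2 / (2 * π ^ 2) / (π ^ (3 / 2 : ℝ)) with hκ2
  have h1p : 0 < κ1 := by positivity
  have h2p : 0 < κ2 := by positivity
  refine ⟨min κ1 κ2, lt_min h1p h2p, fun p hp θ hθ => ?_⟩
  obtain ⟨d, hd0, hsum, hcos⟩ := hp.law.phi_weights θ
  set δ := 1 - ‖phi p θ‖ with hδ
  have hterm : ∀ n, p n * d n ≤ δ := fun n =>
    le_hasSum hsum n fun m _ => mul_nonneg (hp.law.nonneg m) (hd0 m)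
  have hδ0 : 0 ≤ δ := (mul_nonneg (hp.law.nonneg 0) (hd0 0)).trans (hterm 0)
  have hdm : d m0 ≤ δ / c := by
    rw [le_div_iff₀ hc]
    calc d m0 * c ≤ d m0 * p m0 := mul_le_mul_of_nonneg_left hp.a0 (hd0 _)
      _ = p m0 * d m0 := mul_comm _ _
      _ ≤ δ := hterm m0
  rcases eq_or_ne θ 0 with rfl | hθne
  · rw [abs_zero, Real.zero_rpow (by norm_num), mul_zero]; exact hδ0
  have hab : 0 < |θ| := abs_pos.2 hθne
  rcases le_or_gt |θ| θ0 with hsm | hlg
  · -- small angle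
    set q : ℕ := ⌈π / (2 * |θ|)⌉₊ with hq
    have hq1 : π / (2 * |θ|) ≤ q := Nat.le_ceil _
    have hq2 : (q : ℝ) < π / (2 * |θ|) + 1 := Nat.ceil_lt_add_one (by positivity)
    have hq1' : π / 2 ≤ q * |θ| := by
      have : π / (2 * |θ|) * |θ| = π / 2 := by field_simp
      rw [← this]; exact mul_le_mul_of_nonneg_right hq1 hab.le
    have hq2' : q * |θ| ≤ π / 2 + |θ| := by
      have : (π / (2 * |θ|) + 1) * |θ| = π / 2 + |θ| := by field_simp
      rw [← this]; exact mul_le_mul_of_nonneg_right hq2.le hab.le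
    have hqpos : 1 ≤ q := by
      by_contra hcon
      have : q = 0 := by omega
      rw [this] at hq1'
      simp at hq1'
      linarith
    set k := q + m0 with hk
    have hm0θ : (2 + m0) * |θ| ≤ π / 2 := by
      have : (2 + m0) * θ0 = π / 2 := by rw [hθ0]; field_simp
      rw [← this]
      exact mul_le_mul_of_nonneg_left hsm (by positivity)
    have hwin := hp.win k (by omega)
    have hone : ∀ n ∈ Icc k (2 * k), 1 ≤ 2 * (d n + d m0) := by
      intro n hn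
      obtain ⟨hn1, hn2⟩ := mem_Icc.1 hn
      obtain ⟨m, rfl⟩ : ∃ m, n = m + m0 := ⟨n - m0, by omega⟩
      have i1 : (q : ℝ) ≤ m := by
        have : q ≤ m := by omega
        exact_mod_cast this
      have i2 : (m : ℝ) ≤ 2 * q + m0 := by
        have : m ≤ 2 * q + m0 := by omega
        exact_mod_cast this
      have j1 : π / 2 ≤ m * |θ| := hq1'.trans (mul_le_mul_of_nonneg_right i1 hab.le)
      have j2 : m * |θ| ≤ π + π / 2 := by
        calc m * |θ| ≤ (2 * q + m0) * |θ| := mul_le_mul_of_nonneg_right i2 hab.le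
          _ = 2 * (q * |θ|) + m0 * |θ| := by ring
          _ ≤ 2 * (π / 2 + |θ|) + m0 * |θ| := by linarith
          _ = π + (2 + m0) * |θ| := by ring
          _ ≤ _ := by linarith
      have j3 : Real.cos (m * θ) ≤ 0 := by
        have e : Real.cos (m * θ) = Real.cos (m * |θ|) := by
          rcases abs_choice θ with h | h
          · rw [h]
          · rw [h, mul_neg, Real.cos_neg]
        rw [e]
        exact Real.cos_nonpos_of_pi_div_two_le_of_le j1 j2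
      have := hcos m m0
      linarith
    have hW : ∑ n ∈ Icc k (2 * k), p n ≤ 2 * δ + 2 * (δ / c) := by
      calc ∑ n ∈ Icc k (2 * k), p n ≤ ∑ n ∈ Icc k (2 * k), p n * (2 * (d n + d m0)) := by
            refine sum_le_sum fun n hn => ?_
            have := mul_le_mul_of_nonneg_left (hone n hn) (hp.law.nonneg n)
            linarith
        _ = 2 * (∑ n ∈ Icc k (2 * k), p n * d n) + 2 * d m0 * ∑ n ∈ Icc k (2 * k), p n := by
            rw [mul_sum, mul_sum, ← sum_add_distrib]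
            refine sum_congr rfl fun n _ => ?_
            ring
        _ ≤ 2 * δ + 2 * (δ / c) := by
            have s1 : ∑ n ∈ Icc k (2 * k), p n * d n ≤ δ :=
              sum_le_hasSum _ (fun n _ => mul_nonneg (hp.law.nonneg n) (hd0 n)) hsum
            have s2 : ∑ n ∈ Icc k (2 * k), p n ≤ 1 := hp.law.sum_le_one _
            have s3 : 0 ≤ ∑ n ∈ Icc k (2 * k), p n := sum_nonneg fun n _ => hp.law.nonneg n
            have s4 := hd0 m0
            nlinarith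
    have hkle : (k : ℝ) ≤ π / |θ| := by
      rw [le_div_iff₀ hab, hk]
      push_cast
      calc ((q : ℝ) + m0) * |θ| = q * |θ| + m0 * |θ| := by ring
        _ ≤ π / 2 + |θ| + m0 * |θ| := by linarith
        _ ≤ π / 2 + (2 + m0) * |θ| := by nlinarith
        _ ≤ π := by linarith
    have hk0 : (0 : ℝ) < k := by
      have : 0 < k := by omega
      exact_mod_cast this
    have hkk : (k : ℝ) * Real.sqrt k = (k : ℝ) ^ (3 / 2 : ℝ) := by
      rw [Real.sqrt_eq_rpow]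
      nth_rewrite 1 [← Real.rpow_one (k : ℝ)]
      rw [← Real.rpow_add hk0]
      norm_num
    have hkk2 : (k : ℝ) ^ (3 / 2 : ℝ) ≤ (π / |θ|) ^ (3 / 2 : ℝ) :=
      Real.rpow_le_rpow hk0.le hkle (by norm_num)
    have hdivr : (π / |θ|) ^ (3 / 2 : ℝ) = π ^ (3 / 2 : ℝ) / |θ| ^ (3 / 2 : ℝ) :=
      Real.div_rpow hπ.le hab.le _
    have hθr : 0 < |θ| ^ (3 / 2 : ℝ) := Real.rpow_pos_of_pos hab _
    have hπr : 0 < π ^ (3 / 2 : ℝ) := Real.rpow_pos_of_pos hπ _
    have h3 : c / (π ^ (3 / 2 : ℝ) / |θ| ^ (3 / 2 : ℝ)) ≤ (2 + 2 / c) * δ := by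
      calc c / (π ^ (3 / 2 : ℝ) / |θ| ^ (3 / 2 : ℝ)) ≤ c / (k * Real.sqrt k) := by
            rw [hkk]
            apply div_le_div_of_nonneg_left hc.le (Real.rpow_pos_of_pos hk0 _)
            rw [← hdivr]; exact hkk2
        _ ≤ _ := hwin
        _ ≤ _ := hW
        _ = _ := by ring
    have h4 : κ1 * |θ| ^ (3 / 2 : ℝ) ≤ δ := by
      have h5 : 0 < 2 + 2 / c := by positivity
      rw [hκ1]
      have e : c / (2 + 2 / c) / π ^ (3 / 2 : ℝ) * |θ| ^ (3 / 2 : ℝ) =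
          (c / (π ^ (3 / 2 : ℝ) / |θ| ^ (3 / 2 : ℝ))) / (2 + 2 / c) := by
        field_simp
      rw [e, div_le_iff₀ h5]
      linarith
    exact (mul_le_mul_of_nonneg_right (min_le_left _ _) hθr.le).trans h4
  · -- large angle
    have h1 := hcos 1 m0
    have hd1 : d (1 + m0) ≤ δ / c := by
      rw [le_div_iff₀ hc]
      calc d (1 + m0) * c ≤ d (1 + m0) * p (1 + m0) := by
            apply mul_le_mul_of_nonneg_left _ (hd0 _)
            rw [add_comm]; exact hp.a1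
        _ = p (1 + m0) * d (1 + m0) := mul_comm _ _
        _ ≤ δ := hterm _
    have h2 : 1 - Real.cos θ ≤ 4 * (δ / c) := by
      rw [Nat.cast_one, one_mul] at h1
      linarith
    have h3 : 2 / π ^ 2 * θ ^ 2 ≤ 1 - Real.cos θ := by
      have := Real.cos_le_one_sub_mul_cos_sq hθ
      linarith
    have h4 : θ0 ^ 2 ≤ θ ^ 2 := by
      rw [← sq_abs θ]
      exact pow_le_pow_left₀ hθ0p.le hlg.le 2
    have h5 : c * θ0 ^ 2 / (2 * π ^ 2) ≤ δ := by
      have i1 : 2 / π ^ 2 * θ0 ^ 2 ≤ 4 * (δ / c) := by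
        calc 2 / π ^ 2 * θ0 ^ 2 ≤ 2 / π ^ 2 * θ ^ 2 := mul_le_mul_of_nonneg_left h4 (by positivity)
          _ ≤ _ := h3.trans h2
      have i2 : c * θ0 ^ 2 / (2 * π ^ 2) = (2 / π ^ 2 * θ0 ^ 2) * (c / 4) := by field_simp; ring
      have i3 : 4 * (δ / c) * (c / 4) = δ := by field_simp
      rw [i2, ← i3]
      exact mul_le_mul_of_nonneg_right i1 (by positivity)
    have hπr : 0 < π ^ (3 / 2 : ℝ) := Real.rpow_pos_of_pos hπ _
    have hθr : |θ| ^ (3 / 2 : ℝ) ≤ π ^ (3 / 2 : ℝ) :=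
      Real.rpow_le_rpow hab.le hθ (by norm_num)
    calc min κ1 κ2 * |θ| ^ (3 / 2 : ℝ) ≤ κ2 * π ^ (3 / 2 : ℝ) :=
          mul_le_mul (min_le_right _ _) hθr (by positivity) h2p.le
      _ = c * θ0 ^ 2 / (2 * π ^ 2) := by rw [hκ2]; field_simp
      _ ≤ δ := h5

/-- exact inversion -/
theorem _root_.Pool.Agent.DiamP.IsLaw.inversion {p : ℕ → ℝ} (hp : IsLaw p) (n : ℕ) :
    (2 * π * p n : ℂ) = ∫ θ in (-π)..π, phi p θ * cexp (-(I * (n : ℂ) * (θ : ℂ))) := by
  set f : ℕ → C(ℝ, ℂ) := fun k =>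
    ⟨fun θ => (p k : ℂ) * cexp (I * (k : ℂ) * (θ : ℂ)) * cexp (-(I * (n : ℂ) * (θ : ℂ))), by
      fun_prop⟩ with hf
  have hnorm : ∀ k, ‖(f k).restrict (⟨Set.uIcc (-π) π, isCompact_uIcc⟩ : TopologicalSpace.Compacts ℝ)‖
      ≤ p k := by
    intro k
    rw [ContinuousMap.norm_le _ (hp.nonneg k)]
    intro θ
    simp only [ContinuousMap.restrict_apply, hf, ContinuousMap.coe_mk, norm_mul]
    rw [norm_ex]
    have : ‖cexp (-(I * (n : ℂ) * ((θ : ℝ) : ℂ)))‖ = 1 := by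
      rw [Complex.exp_neg, norm_inv, norm_ex, inv_one]
    rw [this, mul_one, mul_one, Complex.norm_real, Real.norm_of_nonneg (hp.nonneg k)]
  have hsum : Summable fun k =>
      ‖(f k).restrict (⟨Set.uIcc (-π) π, isCompact_uIcc⟩ : TopologicalSpace.Compacts ℝ)‖ :=
    Summable.of_nonneg_of_le (fun _ => norm_nonneg _) hnorm hp.summable
  have h1 := intervalIntegral.hasSum_intervalIntegral_of_summable_norm hsum
  have hint : ∀ k, ∫ θ in (-π)..π, f k θ = if k = n then (2 * π * p n : ℂ) else 0 := by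
    intro k
    have h2 : ∀ θ : ℝ, f k θ = (p k : ℂ) * cexp (((k : ℂ) - n) * I * θ) := by
      intro θ
      simp only [hf, ContinuousMap.coe_mk]
      rw [mul_assoc, ← Complex.exp_add]
      congr 2
      ring
    simp only [h2]
    rw [intervalIntegral.integral_const_mul]
    split_ifs with hk
    · subst hk
      simp
      ring
    · have hc : ((k : ℂ) - n) * I ≠ 0 := by
        refine mul_ne_zero ?_ I_ne_zero
        rw [sub_ne_zero]
        exact_mod_cast hk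
      rw [integral_exp_mul_complex hc]
      have h3 : ((k : ℂ) - n) * I * ((π : ℝ) : ℂ) =
          ((k : ℂ) - n) * I * ((-π : ℝ) : ℂ) + (((k : ℤ) - n : ℤ) : ℂ) * (2 * π * I) := by
        push_cast; ring
      rw [h3, Complex.exp_add, Complex.exp_int_mul_two_pi_mul_I, mul_one, sub_self, zero_div,
        mul_zero]
  simp only [hint] at h1
  have h2 : ∫ θ in (-π)..π, ∑' k, f k θ = (2 * π * p n : ℂ) := by
    have := h1.unique (hasSum_ite_eq n (2 * π * p n : ℂ))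
    exact this
  have h3 : ∀ θ : ℝ, ∑' k, f k θ = phi p θ * cexp (-(I * (n : ℂ) * (θ : ℂ))) := by
    intro θ
    simp only [hf, ContinuousMap.coe_mk]
    rw [tsum_mul_right]
    rfl
  rw [← h2]
  exact intervalIntegral.integral_congr fun θ _ => h3 θ

theorem _root_.Pool.Agent.DiamP.IsLaw.phi_continuous {p : ℕ → ℝ} (hp : IsLaw p) : Continuous (phi p) := by
  unfold phi
  refine continuous_tsum (u := p) (fun n => by fun_prop) hp.summable fun n θ => ?_
  rw [norm_mul, norm_ex, mul_one, Complex.norm_real, Real.norm_of_nonneg (hp.nonneg n)]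

theorem _root_.Pool.Agent.DiamP.IsLaw.phi_norm_le {p : ℕ → ℝ} (hp : IsLaw p) (θ : ℝ) : ‖phi p θ‖ ≤ 1 := by
  unfold phi
  refine (norm_tsum_le_tsum_norm (hp.summable_norm_phi θ)).trans (le_of_eq ?_)
  rw [← hp.tsum]
  refine tsum_congr fun n => ?_
  rw [norm_mul, norm_ex, mul_one, Complex.norm_real, Real.norm_of_nonneg (hp.nonneg n)]

theorem norm_phi_win {κ : ℝ} {l : List (ℕ → ℝ)} (hl : ∀ p ∈ l, IsLaw p)
    (hκ : ∀ p ∈ l, ∀ θ : ℝ, |θ| ≤ π → κ * |θ| ^ (3 / 2 : ℝ) ≤ 1 - ‖phi p θ‖)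
    {θ : ℝ} (hθ : |θ| ≤ π) :
    ‖phi (cvL l) θ‖ ≤ Real.exp (-((l.length : ℝ) * κ) * |θ| ^ (3 / 2 : ℝ)) := by
  induction l with
  | nil => simp [phi_one0]
  | cons p l ih =>
    have hl' : ∀ q ∈ l, IsLaw q := fun q hq => hl q (by simp [hq])
    have h1 := ih hl' fun q hq => hκ q (by simp [hq])
    have h2 := hκ p (by simp) θ hθ
    have h3 : ‖phi p θ‖ ≤ Real.exp (-(κ * |θ| ^ (3 / 2 : ℝ))) := by
      have h4 := Real.add_one_le_exp (-(κ * |θ| ^ (3 / 2 : ℝ)))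
      linarith
    rw [cvL_cons, phi_cv (hl p (by simp)) (isLaw_cvL hl'), norm_mul, List.length_cons]
    calc ‖phi p θ‖ * ‖phi (cvL l) θ‖ ≤ Real.exp (-(κ * |θ| ^ (3 / 2 : ℝ))) *
          Real.exp (-((l.length : ℝ) * κ) * |θ| ^ (3 / 2 : ℝ)) :=
          mul_le_mul h3 h1 (norm_nonneg _) (Real.exp_pos _).le
      _ = _ := by
          rw [← Real.exp_add]
          congr 1
          push_cast
          ring

/-- the integral of `|θ|^q exp (-b |θ|^(3/2))` over `[-π, π]` -/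
theorem int_bound (q : ℝ) (hq : 0 ≤ q) : ∃ C : ℝ, 0 < C ∧ ∀ b : ℝ, 0 < b →
    ∫ θ in (-π)..π, |θ| ^ q * Real.exp (-b * |θ| ^ (3 / 2 : ℝ)) ≤ C * b ^ (-(q + 1) / (3 / 2)) := by
  have hG : 0 < Real.Gamma ((q + 1) / (3 / 2)) := Real.Gamma_pos_of_pos (by positivity)
  refine ⟨2 * (1 / (3 / 2) * Real.Gamma ((q + 1) / (3 / 2))), by positivity, fun b hb => ?_⟩
  set g : ℝ → ℝ := fun x => x ^ q * Real.exp (-b * x ^ (3 / 2 : ℝ)) with hg
  have hI0 := _root_.integral_rpow_mul_exp_neg_mul_rpow (p := 3 / 2) (q := q) (b := b) (by norm_num)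
    (by linarith) hb
  have hI : ∫ x : ℝ, g |x| = 2 * (b ^ (-(q + 1) / (3 / 2)) * (1 / (3 / 2)) *
      Real.Gamma ((q + 1) / (3 / 2))) := by
    rw [integral_comp_abs (f := g), hg, hI0]
  have hpos : 0 < b ^ (-(q + 1) / (3 / 2)) := Real.rpow_pos_of_pos hb _
  have hint : Integrable fun x : ℝ => g |x| := by
    by_contra hcon
    have h0 := integral_undef hcon
    rw [hI] at h0
    have : 0 < 2 * (b ^ (-(q + 1) / (3 / 2)) * (1 / (3 / 2)) * Real.Gamma ((q + 1) / (3 / 2))) := by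
      positivity
    linarith
  have hpi : -π ≤ π := by linarith [Real.pi_pos]
  have hnn : ∀ x : ℝ, 0 ≤ g |x| := fun x => by
    simp only [hg]
    exact mul_nonneg (Real.rpow_nonneg (abs_nonneg x) _) (Real.exp_pos _).le
  have h1 : ∫ θ in (-π)..π, |θ| ^ q * Real.exp (-b * |θ| ^ (3 / 2 : ℝ)) ≤ ∫ x : ℝ, g |x| := by
    rw [intervalIntegral.integral_of_le hpi]
    exact setIntegral_le_integral hint (Filter.Eventually.of_forall hnn)
  rw [hI] at h1
  refine h1.trans (le_of_eq ?_)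
  ring

/-- **sup bound and Lipschitz bound** for sums of `h` laws with window masses -/
theorem win_conc {c : ℝ} (hc : 0 < c) (m0 : ℕ) : ∃ K : ℝ, 0 < K ∧ ∀ l : List (ℕ → ℝ),
    (∀ p ∈ l, WL c m0 p) → l ≠ [] →
    (∀ n, cvL l n ≤ K * (l.length : ℝ) ^ (-(2 / 3) : ℝ)) ∧
    (∀ n n', |cvL l n - cvL l n'| ≤ K * |(n : ℝ) - n'| * (l.length : ℝ) ^ (-(4 / 3) : ℝ)) := by
  obtain ⟨κ, hκ, hphi⟩ := phi_win hc m0
  obtain ⟨C0, hC0, hb0⟩ := int_bound 0 le_rfl
  obtain ⟨C1, hC1, hb1⟩ := int_bound 1 zero_le_one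
  have hπ := Real.pi_pos
  refine ⟨(2 * π)⁻¹ * (C0 * κ ^ (-(2 / 3) : ℝ)) + (2 * π)⁻¹ * (C1 * κ ^ (-(4 / 3) : ℝ)),
    by positivity, fun l hl hne => ?_⟩
  have hlaw : ∀ p ∈ l, IsLaw p := fun p hp => (hl p hp).law
  have hlen : 0 < (l.length : ℝ) := by exact_mod_cast List.length_pos_iff.2 hne
  have hk : 0 < (l.length : ℝ) * κ := mul_pos hlen hκ
  have hnp := fun {θ : ℝ} (hθ : |θ| ≤ π) => norm_phi_win (κ := κ) hlaw
    (fun p hp θ hθ => hphi p (hl p hp) θ hθ) hθ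
  have hpi : -π ≤ π := by linarith
  have hcont := (isLaw_cvL hlaw).phi_continuous
  have e0 : (-(0 + 1) / (3 / 2) : ℝ) = -(2 / 3) := by norm_num
  have e1 : (-(1 + 1) / (3 / 2) : ℝ) = -(4 / 3) := by norm_num
  constructor
  · intro n
    have h1 := (isLaw_cvL hlaw).le_integral n
    have h2 : ∫ θ in (-π)..π, ‖phi (cvL l) θ‖ ≤
        ∫ θ in (-π)..π, |θ| ^ (0 : ℝ) * Real.exp (-((l.length : ℝ) * κ) * |θ| ^ (3 / 2 : ℝ)) := by
      apply intervalIntegral.integral_mono_on hpi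
      · exact (hcont.norm).intervalIntegrable _ _
      · apply Continuous.intervalIntegrable
        simp only [Real.rpow_zero, one_mul]
        apply Real.continuous_exp.comp
        apply continuous_const.mul
        exact Real.continuous_rpow_const (by norm_num) |>.comp continuous_abs
      · intro θ hθ
        rw [Real.rpow_zero, one_mul]
        exact hnp (abs_le.2 ⟨hθ.1, hθ.2⟩)
    have h3 := hb0 _ hk
    rw [e0, Real.mul_rpow hlen.le hκ.le] at h3
    have h4 := mul_le_mul_of_nonneg_left (h2.trans h3) (by positivity : (0 : ℝ) ≤ (2 * π)⁻¹)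
    refine (h1.trans h4).trans ?_
    have h5 : 0 ≤ (2 * π)⁻¹ * (C1 * κ ^ (-(4 / 3) : ℝ)) * (l.length : ℝ) ^ (-(2 / 3) : ℝ) := by
      positivity
    calc (2 * π)⁻¹ * (C0 * ((l.length : ℝ) ^ (-(2 / 3) : ℝ) * κ ^ (-(2 / 3) : ℝ)))
        = (2 * π)⁻¹ * (C0 * κ ^ (-(2 / 3) : ℝ)) * (l.length : ℝ) ^ (-(2 / 3) : ℝ) := by ring
      _ ≤ _ := by rw [add_mul]; linarith
  · intro n n'
    have h1 := (isLaw_cvL hlaw).inversion n
    have h1' := (isLaw_cvL hlaw).inversion n'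
    have hi : ∀ n : ℕ, IntervalIntegrable
        (fun θ : ℝ => phi (cvL l) θ * cexp (-(I * (n : ℂ) * (θ : ℂ)))) volume (-π) π := by
      intro n
      apply Continuous.intervalIntegrable
      exact hcont.mul (by fun_prop)
    have hdiff : (2 * π * (cvL l n - cvL l n') : ℂ) = ∫ θ in (-π)..π,
        phi (cvL l) θ * (cexp (-(I * (n : ℂ) * (θ : ℂ))) - cexp (-(I * (n' : ℂ) * (θ : ℂ)))) := by
      rw [mul_sub, h1, h1', ← intervalIntegral.integral_sub (hi n) (hi n')]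
      refine intervalIntegral.integral_congr fun θ _ => ?_
      ring
    have hexp : ∀ θ : ℝ, ‖cexp (-(I * (n : ℂ) * (θ : ℂ))) - cexp (-(I * (n' : ℂ) * (θ : ℂ)))‖ ≤
        |(n : ℝ) - n'| * |θ| := by
      intro θ
      have a1 : -(I * (n : ℂ) * (θ : ℂ)) = -(I * (n' : ℂ) * (θ : ℂ)) +
          I * (((-((n : ℝ) - n') * θ : ℝ)) : ℂ) := by push_cast; ring
      have a2 : ‖cexp (-(I * (n' : ℂ) * (θ : ℂ)))‖ = 1 := by
        rw [Complex.exp_neg, norm_inv, norm_ex, inv_one]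
      rw [a1, Complex.exp_add, ← mul_sub_one, norm_mul, a2, one_mul]
      have a3 := Real.norm_exp_I_mul_ofReal_sub_one_le (x := -((n : ℝ) - n') * θ)
      refine a3.trans (le_of_eq ?_)
      rw [Real.norm_eq_abs, abs_mul, abs_neg]
    have h2 : ‖∫ θ in (-π)..π,
        phi (cvL l) θ * (cexp (-(I * (n : ℂ) * (θ : ℂ))) - cexp (-(I * (n' : ℂ) * (θ : ℂ))))‖ ≤
        ∫ θ in (-π)..π, |(n : ℝ) - n'| *
          (|θ| ^ (1 : ℝ) * Real.exp (-((l.length : ℝ) * κ) * |θ| ^ (3 / 2 : ℝ))) := by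
      refine (intervalIntegral.norm_integral_le_integral_norm hpi).trans ?_
      apply intervalIntegral.integral_mono_on hpi
      · apply Continuous.intervalIntegrable
        exact (hcont.mul (by fun_prop)).norm
      · apply Continuous.intervalIntegrable
        apply continuous_const.mul
        simp only [Real.rpow_one]
        apply continuous_abs.mul
        apply Real.continuous_exp.comp
        apply continuous_const.mul
        exact Real.continuous_rpow_const (by norm_num) |>.comp continuous_abs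
      · intro θ hθ
        rw [norm_mul, Real.rpow_one]
        calc ‖phi (cvL l) θ‖ * ‖cexp (-(I * (n : ℂ) * (θ : ℂ))) - cexp (-(I * (n' : ℂ) * (θ : ℂ)))‖
            ≤ Real.exp (-((l.length : ℝ) * κ) * |θ| ^ (3 / 2 : ℝ)) * (|(n : ℝ) - n'| * |θ|) :=
              mul_le_mul (hnp (abs_le.2 ⟨hθ.1, hθ.2⟩)) (hexp θ) (norm_nonneg _) (Real.exp_pos _).le
          _ = _ := by ring
    rw [← hdiff, intervalIntegral.integral_const_mul] at h2
    have h3 := hb1 _ hk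
    rw [e1, Real.mul_rpow hlen.le hκ.le] at h3
    have h4 := h2.trans (mul_le_mul_of_nonneg_left h3 (abs_nonneg ((n : ℝ) - n')))
    have h5 : ‖(2 * π * (cvL l n - cvL l n') : ℂ)‖ = 2 * π * |cvL l n - cvL l n'| := by
      have : (2 * π * (cvL l n - cvL l n') : ℂ) = ((2 * π * (cvL l n - cvL l n') : ℝ) : ℂ) := by
        push_cast; ring
      rw [this, Complex.norm_real, Real.norm_eq_abs, abs_mul, abs_of_pos (by positivity)]
    rw [h5] at h4
    have h6 : |cvL l n - cvL l n'| ≤ (2 * π)⁻¹ * (|(n : ℝ) - n'| *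
        (C1 * ((l.length : ℝ) ^ (-(4 / 3) : ℝ) * κ ^ (-(4 / 3) : ℝ)))) := by
      rw [inv_mul_eq_div, le_div_iff₀ (by positivity)]
      linarith
    refine h6.trans ?_
    have h7 : 0 ≤ (2 * π)⁻¹ * (C0 * κ ^ (-(2 / 3) : ℝ)) * |(n : ℝ) - n'| *
        (l.length : ℝ) ^ (-(4 / 3) : ℝ) := by positivity
    calc _ = (2 * π)⁻¹ * (C1 * κ ^ (-(4 / 3) : ℝ)) * |(n : ℝ) - n'| *
          (l.length : ℝ) ^ (-(4 / 3) : ℝ) := by ring
      _ ≤ _ := by
          have e : ((2 * π)⁻¹ * (C0 * κ ^ (-(2 / 3) : ℝ)) + (2 * π)⁻¹ * (C1 * κ ^ (-(4 / 3) : ℝ))) *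
              |(n : ℝ) - n'| * (l.length : ℝ) ^ (-(4 / 3) : ℝ) =
              (2 * π)⁻¹ * (C0 * κ ^ (-(2 / 3) : ℝ)) * |(n : ℝ) - n'| *
                (l.length : ℝ) ^ (-(4 / 3) : ℝ) +
              (2 * π)⁻¹ * (C1 * κ ^ (-(4 / 3) : ℝ)) * |(n : ℝ) - n'| *
                (l.length : ℝ) ^ (-(4 / 3) : ℝ) := by ring
          rw [e]
          linarith

end Pool.Agent.DiamP.Hv
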