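import Pool.Agent.DiamP.HvBase

/-!
# Heavy sums, part 2: moments from tails `k ^ (-3/2)`, deviations (MP_d7a93a_pr, (6.7) (H2))
-/

set_option autoImplicit false

open Finset Filter Topology

namespace Pool.Agent.DiamP.Hv

/-- law with tails `∑ n ≥ k, p n ≤ K k ^ (-3/2)` -/
structure TB (K : ℝ) (p : ℕ → ℝ) : Prop where
  law : IsLaw p
  tl : ∀ k M : ℕ, 1 ≤ k → ∑ n ∈ Ico k M, p n ≤ K / (k * Real.sqrt k)

/-! ## elementary sums -/

theorem inv_sqrt_tele (j : ℕ) (hj : 1 ≤ j) :
    1 / ((j : ℝ) * Real.sqrt j) ≤ 4 * (1 / Real.sqrt j - 1 / Real.sqrt ((j + 1 : ℕ) : ℝ)) := by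
  have hj' : (1 : ℝ) ≤ j := by exact_mod_cast hj
  set a := Real.sqrt (j : ℝ) with ha
  set b := Real.sqrt ((j + 1 : ℕ) : ℝ) with hb
  have ha2 : a ^ 2 = j := Real.sq_sqrt (by linarith)
  have hb2 : b ^ 2 = j + 1 := by
    rw [hb, Real.sq_sqrt (by positivity)]; push_cast; ring
  have ha1 : 1 ≤ a := by
    rw [ha]; exact Real.one_le_sqrt.2 hj'
  have hab : a ≤ b := by
    apply Real.sqrt_le_sqrt; push_cast; linarith
  have hb0 : 0 < b := by linarith
  have ha0 : 0 < a := by linarith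
  rw [← ha2]
  have e : 4 * (1 / a - 1 / b) = 4 * (b - a) / (a * b) := by field_simp
  rw [e, div_le_div_iff₀ (by positivity) (by positivity)]
  -- 1 * (a b) ≤ 4 (b - a) (a^2 a);  (b-a)(b+a) = 1
  have h1 : (b - a) * (b + a) = 1 := by nlinarith
  have h2 : b ≤ 3 / 2 * a := by
    by_contra hcon
    push Not at hcon
    nlinarith
  have h3 : 0 ≤ b - a := by linarith
  have h4 : b * (b + a) ≤ 4 * a ^ 2 := by nlinarith
  have h5 : a * b = a * b * ((b - a) * (b + a)) := by rw [h1, mul_one]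
  calc 1 * (a * b) = a * ((b - a) * (b * (b + a))) := by rw [one_mul]; nlinarith
    _ ≤ a * ((b - a) * (4 * a ^ 2)) := by gcongr
    _ = 4 * (b - a) * (a ^ 2 * a) := by ring

theorem sum_inv_sqrt (a M : ℕ) (ha : 1 ≤ a) :
    ∑ j ∈ Ico a M, 1 / ((j : ℝ) * Real.sqrt j) ≤ 4 / Real.sqrt a := by
  rcases Nat.lt_or_ge M a with h | h
  · rw [Ico_eq_empty (by omega), sum_empty]; positivity
  · have h1 : ∑ j ∈ Ico a M, 1 / ((j : ℝ) * Real.sqrt j) ≤
        ∑ j ∈ Ico a M, 4 * (1 / Real.sqrt j - 1 / Real.sqrt ((j + 1 : ℕ) : ℝ)) :=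
      sum_le_sum fun j hj => inv_sqrt_tele j (ha.trans (mem_Ico.1 hj).1)
    refine h1.trans ?_
    rw [← mul_sum]
    have h2 : ∑ j ∈ Ico a M, (1 / Real.sqrt (j : ℝ) - 1 / Real.sqrt ((j + 1 : ℕ) : ℝ)) =
        1 / Real.sqrt a - 1 / Real.sqrt M := by
      clear h1
      induction M, h using Nat.le_induction with
      | base => simp
      | succ n hn ih =>
        rw [sum_Ico_succ_top hn, ih]
        ring
    rw [h2]
    have h3 : 0 ≤ 1 / Real.sqrt (M : ℝ) := by positivity
    have h4 : 4 / Real.sqrt (a : ℝ) = 4 * (1 / Real.sqrt a) := by ring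
    rw [h4]
    linarith

theorem sum_inv_sqrt' (B : ℕ) :
    ∑ j ∈ Ico 1 (B + 1), 1 / Real.sqrt (j : ℝ) ≤ 2 * Real.sqrt B := by
  induction B with
  | zero => simp
  | succ n ih =>
    rw [sum_Ico_succ_top (by omega)]
    set a := Real.sqrt (n : ℝ) with ha
    set b := Real.sqrt ((n + 1 : ℕ) : ℝ) with hb
    have ha2 : a ^ 2 = n := Real.sq_sqrt (by positivity)
    have hb2 : b ^ 2 = n + 1 := by
      rw [hb, Real.sq_sqrt (by positivity)]; push_cast; ring
    have ha0 : 0 ≤ a := Real.sqrt_nonneg _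
    have hb0 : 0 < b := Real.sqrt_pos.2 (by positivity)
    have hab : a ≤ b := by
      apply Real.sqrt_le_sqrt; push_cast; linarith
    have h1 : 1 / b ≤ 2 * (b - a) := by
      rw [div_le_iff₀ hb0]
      have : (b - a) * (b + a) = 1 := by nlinarith
      nlinarith
    linarith

/-! ## summation by parts -/

theorem parts1 (p : ℕ → ℝ) (a M : ℕ) (h : a ≤ M) :
    ∑ n ∈ Ico a M, (n : ℝ) * p n =
      a * ∑ n ∈ Ico a M, p n + ∑ j ∈ Ico (a + 1) M, ∑ n ∈ Ico j M, p n := by
  induction M, h using Nat.le_induction with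
  | base => simp
  | succ M hM ih =>
    rw [sum_Ico_succ_top hM, ih, sum_Ico_succ_top hM]
    rcases Nat.eq_or_lt_of_le hM with h | h
    · subst h; simp
    · have e : ∑ j ∈ Ico (a + 1) (M + 1), ∑ n ∈ Ico j (M + 1), p n =
          ∑ j ∈ Ico (a + 1) M, ∑ n ∈ Ico j M, p n + ((M : ℝ) - a) * p M := by
        rw [sum_Ico_succ_top (by omega)]
        have e1 : ∑ n ∈ Ico M (M + 1), p n = p M := by simp
        have e2 : ∑ j ∈ Ico (a + 1) M, ∑ n ∈ Ico j (M + 1), p n =
            ∑ j ∈ Ico (a + 1) M, (∑ n ∈ Ico j M, p n + p M) := by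
          refine sum_congr rfl fun j hj => ?_
          rw [sum_Ico_succ_top (by have := mem_Ico.1 hj; omega)]
        rw [e1, e2, sum_add_distrib, sum_const, Nat.card_Ico, nsmul_eq_mul]
        have : ((M - (a + 1) : ℕ) : ℝ) = (M : ℝ) - a - 1 := by
          rw [Nat.cast_sub (by omega)]; push_cast; ring
        rw [this]; ring
      rw [e]; ring

theorem parts2 (p : ℕ → ℝ) (M : ℕ) :
    ∑ n ∈ range M, (n : ℝ) ^ 2 * p n =
      ∑ j ∈ Ico 1 M, (2 * (j : ℝ) - 1) * ∑ n ∈ Ico j M, p n := by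
  induction M with
  | zero => simp
  | succ M ih =>
    rw [sum_range_succ, ih]
    rcases Nat.eq_zero_or_pos M with h | h
    · subst h; simp
    · rw [sum_Ico_succ_top (by omega)]
      have e1 : ∑ n ∈ Ico M (M + 1), p n = p M := by simp
      have e2 : ∑ j ∈ Ico 1 M, (2 * (j : ℝ) - 1) * ∑ n ∈ Ico j (M + 1), p n =
          ∑ j ∈ Ico 1 M, ((2 * (j : ℝ) - 1) * ∑ n ∈ Ico j M, p n + (2 * (j : ℝ) - 1) * p M) := by
        refine sum_congr rfl fun j hj => ?_
        rw [sum_Ico_succ_top (by have := mem_Ico.1 hj; omega)]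
        ring
      have e3 : ∑ j ∈ Ico 1 M, (2 * (j : ℝ) - 1) = ((M : ℝ) - 1) ^ 2 := by
        clear e1 e2 ih
        induction M, h using Nat.le_induction with
        | base => simp
        | succ n hn ih =>
          rw [sum_Ico_succ_top hn, ih]; push_cast; ring
      rw [e1, e2, sum_add_distrib, ← sum_mul, e3]
      ring

/-! ## moments -/

variable {K : ℝ} {p : ℕ → ℝ}

theorem TB.K_nonneg (h : TB K p) : 0 ≤ K := by
  have := h.tl 1 1 le_rfl
  simpa using this

theorem TB.m1_tail (h : TB K p) (a M : ℕ) (ha : 1 ≤ a) :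
    ∑ n ∈ Ico a M, (n : ℝ) * p n ≤ 5 * K / Real.sqrt a := by
  have hK := h.K_nonneg
  rcases Nat.lt_or_ge M a with hM | hM
  · rw [Ico_eq_empty (by omega), sum_empty]; positivity
  rw [parts1 p a M hM]
  have ha' : (0 : ℝ) < a := by exact_mod_cast ha
  have hs : 0 < Real.sqrt (a : ℝ) := Real.sqrt_pos.2 ha'
  have h1 : a * ∑ n ∈ Ico a M, p n ≤ K / Real.sqrt a := by
    calc _ ≤ a * (K / (a * Real.sqrt a)) := mul_le_mul_of_nonneg_left (h.tl a M ha) ha'.le
      _ = _ := by field_simp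
  have h2 : ∑ j ∈ Ico (a + 1) M, ∑ n ∈ Ico j M, p n ≤ 4 * K / Real.sqrt a := by
    calc _ ≤ ∑ j ∈ Ico (a + 1) M, K * (1 / ((j : ℝ) * Real.sqrt j)) := by
          refine sum_le_sum fun j hj => ?_
          have := h.tl j M (by have := mem_Ico.1 hj; omega)
          calc _ ≤ _ := this
            _ = _ := by ring
      _ = K * ∑ j ∈ Ico (a + 1) M, 1 / ((j : ℝ) * Real.sqrt j) := by rw [mul_sum]
      _ ≤ K * (4 / Real.sqrt ((a + 1 : ℕ) : ℝ)) :=
          mul_le_mul_of_nonneg_left (sum_inv_sqrt (a + 1) M (by omega)) hK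
      _ ≤ K * (4 / Real.sqrt (a : ℝ)) := by
          apply mul_le_mul_of_nonneg_left _ hK
          apply div_le_div_of_nonneg_left (by norm_num) hs
          apply Real.sqrt_le_sqrt
          push_cast; linarith
      _ = _ := by ring
  calc _ ≤ K / Real.sqrt a + 4 * K / Real.sqrt a := add_le_add h1 h2
    _ = _ := by ring

theorem TB.m2_le (h : TB K p) (B : ℕ) :
    ∑ n ∈ range (B + 1), (n : ℝ) ^ 2 * p n ≤ 4 * K * Real.sqrt B := by
  have hK := h.K_nonneg
  rw [parts2]
  calc _ ≤ ∑ j ∈ Ico 1 (B + 1), 2 * K * (1 / Real.sqrt (j : ℝ)) := by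
        refine sum_le_sum fun j hj => ?_
        have hj1 : 1 ≤ j := (mem_Ico.1 hj).1
        have hj' : (1 : ℝ) ≤ j := by exact_mod_cast hj1
        have hs : 0 < Real.sqrt (j : ℝ) := Real.sqrt_pos.2 (by linarith)
        calc (2 * (j : ℝ) - 1) * ∑ n ∈ Ico j (B + 1), p n
            ≤ (2 * (j : ℝ)) * (K / (j * Real.sqrt j)) := by
              apply mul_le_mul (by linarith) (h.tl j _ hj1)
                (sum_nonneg fun n _ => h.law.nonneg n) (by linarith)
          _ = _ := by field_simp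
    _ = 2 * K * ∑ j ∈ Ico 1 (B + 1), 1 / Real.sqrt (j : ℝ) := by rw [mul_sum]
    _ ≤ 2 * K * (2 * Real.sqrt B) := mul_le_mul_of_nonneg_left (sum_inv_sqrt' B) (by positivity)
    _ = _ := by ring

theorem TB.summable_m1 (h : TB K p) : Summable fun n : ℕ => (n : ℝ) * p n := by
  refine summable_of_sum_range_le (c := 5 * K) (fun n => mul_nonneg (by positivity) (h.law.nonneg n))
    fun M => ?_
  rcases Nat.eq_zero_or_pos M with hM | hM
  · subst hM; simp; linarith [h.K_nonneg]
  · rw [range_eq_Ico, sum_eq_sum_Ico_succ_bot hM]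
    have := h.m1_tail 1 M le_rfl
    simpa using this

theorem TB.mn_sub (h : TB K p) (B : ℕ) :
    0 ≤ mn p - ∑ n ∈ range (B + 1), (n : ℝ) * p n ∧
      mn p - ∑ n ∈ range (B + 1), (n : ℝ) * p n ≤ 5 * K / Real.sqrt ((B + 1 : ℕ) : ℝ) := by
  have hs := h.summable_m1
  have hnn : ∀ n : ℕ, 0 ≤ (n : ℝ) * p n := fun n => mul_nonneg (by positivity) (h.law.nonneg n)
  constructor
  · have := hs.sum_le_tsum (range (B + 1)) fun n _ => hnn n
    unfold mn; linarith
  · have ht := hs.hasSum.tendsto_sum_nat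
    have hb : ∀ᶠ M in atTop, ∑ n ∈ range M, (n : ℝ) * p n ≤
        ∑ n ∈ range (B + 1), (n : ℝ) * p n + 5 * K / Real.sqrt ((B + 1 : ℕ) : ℝ) := by
      filter_upwards [eventually_ge_atTop (B + 1)] with M hM
      have e : ∑ n ∈ range M, (n : ℝ) * p n =
          ∑ n ∈ range (B + 1), (n : ℝ) * p n + ∑ n ∈ Ico (B + 1) M, (n : ℝ) * p n := by
        rw [sum_range_add_sum_Ico _ hM]
      rw [e]
      have := h.m1_tail (B + 1) M (by omega)
      linarith
    have := le_of_tendsto ht hb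
    unfold mn; linarith

theorem mn_trc (p : ℕ → ℝ) (B : ℕ) : mn (trc p B) = ∑ n ∈ range (B + 1), (n : ℝ) * p n := by
  unfold mn
  rw [tsum_eq_sum (s := range (B + 1))]
  · refine sum_congr rfl fun n hn => ?_
    have := mem_range.1 hn
    unfold trc
    split_ifs with h1 h2
    · subst h1; simp
    · rfl
    · omega
  · intro n hn
    rw [trc_zero_of p B (by simpa using hn), mul_zero]

theorem m2_trc (p : ℕ → ℝ) (B : ℕ) :
    ∑' n : ℕ, trc p B n * (n : ℝ) ^ 2 = ∑ n ∈ range (B + 1), (n : ℝ) ^ 2 * p n := by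
  rw [tsum_eq_sum (s := range (B + 1))]
  · refine sum_congr rfl fun n hn => ?_
    have := mem_range.1 hn
    unfold trc
    split_ifs with h1 h2
    · subst h1; simp
    · ring
    · omega
  · intro n hn
    rw [trc_zero_of p B (by simpa using hn), zero_mul]

theorem TB.tauB_le (h : TB K p) (B : ℕ) :
    tauB p B ≤ K / (((B + 1 : ℕ) : ℝ) * Real.sqrt ((B + 1 : ℕ) : ℝ)) := by
  have ht := h.law.sum.tendsto_sum_nat
  have hb : ∀ᶠ M in atTop, ∑ n ∈ range M, p n ≤
      ∑ n ∈ range (B + 1), p n + K / (((B + 1 : ℕ) : ℝ) * Real.sqrt ((B + 1 : ℕ) : ℝ)) := by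
    filter_upwards [eventually_ge_atTop (B + 1)] with M hM
    have e : ∑ n ∈ range M, p n = ∑ n ∈ range (B + 1), p n + ∑ n ∈ Ico (B + 1) M, p n := by
      rw [sum_range_add_sum_Ico _ hM]
    rw [e]
    have := h.tl (B + 1) M (by omega)
    linarith
  have := le_of_tendsto ht hb
  unfold tauB; linarith

theorem list_sum_le {α : Type*} (l : List α) (f : α → ℝ) (c : ℝ) (h : ∀ x ∈ l, f x ≤ c) :
    (l.map f).sum ≤ l.length * c := by
  induction l with
  | nil => simp
  | cons a l ih =>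
    rw [List.map_cons, List.sum_cons, List.length_cons]
    have := h a (by simp)
    have := ih fun x hx => h x (by simp [hx])
    push_cast; linarith

theorem list_sum_sub {α : Type*} (l : List α) (f g : α → ℝ) :
    (l.map f).sum - (l.map g).sum = (l.map fun x => f x - g x).sum := by
  induction l with
  | nil => simp
  | cons a l ih =>
    simp only [List.map_cons, List.sum_cons]
    linarith

theorem list_sum_nonneg {α : Type*} (l : List α) (f : α → ℝ) (h : ∀ x ∈ l, 0 ≤ f x) :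
    0 ≤ (l.map f).sum := by
  apply List.sum_nonneg
  intro x hx
  obtain ⟨r, hr, rfl⟩ := List.mem_map.1 hx
  exact h r hr

/-- indicator of a deviation -/
noncomputable def dev (m y : ℝ) (n : ℕ) : ℝ := if y ≤ |(n : ℝ) - m| then 1 else 0

theorem dev_nonneg (m y : ℝ) (n : ℕ) : 0 ≤ dev m y n := by unfold dev; split_ifs <;> norm_num
theorem dev_le_one (m y : ℝ) (n : ℕ) : dev m y n ≤ 1 := by unfold dev; split_ifs <;> norm_num
theorem dev_abs (m y : ℝ) (n : ℕ) : |dev m y n| ≤ 1 := by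
  rw [abs_of_nonneg (dev_nonneg m y n)]; exact dev_le_one m y n

/-- **deviations** (H2): for a list of laws with tails `K k ^ (-3/2)`,
`P(|S - E S| ≥ y) ≤ 17 K h y ^ (-3/2)` -/
theorem heavy_dev2 {K : ℝ} (hK : 1 ≤ K) (l : List (ℕ → ℝ)) (hl : ∀ p ∈ l, TB K p) {y : ℝ}
    (hy : 0 < y) :
    Ex (cvL l) (dev (l.map mn).sum y) ≤ 17 * K * l.length / (y * Real.sqrt y) := by
  have hlaw : ∀ p ∈ l, IsLaw p := fun p hp => (hl p hp).law
  have hsy : 0 < Real.sqrt y := Real.sqrt_pos.2 hy
  have hyy : 0 < y * Real.sqrt y := by positivity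
  rcases Nat.eq_zero_or_pos l.length with h0 | h0
  · have : l = [] := List.length_eq_zero_iff.1 h0
    subst this
    have e : Ex (cvL []) (dev (List.map mn []).sum y) = 0 := by
      unfold Ex
      rw [tsum_eq_single 0]
      · simp [dev, one0, hy]
      · intro n hn; simp [one0, hn]
    rw [e]; simp
  have hh : (1 : ℝ) ≤ l.length := by exact_mod_cast h0
  have htriv : y * Real.sqrt y ≤ 10 * K * l.length →
      Ex (cvL l) (dev (l.map mn).sum y) ≤ 17 * K * l.length / (y * Real.sqrt y) := by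
    intro h
    have h1 := Ex_le_one (isLaw_cvL hlaw) (dev_nonneg (l.map mn).sum y) (dev_le_one _ y)
    refine h1.trans ?_
    rw [le_div_iff₀ hyy]
    nlinarith
  rcases le_or_gt (y * Real.sqrt y) (10 * K * l.length) with hc | hc
  · exact htriv hc
  have hy1 : 1 ≤ y := by
    by_contra hcon
    push Not at hcon
    have : Real.sqrt y ≤ 1 := by
      have := Real.sqrt_le_sqrt hcon.le
      rwa [Real.sqrt_one] at this
    nlinarith
  set B := ⌊y⌋₊ with hB
  have hB1 : (B : ℝ) ≤ y := Nat.floor_le (by linarith)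
  have hB2 : y < (B : ℝ) + 1 := Nat.lt_floor_add_one y
  have hB2' : y < ((B + 1 : ℕ) : ℝ) := by push_cast; exact hB2
  have hsB : Real.sqrt y ≤ Real.sqrt ((B + 1 : ℕ) : ℝ) := Real.sqrt_le_sqrt hB2'.le
  set l' := l.map (fun p => trc p B) with hl'
  have hlaw' : ∀ q ∈ l', IsLaw q := by
    intro q hq
    obtain ⟨r, hr, rfl⟩ := List.mem_map.1 hq
    exact isLaw_trc (hlaw r hr) B
  have hspt : ∀ q ∈ l', Spt q B := by
    intro q hq
    obtain ⟨r, hr, rfl⟩ := List.mem_map.1 hq
    exact fun n hn => trc_zero_of r B hn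
  have h1 := Ex_cvL_trc B l hlaw (dev (l.map mn).sum y) (dev_nonneg _ y) (dev_le_one _ y)
  have h2 : (l.map fun p => tauB p B).sum ≤ l.length * (K / (y * Real.sqrt y)) := by
    apply list_sum_le
    intro q hq
    refine ((hl q hq).tauB_le B).trans ?_
    apply div_le_div_of_nonneg_left (by linarith) hyy
    exact mul_le_mul hB2'.le hsB hsy.le (by positivity)
  -- shift of the mean
  have h3 : |(l.map mn).sum - mn (cvL l')| ≤ y / 2 := by
    rw [mn_cvL hlaw' hspt, hl', List.map_map, list_sum_sub]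
    have hb : ∀ q ∈ l, 0 ≤ mn q - (mn ∘ fun p => trc p B) q ∧
        mn q - (mn ∘ fun p => trc p B) q ≤ 5 * K / Real.sqrt y := by
      intro q hq
      have := (hl q hq).mn_sub B
      simp only [Function.comp]
      rw [mn_trc]
      refine ⟨this.1, this.2.trans ?_⟩
      exact div_le_div_of_nonneg_left (by linarith) hsy hsB
    rw [abs_of_nonneg (list_sum_nonneg l _ fun q hq => (hb q hq).1)]
    refine (list_sum_le l _ _ fun q hq => (hb q hq).2).trans ?_
    rw [mul_div_assoc', div_le_iff₀ hsy]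
    nlinarith
  -- Chebyshev
  have h4 : Ex (cvL l') (dev (l.map mn).sum y) ≤ 16 * K * l.length / (y * Real.sqrt y) := by
    have e1 : Ex (cvL l') (dev (l.map mn).sum y) ≤ Ex (cvL l') (dev (mn (cvL l')) (y / 2)) := by
      refine Ex_mono (isLaw_cvL hlaw') (C := 1) (dev_abs _ _) (dev_abs _ _) fun n => ?_
      unfold dev
      split_ifs with a b b
      · exact le_rfl
      · exfalso
        apply b
        have := abs_sub_abs_le_abs_sub ((n : ℝ) - (l.map mn).sum) (mn (cvL l') - (l.map mn).sum)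
        have e : (n : ℝ) - (l.map mn).sum - (mn (cvL l') - (l.map mn).sum) = n - mn (cvL l') := by ring
        rw [e, abs_sub_comm (mn (cvL l'))] at this
        linarith
      · norm_num
      · exact le_rfl
    have e2 := cheb (isLaw_cvL hlaw') (Spt.inL hspt) (mn (cvL l')) (y := y / 2) (by positivity)
    have e3 : vr (cvL l') (mn (cvL l')) ≤ l.length * (4 * K * Real.sqrt y) := by
      rw [vr_cvL hlaw' hspt, hl', List.map_map]
      apply list_sum_le
      intro q hq
      simp only [Function.comp]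
      have i1 := vr_le (isLaw_trc (hlaw q hq) B) (fun n hn => trc_zero_of q B hn)
      rw [m2_trc] at i1
      refine i1.trans (((hl q hq).m2_le B).trans ?_)
      have : Real.sqrt (B : ℝ) ≤ Real.sqrt y := Real.sqrt_le_sqrt hB1
      nlinarith
    have e4 : Ex (cvL l') (dev (mn (cvL l')) (y / 2)) ≤ vr (cvL l') (mn (cvL l')) / (y / 2) ^ 2 := e2
    refine e1.trans (e4.trans ?_)
    calc vr (cvL l') (mn (cvL l')) / (y / 2) ^ 2 ≤ l.length * (4 * K * Real.sqrt y) / (y / 2) ^ 2 := by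
          gcongr
      _ = 16 * K * l.length / (y * Real.sqrt y) := by
          have hs2 : Real.sqrt y * Real.sqrt y = y := Real.mul_self_sqrt hy.le
          rw [div_eq_div_iff (by positivity) hyy.ne']
          calc _ = 4 * K * l.length * y * (Real.sqrt y * Real.sqrt y) := by ring
            _ = _ := by rw [hs2]; ring
  calc _ ≤ _ := h1
    _ ≤ 16 * K * l.length / (y * Real.sqrt y) + l.length * (K / (y * Real.sqrt y)) := add_le_add h4 h2
    _ = _ := by ring

end Pool.Agent.DiamP.Hv
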