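import Pool.Agent.DiamP.HeavyLoc
import Pool.Agent.DiamP.HvFour
import Pool.Agent.DiamP.HvTail

/-!
# Heavy sums, part 4: local upper bound (H1) and deviations (H2) of (6.7) (MP_d7a93a_pr)

The sum of `v` variables with law `r`, `e` variables with law `d` and one with law `g`.
-/

set_option autoImplicit false

open Finset Filter Topology

namespace Pool.Agent.DiamP.Hv

/-- assumptions on the law of the sizes of the parts which replace edges: positive, and every window
`[k, (1 + η) k]` has mass of order `k^(-3/2)` -/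
structure DL (d : ℕ → ℝ) : Prop where
  law : IsLaw d
  pos : ∀ n, 0 < d n
  win : ∀ η : ℝ, 0 < η → ∃ c : ℝ, 0 < c ∧ ∃ k0 : ℕ, ∀ k : ℕ, k0 ≤ k →
    c * (k : ℝ) ^ (-(3 / 2) : ℝ) ≤ ∑ n ∈ Icc k ⌊(1 + η) * (k : ℝ)⌋₊, d n

theorem rpow_three_half {x : ℝ} (hx : 0 < x) : x ^ (-(3 / 2) : ℝ) = 1 / (x * Real.sqrt x) := by
  rw [Real.rpow_neg hx.le, one_div]
  congr 1
  rw [Real.sqrt_eq_rpow]
  nth_rewrite 2 [← Real.rpow_one x]
  rw [← Real.rpow_add hx]
  norm_num

theorem DL.wl {d : ℕ → ℝ} (hd : DL d) : ∃ c : ℝ, 0 < c ∧ WL c 0 d := by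
  obtain ⟨c1, hc1, k0, hk0⟩ := hd.win 1 one_pos
  have hsmall : ∀ N : ℕ, ∃ c2 : ℝ, 0 < c2 ∧ ∀ k, 1 ≤ k → k < N → c2 / (k * Real.sqrt k) ≤ d k := by
    intro N
    induction N with
    | zero => exact ⟨1, one_pos, fun k _ hk => by omega⟩
    | succ N ih =>
      obtain ⟨c2, hc2, h2⟩ := ih
      refine ⟨min c2 (d N), lt_min hc2 (hd.pos N), fun k hk1 hk => ?_⟩
      have hk1' : (1 : ℝ) ≤ k := by exact_mod_cast hk1
      have hs : 1 ≤ Real.sqrt k := by rw [Real.one_le_sqrt]; exact hk1'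
      have hks : 1 ≤ (k : ℝ) * Real.sqrt k := by nlinarith
      rcases Nat.lt_or_ge k N with h | h
      · refine le_trans ?_ (h2 k hk1 h)
        gcongr
        exact min_le_left _ _
      · have : k = N := by omega
        subst this
        have hdk := hd.pos k
        calc min c2 (d k) / (k * Real.sqrt k) ≤ d k / (k * Real.sqrt k) := by
              gcongr
              exact min_le_right _ _
          _ ≤ d k := div_le_self hdk.le hks
  obtain ⟨c2, hc2, h2⟩ := hsmall k0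
  refine ⟨min (min c1 c2) (min (d 0) (d 1)), lt_min (lt_min hc1 hc2)
    (lt_min (hd.pos 0) (hd.pos 1)), ⟨hd.law, ?_, ?_, ?_⟩⟩
  · exact (min_le_right _ _).trans (min_le_left _ _)
  · exact (min_le_right _ _).trans (min_le_right _ _)
  · intro k hk
    have hk1' : (0 : ℝ) < k := by exact_mod_cast hk
    have hs : 0 < Real.sqrt k := Real.sqrt_pos.2 hk1'
    rcases Nat.lt_or_ge k k0 with h | h
    · calc min (min c1 c2) (min (d 0) (d 1)) / (k * Real.sqrt k) ≤ c2 / (k * Real.sqrt k) := by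
            gcongr
            exact (min_le_left _ _).trans (min_le_right _ _)
        _ ≤ d k := h2 k hk h
        _ ≤ _ := single_le_sum (f := d) (fun n _ => (hd.pos n).le) (by simp; omega)
    · have h3 := hk0 k h
      have e1 : ⌊((1 : ℝ) + 1) * (k : ℝ)⌋₊ = 2 * k := by
        have : ((1 : ℝ) + 1) * (k : ℝ) = ((2 * k : ℕ) : ℝ) := by push_cast; ring
        rw [this, Nat.floor_natCast]
      rw [e1, rpow_three_half hk1'] at h3
      refine le_trans ?_ h3
      rw [mul_one_div]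
      gcongr
      exact (min_le_left _ _).trans (min_le_left _ _)

/-- the list of the laws -/
noncomputable def SL (r d g : ℕ → ℝ) (v e : ℕ) : List (ℕ → ℝ) :=
  List.replicate v r ++ (List.replicate e d ++ [g])

theorem length_SL (r d g : ℕ → ℝ) (v e : ℕ) : (SL r d g v e).length = v + e + 1 := by
  simp [SL]; omega

theorem meanL_replicate (p : ℕ → ℝ) (n : ℕ) : meanL (List.replicate n p) = n * mean p := by
  simp [meanL]

theorem meanL_SL (r d g : ℕ → ℝ) (v e : ℕ) :
    meanL (SL r d g v e) = v * mean r + (e * mean d + mean g) := by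
  rw [SL, meanL_append, meanL_append, meanL_replicate, meanL_replicate]
  simp

theorem mem_SL {r d g : ℕ → ℝ} {v e : ℕ} {P : (ℕ → ℝ) → Prop} (hr : P r) (hd : P d) (hg : P g) :
    ∀ p ∈ SL r d g v e, P p := by
  intro p hp
  rw [SL, List.mem_append, List.mem_append, List.mem_singleton] at hp
  rcases hp with h | h | h
  · rw [List.eq_of_mem_replicate h]; exact hr
  · rw [List.eq_of_mem_replicate h]; exact hd
  · rw [h]; exact hg

/-- local bound from sup bounds of the two parts -/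
theorem local_of_sup {K : ℝ} (hK : 0 ≤ K) {l1 l2 : List (ℕ → ℝ)} (h1 : ∀ p ∈ l1, HT K p)
    (h2 : ∀ p ∈ l2, HT K p) {B : ℝ} (hB : 0 ≤ B) (hB1 : ∀ n, cvL l1 n ≤ B)
    (hB2 : ∀ n, cvL l2 n ≤ B) {m : ℕ} {t : ℝ} (ht : 0 < t)
    (htm : t ≤ |(m : ℝ) - (meanL l1 + meanL l2)|) :
    cvL (l1 ++ l2) m ≤ 4 * B * (4 * dK K + 1) * ((l1.length : ℝ) + l2.length) *
      t ^ (-(3 / 2) : ℝ) := by
  have hd := dK_nonneg hK
  have hL1 : IsLaw (cvL l1) := isLaw_cvL fun p hp => (h1 p hp).law
  have hL2 : IsLaw (cvL l2) := isLaw_cvL fun p hp => (h2 p hp).law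
  have ht2 : 0 < t / 2 := by linarith
  have h3 := halving hL1 hL2 hB hB1 hB2 (m := m) (M1 := meanL l1) (M2 := meanL l2) (t := t / 2)
    (by linarith)
  have h4 := heavy_dev hK h1 ht2
  have h5 := heavy_dev hK h2 ht2
  rw [cvL_append]
  have htpos : 0 < t ^ (-(3 / 2) : ℝ) := Real.rpow_pos_of_pos ht _
  have e1 : (t / 2) ^ (-(3 / 2) : ℝ) ≤ 4 * t ^ (-(3 / 2) : ℝ) := by
    rw [Real.div_rpow ht.le (by norm_num), Real.rpow_neg (by norm_num : (0:ℝ) ≤ 2), div_inv_eq_mul,
      mul_comm]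
    have b1 : (2 : ℝ) ^ (3 / 2 : ℝ) ≤ 4 := by
      have : (2 : ℝ) ^ (3 / 2 : ℝ) ≤ 2 ^ (2 : ℝ) :=
        Real.rpow_le_rpow_of_exponent_le (by norm_num) (by norm_num)
      refine this.trans (le_of_eq ?_)
      norm_num
    exact mul_le_mul_of_nonneg_right b1 htpos.le
  refine h3.trans ?_
  have h6 : pr (cvL l1) {n | t / 2 ≤ |(n : ℝ) - meanL l1|} +
      pr (cvL l2) {n | t / 2 ≤ |(n : ℝ) - meanL l2|} ≤
      (4 * dK K + 1) * ((l1.length : ℝ) + l2.length) * (4 * t ^ (-(3 / 2) : ℝ)) := by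
    calc _ ≤ (4 * dK K + 1) * (l1.length : ℝ) * (t / 2) ^ (-(3 / 2) : ℝ) +
          (4 * dK K + 1) * (l2.length : ℝ) * (t / 2) ^ (-(3 / 2) : ℝ) := add_le_add h4 h5
      _ = (4 * dK K + 1) * ((l1.length : ℝ) + l2.length) * (t / 2) ^ (-(3 / 2) : ℝ) := by ring
      _ ≤ _ := mul_le_mul_of_nonneg_left e1 (by positivity)
  calc _ ≤ B * ((4 * dK K + 1) * ((l1.length : ℝ) + l2.length) * (4 * t ^ (-(3 / 2) : ℝ))) :=
        mul_le_mul_of_nonneg_left h6 hB
    _ = _ := by ring

/-- sup bound for a list containing `h` copies of `d` -/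
theorem sup_replicate {d : ℕ → ℝ} (hd : DL d) : ∃ K : ℝ, 0 < K ∧ ∀ h : ℕ, 1 ≤ h →
    ∀ l : List (ℕ → ℝ), (∀ p ∈ l, IsLaw p) → ∀ n,
      cvL (List.replicate h d ++ l) n ≤ K * (h : ℝ) ^ (-(2 / 3) : ℝ) := by
  obtain ⟨c, hc, hw⟩ := hd.wl
  obtain ⟨K, hK, hb⟩ := win_conc hc 0
  refine ⟨K, hK, fun h hh l hl n => ?_⟩
  have h1 := (hb (List.replicate h d) (fun p hp => by rw [List.eq_of_mem_replicate hp]; exact hw)
    (by
      intro h0
      have := congrArg List.length h0
      simp at this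
      omega)).1
  rw [List.length_replicate] at h1
  rw [cvL_append, cv_comm]
  exact (isLaw_cvL hl).cv_le (by positivity) h1 n

/-- **(H1)** local bound -/
theorem H1 {r d g : ℕ → ℝ} {K : ℝ} (hr : HT K r) (hd : HT K d) (hg : HT K g) (hD : DL d) (A : ℝ) :
    ∃ K' : ℝ, 0 < K' ∧ ∀ v e : ℕ, 1 ≤ e → (v : ℝ) ≤ A * e → ∀ n : ℕ,
      cvL (SL r d g v e) n ≤ K' * (e : ℝ) ^ (-(2 / 3) : ℝ) ∧
      ∀ t : ℝ, 0 < t → t ≤ |(n : ℝ) - meanL (SL r d g v e)| →
        cvL (SL r d g v e) n ≤ K' * (e : ℝ) ^ (1 / 3 : ℝ) * t ^ (-(3 / 2) : ℝ) := by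
  have hK := hr.K_nonneg
  obtain ⟨K1, hK1, hsup⟩ := sup_replicate hD
  have hdK := dK_nonneg hK
  have hA' : A ≤ |A| := le_abs_self A
  have hA0 : 0 ≤ |A| := abs_nonneg A
  refine ⟨K1 + 4 * (3 * K1) * (4 * dK K + 1) * (|A| + 2) + (4 * dK K + 1) * (|A| + 2), by positivity,
    fun v e he hv n => ?_⟩
  have he' : (1 : ℝ) ≤ e := by exact_mod_cast he
  have hepos : (0 : ℝ) < e := by linarith
  have hv' : (v : ℝ) ≤ |A| * e := hv.trans (mul_le_mul_of_nonneg_right hA' hepos.le)
  have hHT := mem_SL (v := v) (e := e) (P := HT K) hr hd hg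
  have hL : IsLaw (cvL (SL r d g v e)) := isLaw_cvL fun p hp => (hHT p hp).law
  have hperm : cvL (SL r d g v e) = cvL (List.replicate e d ++ (List.replicate v r ++ [g])) := by
    apply cvL_perm
    rw [SL]
    rw [← List.append_assoc, ← List.append_assoc]
    exact (List.perm_append_comm).append_right _
  have hrest : ∀ p ∈ List.replicate v r ++ [g], IsLaw p := by
    intro p hp
    rw [List.mem_append, List.mem_singleton] at hp
    rcases hp with h | h
    · rw [List.eq_of_mem_replicate h]; exact hr.law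
    · rw [h]; exact hg.law
  constructor
  · rw [hperm]
    refine (hsup e he _ hrest n).trans ?_
    refine mul_le_mul_of_nonneg_right ?_ (by positivity)
    have : 0 ≤ 4 * (3 * K1) * (4 * dK K + 1) * (|A| + 2) + (4 * dK K + 1) * (|A| + 2) := by positivity
    linarith
  · intro t ht htm
    have htpos : 0 < t ^ (-(3 / 2) : ℝ) := Real.rpow_pos_of_pos ht _
    have hlen : ((SL r d g v e).length : ℝ) ≤ (|A| + 2) * e := by
      rw [length_SL]; push_cast; nlinarith
    have e3 : (e : ℝ) ^ (-(2 / 3) : ℝ) * (e : ℝ) = (e : ℝ) ^ (1 / 3 : ℝ) := by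
      nth_rewrite 2 [← Real.rpow_one (e : ℝ)]
      rw [← Real.rpow_add hepos]; norm_num
    rcases Nat.lt_or_ge e 2 with h2 | h2
    · have he1 : e = 1 := by omega
      have h4 := heavy_dev hK hHT ht
      have h5 : cvL (SL r d g v e) n ≤ pr (cvL (SL r d g v e))
        {n | t ≤ |(n : ℝ) - meanL (SL r d g v e)|} := hL.le_pr htm
      refine (h5.trans h4).trans ?_
      have h6 : ((SL r d g v e).length : ℝ) ≤ |A| + 2 := by
        refine hlen.trans ?_
        rw [he1]; simp
      have e4 : (e : ℝ) ^ (1 / 3 : ℝ) = 1 := by rw [he1]; simp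
      rw [e4, mul_one]
      refine mul_le_mul_of_nonneg_right ?_ htpos.le
      have h7 : (4 * dK K + 1) * ((SL r d g v e).length : ℝ) ≤ (4 * dK K + 1) * (|A| + 2) :=
        mul_le_mul_of_nonneg_left h6 (by positivity)
      have : 0 ≤ K1 + 4 * (3 * K1) * (4 * dK K + 1) * (|A| + 2) := by positivity
      linarith
    · -- split the copies of `d`
      set h1 := e - e / 2 with hh1
      set h2' := e / 2 with hh2
      have hsum : h1 + h2' = e := by omega
      set l1 := List.replicate h1 d ++ (List.replicate v r ++ [g]) with hl1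
      set l2 := List.replicate h2' d ++ ([] : List (ℕ → ℝ)) with hl2
      have hperm2 : cvL (SL r d g v e) = cvL (l1 ++ l2) := by
        rw [hperm]
        apply cvL_perm
        have : List.replicate e d = List.replicate h2' d ++ List.replicate h1 d := by
          rw [← hsum, ← List.replicate_add, Nat.add_comm]
        rw [this, hl1, hl2, List.append_nil]
        rw [List.append_assoc]
        exact List.perm_append_comm
      have hm1 : ∀ p ∈ l1, HT K p := by
        intro p hp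
        rw [hl1, List.mem_append, List.mem_append, List.mem_singleton] at hp
        rcases hp with h | h | h
        · rw [List.eq_of_mem_replicate h]; exact hd
        · rw [List.eq_of_mem_replicate h]; exact hr
        · rw [h]; exact hg
      have hm2 : ∀ p ∈ l2, HT K p := by
        intro p hp
        rw [hl2, List.append_nil] at hp
        rw [List.eq_of_mem_replicate hp]; exact hd
      have hmean : meanL (SL r d g v e) = meanL l1 + meanL l2 := by
        rw [meanL_SL, hl1, hl2, meanL_append, meanL_append, meanL_append, meanL_replicate,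
          meanL_replicate, meanL_replicate]
        have : (e : ℝ) = h1 + h2' := by rw [← hsum]; push_cast; ring
        rw [this]
        simp
        ring
      have hb : ∀ k : ℕ, 1 ≤ k → e ≤ 3 * k → K1 * (k : ℝ) ^ (-(2 / 3) : ℝ) ≤
          3 * K1 * (e : ℝ) ^ (-(2 / 3) : ℝ) := by
        intro k hk1 hk
        have hk' : (e : ℝ) ≤ 3 * k := by exact_mod_cast hk
        have hkpos : (0 : ℝ) < k := by exact_mod_cast hk1
        have h1 : (k : ℝ) ^ (-(2 / 3) : ℝ) ≤ ((e : ℝ) / 3) ^ (-(2 / 3) : ℝ) :=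
          Real.rpow_le_rpow_of_nonpos (by positivity) (by linarith) (by norm_num)
        have e2 : ((e : ℝ) / 3) ^ (-(2 / 3) : ℝ) =
            (e : ℝ) ^ (-(2 / 3) : ℝ) * 3 ^ (2 / 3 : ℝ) := by
          rw [Real.div_rpow hepos.le (by norm_num), Real.rpow_neg (by norm_num : (0:ℝ) ≤ 3),
            div_inv_eq_mul]
        have b2 : (3 : ℝ) ^ (2 / 3 : ℝ) ≤ 3 := by
          have : (3 : ℝ) ^ (2 / 3 : ℝ) ≤ 3 ^ (1 : ℝ) :=
            Real.rpow_le_rpow_of_exponent_le (by norm_num) (by norm_num)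
          rwa [Real.rpow_one] at this
        have hp : 0 < (e : ℝ) ^ (-(2 / 3) : ℝ) := Real.rpow_pos_of_pos hepos _
        rw [e2] at h1
        have h3 : (e : ℝ) ^ (-(2 / 3) : ℝ) * 3 ^ (2 / 3 : ℝ) ≤ (e : ℝ) ^ (-(2 / 3) : ℝ) * 3 :=
          mul_le_mul_of_nonneg_left b2 hp.le
        have h4 := mul_le_mul_of_nonneg_left (h1.trans h3) hK1.le
        linarith
      have hB1 : ∀ n, cvL l1 n ≤ 3 * K1 * (e : ℝ) ^ (-(2 / 3) : ℝ) := fun n =>
        (hsup h1 (by omega) _ hrest n).trans (hb h1 (by omega) (by omega))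
      have hB2 : ∀ n, cvL l2 n ≤ 3 * K1 * (e : ℝ) ^ (-(2 / 3) : ℝ) := fun n =>
        (hsup h2' (by omega) _ (by simp) n).trans (hb h2' (by omega) (by omega))
      have hloc := local_of_sup hK hm1 hm2 (by positivity) hB1 hB2 (m := n) ht
        (by rw [← hmean]; exact htm)
      rw [hperm2]
      refine hloc.trans ?_
      have hlen2 : (l1.length : ℝ) + l2.length ≤ (|A| + 2) * e := by
        refine le_trans (le_of_eq ?_) hlen
        rw [length_SL, hl1, hl2]
        simp only [List.length_append, List.length_replicate, List.length_singleton,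
          List.length_nil]
        have : (e : ℝ) = h1 + h2' := by rw [← hsum]; push_cast; ring
        push_cast
        rw [this]
        ring
      have hpp : 0 < (e : ℝ) ^ (-(2 / 3) : ℝ) := Real.rpow_pos_of_pos hepos _
      have hq : 0 < (e : ℝ) ^ (1 / 3 : ℝ) := Real.rpow_pos_of_pos hepos _
      refine mul_le_mul_of_nonneg_right ?_ htpos.le
      calc 4 * (3 * K1 * (e : ℝ) ^ (-(2 / 3) : ℝ)) * (4 * dK K + 1) *
            ((l1.length : ℝ) + l2.length)
          ≤ 4 * (3 * K1 * (e : ℝ) ^ (-(2 / 3) : ℝ)) * (4 * dK K + 1) * ((|A| + 2) * e) :=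
            mul_le_mul_of_nonneg_left hlen2 (by positivity)
        _ = 4 * (3 * K1) * (4 * dK K + 1) * (|A| + 2) * ((e : ℝ) ^ (-(2 / 3) : ℝ) * e) := by ring
        _ = 4 * (3 * K1) * (4 * dK K + 1) * (|A| + 2) * (e : ℝ) ^ (1 / 3 : ℝ) := by rw [e3]
        _ ≤ _ := by
          refine mul_le_mul_of_nonneg_right ?_ hq.le
          have : 0 ≤ (4 * dK K + 1) * (|A| + 2) := by positivity
          linarith

/-- **(H2)** deviations -/
theorem H2 {r d g : ℕ → ℝ} {K : ℝ} (hr : HT K r) (hd : HT K d) (hg : HT K g) (A : ℝ) :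
    ∃ K' : ℝ, 0 < K' ∧ ∀ v e : ℕ, 1 ≤ e → (v : ℝ) ≤ A * e → ∀ t : ℝ, 0 < t →
      pr (cvL (SL r d g v e)) {n | t ≤ |(n : ℝ) - meanL (SL r d g v e)|} ≤
        K' * e * t ^ (-(3 / 2) : ℝ) := by
  have hK := hr.K_nonneg
  have hdK := dK_nonneg hK
  have hA' : A ≤ |A| := le_abs_self A
  have hA0 : 0 ≤ |A| := abs_nonneg A
  refine ⟨(4 * dK K + 1) * (|A| + 2), by positivity, fun v e he hv t ht => ?_⟩
  have he' : (1 : ℝ) ≤ e := by exact_mod_cast he
  have hepos : (0 : ℝ) < e := by linarith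
  have hv' : (v : ℝ) ≤ |A| * e := hv.trans (mul_le_mul_of_nonneg_right hA' hepos.le)
  have hHT := mem_SL (v := v) (e := e) (P := HT K) hr hd hg
  have htpos : 0 < t ^ (-(3 / 2) : ℝ) := Real.rpow_pos_of_pos ht _
  have hlen : ((SL r d g v e).length : ℝ) ≤ (|A| + 2) * e := by
    rw [length_SL]; push_cast; nlinarith
  refine (heavy_dev hK hHT ht).trans ?_
  refine mul_le_mul_of_nonneg_right ?_ htpos.le
  calc (4 * dK K + 1) * ((SL r d g v e).length : ℝ) ≤ (4 * dK K + 1) * ((|A| + 2) * e) :=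
        mul_le_mul_of_nonneg_left hlen (by positivity)
    _ = _ := by ring

end Pool.Agent.DiamP.Hv
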