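import Pool.Agent.DiamP.Prob

/-!
# Algebra of convolutions (through power series), size biasing
-/

set_option autoImplicit false

open Finset Filter Topology
open scoped Real

namespace Pool.Agent.DiamP

theorem mk_cv (p q : ℕ → ℝ) :
    PowerSeries.mk (cv p q) = PowerSeries.mk p * PowerSeries.mk q := by
  ext n
  rw [PowerSeries.coeff_mul, PowerSeries.coeff_mk]
  simp only [PowerSeries.coeff_mk]
  rfl

theorem mk_inj {p q : ℕ → ℝ} (h : PowerSeries.mk p = PowerSeries.mk q) : p = q := by
  funext n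
  have := congrArg (PowerSeries.coeff n) h
  simpa only [PowerSeries.coeff_mk] using this

theorem cv_assoc (p q r : ℕ → ℝ) : cv (cv p q) r = cv p (cv q r) := by
  apply mk_inj
  rw [mk_cv, mk_cv, mk_cv, mk_cv, mul_assoc]

theorem cv_left_comm (p q r : ℕ → ℝ) : cv p (cv q r) = cv q (cv p r) := by
  rw [← cv_assoc, cv_comm p q, cv_assoc]

theorem mk_one0 : PowerSeries.mk one0 = 1 := by
  ext n
  rw [PowerSeries.coeff_mk, PowerSeries.coeff_one]
  rfl

@[simp] theorem cv_one0 (p : ℕ → ℝ) : cv p one0 = p := by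
  apply mk_inj
  rw [mk_cv, mk_one0, mul_one]

@[simp] theorem one0_cv (p : ℕ → ℝ) : cv one0 p = p := by
  rw [cv_comm, cv_one0]

theorem cvL_append (l l' : List (ℕ → ℝ)) : cvL (l ++ l') = cv (cvL l) (cvL l') := by
  induction l with
  | nil => simp
  | cons p l ih => rw [List.cons_append, cvL_cons, ih, cvL_cons, cv_assoc]

@[simp] theorem cvL_singleton (p : ℕ → ℝ) : cvL [p] = p := by simp

theorem cvL_perm {l l' : List (ℕ → ℝ)} (h : l.Perm l') : cvL l = cvL l' := by
  induction h with
  | nil => rfl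
  | cons p _ ih => rw [cvL_cons, cvL_cons, ih]
  | swap p q l => simp only [cvL_cons]; rw [cv_left_comm]
  | trans _ _ h1 h2 => exact h1.trans h2

theorem cv_add (p q r : ℕ → ℝ) : cv p (q + r) = cv p q + cv p r := by
  funext n
  simp only [cv, Pi.add_apply, mul_add, sum_add_distrib]

theorem cv_mono {p q r : ℕ → ℝ} (hp : ∀ n, 0 ≤ p n) (h : ∀ n, q n ≤ r n) (n : ℕ) :
    cv p q n ≤ cv p r n :=
  sum_le_sum fun _ _ => mul_le_mul_of_nonneg_left (h _) (hp _)

/-- a law convolved with a sequence `≤ B` is `≤ B` -/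
theorem IsLaw.cv_le {p q : ℕ → ℝ} (hp : IsLaw p) {B : ℝ} (hB : 0 ≤ B) (h : ∀ n, q n ≤ B) (n : ℕ) :
    DiamP.cv p q n ≤ B := by
  rw [cv_eq_range]
  calc ∑ a ∈ range (n + 1), p a * q (n - a) ≤ ∑ a ∈ range (n + 1), p a * B :=
        sum_le_sum fun a _ => mul_le_mul_of_nonneg_left (h _) (hp.nonneg a)
    _ = (∑ a ∈ range (n + 1), p a) * B := by rw [Finset.sum_mul]
    _ ≤ 1 * B := mul_le_mul_of_nonneg_right (hp.sum_le_one _) hB
    _ = B := one_mul B

/-- size biasing -/
def sb (p : ℕ → ℝ) (n : ℕ) : ℝ := (n : ℝ) * p n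

theorem sb_cv (p q : ℕ → ℝ) : sb (cv p q) = cv (sb p) q + cv p (sb q) := by
  funext n
  simp only [sb, cv, Pi.add_apply, Finset.mul_sum]
  rw [← Finset.sum_add_distrib]
  refine sum_congr rfl fun ij hij => ?_
  have : (n : ℝ) = (ij.1 : ℝ) + (ij.2 : ℝ) := by
    rw [← Finset.HasAntidiagonal.mem_antidiagonal.1 hij]; push_cast; ring
  rw [this]
  ring

theorem sb_one0 : sb one0 = 0 := by
  funext n
  simp only [sb, one0, Pi.zero_apply]
  split_ifs with h
  · simp [h]
  · simp

theorem cv_zero (p : ℕ → ℝ) : cv p 0 = 0 := by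
  funext n
  simp [cv]

/-- size biasing of a sum: one term at a time -/
theorem size_bias (Q : (ℕ → ℝ) → Prop) (B : ℝ) (n g : ℕ)
    (hB : ∀ p rest, Q p → (∀ q ∈ rest, Q q) → rest.length = g → cv (sb p) (cvL rest) n ≤ B) :
    ∀ l l' : List (ℕ → ℝ), (∀ p ∈ l, Q p) → (∀ p ∈ l', Q p) → l.length + l'.length = g + 1 →
      cv (cvL l') (sb (cvL l)) n ≤ (l.length : ℝ) * B := by
  intro l
  induction l with
  | nil =>
    intro l' _ _ _
    rw [cvL_nil, sb_one0, cv_zero]
    simp
  | cons p l ih =>
    intro l' hl hl' hlen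
    rw [cvL_cons, sb_cv, cv_add, Pi.add_apply]
    have h1 : cv (cvL l') (cv (sb p) (cvL l)) = cv (sb p) (cvL (l' ++ l)) := by
      rw [cv_left_comm, cvL_append]
    have h2 : cv (cvL l') (cv p (sb (cvL l))) = cv (cvL (p :: l')) (sb (cvL l)) := by
      rw [cv_left_comm, cvL_cons, cv_assoc]
    rw [h1, h2]
    have h3 := ih (p :: l') (fun q hq => hl q (by simp [hq])) (by
      intro q hq
      rcases List.mem_cons.1 hq with rfl | hq
      · exact hl q (by simp)
      · exact hl' q hq) (by simp only [List.length_cons] at hlen ⊢; omega)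
    have h4 := hB p (l' ++ l) (hl p (by simp)) (by
      intro q hq
      rcases List.mem_append.1 hq with hq | hq
      · exact hl' q hq
      · exact hl q (by simp [hq])) (by
        rw [List.length_append]; simp only [List.length_cons] at hlen; omega)
    rw [List.length_cons]
    push_cast
    linarith

/-- expectations of subadditive functions -/
theorem ex_subadd {g : ℕ → ℝ} {C B : ℝ} (hg : ∀ n, |g n| ≤ C) (h0 : g 0 = 0)
    (hsub : ∀ a b, g (a + b) ≤ g a + g b) {l : List (ℕ → ℝ)} (hl : ∀ p ∈ l, IsLaw p)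
    (hB : ∀ p ∈ l, ex p g ≤ B) : ex (cvL l) g ≤ (l.length : ℝ) * B := by
  induction l with
  | nil =>
    rw [cvL_nil]
    have : ex one0 g = 0 := by
      unfold ex
      rw [tsum_eq_single 0]
      · rw [h0, mul_zero]
      · intro n hn
        simp [one0, hn]
    rw [this]
    simp
  | cons p l ih =>
    have hp := hl p (by simp)
    have hl' : ∀ q ∈ l, IsLaw q := fun q hq => hl q (by simp [hq])
    have ih' := ih hl' fun q hq => hB q (by simp [hq])
    have hL := isLaw_cvL hl'
    rw [cvL_cons, ex_cv hp hL hg]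
    have h1 : ∀ a, ex (cvL l) (fun b => g (a + b)) ≤ g a + ex (cvL l) g := by
      intro a
      have h2 := hL.ex_mono (f := fun b => g (a + b)) (g := fun b => g a + g b)
        (hL.summable_mul (C := C) fun n => hg _) (hL.summable_mul (C := C + C) fun n =>
          (abs_add_le _ _).trans (add_le_add (hg _) (hg _))) (fun b => hsub a b)
      refine h2.trans (le_of_eq ?_)
      unfold ex
      simp_rw [mul_add]
      rw [(hL.summable.mul_right (g a)).tsum_add (hL.summable_mul hg), tsum_mul_right, hL.tsum,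
        one_mul]
    have h2 := hp.ex_mono (f := fun a => ex (cvL l) (fun b => g (a + b)))
      (g := fun a => g a + ex (cvL l) g)
      (hp.summable_mul (C := C) fun a => hL.ex_abs_le fun b => hg _)
      (hp.summable_mul (C := C + C) fun n =>
          (abs_add_le _ _).trans (add_le_add (hg _) (hL.ex_abs_le hg))) h1
    refine h2.trans ?_
    have h3 : ex p (fun a => g a + ex (cvL l) g) = ex p g + ex (cvL l) g := by
      unfold ex
      simp_rw [mul_add]
      rw [(hp.summable_mul hg).tsum_add (hp.summable.mul_right _), tsum_mul_right, hp.tsum, one_mul]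
    rw [h3, List.length_cons]
    push_cast
    have := hB p (by simp)
    linarith

end Pool.Agent.DiamP
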