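import Pool.Agent.PGc.RgDer

/-!
# The derivative of `Rg` at the critical point, exactly
-/

set_option autoImplicit false
set_option linter.unusedSectionVars false

namespace Pool.Agent.DiamP
open Set PGr Filter Topology
open scoped ENNReal

/-- the exact derivative of `Rg` below the critical point -/
theorem RgE_exact {t : ℝ} (h0 : 0 < t) (h1 : t < 1) (hs : scr t ≤ 1 / 10) {v : ℝ} (hv : 0 < v)
    (hv' : v < t) :
    RgE (ENNReal.ofReal (scr t)) (ENNReal.ofReal (Ef (scr t) v)) ≠ ⊤ ∧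
    (RgE (ENNReal.ofReal (scr t)) (ENNReal.ofReal (Ef (scr t) v))).toReal =
      1 / (1 + Ef (scr t) v) ^ 2 + 1 / (1 + scr t * Ef (scr t) v) ^ 2 - 1 -
        (1 - uf (scr t) v) ^ 2 * (1 - v) ^ 2 := by
  obtain ⟨V, hV, hV'⟩ := exists_inverse h0 h1
  have hsp : 0 < scr t := scr_pos h0 h1
  have hcrit := Ef_crit h0 h1
  have hmono := Ef_strictMonoOn h0 h1
  set s : ℝ := scr t with hsdef
  have hv1 : v < 1 := hv'.trans h1
  set E : ℝ := Ef s v with hEdef
  have hE : 0 < E := by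
    have := hmono (left_mem_Icc.2 h0.le) ⟨hv.le, hv'.le⟩ hv
    rwa [Ef_zero] at this
  have hE' : E < ecr t := by
    rw [← hcrit]
    exact hmono ⟨hv.le, hv'.le⟩ (right_mem_Icc.2 h0.le) hv'
  have hVE : V E = v := hV' v ⟨hv, hv'⟩
  -- the value of `Rg`
  have hval : ∀ z ∈ Ioo 0 (ecr t), 0 ≤ Rf s (V z) ∧
      Rg (ENNReal.ofReal s) (ENNReal.ofReal z) = ENNReal.ofReal (Rf s (V z)) := by
    intro z hz
    obtain ⟨-, hv0, hvt, hEf⟩ := hV z hz
    have h := Rg_expl h0 h1 hs hv0 hvt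
    rw [hEf] at h
    exact h
  obtain ⟨hVan, -, -, -⟩ := hV E ⟨hE, hE'⟩
  -- the inverse function
  have hVd : HasDerivAt V (deriv V E) E := hVan.differentiableAt.hasDerivAt
  have hEd := Ef_hasDerivAt hsp hv hv1
  have hYd := Yf_hasDerivAt hsp hv hv1
  have hq : 0 < qf s v := qf_pos hv hv' h1
  have hu0 : 0 < uf s v := uf_pos hsp hv hv1
  have hu1 : uf s v < 1 := uf_lt_one hsp hv hv1
  set e' : ℝ := qf s v / ((1 + uf s v) * (1 - v) ^ 3) with he'
  set y' : ℝ := (1 - uf s v) ^ 2 * qf s v / ((1 + uf s v) * (1 - v)) with hy'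
  have h1v : 0 < 1 - v := by linarith
  have he'0 : 0 < e' := by positivity
  have hmem : Ioo 0 (ecr t) ∈ nhds E := Ioo_mem_nhds hE hE'
  have hcomp : HasDerivAt (fun z => Ef s (V z)) (e' * deriv V E) E :=
    HasDerivAt.comp E (h₂ := Ef s) (by rw [hVE]; exact hEd) hVd
  have hid : HasDerivAt (fun z : ℝ => Ef s (V z)) 1 E := by
    refine (hasDerivAt_id E).congr_of_eventuallyEq ?_
    filter_upwards [hmem] with z hz
    exact (hV z hz).2.2.2
  have hone : e' * deriv V E = 1 := hcomp.unique hid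
  have hYV : HasDerivAt (fun z => Yf s (V z)) (y' * deriv V E) E :=
    HasDerivAt.comp E (h₂ := Yf s) (by rw [hVE]; exact hYd) hVd
  have hyV : y' * deriv V E = (1 - uf s v) ^ 2 * (1 - v) ^ 2 := by
    have h2 : y' = e' * ((1 - uf s v) ^ 2 * (1 - v) ^ 2) := by
      rw [hy', he']
      field_simp
    rw [h2]
    calc e' * ((1 - uf s v) ^ 2 * (1 - v) ^ 2) * deriv V E =
          (e' * deriv V E) * ((1 - uf s v) ^ 2 * (1 - v) ^ 2) := by ring
      _ = _ := by rw [hone, one_mul]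
  -- the derivative of the explicit formula
  have hsE : 0 < 1 + s * E := by positivity
  have h1E : 0 < 1 + E := by positivity
  have hA : HasDerivAt (fun z : ℝ => s * z ^ 2 / (1 + s * z)) (1 - 1 / (1 + s * E) ^ 2) E := by
    have a1 : HasDerivAt (fun z : ℝ => s * z ^ 2) (s * (2 * E)) E := by
      have := (hasDerivAt_pow 2 E).const_mul s
      simpa using this
    have a2 : HasDerivAt (fun z : ℝ => 1 + s * z) s E := by
      have := ((hasDerivAt_id E).const_mul s).const_add 1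
      simpa using this
    refine (a1.fun_div a2 hsE.ne').congr_deriv ?_
    field_simp
    ring
  have hB : HasDerivAt (fun z : ℝ => z ^ 2 / (1 + z)) (1 - 1 / (1 + E) ^ 2) E := by
    have a1 : HasDerivAt (fun z : ℝ => z ^ 2) (2 * E) E := by
      have := hasDerivAt_pow 2 E
      simpa using this
    have a2 : HasDerivAt (fun z : ℝ => 1 + z) 1 E := by
      have := (hasDerivAt_id E).const_add 1
      simpa using this
    refine (a1.fun_div a2 h1E.ne').congr_deriv ?_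
    field_simp
    ring
  have hF : HasDerivAt (fun z : ℝ => z - Yf s (V z) - s * z ^ 2 / (1 + s * z) - z ^ 2 / (1 + z))
      (1 - y' * deriv V E - (1 - 1 / (1 + s * E) ^ 2) - (1 - 1 / (1 + E) ^ 2)) E :=
    (((hasDerivAt_id E).sub hYV).sub hA).sub hB
  -- the series
  obtain ⟨b, hb1, hb2⟩ := exists_between hE'
  have hb0 : 0 < b := hE.trans hb1
  have hfin : ∑' n, rc' (ENNReal.ofReal s) n * ENNReal.ofReal b ^ n ≠ ⊤ := by
    rw [← Rg_series, (hval b ⟨hb0, hb2⟩).2]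
    exact ENNReal.ofReal_ne_top
  obtain ⟨hne, hder⟩ := nonneg_series_deriv (rc' (ENNReal.ofReal s)) hb0 hfin hE hb1
  rw [← RgE_series] at hne hder
  have hder2 : HasDerivAt
      (fun z : ℝ => z - Yf s (V z) - s * z ^ 2 / (1 + s * z) - z ^ 2 / (1 + z))
      (RgE (ENNReal.ofReal s) (ENNReal.ofReal E)).toReal E := by
    refine hder.congr_of_eventuallyEq ?_
    filter_upwards [hmem] with z hz
    obtain ⟨g1, g2⟩ := hval z hz
    rw [← Rg_series, g2, ENNReal.toReal_ofReal g1, Rf, (hV z hz).2.2.2]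
  have heq := hder2.unique hF
  refine ⟨hne, ?_⟩
  rw [heq, hyV]
  ring

/-- the coefficients of `Rg` are finite -/
theorem rc_ne_top {t : ℝ} (h0 : 0 < t) (h1 : t < 1) (hs : scr t ≤ 1 / 10) (n : ℕ) :
    rc' (ENNReal.ofReal (scr t)) n ≠ ⊤ := by
  have hv : 0 < t / 2 := by linarith
  have hE : 0 < Ef (scr t) (t / 2) := by
    have := Ef_strictMonoOn h0 h1 (left_mem_Icc.2 h0.le) ⟨hv.le, by linarith⟩ hv
    rwa [Ef_zero] at this
  refine Pring_ne_top (rc' (ENNReal.ofReal (scr t))) hE ?_ n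
  rw [← Rg_series, (Rg_expl h0 h1 hs hv (by linarith)).2]
  exact ENNReal.ofReal_ne_top

/-- partial sums of the derivative at the critical point -/
theorem sum_rc_crit {t : ℝ} (h0 : 0 < t) (h1 : t < 1) (hs : scr t ≤ 1 / 10) (J : Finset ℕ) :
    ∑ j ∈ J, (j : ℝ) * (rc' (ENNReal.ofReal (scr t)) j).toReal * ecr t ^ (j - 1) ≤
      1 / (1 + ecr t) ^ 2 + 1 / (1 + scr t * ecr t) ^ 2 - 1 -
        (1 - uf (scr t) t) ^ 2 * (1 - t) ^ 2 := by
  have hsp : 0 < scr t := scr_pos h0 h1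
  have hcrit := Ef_crit h0 h1
  have hE0 : 0 < ecr t := ecr_pos h0 h1
  have hrc := rc_ne_top h0 h1 hs
  -- below the critical point
  have key : ∀ v, 0 < v → v < t →
      ∑ j ∈ J, (j : ℝ) * (rc' (ENNReal.ofReal (scr t)) j).toReal * Ef (scr t) v ^ (j - 1) ≤
      1 / (1 + Ef (scr t) v) ^ 2 + 1 / (1 + scr t * Ef (scr t) v) ^ 2 - 1 -
        (1 - uf (scr t) v) ^ 2 * (1 - v) ^ 2 := by
    intro v hv hv'
    obtain ⟨h2, h3⟩ := RgE_exact h0 h1 hs hv hv'
    have hE : 0 < Ef (scr t) v := by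
      have := Ef_strictMonoOn h0 h1 (left_mem_Icc.2 h0.le) ⟨hv.le, hv'.le⟩ hv
      rwa [Ef_zero] at this
    rw [← h3]
    have h4 : ENNReal.ofReal (∑ j ∈ J, (j : ℝ) * (rc' (ENNReal.ofReal (scr t)) j).toReal *
        Ef (scr t) v ^ (j - 1)) ≤ RgE (ENNReal.ofReal (scr t)) (ENNReal.ofReal (Ef (scr t) v)) := by
      rw [RgE_series, ENNReal.ofReal_sum_of_nonneg (fun j _ => by positivity)]
      refine le_trans (le_of_eq ?_) (ENNReal.sum_le_tsum J)
      refine Finset.sum_congr rfl fun j _ => ?_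
      rw [ENNReal.ofReal_mul (by positivity), ENNReal.ofReal_mul (Nat.cast_nonneg j),
        ENNReal.ofReal_natCast, ENNReal.ofReal_toReal (hrc j), ENNReal.ofReal_pow hE.le, mul_assoc]
    exact (ENNReal.ofReal_le_iff_le_toReal h2).1 h4
  -- the limit
  have hcE : ContinuousWithinAt (Ef (scr t)) (Iio t) t := by
    have h2 : ContinuousAt (Ef (scr t)) t := (Ef_hasDerivAt hsp h0 h1).continuousAt
    exact h2.continuousWithinAt
  have hcu : ContinuousWithinAt (uf (scr t)) (Iio t) t :=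
    (uf_hasDerivAt hsp h0 h1).continuousAt.continuousWithinAt
  have t1 : Tendsto (Ef (scr t)) (𝓝[<] t) (𝓝 (ecr t)) := by
    have := hcE.tendsto
    rwa [hcrit] at this
  have t2 : Tendsto (uf (scr t)) (𝓝[<] t) (𝓝 (uf (scr t) t)) := hcu.tendsto
  have t3 : Tendsto (fun v : ℝ => v) (𝓝[<] t) (𝓝 t) := tendsto_id.mono_left nhdsWithin_le_nhds
  have l1 : Tendsto (fun v => ∑ j ∈ J, (j : ℝ) * (rc' (ENNReal.ofReal (scr t)) j).toReal *
      Ef (scr t) v ^ (j - 1)) (𝓝[<] t) (𝓝 (∑ j ∈ J, (j : ℝ) *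
        (rc' (ENNReal.ofReal (scr t)) j).toReal * ecr t ^ (j - 1))) :=
    tendsto_finsetSum _ fun j _ => (t1.pow _).const_mul _
  have l2 : Tendsto (fun v => 1 / (1 + Ef (scr t) v) ^ 2 + 1 / (1 + scr t * Ef (scr t) v) ^ 2 - 1 -
        (1 - uf (scr t) v) ^ 2 * (1 - v) ^ 2) (𝓝[<] t) (𝓝 (1 / (1 + ecr t) ^ 2 +
        1 / (1 + scr t * ecr t) ^ 2 - 1 - (1 - uf (scr t) t) ^ 2 * (1 - t) ^ 2)) := by
    have a1 : Tendsto (fun v => 1 / (1 + Ef (scr t) v) ^ 2) (𝓝[<] t) (𝓝 (1 / (1 + ecr t) ^ 2)) :=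
      tendsto_const_nhds.div ((t1.const_add 1).pow 2) (by positivity)
    have a2 : Tendsto (fun v => 1 / (1 + scr t * Ef (scr t) v) ^ 2) (𝓝[<] t)
        (𝓝 (1 / (1 + scr t * ecr t) ^ 2)) :=
      tendsto_const_nhds.div (((t1.const_mul (scr t)).const_add 1).pow 2) (by positivity)
    have a3 : Tendsto (fun v => (1 - uf (scr t) v) ^ 2 * (1 - v) ^ 2) (𝓝[<] t)
        (𝓝 ((1 - uf (scr t) t) ^ 2 * (1 - t) ^ 2)) :=
      ((t2.const_sub 1).pow 2).mul ((t3.const_sub 1).pow 2)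
    exact ((a1.add a2).sub_const 1).sub a3
  refine le_of_tendsto_of_tendsto l1 l2 ?_
  filter_upwards [Ioo_mem_nhdsLT h0] with v hv
  exact key v hv.1 hv.2

end Pool.Agent.DiamP
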