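import Mathlib

/-!
# Sums of independent integer variables with heavy tails (MP_d7a93a_pr), basic definitions

Laws are functions `ℕ → ℝ`; `cv` is the convolution, `cvL` the convolution of a list.
-/

set_option autoImplicit false

open Finset Filter Topology

namespace Pool.Agent.DiamP

/-- a probability law on `ℕ` -/
structure IsLaw (p : ℕ → ℝ) : Prop where
  nonneg : ∀ n, 0 ≤ p n
  sum : HasSum p 1

/-- convolution -/
noncomputable def cv (p q : ℕ → ℝ) (n : ℕ) : ℝ :=
  ∑ ij ∈ antidiagonal n, p ij.1 * q ij.2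

/-- the unit of the convolution -/
def one0 : ℕ → ℝ := fun n => if n = 0 then 1 else 0

/-- convolution of a list of laws -/
noncomputable def cvL : List (ℕ → ℝ) → ℕ → ℝ
  | [] => one0
  | p :: l => cv p (cvL l)

@[simp] theorem cvL_nil : cvL [] = one0 := rfl
@[simp] theorem cvL_cons (p : ℕ → ℝ) (l : List (ℕ → ℝ)) : cvL (p :: l) = cv p (cvL l) := rfl

theorem IsLaw.summable {p : ℕ → ℝ} (h : IsLaw p) : Summable p := h.sum.summable

theorem IsLaw.tsum {p : ℕ → ℝ} (h : IsLaw p) : ∑' n, p n = 1 := h.sum.tsum_eq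

theorem IsLaw.le_one {p : ℕ → ℝ} (h : IsLaw p) (n : ℕ) : p n ≤ 1 := by
  rw [← h.tsum]
  exact h.summable.le_tsum n (fun m _ => h.nonneg m)

theorem IsLaw.sum_le_one {p : ℕ → ℝ} (h : IsLaw p) (s : Finset ℕ) : ∑ n ∈ s, p n ≤ 1 := by
  rw [← h.tsum]
  exact h.summable.sum_le_tsum s (fun m _ => h.nonneg m)

theorem isLaw_one0 : IsLaw one0 := by
  refine ⟨fun n => ?_, ?_⟩
  · unfold one0; split_ifs <;> norm_num
  · exact hasSum_ite_eq 0 1

theorem cv_nonneg {p q : ℕ → ℝ} (hp : ∀ n, 0 ≤ p n) (hq : ∀ n, 0 ≤ q n) (n : ℕ) : 0 ≤ cv p q n :=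
  sum_nonneg fun _ _ => mul_nonneg (hp _) (hq _)

theorem IsLaw.cv {p q : ℕ → ℝ} (hp : IsLaw p) (hq : IsLaw q) : IsLaw (cv p q) := by
  refine ⟨cv_nonneg hp.nonneg hq.nonneg, ?_⟩
  have hp' : Summable fun n => ‖p n‖ := by
    simpa [Real.norm_of_nonneg (hp.nonneg _)] using hp.summable
  have hq' : Summable fun n => ‖q n‖ := by
    simpa [Real.norm_of_nonneg (hq.nonneg _)] using hq.summable
  have h1 := tsum_mul_tsum_eq_tsum_sum_antidiagonal_of_summable_norm hp' hq'
  have h2 := (summable_norm_sum_mul_antidiagonal_of_summable_norm hp' hq').of_norm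
  rw [hp.tsum, hq.tsum, one_mul] at h1
  have h3 := h2.hasSum
  rw [← h1] at h3
  exact h3

theorem isLaw_cvL {l : List (ℕ → ℝ)} (hl : ∀ p ∈ l, IsLaw p) : IsLaw (cvL l) := by
  induction l with
  | nil => exact isLaw_one0
  | cons p l ih =>
    rw [cvL_cons]
    exact (hl p (by simp)).cv (ih fun q hq => hl q (by simp [hq]))

/-- convolution as a sum over the first variable -/
theorem cv_eq_range (p q : ℕ → ℝ) (n : ℕ) : cv p q n = ∑ a ∈ range (n + 1), p a * q (n - a) := by
  unfold cv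
  rw [Finset.Nat.sum_antidiagonal_eq_sum_range_succ (fun i j => p i * q j)]

theorem cv_comm (p q : ℕ → ℝ) : cv p q = cv q p := by
  funext n
  unfold cv
  rw [← Finset.sum_equiv (Equiv.prodComm ℕ ℕ) (s := antidiagonal n) (t := antidiagonal n)
    (g := fun ij => q ij.1 * p ij.2)]
  · intro ij
    simp [add_comm]
  · intro ij _
    simp [mul_comm]

/-- the integral formula of convolution with bounded functions:
`∑ n, cv p q n * f n = ∑ a, p a * ∑ b, q b * f (a + b)` -/
theorem hasSum_cv {p q : ℕ → ℝ} (hp : Summable fun n => ‖p n‖) (hq : Summable fun n => ‖q n‖)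
    {f : ℕ → ℝ} {C : ℝ} (hf : ∀ n, |f n| ≤ C) :
    ∑' n, cv p q n * f n = ∑' a, p a * ∑' b, q b * f (a + b) := by
  have hC : 0 ≤ C := le_trans (abs_nonneg _) (hf 0)
  have hsum : Summable (fun ab : ℕ × ℕ => p ab.1 * q ab.2 * f (ab.1 + ab.2)) := by
    have h1 : Summable (fun ab : ℕ × ℕ => ‖p ab.1‖ * ‖q ab.2‖ * C) :=
      (hp.mul_of_nonneg hq (fun _ => norm_nonneg _) (fun _ => norm_nonneg _)).mul_right C
    refine Summable.of_norm_bounded h1 fun ab => ?_
    rw [norm_mul, norm_mul]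
    exact mul_le_mul_of_nonneg_left (hf _) (mul_nonneg (norm_nonneg _) (norm_nonneg _))
  have h2 : ∑' a, p a * ∑' b, q b * f (a + b) =
      ∑' ab : ℕ × ℕ, p ab.1 * q ab.2 * f (ab.1 + ab.2) := by
    rw [hsum.tsum_prod]
    refine tsum_congr fun a => ?_
    rw [← tsum_mul_left]
    refine tsum_congr fun b => ?_
    ring
  have h3 : ∑' n, cv p q n * f n = ∑' ab : ℕ × ℕ, p ab.1 * q ab.2 * f (ab.1 + ab.2) := by
    rw [← (Finset.HasAntidiagonal.sigmaAntidiagonalEquivProd (A := ℕ)).tsum_eq]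
    have hsum' : Summable (fun x : (Σ n : ℕ, antidiagonal n) =>
        p (Finset.HasAntidiagonal.sigmaAntidiagonalEquivProd x).1 * q (Finset.HasAntidiagonal.sigmaAntidiagonalEquivProd x).2 *
          f ((Finset.HasAntidiagonal.sigmaAntidiagonalEquivProd x).1 + (Finset.HasAntidiagonal.sigmaAntidiagonalEquivProd x).2)) :=
      ((Finset.HasAntidiagonal.sigmaAntidiagonalEquivProd (A := ℕ)).summable_iff).2 hsum
    rw [hsum'.tsum_sigma]
    refine tsum_congr fun n => ?_
    rw [tsum_fintype]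
    unfold cv
    rw [Finset.sum_mul, ← Finset.sum_attach (antidiagonal n)]
    refine Finset.sum_congr rfl fun ij _ => ?_
    have := Finset.HasAntidiagonal.mem_antidiagonal.1 ij.2
    simp only [Finset.HasAntidiagonal.sigmaAntidiagonalEquivProd_apply]
    rw [this]
  rw [h3, h2]

end Pool.Agent.DiamP
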