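import Pool.Agent.DiamP.Basic

/-!
# Fourier bounds: concentration of sums of heavy tailed integer variables

`phi p θ` is the characteristic function.  If `p n ≥ c n ^ (-β)` for `n ≥ 1` (`β > 1`) then
`‖phi p θ‖ ≤ exp (-(c' |θ| ^ (β - 1)))` for `|θ| ≤ π`, and so `cvL l n ≤ C h ^ (-1/(β-1))` for every list
`l` of `h` such laws.
-/

set_option autoImplicit false

open Finset Filter Topology Complex MeasureTheory
open scoped Real

namespace Pool.Agent.DiamP

/-- characteristic function -/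
noncomputable def phi (p : ℕ → ℝ) (θ : ℝ) : ℂ := ∑' n : ℕ, (p n : ℂ) * cexp (I * (n : ℂ) * (θ : ℂ))

theorem norm_ex (n : ℕ) (θ : ℝ) : ‖cexp (I * (n : ℂ) * (θ : ℂ))‖ = 1 := by
  have : I * (n : ℂ) * (θ : ℂ) = ((n * θ : ℝ) : ℂ) * I := by push_cast; ring
  rw [this, Complex.norm_exp_ofReal_mul_I]

theorem IsLaw.summable_norm_phi {p : ℕ → ℝ} (hp : IsLaw p) (θ : ℝ) :
    Summable fun n : ℕ => ‖(p n : ℂ) * cexp (I * (n : ℂ) * (θ : ℂ))‖ := by
  simp only [norm_mul, norm_ex, mul_one]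
  simpa [Real.norm_of_nonneg (hp.nonneg _)] using hp.summable

theorem phi_cv {p q : ℕ → ℝ} (hp : IsLaw p) (hq : IsLaw q) (θ : ℝ) :
    phi (cv p q) θ = phi p θ * phi q θ := by
  unfold phi
  rw [tsum_mul_tsum_eq_tsum_sum_antidiagonal_of_summable_norm (hp.summable_norm_phi θ)
    (hq.summable_norm_phi θ)]
  refine tsum_congr fun n => ?_
  unfold cv
  push_cast
  rw [Finset.sum_mul]
  refine Finset.sum_congr rfl fun ij hij => ?_
  have h1 : (n : ℂ) = (ij.1 : ℂ) + (ij.2 : ℂ) := by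
    rw [← Finset.HasAntidiagonal.mem_antidiagonal.1 hij]; push_cast; ring
  rw [h1]
  have h2 : I * ((ij.1 : ℂ) + (ij.2 : ℂ)) * (θ : ℂ) =
      I * (ij.1 : ℂ) * (θ : ℂ) + I * (ij.2 : ℂ) * (θ : ℂ) := by ring
  rw [h2, Complex.exp_add]
  ring

theorem phi_one0 (θ : ℝ) : phi one0 θ = 1 := by
  unfold phi one0
  rw [tsum_eq_single 0]
  · simp
  · intro n hn
    simp [hn]

/-- inversion, as a bound -/
theorem IsLaw.le_integral {p : ℕ → ℝ} (hp : IsLaw p) (n : ℕ) :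
    p n ≤ (2 * π)⁻¹ * ∫ θ in (-π)..π, ‖phi p θ‖ := by
  set f : ℕ → C(ℝ, ℂ) := fun k =>
    ⟨fun θ => (p k : ℂ) * cexp (I * (k : ℂ) * (θ : ℂ)) * cexp (-(I * (n : ℂ) * (θ : ℂ))), by
      fun_prop⟩ with hf
  have hnorm : ∀ k, ‖(f k).restrict (⟨Set.uIcc (-π) π, isCompact_uIcc⟩ : TopologicalSpace.Compacts ℝ)‖
      ≤ p k := by
    intro k
    rw [ContinuousMap.norm_le _ (hp.nonneg k)]
    intro θ
    simp only [ContinuousMap.restrict_apply, hf, ContinuousMap.coe_mk, norm_mul]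
    rw [norm_ex]
    have : ‖cexp (-(I * (n : ℂ) * ((θ : ℝ) : ℂ)))‖ = 1 := by
      rw [Complex.exp_neg, norm_inv, norm_ex, inv_one]
    rw [this, mul_one, mul_one, Complex.norm_real, Real.norm_of_nonneg (hp.nonneg k)]
  have hsum : Summable fun k =>
      ‖(f k).restrict (⟨Set.uIcc (-π) π, isCompact_uIcc⟩ : TopologicalSpace.Compacts ℝ)‖ :=
    Summable.of_nonneg_of_le (fun _ => norm_nonneg _) hnorm hp.summable
  have h1 := intervalIntegral.hasSum_intervalIntegral_of_summable_norm hsum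
  have hint : ∀ k, ∫ θ in (-π)..π, f k θ = if k = n then (2 * π * p n : ℂ) else 0 := by
    intro k
    have h2 : ∀ θ : ℝ, f k θ = (p k : ℂ) * cexp (((k : ℂ) - n) * I * θ) := by
      intro θ
      simp only [hf, ContinuousMap.coe_mk]
      rw [mul_assoc, ← Complex.exp_add]
      congr 2
      ring
    simp only [h2]
    rw [intervalIntegral.integral_const_mul]
    split_ifs with hk
    · subst hk
      simp
      ring
    · have hc : ((k : ℂ) - n) * I ≠ 0 := by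
        refine mul_ne_zero ?_ I_ne_zero
        rw [sub_ne_zero]
        exact_mod_cast hk
      rw [integral_exp_mul_complex hc]
      have h3 : ((k : ℂ) - n) * I * ((π : ℝ) : ℂ) =
          ((k : ℂ) - n) * I * ((-π : ℝ) : ℂ) + (((k : ℤ) - n : ℤ) : ℂ) * (2 * π * I) := by
        push_cast; ring
      rw [h3, Complex.exp_add, Complex.exp_int_mul_two_pi_mul_I, mul_one, sub_self, zero_div,
        mul_zero]
  simp only [hint] at h1
  have h2 : ∫ θ in (-π)..π, ∑' k, f k θ = (2 * π * p n : ℂ) := by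
    have := h1.unique (hasSum_ite_eq n (2 * π * p n : ℂ))
    exact this
  have h3 : ∀ θ : ℝ, ∑' k, f k θ = phi p θ * cexp (-(I * (n : ℂ) * (θ : ℂ))) := by
    intro θ
    simp only [hf, ContinuousMap.coe_mk]
    rw [tsum_mul_right]
    rfl
  have h4 : ‖∫ θ in (-π)..π, ∑' k, f k θ‖ ≤ ∫ θ in (-π)..π, ‖phi p θ‖ := by
    refine le_trans (intervalIntegral.norm_integral_le_integral_norm (by linarith [Real.pi_pos])) ?_
    refine le_of_eq (intervalIntegral.integral_congr fun θ _ => ?_)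
    change ‖∑' k, f k θ‖ = ‖phi p θ‖
    rw [h3, norm_mul, Complex.exp_neg, norm_inv, norm_ex, inv_one, mul_one]
  rw [h2] at h4
  have h5 : ‖(2 * π * p n : ℂ)‖ = 2 * π * p n := by
    have : (2 * π * p n : ℂ) = ((2 * π * p n : ℝ) : ℂ) := by push_cast; ring
    rw [this, Complex.norm_real, Real.norm_of_nonneg]
    have := hp.nonneg n
    positivity
  rw [h5] at h4
  have h6 : 0 < 2 * π := by positivity
  rw [inv_mul_eq_div, le_div_iff₀ h6]
  linarith

/-- lower bound for `1 - ‖phi‖` -/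
theorem IsLaw.one_sub_phi {p : ℕ → ℝ} (hp : IsLaw p) {c β : ℝ} (hc : 0 < c) (hβ : 1 < β)
    (hlow : ∀ n : ℕ, 1 ≤ n → c * (n : ℝ) ^ (-β) ≤ p n) {θ : ℝ} (hθ : |θ| ≤ π) :
    c * (2 : ℝ) ^ (-(1 + β)) * π ^ (1 - β) / (2 * (1 + 2 ^ β)) * |θ| ^ (β - 1) ≤
      1 - ‖phi p θ‖ := by
  have hcpos : 0 ≤ c * (2 : ℝ) ^ (-(1 + β)) * π ^ (1 - β) / (2 * (1 + 2 ^ β)) := by positivity
  rcases eq_or_ne θ 0 with rfl | hθ0
  · rw [abs_zero, Real.zero_rpow (by linarith), mul_zero]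
    have h1 : ‖phi p 0‖ ≤ ∑' n, p n := by
      unfold phi
      refine (norm_tsum_le_tsum_norm (hp.summable_norm_phi 0)).trans (le_of_eq ?_)
      refine tsum_congr fun n => ?_
      rw [norm_mul, norm_ex, mul_one, Complex.norm_real, Real.norm_of_nonneg (hp.nonneg n)]
    rw [hp.tsum] at h1
    linarith
  have hab : 0 < |θ| := abs_pos.2 hθ0
  -- the unit vector
  obtain ⟨u, hu1, hu2⟩ : ∃ u : ℂ, ‖u‖ = 1 ∧ u * phi p θ = (‖phi p θ‖ : ℂ) := by
    rcases eq_or_ne (phi p θ) 0 with h0 | h0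
    · exact ⟨1, by simp, by simp [h0]⟩
    · refine ⟨(starRingEnd ℂ) (phi p θ) / ‖phi p θ‖, ?_, ?_⟩
      · have : ‖phi p θ‖ ≠ 0 := norm_ne_zero_iff.2 h0
        rw [norm_div, RCLike.norm_conj, Complex.norm_real, norm_norm, div_self this]
      · have : (‖phi p θ‖ : ℂ) ≠ 0 := by
          rw [Ne, Complex.ofReal_eq_zero]; exact norm_ne_zero_iff.2 h0
        rw [div_mul_eq_mul_div, mul_comm, Complex.mul_conj, Complex.normSq_eq_norm_sq]
        push_cast
        rw [sq, mul_div_assoc, div_self this, mul_one]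
  -- d n = 1 - Re (u e^{i n θ})
  set d : ℕ → ℝ := fun n => 1 - (u * cexp (I * (n : ℂ) * (θ : ℂ))).re with hd
  have hdsq : ∀ n : ℕ, ‖u * cexp (I * (n : ℂ) * (θ : ℂ)) - 1‖ ^ 2 = 2 * d n := by
    intro n
    have h1 : ‖u * cexp (I * (n : ℂ) * (θ : ℂ))‖ = 1 := by rw [norm_mul, hu1, norm_ex, one_mul]
    set w := u * cexp (I * (n : ℂ) * (θ : ℂ)) with hw
    have h2 : ‖w‖ ^ 2 = w.re ^ 2 + w.im ^ 2 := by
      rw [← Complex.normSq_eq_norm_sq, Complex.normSq_apply]; ring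
    have h3 : ‖w - 1‖ ^ 2 = (w.re - 1) ^ 2 + w.im ^ 2 := by
      rw [← Complex.normSq_eq_norm_sq, Complex.normSq_apply]
      simp only [Complex.sub_re, Complex.one_re, Complex.sub_im, Complex.one_im, sub_zero]
      ring
    rw [h1] at h2
    simp only [hd]
    rw [h3]
    linear_combination -h2
  have hdnn : ∀ n : ℕ, 0 ≤ d n := by
    intro n
    have := hdsq n
    have h2 : 0 ≤ ‖u * cexp (I * (n : ℂ) * (θ : ℂ)) - 1‖ ^ 2 := sq_nonneg _
    linarith
  -- sum of p n * d n = 1 - ‖phi‖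
  have hsumd : HasSum (fun n => p n * d n) (1 - ‖phi p θ‖) := by
    have h1 : HasSum (fun n : ℕ => (p n : ℂ) * cexp (I * (n : ℂ) * (θ : ℂ))) (phi p θ) :=
      (hp.summable_norm_phi θ).of_norm.hasSum
    have h2 := (h1.mul_left u)
    rw [hu2] at h2
    have h3 := Complex.hasSum_re h2
    have h4 : HasSum (fun n : ℕ => p n * (u * cexp (I * (n : ℂ) * (θ : ℂ))).re) ‖phi p θ‖ := by
      have e : (fun n : ℕ => p n * (u * cexp (I * (n : ℂ) * (θ : ℂ))).re) =
          fun n : ℕ => (u * ((p n : ℂ) * cexp (I * (n : ℂ) * (θ : ℂ)))).re := by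
        funext n
        have : u * ((p n : ℂ) * cexp (I * (n : ℂ) * (θ : ℂ))) =
            (p n : ℂ) * (u * cexp (I * (n : ℂ) * (θ : ℂ))) := by ring
        rw [this, Complex.re_ofReal_mul]
      rw [e]
      simpa using h3
    have h5 := hp.sum.sub h4
    have e : (fun n => p n * d n) =
        fun n => p n - p n * (u * cexp (I * (n : ℂ) * (θ : ℂ))).re := by
      funext n
      simp only [hd]
      ring
    rw [e]
    exact h5
  set δ : ℝ := 1 - ‖phi p θ‖ with hδ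
  have hδ1 : c * d 1 ≤ δ := by
    have h1 : p 1 * d 1 ≤ δ := le_hasSum hsumd 1 fun n _ => mul_nonneg (hp.nonneg n) (hdnn n)
    have h2 := hlow 1 le_rfl
    rw [Nat.cast_one, Real.one_rpow, mul_one] at h2
    exact (mul_le_mul_of_nonneg_right h2 (hdnn 1)).trans h1
  -- comparison of d (m+1), d 1 and cos (m θ)
  have hcos : ∀ m : ℕ, 1 - Real.cos (m * θ) ≤ 2 * (d (m + 1) + d 1) := by
    intro m
    have h1 : ‖cexp (I * (m : ℂ) * (θ : ℂ)) - 1‖ ≤
        ‖u * cexp (I * ((m + 1 : ℕ) : ℂ) * (θ : ℂ)) - 1‖ +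
          ‖u * cexp (I * ((1 : ℕ) : ℂ) * (θ : ℂ)) - 1‖ := by
      have e1 : ‖cexp (I * (m : ℂ) * (θ : ℂ)) - 1‖ =
          ‖u * cexp (I * ((1 : ℕ) : ℂ) * (θ : ℂ)) * (cexp (I * (m : ℂ) * (θ : ℂ)) - 1)‖ := by
        rw [norm_mul, norm_mul, hu1, norm_ex, one_mul, one_mul]
      have e2 : u * cexp (I * ((1 : ℕ) : ℂ) * (θ : ℂ)) * (cexp (I * (m : ℂ) * (θ : ℂ)) - 1) =
          (u * cexp (I * ((m + 1 : ℕ) : ℂ) * (θ : ℂ)) - 1) -
            (u * cexp (I * ((1 : ℕ) : ℂ) * (θ : ℂ)) - 1) := by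
        have : I * ((m + 1 : ℕ) : ℂ) * (θ : ℂ) =
            I * ((1 : ℕ) : ℂ) * (θ : ℂ) + I * (m : ℂ) * (θ : ℂ) := by push_cast; ring
        rw [this, Complex.exp_add]
        ring
      rw [e1, e2]
      exact norm_sub_le _ _
    have h2 : ‖cexp (I * (m : ℂ) * (θ : ℂ)) - 1‖ ^ 2 = 2 * (1 - Real.cos (m * θ)) := by
      have e1 : I * (m : ℂ) * (θ : ℂ) = ((m * θ : ℝ) : ℂ) * I := by push_cast; ring
      rw [e1, ← Complex.normSq_eq_norm_sq, Complex.normSq_apply]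
      have hre : (cexp (((m * θ : ℝ) : ℂ) * I) - 1).re = Real.cos (m * θ) - 1 := by
        rw [Complex.sub_re, Complex.exp_ofReal_mul_I_re, Complex.one_re]
      have him : (cexp (((m * θ : ℝ) : ℂ) * I) - 1).im = Real.sin (m * θ) := by
        rw [Complex.sub_im, Complex.exp_ofReal_mul_I_im, Complex.one_im, sub_zero]
      rw [hre, him]
      have := Real.sin_sq_add_cos_sq (m * θ)
      linear_combination this
    have h3 := hdsq (m + 1)
    have h4 := hdsq 1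
    set x := ‖u * cexp (I * ((m + 1 : ℕ) : ℂ) * (θ : ℂ)) - 1‖ with hx
    set y := ‖u * cexp (I * ((1 : ℕ) : ℂ) * (θ : ℂ)) - 1‖ with hy
    have h5 : ‖cexp (I * (m : ℂ) * (θ : ℂ)) - 1‖ ^ 2 ≤ (x + y) ^ 2 :=
      pow_le_pow_left₀ (norm_nonneg _) h1 2
    have h6 : (x + y) ^ 2 ≤ 2 * (x ^ 2 + y ^ 2) := by nlinarith [sq_nonneg (x - y)]
    rw [h2] at h5
    linarith
  -- the number M
  set M : ℕ := ⌊π / |θ|⌋₊ with hM
  have hM1 : 1 ≤ M := by
    rw [hM, Nat.one_le_floor_iff, one_le_div hab]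
    exact hθ
  have hMle : (M : ℝ) * |θ| ≤ π := by
    have := Nat.floor_le (div_nonneg Real.pi_pos.le hab.le : 0 ≤ π / |θ|)
    rwa [← hM, le_div_iff₀ hab] at this
  have hMlt : π < ((M : ℝ) + 1) * |θ| := by
    have := Nat.lt_floor_add_one (π / |θ|)
    rwa [← hM, div_lt_iff₀ hab] at this
  have hcos0 : ∀ m ∈ Finset.Ioc (M / 2) M, 1 ≤ 2 * (d (m + 1) + d 1) := by
    intro m hm
    obtain ⟨hm1, hm2⟩ := Finset.mem_Ioc.1 hm
    have h1 : (M : ℝ) + 1 ≤ 2 * m := by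
      have : M + 1 ≤ 2 * m := by omega
      exact_mod_cast this
    have h2 : π / 2 ≤ m * |θ| := by nlinarith
    have h3 : (m : ℝ) * |θ| ≤ π := by
      have : (m : ℝ) ≤ M := by exact_mod_cast hm2
      nlinarith
    have h4 : Real.cos (m * θ) ≤ 0 := by
      have e : Real.cos (m * θ) = Real.cos (m * |θ|) := by
        rcases abs_choice θ with h | h
        · rw [h]
        · rw [h, mul_neg, Real.cos_neg]
      rw [e]
      exact Real.cos_nonpos_of_pi_div_two_le_of_le h2 (by linarith [Real.pi_pos])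
    have := hcos m
    linarith
  set W : ℝ := ∑ m ∈ Finset.Ioc (M / 2) M, ((m + 1 : ℕ) : ℝ) ^ (-β) with hW
  have hWnn : 0 ≤ W := Finset.sum_nonneg fun m _ => by positivity
  have hMpos : (0 : ℝ) < M := by exact_mod_cast hM1
  have hWup : W ≤ 2 ^ β := by
    have h1 : W ≤ ∑ m ∈ Finset.Ioc (M / 2) M, ((M : ℝ) / 2) ^ (-β) := by
      refine Finset.sum_le_sum fun m hm => ?_
      obtain ⟨hm1, hm2⟩ := Finset.mem_Ioc.1 hm
      refine Real.rpow_le_rpow_of_nonpos (by positivity) ?_ (by linarith)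
      have : (M : ℝ) + 1 ≤ 2 * m := by
        have : M + 1 ≤ 2 * m := by omega
        exact_mod_cast this
      push_cast
      linarith
    have h2 : ∑ m ∈ Finset.Ioc (M / 2) M, ((M : ℝ) / 2) ^ (-β) ≤ M * ((M : ℝ) / 2) ^ (-β) := by
      rw [Finset.sum_const, nsmul_eq_mul]
      refine mul_le_mul_of_nonneg_right ?_ (by positivity)
      rw [Nat.card_Ioc]
      exact_mod_cast Nat.sub_le _ _
    have h3 : (M : ℝ) * ((M : ℝ) / 2) ^ (-β) = 2 ^ β * (M : ℝ) ^ (1 - β) := by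
      rw [Real.div_rpow hMpos.le (by norm_num), Real.rpow_neg (by norm_num : (0:ℝ) ≤ 2),
        div_inv_eq_mul, sub_eq_add_neg, Real.rpow_add hMpos, Real.rpow_one]
      ring
    have h4 : (M : ℝ) ^ (1 - β) ≤ 1 :=
      Real.rpow_le_one_of_one_le_of_nonpos (by exact_mod_cast hM1) (by linarith)
    have h5 : (0 : ℝ) < 2 ^ β := by positivity
    calc W ≤ 2 ^ β * (M : ℝ) ^ (1 - β) := by rw [← h3]; exact h1.trans h2
      _ ≤ 2 ^ β * 1 := mul_le_mul_of_nonneg_left h4 h5.le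
      _ = 2 ^ β := mul_one _
  have hWlow : (2 : ℝ) ^ (-(1 + β)) * π ^ (1 - β) * |θ| ^ (β - 1) ≤ W := by
    have h1 : ∑ m ∈ Finset.Ioc (M / 2) M, (2 * (M : ℝ)) ^ (-β) ≤ W := by
      refine Finset.sum_le_sum fun m hm => ?_
      obtain ⟨hm1, hm2⟩ := Finset.mem_Ioc.1 hm
      refine Real.rpow_le_rpow_of_nonpos (by positivity) ?_ (by linarith)
      have : m + 1 ≤ 2 * M := by omega
      exact_mod_cast this
    have h2 : (M : ℝ) / 2 * (2 * (M : ℝ)) ^ (-β) ≤ ∑ m ∈ Finset.Ioc (M / 2) M, (2 * (M : ℝ)) ^ (-β) := by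
      rw [Finset.sum_const, nsmul_eq_mul]
      refine mul_le_mul_of_nonneg_right ?_ (by positivity)
      rw [Nat.card_Ioc]
      have : M ≤ 2 * (M - M / 2) := by omega
      have : (M : ℝ) ≤ 2 * ((M - M / 2 : ℕ) : ℝ) := by exact_mod_cast this
      linarith
    have h3 : (M : ℝ) / 2 * (2 * (M : ℝ)) ^ (-β) = 2 ^ (-(1 + β)) * (M : ℝ) ^ (1 - β) := by
      rw [Real.mul_rpow (by norm_num) hMpos.le, sub_eq_add_neg, Real.rpow_add hMpos, Real.rpow_one,
        neg_add, Real.rpow_add (by norm_num : (0:ℝ) < 2), Real.rpow_neg_one]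
      ring
    have h4 : (π / |θ|) ^ (1 - β) ≤ (M : ℝ) ^ (1 - β) := by
      refine Real.rpow_le_rpow_of_nonpos hMpos ?_ (by linarith)
      rw [le_div_iff₀ hab]
      exact hMle
    have h5 : (π / |θ|) ^ (1 - β) = π ^ (1 - β) * |θ| ^ (β - 1) := by
      rw [Real.div_rpow Real.pi_pos.le hab.le, div_eq_mul_inv, ← Real.rpow_neg hab.le, neg_sub]
    calc (2 : ℝ) ^ (-(1 + β)) * π ^ (1 - β) * |θ| ^ (β - 1)
        = 2 ^ (-(1 + β)) * (π / |θ|) ^ (1 - β) := by rw [h5]; ring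
      _ ≤ 2 ^ (-(1 + β)) * (M : ℝ) ^ (1 - β) := mul_le_mul_of_nonneg_left h4 (by positivity)
      _ ≤ W := by rw [← h3]; exact h2.trans h1
  -- the main inequality
  have hmain : c * W ≤ 2 * δ * (1 + W) := by
    have h1 : W ≤ ∑ m ∈ Finset.Ioc (M / 2) M, ((m + 1 : ℕ) : ℝ) ^ (-β) * (2 * (d (m + 1) + d 1)) := by
      refine Finset.sum_le_sum fun m hm => ?_
      have := hcos0 m hm
      have h2 : (0 : ℝ) ≤ ((m + 1 : ℕ) : ℝ) ^ (-β) := by positivity
      nlinarith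
    have h2 : c * ∑ m ∈ Finset.Ioc (M / 2) M, ((m + 1 : ℕ) : ℝ) ^ (-β) * d (m + 1) ≤ δ := by
      have h3 : c * ∑ m ∈ Finset.Ioc (M / 2) M, ((m + 1 : ℕ) : ℝ) ^ (-β) * d (m + 1) ≤
          ∑ m ∈ Finset.Ioc (M / 2) M, p (m + 1) * d (m + 1) := by
        rw [Finset.mul_sum]
        refine Finset.sum_le_sum fun m _ => ?_
        rw [← mul_assoc]
        exact mul_le_mul_of_nonneg_right (hlow (m + 1) (by omega)) (hdnn _)
      have h4 : ∑ m ∈ Finset.Ioc (M / 2) M, p (m + 1) * d (m + 1) =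
          ∑ n ∈ (Finset.Ioc (M / 2) M).map (addRightEmbedding 1), p n * d n := by
        rw [Finset.sum_map]
        rfl
      have h5 : ∑ n ∈ (Finset.Ioc (M / 2) M).map (addRightEmbedding 1), p n * d n ≤ δ :=
        sum_le_hasSum _ (fun n _ => mul_nonneg (hp.nonneg n) (hdnn n)) hsumd
      rw [← h4] at h5
      exact h3.trans h5
    have h3 : ∑ m ∈ Finset.Ioc (M / 2) M, ((m + 1 : ℕ) : ℝ) ^ (-β) * (2 * (d (m + 1) + d 1)) =
        2 * (∑ m ∈ Finset.Ioc (M / 2) M, ((m + 1 : ℕ) : ℝ) ^ (-β) * d (m + 1)) + 2 * d 1 * W := by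
      rw [hW, Finset.mul_sum, Finset.mul_sum, ← Finset.sum_add_distrib]
      refine Finset.sum_congr rfl fun m _ => ?_
      ring
    rw [h3] at h1
    have h4 : c * W ≤ 2 * (c * ∑ m ∈ Finset.Ioc (M / 2) M, ((m + 1 : ℕ) : ℝ) ^ (-β) * d (m + 1)) +
        2 * (c * d 1) * W := by
      have := mul_le_mul_of_nonneg_left h1 hc.le
      linarith
    have h5 : 2 * (c * d 1) * W ≤ 2 * δ * W := by
      refine mul_le_mul_of_nonneg_right ?_ hWnn
      linarith
    linarith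
  have hδnn : 0 ≤ δ := le_trans (mul_nonneg hc.le (hdnn 1)) hδ1
  have h6 : c * W ≤ 2 * δ * (1 + 2 ^ β) := by
    have : 2 * δ * (1 + W) ≤ 2 * δ * (1 + 2 ^ β) :=
      mul_le_mul_of_nonneg_left (by linarith) (by linarith)
    linarith
  have h7 : (0 : ℝ) < 2 * (1 + 2 ^ β) := by positivity
  rw [div_mul_eq_mul_div, div_le_iff₀ h7]
  have h8 : c * (2 : ℝ) ^ (-(1 + β)) * π ^ (1 - β) * |θ| ^ (β - 1) ≤ c * W := by
    have := mul_le_mul_of_nonneg_left hWlow hc.le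
    calc _ = c * ((2 : ℝ) ^ (-(1 + β)) * π ^ (1 - β) * |θ| ^ (β - 1)) := by ring
      _ ≤ c * W := this
  linarith

/-- the constant of `one_sub_phi` -/
noncomputable def kap (c β : ℝ) : ℝ := c * (2 : ℝ) ^ (-(1 + β)) * π ^ (1 - β) / (2 * (1 + 2 ^ β))

theorem kap_pos {c β : ℝ} (hc : 0 < c) : 0 < kap c β := by
  unfold kap
  have := Real.pi_pos
  positivity

theorem norm_phi_cvL_le {c β : ℝ} (hc : 0 < c) (hβ : 1 < β) {l : List (ℕ → ℝ)}
    (hl : ∀ p ∈ l, IsLaw p) (hlow : ∀ p ∈ l, ∀ n : ℕ, 1 ≤ n → c * (n : ℝ) ^ (-β) ≤ p n)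
    {θ : ℝ} (hθ : |θ| ≤ π) :
    ‖phi (cvL l) θ‖ ≤ Real.exp (-((l.length : ℝ) * kap c β) * |θ| ^ (β - 1)) := by
  induction l with
  | nil => simp [phi_one0]
  | cons p l ih =>
    have hl' : ∀ q ∈ l, IsLaw q := fun q hq => hl q (by simp [hq])
    have h1 := ih hl' fun q hq => hlow q (by simp [hq])
    have h2 := (hl p (by simp)).one_sub_phi hc hβ (hlow p (by simp)) hθ
    have h3 : ‖phi p θ‖ ≤ Real.exp (-(kap c β * |θ| ^ (β - 1))) := by
      have h4 := Real.add_one_le_exp (-(kap c β * |θ| ^ (β - 1)))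
      unfold kap at h4 ⊢
      linarith
    rw [cvL_cons, phi_cv (hl p (by simp)) (isLaw_cvL hl'), norm_mul, List.length_cons]
    calc ‖phi p θ‖ * ‖phi (cvL l) θ‖ ≤ Real.exp (-(kap c β * |θ| ^ (β - 1))) *
          Real.exp (-((l.length : ℝ) * kap c β) * |θ| ^ (β - 1)) :=
          mul_le_mul h3 h1 (norm_nonneg _) (Real.exp_pos _).le
      _ = _ := by
          rw [← Real.exp_add]
          congr 1
          push_cast
          ring

/-- **concentration**: a sum of `h` independent laws with `p n ≥ c n ^ (-β)` has all its masses at most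
`K h ^ (-1/(β-1))` -/
theorem conc {c β : ℝ} (hc : 0 < c) (hβ : 1 < β) : ∃ K : ℝ, 0 < K ∧ ∀ l : List (ℕ → ℝ),
    (∀ p ∈ l, IsLaw p) → (∀ p ∈ l, ∀ n : ℕ, 1 ≤ n → c * (n : ℝ) ^ (-β) ≤ p n) → l ≠ [] →
    ∀ n, cvL l n ≤ K * (l.length : ℝ) ^ (-1 / (β - 1)) := by
  have hγ : 0 < β - 1 := by linarith
  have hk := kap_pos (β := β) hc
  have hG : 0 < Real.Gamma (1 / (β - 1) + 1) := Real.Gamma_pos_of_pos (by positivity)
  refine ⟨π⁻¹ * (kap c β) ^ (-1 / (β - 1)) * Real.Gamma (1 / (β - 1) + 1), by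
    have := Real.pi_pos
    positivity, ?_⟩
  intro l hl hlow hne n
  have hlen : 0 < (l.length : ℝ) := by exact_mod_cast List.length_pos_iff.2 hne
  set b : ℝ := (l.length : ℝ) * kap c β with hb
  have hbpos : 0 < b := mul_pos hlen hk
  set g : ℝ → ℝ := fun x => Real.exp (-b * x ^ (β - 1)) with hg
  have hI : ∫ x : ℝ, g |x| = 2 * (b ^ (-1 / (β - 1)) * Real.Gamma (1 / (β - 1) + 1)) := by
    rw [integral_comp_abs (f := g), hg, integral_exp_neg_mul_rpow hγ hbpos]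
  have hint : Integrable fun x : ℝ => g |x| := by
    by_contra hcon
    have h0 := integral_undef hcon
    rw [hI] at h0
    have : 0 < 2 * (b ^ (-1 / (β - 1)) * Real.Gamma (1 / (β - 1) + 1)) := by positivity
    linarith
  have hpi : -π ≤ π := by linarith [Real.pi_pos]
  have h1 : ∫ θ in (-π)..π, ‖phi (cvL l) θ‖ ≤ ∫ x : ℝ, g |x| := by
    rw [intervalIntegral.integral_of_le hpi]
    have h2 : ∫ θ in Set.Ioc (-π) π, ‖phi (cvL l) θ‖ ≤ ∫ θ in Set.Ioc (-π) π, g |θ| := by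
      refine integral_mono_of_nonneg (Filter.Eventually.of_forall fun _ => norm_nonneg _)
        hint.integrableOn ?_
      refine (ae_restrict_iff' measurableSet_Ioc).2 (Filter.Eventually.of_forall fun θ hθ => ?_)
      exact norm_phi_cvL_le hc hβ hl hlow (abs_le.2 ⟨hθ.1.le, hθ.2⟩)
    refine h2.trans ?_
    exact setIntegral_le_integral hint (Filter.Eventually.of_forall fun _ => (Real.exp_pos _).le)
  have h3 := (isLaw_cvL hl).le_integral n
  have h4 : (2 * π)⁻¹ * ∫ θ in (-π)..π, ‖phi (cvL l) θ‖ ≤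
      (2 * π)⁻¹ * (2 * (b ^ (-1 / (β - 1)) * Real.Gamma (1 / (β - 1) + 1))) := by
    rw [← hI]
    refine mul_le_mul_of_nonneg_left h1 ?_
    have := Real.pi_pos
    positivity
  refine (h3.trans h4).trans (le_of_eq ?_)
  rw [hb, Real.mul_rpow hlen.le hk.le]
  have := Real.pi_ne_zero
  field_simp

end Pool.Agent.DiamP
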