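import Pool.Agent.DiamP.Conv
import Pool.Agent.DiamP.Fourier

/-!
# Forests: sums of independent variables with masses `~ n^(-3/2)` ((2.4) of MP_d7a93a_pr)
-/

set_option autoImplicit false

open Finset Filter Topology
open scoped Real

namespace Pool.Agent.DiamP

/-- a law on `{1,2,...}` with masses of exact order `n^(-3/2)` -/
structure FLaw (c K : ℝ) (p : ℕ → ℝ) : Prop where
  law : IsLaw p
  zero : p 0 = 0
  low : ∀ n : ℕ, 1 ≤ n → c * (n : ℝ) ^ (-(3 / 2) : ℝ) ≤ p n
  up : ∀ n : ℕ, 1 ≤ n → p n ≤ K * (n : ℝ) ^ (-(3 / 2) : ℝ)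

theorem FLaw.isLaw_cvL {c K : ℝ} {l : List (ℕ → ℝ)} (hl : ∀ p ∈ l, FLaw c K p) : IsLaw (cvL l) :=
  DiamP.isLaw_cvL fun p hp => (hl p hp).law

/-- (F1) -/
theorem forest_conc {c : ℝ} (hc : 0 < c) (K : ℝ) : ∃ K1 : ℝ, 0 < K1 ∧ ∀ l : List (ℕ → ℝ),
    (∀ p ∈ l, FLaw c K p) → l ≠ [] → ∀ n, cvL l n ≤ K1 / (l.length : ℝ) ^ 2 := by
  obtain ⟨K1, hK1, h⟩ := conc (c := c) (β := 3 / 2) hc (by norm_num)
  refine ⟨K1, hK1, fun l hl hne n => ?_⟩
  have h1 := h l (fun p hp => (hl p hp).law) (fun p hp => (hl p hp).low) hne n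
  have hlen : 0 < (l.length : ℝ) := by exact_mod_cast List.length_pos_iff.2 hne
  have h2 : (l.length : ℝ) ^ (-1 / ((3 / 2 : ℝ) - 1)) = ((l.length : ℝ) ^ 2)⁻¹ := by
    rw [show (-1 / ((3 / 2 : ℝ) - 1)) = -(2 : ℕ) by norm_num, Real.rpow_neg hlen.le,
      Real.rpow_natCast]
  rw [h2] at h1
  rw [div_eq_mul_inv]
  exact h1

theorem FLaw.K_pos {c K : ℝ} (hc : 0 < c) {p : ℕ → ℝ} (hp : FLaw c K p) : 0 < K := by
  have h1 := hp.low 1 le_rfl
  have h2 := hp.up 1 le_rfl
  rw [Nat.cast_one, Real.one_rpow, mul_one] at h1 h2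
  linarith

/-- the size biased term -/
theorem sb_term {c K : ℝ} (hc : 0 < c) {K1 : ℝ} (hK1 : 0 < K1)
    (hF1 : ∀ l : List (ℕ → ℝ), (∀ p ∈ l, FLaw c K p) → l ≠ [] →
      ∀ n, cvL l n ≤ K1 / (l.length : ℝ) ^ 2)
    {p : ℕ → ℝ} (hp : FLaw c K p) {rest : List (ℕ → ℝ)} (hrest : ∀ q ∈ rest, FLaw c K q)
    (hne : rest ≠ []) (n : ℕ) :
    cv (sb p) (cvL rest) n ≤ K * (2 * K1 + 1) / (rest.length : ℝ) := by
  have hK := hp.K_pos hc
  have hlen0 : 0 < rest.length := List.length_pos_iff.2 hne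
  have hlen : 0 < (rest.length : ℝ) := by exact_mod_cast hlen0
  set g := rest.length with hg
  have hL := FLaw.isLaw_cvL hrest
  have hsb : ∀ m, sb p m ≤ K * (m : ℝ) ^ (-(1 / 2) : ℝ) := by
    intro m
    unfold sb
    rcases Nat.eq_zero_or_pos m with rfl | hm
    · rw [hp.zero, mul_zero]; positivity
    · have hm' : (0 : ℝ) < m := by exact_mod_cast hm
      have := mul_le_mul_of_nonneg_left (hp.up m hm) hm'.le
      refine this.trans (le_of_eq ?_)
      have : (m : ℝ) ^ (-(1 / 2) : ℝ) = m * (m : ℝ) ^ (-(3 / 2) : ℝ) := by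
        nth_rewrite 2 [← Real.rpow_one (m : ℝ)]
        rw [← Real.rpow_add hm']; norm_num
      rw [this]; ring
  have hsb0 : ∀ m, 0 ≤ sb p m := fun m => mul_nonneg (by positivity) (hp.law.nonneg m)
  rw [cv_eq_range]
  -- split at `g ^ 2`
  have hsplit : ∑ a ∈ range (n + 1), sb p a * cvL rest (n - a) ≤
      (∑ a ∈ range (g ^ 2), sb p (a + 1) * (K1 / (g : ℝ) ^ 2)) +
        ∑ a ∈ range (n + 1), K / g * cvL rest (n - a) := by
    have h1 : ∀ a ∈ range (n + 1), sb p a * cvL rest (n - a) ≤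
        (if a ≤ g ^ 2 then sb p a * (K1 / (g : ℝ) ^ 2) else 0) + K / g * cvL rest (n - a) := by
      intro a _
      have hnn := hL.nonneg (n - a)
      split_ifs with ha
      · have h2 := mul_le_mul_of_nonneg_left (hF1 rest hrest hne (n - a)) (hsb0 a)
        have h3 : 0 ≤ K / g * cvL rest (n - a) := by positivity
        linarith
      · rw [zero_add]
        refine mul_le_mul_of_nonneg_right ?_ hnn
        refine (hsb a).trans ?_
        rw [div_eq_mul_inv]
        refine mul_le_mul_of_nonneg_left ?_ hK.le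
        have h2 : ((g : ℝ) ^ 2) ≤ (a : ℝ) := by
          have : g ^ 2 ≤ a := by omega
          exact_mod_cast this
        calc (a : ℝ) ^ (-(1 / 2) : ℝ) ≤ ((g : ℝ) ^ 2) ^ (-(1 / 2) : ℝ) :=
              Real.rpow_le_rpow_of_nonpos (by positivity) h2 (by norm_num)
          _ = (g : ℝ)⁻¹ := by
              rw [← Real.rpow_natCast, ← Real.rpow_mul hlen.le,
                show (((2 : ℕ) : ℝ) * (-(1 / 2) : ℝ)) = -1 by norm_num, Real.rpow_neg_one]
    refine (sum_le_sum h1).trans ?_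
    rw [sum_add_distrib]
    refine add_le_add ?_ le_rfl
    rw [← sum_filter]
    have h2 : ∑ a ∈ (range (n + 1)).filter (fun a => a ≤ g ^ 2), sb p a * (K1 / (g : ℝ) ^ 2) ≤
        ∑ a ∈ range (g ^ 2 + 1), sb p a * (K1 / (g : ℝ) ^ 2) := by
      refine sum_le_sum_of_subset_of_nonneg ?_ fun a _ _ => ?_
      · intro a ha
        have := (mem_filter.1 ha).2
        exact mem_range.2 (by omega)
      · have := hsb0 a
        positivity
    refine h2.trans (le_of_eq ?_)
    rw [sum_range_succ']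
    simp [sb]
  refine hsplit.trans ?_
  have h3 : ∑ a ∈ range (g ^ 2), sb p (a + 1) * (K1 / (g : ℝ) ^ 2) ≤ K * (2 * K1) / g := by
    rw [← Finset.sum_mul]
    have h4 : ∑ a ∈ range (g ^ 2), sb p (a + 1) ≤ K * (2 * g) := by
      calc ∑ a ∈ range (g ^ 2), sb p (a + 1) ≤
            ∑ a ∈ range (g ^ 2), K * ((a + 1 : ℕ) : ℝ) ^ (-(1 / 2) : ℝ) :=
            sum_le_sum fun a _ => hsb (a + 1)
        _ = K * ∑ a ∈ range (g ^ 2), ((a + 1 : ℕ) : ℝ) ^ (-(1 / 2) : ℝ) := by rw [Finset.mul_sum]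
        _ ≤ K * (2 * ((g ^ 2 : ℕ) : ℝ) ^ (1 / 2 : ℝ)) :=
            mul_le_mul_of_nonneg_left (sum_rsqrt_le _) hK.le
        _ = K * (2 * g) := by
            congr 2
            push_cast
            rw [← Real.sqrt_eq_rpow, Real.sqrt_sq hlen.le]
    calc (∑ a ∈ range (g ^ 2), sb p (a + 1)) * (K1 / (g : ℝ) ^ 2) ≤
          (K * (2 * g)) * (K1 / (g : ℝ) ^ 2) := mul_le_mul_of_nonneg_right h4 (by positivity)
      _ = K * (2 * K1) / g := by field_simp
  have h5 : ∑ a ∈ range (n + 1), K / g * cvL rest (n - a) ≤ K / g := by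
    rw [← Finset.mul_sum]
    have h6 : ∑ a ∈ range (n + 1), cvL rest (n - a) ≤ 1 := by
      have := Finset.sum_range_reflect (fun a => cvL rest a) (n + 1)
      have h7 : ∑ a ∈ range (n + 1), cvL rest (n - a) = ∑ a ∈ range (n + 1), cvL rest a := by
        rw [← this]
        refine sum_congr rfl fun a _ => ?_
        rfl
      rw [h7]
      exact hL.sum_le_one _
    calc K / g * ∑ a ∈ range (n + 1), cvL rest (n - a) ≤ K / g * 1 :=
          mul_le_mul_of_nonneg_left h6 (by positivity)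
      _ = K / g := mul_one _
  calc _ ≤ K * (2 * K1) / g + K / g := add_le_add h3 h5
    _ = K * (2 * K1 + 1) / g := by ring

/-- (F2) -/
theorem forest_local {c : ℝ} (hc : 0 < c) (K : ℝ) : ∃ K2 : ℝ, 0 < K2 ∧ ∀ l : List (ℕ → ℝ),
    (∀ p ∈ l, FLaw c K p) → ∀ n : ℕ, 1 ≤ n → cvL l n ≤ K2 / n := by
  obtain ⟨K1, hK1, hF1⟩ := forest_conc hc K
  refine ⟨2 * (|K| * (2 * K1 + 1)) + 1, by positivity, fun l hl n hn => ?_⟩
  have hn' : (0 : ℝ) < n := by exact_mod_cast hn
  rw [le_div_iff₀ hn', mul_comm]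
  match l, hl with
  | [], _ =>
    rw [cvL_nil]
    have : one0 n = 0 := by simp [one0]; omega
    rw [this, mul_zero]
    positivity
  | [p], hl =>
    rw [cvL_singleton]
    have hp := hl p (by simp)
    have hK := hp.K_pos hc
    have h1 := hp.up n hn
    have h2 : (n : ℝ) * (n : ℝ) ^ (-(3 / 2) : ℝ) ≤ 1 := by
      have : (n : ℝ) * (n : ℝ) ^ (-(3 / 2) : ℝ) = (n : ℝ) ^ (-(1 / 2) : ℝ) := by
        nth_rewrite 1 [← Real.rpow_one (n : ℝ)]
        rw [← Real.rpow_add hn']; norm_num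
      rw [this]
      exact Real.rpow_le_one_of_one_le_of_nonpos (by exact_mod_cast hn) (by norm_num)
    have h3 : (n : ℝ) * p n ≤ K := by
      calc (n : ℝ) * p n ≤ n * (K * (n : ℝ) ^ (-(3 / 2) : ℝ)) :=
            mul_le_mul_of_nonneg_left h1 hn'.le
        _ = K * (n * (n : ℝ) ^ (-(3 / 2) : ℝ)) := by ring
        _ ≤ K * 1 := mul_le_mul_of_nonneg_left h2 hK.le
        _ = K := mul_one K
    rw [abs_of_pos hK]
    nlinarith
  | p :: q :: l, hl =>
    have hK := (hl p (by simp)).K_pos hc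
    have hlen : (p :: q :: l).length + ([] : List (ℕ → ℝ)).length = (l.length + 1) + 1 := by simp
    have h1 := size_bias (fun p => FLaw c K p) (K * (2 * K1 + 1) / ((l.length + 1 : ℕ) : ℝ)) n
      (l.length + 1) (by
        intro p rest hp hrest hlen
        have hne : rest ≠ [] := by
          rintro rfl
          simp at hlen
        have := sb_term hc hK1 hF1 hp hrest hne n
        rwa [hlen] at this) (p :: q :: l) [] hl (by simp) hlen
    rw [cvL_nil, one0_cv] at h1
    have h2 : (n : ℝ) * cvL (p :: q :: l) n = sb (cvL (p :: q :: l)) n := rfl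
    rw [h2]
    refine h1.trans ?_
    have hg : (0 : ℝ) < ((l.length + 1 : ℕ) : ℝ) := by positivity
    have h3 : ((p :: q :: l).length : ℝ) ≤ 2 * ((l.length + 1 : ℕ) : ℝ) := by
      simp only [List.length_cons]
      push_cast
      have : (0 : ℝ) ≤ l.length := by positivity
      linarith
    have h4 : 0 ≤ K * (2 * K1 + 1) := by positivity
    calc ((p :: q :: l).length : ℝ) * (K * (2 * K1 + 1) / ((l.length + 1 : ℕ) : ℝ)) ≤
          (2 * ((l.length + 1 : ℕ) : ℝ)) * (K * (2 * K1 + 1) / ((l.length + 1 : ℕ) : ℝ)) :=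
          mul_le_mul_of_nonneg_right h3 (by positivity)
      _ = 2 * (K * (2 * K1 + 1)) := by field_simp
      _ ≤ 2 * (|K| * (2 * K1 + 1)) + 1 := by rw [abs_of_pos hK]; linarith

/-- tail of one jump -/
theorem FLaw.tail {c K : ℝ} (hc : 0 < c) {p : ℕ → ℝ} (hp : FLaw c K p) {s : ℕ} (hs : 1 ≤ s) :
    tl p s ≤ K * pc (1 / 2) * (s : ℝ) ^ (-(1 / 2) : ℝ) := by
  have hK := hp.K_pos hc
  have h1 : tl p s ≤ ∑' n : ℕ, K * ((n + s : ℕ) : ℝ) ^ (-(1 + 1 / 2) : ℝ) := by
    refine Summable.tsum_le_tsum (fun n => ?_) ((summable_nat_add_iff s).2 hp.law.summable)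
      ((summable_pow (γ := 1 / 2) (by norm_num) hs).mul_left K)
    have := hp.up (n + s) (by omega)
    rwa [show (-(1 + 1 / 2) : ℝ) = -(3 / 2) by norm_num]
  rw [tsum_mul_left] at h1
  refine h1.trans ?_
  rw [mul_assoc]
  exact mul_le_mul_of_nonneg_left (tsum_pow_le (by norm_num) hs) hK.le

/-- (F3) -/
theorem forest_tail {c : ℝ} (hc : 0 < c) (K : ℝ) : ∃ K3 : ℝ, 0 < K3 ∧ ∀ l : List (ℕ → ℝ),
    (∀ p ∈ l, FLaw c K p) → ∀ s : ℕ, 1 ≤ s →
      tl (cvL l) s ≤ K3 * (l.length : ℝ) * (s : ℝ) ^ (-(1 / 2) : ℝ) := by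
  refine ⟨2 * |K| * pc (1 / 2) + 1, by have := pc_pos (γ := 1 / 2) (by norm_num); positivity, ?_⟩
  intro l hl s hs
  have hs' : (0 : ℝ) < s := by exact_mod_cast hs
  set δ : ℕ → ℝ := fun i => if i < s then (1 : ℝ) / s else 0 with hδ
  have hδ0 : ∀ i, 0 ≤ δ i := by
    intro i
    simp only [hδ]
    split_ifs <;> positivity
  set g : ℕ → ℝ := fun n => ∑ i ∈ range n, δ i with hg
  have hgeq : ∀ n, g n = (min n s : ℕ) / (s : ℝ) := by
    intro n
    simp only [hg, hδ]
    rw [← sum_filter, sum_const, nsmul_eq_mul]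
    have : ((range n).filter fun i => i < s) = range (min n s) := by
      ext i
      simp only [mem_filter, mem_range]
      omega
    rw [this, card_range]
    ring
  have hg0 : ∀ n, 0 ≤ g n := fun n => sum_nonneg fun _ _ => hδ0 _
  have hg1 : ∀ n, |g n| ≤ 1 := by
    intro n
    rw [abs_of_nonneg (hg0 n), hgeq, div_le_one hs']
    exact_mod_cast Nat.min_le_right _ _
  have hsub : ∀ a b, g (a + b) ≤ g a + g b := by
    intro a b
    rw [hgeq, hgeq, hgeq, ← add_div]
    refine div_le_div_of_nonneg_right ?_ hs'.le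
    have : min (a + b) s ≤ min a s + min b s := by omega
    exact_mod_cast this
  have hB : ∀ p ∈ l, ex p g ≤ 2 * |K| * pc (1 / 2) * (s : ℝ) ^ (-(1 / 2) : ℝ) := by
    intro p hp
    have hp := hl p hp
    have hK := hp.K_pos hc
    set T : ℕ → ℝ := fun i => K * pc (1 / 2) * ((i + 1 : ℕ) : ℝ) ^ (-(1 / 2) : ℝ) with hT
    have hfin : ∀ i ∉ range s, δ i * T i = 0 := by
      intro i hi
      simp only [hδ]
      rw [if_neg (by simpa using hi), zero_mul]
    have h1 := (hp.law.abel hδ0 (T := T) (fun i => hp.tail hc (by omega))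
      (summable_of_ne_finset_zero hfin)).2
    rw [tsum_eq_sum hfin] at h1
    refine h1.trans ?_
    have h2 : ∑ i ∈ range s, δ i * T i =
        K * pc (1 / 2) / s * ∑ i ∈ range s, ((i + 1 : ℕ) : ℝ) ^ (-(1 / 2) : ℝ) := by
      rw [Finset.mul_sum]
      refine sum_congr rfl fun i hi => ?_
      simp only [hδ, hT]
      rw [if_pos (mem_range.1 hi)]
      ring
    rw [h2]
    have hpc := pc_pos (γ := 1 / 2) (by norm_num)
    have h3 : K * pc (1 / 2) / s * ∑ i ∈ range s, ((i + 1 : ℕ) : ℝ) ^ (-(1 / 2) : ℝ) ≤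
        K * pc (1 / 2) / s * (2 * (s : ℝ) ^ (1 / 2 : ℝ)) :=
      mul_le_mul_of_nonneg_left (sum_rsqrt_le s) (by positivity)
    refine h3.trans (le_of_eq ?_)
    have h4 : (s : ℝ) ^ (-(1 / 2) : ℝ) = (s : ℝ) ^ (1 / 2 : ℝ) / s := by
      nth_rewrite 3 [← Real.rpow_one (s : ℝ)]
      rw [← Real.rpow_sub hs']; norm_num
    rw [h4, abs_of_pos hK]
    ring
  have h0 : g 0 = 0 := by simp [hg]
  have h1 := ex_subadd hg1 h0 hsub (fun p hp => (hl p hp).law) hB
  have hL := FLaw.isLaw_cvL hl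
  have h2 : tl (cvL l) s ≤ ex (cvL l) g := by
    rw [← hL.pr_Ici]
    refine hL.pr_le_ex hg0 (fun n hn => ?_) (hL.summable_mul hg1)
    have hn' : s ≤ n := hn
    rw [hgeq, Nat.min_eq_right hn', div_self hs'.ne']
  refine h2.trans (h1.trans ?_)
  have h5 : 0 ≤ (l.length : ℝ) * (s : ℝ) ^ (-(1 / 2) : ℝ) := by positivity
  nlinarith

/-- (F4) -/
theorem forest_small {c : ℝ} (hc : 0 < c) (K : ℝ) : ∃ c4 : ℝ, 0 < c4 ∧ ∀ l : List (ℕ → ℝ),
    (∀ p ∈ l, FLaw c K p) → ∀ N : ℕ, 1 ≤ N →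
      ∑ n ∈ range (N + 1), cvL l n ≤
        Real.exp 1 * Real.exp (-(c4 * (l.length : ℝ) * (N : ℝ) ^ (-(1 / 2) : ℝ))) := by
  have he : 0 < 1 - Real.exp (-1) := by
    have : Real.exp (-1) < Real.exp 0 := Real.exp_lt_exp.2 (by norm_num)
    rw [Real.exp_zero] at this
    linarith
  refine ⟨(1 - Real.exp (-1)) * (c * 2 ^ (-(3 / 2) : ℝ)), by positivity, ?_⟩
  intro l hl N hN
  have hN' : (0 : ℝ) < N := by exact_mod_cast hN
  set c4 := (1 - Real.exp (-1)) * (c * 2 ^ (-(3 / 2) : ℝ)) with hc4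
  set f : ℕ → ℝ := fun n => Real.exp (-(n / N : ℝ)) with hf
  have hf0 : ∀ n, 0 < f n := fun n => Real.exp_pos _
  have hf1 : ∀ n, |f n| ≤ 1 := by
    intro n
    rw [abs_of_pos (hf0 n)]
    simp only [hf]
    rw [Real.exp_le_one_iff]
    have : (0 : ℝ) ≤ n / N := by positivity
    linarith
  have hfadd : ∀ a b, f (a + b) = f a * f b := by
    intro a b
    simp only [hf]
    rw [← Real.exp_add]
    congr 1
    push_cast
    ring
  have hone : ∀ p, FLaw c K p → ex p f ≤ Real.exp (-(c4 * (N : ℝ) ^ (-(1 / 2) : ℝ))) := by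
    intro p hp
    have h1 : c4 * (N : ℝ) ^ (-(1 / 2) : ℝ) ≤ 1 - ex p f := by
      have h2 : 1 - ex p f = ∑' n, p n * (1 - f n) := by
        unfold ex
        have h3 : ∑' n, p n * (1 - f n) = ∑' n, (p n - p n * f n) :=
          tsum_congr fun n => by ring
        rw [h3, hp.law.summable.tsum_sub (hp.law.summable_mul hf1), hp.law.tsum]
      rw [h2]
      have hsum : Summable fun n => p n * (1 - f n) := by
        have := hp.law.summable.sub (hp.law.summable_mul hf1)
        refine this.congr fun n => ?_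
        ring
      have h3 : ∑ n ∈ Ico N (2 * N), p n * (1 - f n) ≤ ∑' n, p n * (1 - f n) := by
        refine hsum.sum_le_tsum _ fun n _ => mul_nonneg (hp.law.nonneg n) ?_
        have := (abs_le.1 (hf1 n)).2
        linarith
      refine le_trans ?_ h3
      have h4 : ∀ n ∈ Ico N (2 * N), (1 - Real.exp (-1)) * (c * (2 * N : ℝ) ^ (-(3 / 2) : ℝ)) ≤
          p n * (1 - f n) := by
        intro n hn
        obtain ⟨hn1, hn2⟩ := mem_Ico.1 hn
        have hn0 : 1 ≤ n := hN.trans hn1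
        have hn' : (0 : ℝ) < n := by exact_mod_cast hn0
        have h5 : c * (2 * N : ℝ) ^ (-(3 / 2) : ℝ) ≤ p n := by
          refine le_trans ?_ (hp.low n hn0)
          refine mul_le_mul_of_nonneg_left ?_ hc.le
          refine Real.rpow_le_rpow_of_nonpos hn' ?_ (by norm_num)
          exact_mod_cast hn2.le
        have h6 : 1 - Real.exp (-1) ≤ 1 - f n := by
          have : f n ≤ Real.exp (-1) := by
            simp only [hf]
            rw [Real.exp_le_exp, neg_le_neg_iff, one_le_div hN']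
            exact_mod_cast hn1
          linarith
        rw [mul_comm (p n)]
        exact mul_le_mul h6 h5 (by positivity) (by linarith)
      refine le_trans (le_of_eq ?_) (sum_le_sum h4)
      rw [sum_const, nsmul_eq_mul, Nat.card_Ico, show 2 * N - N = N by omega, hc4,
        Real.mul_rpow (by norm_num) hN'.le]
      have h7 : (N : ℝ) ^ (-(1 / 2) : ℝ) = N * (N : ℝ) ^ (-(3 / 2) : ℝ) := by
        nth_rewrite 2 [← Real.rpow_one (N : ℝ)]
        rw [← Real.rpow_add hN']; norm_num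
      rw [h7]
      ring
    have h2 := Real.add_one_le_exp (-(c4 * (N : ℝ) ^ (-(1 / 2) : ℝ)))
    linarith
  have hall : ∀ l : List (ℕ → ℝ), (∀ p ∈ l, FLaw c K p) →
      ex (cvL l) f ≤ Real.exp (-(c4 * (l.length : ℝ) * (N : ℝ) ^ (-(1 / 2) : ℝ))) := by
    intro l
    induction l with
    | nil =>
      intro _
      rw [cvL_nil]
      have : ex one0 f = 1 := by
        unfold ex
        rw [tsum_eq_single 0]
        · simp [one0, hf]
        · intro n hn
          simp [one0, hn]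
      rw [this]
      simp
    | cons p l ih =>
      intro hl
      have hp := hl p (by simp)
      have hl' : ∀ q ∈ l, FLaw c K q := fun q hq => hl q (by simp [hq])
      have hL := FLaw.isLaw_cvL hl'
      rw [cvL_cons, ex_cv hp.law hL hf1]
      have h1 : ex p (fun a => ex (cvL l) fun b => f (a + b)) = ex p f * ex (cvL l) f := by
        unfold ex
        rw [← tsum_mul_right]
        refine tsum_congr fun a => ?_
        rw [mul_assoc, ← tsum_mul_left (a := f a)]
        congr 1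
        refine tsum_congr fun b => ?_
        change cvL l b * f (a + b) = f a * (cvL l b * f b)
        rw [hfadd]
        ring
      rw [h1]
      have h2 : 0 ≤ ex (cvL l) f := tsum_nonneg fun n => mul_nonneg (hL.nonneg n) (hf0 n).le
      calc ex p f * ex (cvL l) f ≤ Real.exp (-(c4 * (N : ℝ) ^ (-(1 / 2) : ℝ))) *
            Real.exp (-(c4 * (l.length : ℝ) * (N : ℝ) ^ (-(1 / 2) : ℝ))) :=
            mul_le_mul (hone p hp) (ih hl') h2 (Real.exp_pos _).le
        _ = _ := by
            rw [← Real.exp_add, List.length_cons]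
            congr 1
            push_cast
            ring
  have hL := FLaw.isLaw_cvL hl
  have h1 : ∑ n ∈ range (N + 1), cvL l n ≤ Real.exp 1 * ex (cvL l) f := by
    unfold ex
    rw [← tsum_mul_left]
    have hsum : Summable fun n => Real.exp 1 * (cvL l n * f n) :=
      (hL.summable_mul hf1).mul_left _
    refine le_trans (sum_le_sum fun n hn => ?_) (hsum.sum_le_tsum (range (N + 1)) fun n _ => ?_)
    · have hn' : (n : ℝ) ≤ N := by
        have := mem_range.1 hn
        have : n ≤ N := by omega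
        exact_mod_cast this
      have h2 : 1 ≤ Real.exp 1 * f n := by
        simp only [hf]
        rw [← Real.exp_add, Real.one_le_exp_iff]
        have : (n : ℝ) / N ≤ 1 := (div_le_one hN').2 hn'
        linarith
      have := mul_le_mul_of_nonneg_left h2 (hL.nonneg n)
      linarith
    · have := hL.nonneg n
      have := hf0 n
      positivity
  exact h1.trans (mul_le_mul_of_nonneg_left (hall l hl) (Real.exp_pos _).le)

end Pool.Agent.DiamP
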