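import Mathlib

/-!
# The two-state walk of labelled trees (MP_d7a93a_pr, (2.3))

States `u : Bool` (`true` = the vertex has a neighbour of label `+1`), steps `d = -1, 0, 1`.
The step `d` from the state `u` has the mass `M u d = α` if `u = true` or `d = 1`, and `α + β`
otherwise; it leads to the state `[d = -1]`.  Criticality: `3 α + β + α β = 1`.
-/

set_option autoImplicit false

open Finset

namespace Pool.Agent.DiamP

/-- the parameters of the critical two-state walk -/
structure Crit (α β : ℝ) : Prop where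
  ha : 0 < α
  hb : 0 < β
  cr : 3 * α + β + α * β = 1

/-- one step of the weighted walk applied to `g` -/
def stepW (α β : ℝ) (g : Bool → ℤ → ℝ) (u : Bool) (l : ℤ) : ℝ :=
  cond u α (α + β) * g true (l - 1) + cond u α (α + β) * g false l + α * g false (l + 1)

/-- total mass of the paths of length `n` whose first passage of `|l| ≥ L` is at time `n` -/
def fpW (α β : ℝ) (L : ℤ) : ℕ → Bool → ℤ → ℝ
  | 0 => fun _ l => if L ≤ |l| then 1 else 0
  | n + 1 => fun u l => if L ≤ |l| then 0 else stepW α β (fpW α β L n) u l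

/-- total mass of the paths of length `n` which end at a label with `L ≤ |l|` -/
def endW (α β : ℝ) (L : ℤ) : ℕ → Bool → ℤ → ℝ
  | 0 => fun _ l => if L ≤ |l| then 1 else 0
  | n + 1 => fun u l => stepW α β (endW α β L n) u l

/-- total mass of the paths of length `n` all of whose labels satisfy `|l| ≤ L` -/
def stripW (α β : ℝ) (L : ℤ) : ℕ → Bool → ℤ → ℝ
  | 0 => fun _ l => if |l| ≤ L then 1 else 0
  | n + 1 => fun u l => if |l| ≤ L then stepW α β (stripW α β L n) u l else 0

section
variable {α β : ℝ}

/-- the right eigenvector: `h false = 1 - α`, `h true = 2 α` -/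
def hW (α : ℝ) (u : Bool) : ℝ := cond u (2 * α) (1 - α)

/-- the shift of the martingale `l + c [u]` -/
noncomputable def cW (α : ℝ) : ℝ := (1 - 3 * α) / (2 * (1 - α))

/-- the martingale coordinate -/
noncomputable def xW (α : ℝ) (u : Bool) (l : ℤ) : ℝ := l + cond u (cW α) 0

theorem Crit.lt_third (h : Crit α β) : 3 * α < 1 := by
  nlinarith [h.ha, h.hb, h.cr, mul_pos h.ha h.hb]

theorem Crit.beta_lt (h : Crit α β) : β < 1 := by
  nlinarith [h.ha, h.hb, h.cr, mul_pos h.ha h.hb]

theorem Crit.hW_pos (h : Crit α β) (u : Bool) : 0 < hW α u := by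
  cases u <;> simp [hW] <;> linarith [h.ha, h.lt_third]

theorem Crit.cW_pos (h : Crit α β) : 0 < cW α := by
  unfold cW
  have := h.lt_third
  have := h.ha
  apply div_pos <;> linarith

theorem Crit.cW_lt (h : Crit α β) : cW α < 1 / 2 := by
  unfold cW
  have := h.lt_third
  have := h.ha
  rw [div_lt_div_iff₀ (by linarith) (by norm_num)]
  linarith

theorem stepW_mono (h : Crit α β) {g g' : Bool → ℤ → ℝ} {u : Bool} {l : ℤ}
    (h1 : g true (l - 1) ≤ g' true (l - 1)) (h2 : g false l ≤ g' false l)
    (h3 : g false (l + 1) ≤ g' false (l + 1)) : stepW α β g u l ≤ stepW α β g' u l := by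
  have ha := h.ha
  have hb := h.hb
  unfold stepW
  have hc : 0 ≤ cond u α (α + β) := by cases u <;> simp <;> linarith
  gcongr

/-- the key identity: a step applied to `h(u) φ(x(u,l))` is `h(u)` times a mean of `φ` over centred
increments -/
theorem stepW_hx (φ : ℝ → ℝ) (u : Bool) (l : ℤ) :
    stepW α β (fun v m => hW α v * φ (xW α v m)) u l =
      cond u α (α + β) * (2 * α) * φ (l - 1 + cW α) + cond u α (α + β) * (1 - α) * φ l +
        α * (1 - α) * φ (l + 1) := by
  unfold stepW hW xW
  simp only [cond_true, cond_false]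
  push_cast
  ring_nf

theorem Crit.mass (h : Crit α β) (u : Bool) :
    cond u α (α + β) * (2 * α) + cond u α (α + β) * (1 - α) + α * (1 - α) = hW α u := by
  have := h.cr
  cases u <;> simp [hW] <;> nlinarith

theorem Crit.mean (h : Crit α β) (u : Bool) :
    cond u α (α + β) * (2 * α) * (-1 + cW α - cond u (cW α) 0) +
      cond u α (α + β) * (1 - α) * (0 - cond u (cW α) 0) + α * (1 - α) * (1 - cond u (cW α) 0) = 0 := by
  have h0 : (1 - α) ≠ 0 := by have := h.lt_third; have := h.ha; linarith
  have hb : β = (1 - 3 * α) / (1 + α) := by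
    have : (1 + α) ≠ 0 := by have := h.ha; linarith
    rw [eq_div_iff this]
    have := h.cr
    linarith
  have h1 : (1 + α) ≠ 0 := by have := h.ha; linarith
  cases u
  · simp only [cond_false]
    rw [hb]
    unfold cW
    field_simp
    ring
  · simp only [cond_true]
    unfold cW
    field_simp
    ring

theorem cond_pos (h : Crit α β) (u : Bool) : 0 < cond u α (α + β) := by
  have := h.ha
  have := h.hb
  cases u <;> simp <;> linarith

/-- second moment upper bound of the increments: `|y| ≤ 1` -/
theorem Crit.incr (h : Crit α β) (u : Bool) :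
    |-1 + cW α - cond u (cW α) 0| ≤ 1 ∧ |0 - cond u (cW α) 0| ≤ 1 ∧ |1 - cond u (cW α) 0| ≤ 1 := by
  have h1 := h.cW_pos
  have h2 := h.cW_lt
  cases u
  · simp only [cond_false]
    refine ⟨?_, ?_, ?_⟩ <;> rw [abs_le] <;> constructor <;> linarith
  · simp only [cond_true]
    refine ⟨?_, ?_, ?_⟩ <;> rw [abs_le] <;> constructor <;> linarith

/-- exponential supersolution -/
theorem stepW_exp (h : Crit α β) {s : ℝ} (hs : |s| ≤ 1) (u : Bool) (l : ℤ) :
    stepW α β (fun v m => hW α v * Real.exp (s * xW α v m)) u l ≤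
      Real.exp (s ^ 2) * (hW α u * Real.exp (s * xW α u l)) := by
  rw [stepW_hx (fun x => Real.exp (s * x))]
  set x := xW α u l with hx
  set cc := cond u (cW α) 0 with hcc
  have hxl : x = l + cc := rfl
  have e1 : Real.exp (s * ((l : ℝ) - 1 + cW α)) = Real.exp (s * x) * Real.exp (s * (-1 + cW α - cc)) := by
    rw [← Real.exp_add, hxl]; ring_nf
  have e2 : Real.exp (s * (l : ℝ)) = Real.exp (s * x) * Real.exp (s * (0 - cc)) := by
    rw [← Real.exp_add, hxl]; ring_nf
  have e3 : Real.exp (s * ((l : ℝ) + 1)) = Real.exp (s * x) * Real.exp (s * (1 - cc)) := by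
    rw [← Real.exp_add, hxl]; ring_nf
  rw [e1, e2, e3]
  have key : ∀ y : ℝ, |y| ≤ 1 → Real.exp (s * y) ≤ 1 + s * y + s ^ 2 := by
    intro y hy
    have h1 : |s * y| ≤ 1 := by
      rw [abs_mul]
      exact mul_le_one₀ hs (abs_nonneg _) hy
    have h2 := Real.abs_exp_sub_one_sub_id_le h1
    have h3 := (abs_le.1 h2).2
    have h4 : (s * y) ^ 2 ≤ s ^ 2 := by
      rw [mul_pow]
      have : y ^ 2 ≤ 1 := by rw [← sq_abs]; nlinarith [abs_nonneg y]
      nlinarith [sq_nonneg s]
    linarith
  obtain ⟨i1, i2, i3⟩ := h.incr u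
  have w := cond_pos h u
  have ha := h.ha
  have hl := h.lt_third
  have w1 : 0 ≤ cond u α (α + β) * (2 * α) := by positivity
  have w2 : 0 ≤ cond u α (α + β) * (1 - α) := mul_nonneg w.le (by linarith)
  have w3 : 0 ≤ α * (1 - α) := mul_nonneg ha.le (by linarith)
  have b1 := mul_le_mul_of_nonneg_left (key _ i1) w1
  have b2 := mul_le_mul_of_nonneg_left (key _ i2) w2
  have b3 := mul_le_mul_of_nonneg_left (key _ i3) w3
  have hm := h.mass u
  have hmean := h.mean u
  rw [← hcc] at hmean b1 b2 b3
  have hsum : cond u α (α + β) * (2 * α) * Real.exp (s * (-1 + cW α - cc)) +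
      cond u α (α + β) * (1 - α) * Real.exp (s * (0 - cc)) +
      α * (1 - α) * Real.exp (s * (1 - cc)) ≤ hW α u * Real.exp (s ^ 2) := by
    have hexp : 1 + s ^ 2 ≤ Real.exp (s ^ 2) := by linarith [Real.add_one_le_exp (s ^ 2)]
    have hh := h.hW_pos u
    calc _ ≤ cond u α (α + β) * (2 * α) * (1 + s * (-1 + cW α - cc) + s ^ 2) +
        cond u α (α + β) * (1 - α) * (1 + s * (0 - cc) + s ^ 2) +
        α * (1 - α) * (1 + s * (1 - cc) + s ^ 2) := by linarith
      _ = (cond u α (α + β) * (2 * α) + cond u α (α + β) * (1 - α) + α * (1 - α)) * (1 + s ^ 2) +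
        s * (cond u α (α + β) * (2 * α) * (-1 + cW α - cc) +
          cond u α (α + β) * (1 - α) * (0 - cc) + α * (1 - α) * (1 - cc)) := by ring
      _ = hW α u * (1 + s ^ 2) := by rw [hm, hmean]; ring
      _ ≤ _ := mul_le_mul_of_nonneg_left hexp hh.le
  have hE : 0 < Real.exp (s * x) := Real.exp_pos _
  calc _ = Real.exp (s * x) * (cond u α (α + β) * (2 * α) * Real.exp (s * (-1 + cW α - cc)) +
      cond u α (α + β) * (1 - α) * Real.exp (s * (0 - cc)) +
      α * (1 - α) * Real.exp (s * (1 - cc))) := by ring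
    _ ≤ Real.exp (s * x) * (hW α u * Real.exp (s ^ 2)) := mul_le_mul_of_nonneg_left hsum hE.le
    _ = _ := by ring

theorem stepW_add (g g' : Bool → ℤ → ℝ) (u : Bool) (l : ℤ) :
    stepW α β (fun v m => g v m + g' v m) u l = stepW α β g u l + stepW α β g' u l := by
  unfold stepW; ring

theorem stepW_smul (c : ℝ) (g : Bool → ℤ → ℝ) (u : Bool) (l : ℤ) :
    stepW α β (fun v m => c * g v m) u l = c * stepW α β g u l := by
  unfold stepW; ring

/-- the symmetric exponential supersolution -/
noncomputable def gW (α s : ℝ) (u : Bool) (l : ℤ) : ℝ :=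
  hW α u * Real.exp (s * xW α u l) + hW α u * Real.exp (-s * xW α u l)

theorem gW_step (h : Crit α β) {s : ℝ} (hs : |s| ≤ 1) (u : Bool) (l : ℤ) :
    stepW α β (gW α s) u l ≤ Real.exp (s ^ 2) * gW α s u l := by
  have h1 := stepW_exp h hs u l
  have h2 := stepW_exp h (s := -s) (by rwa [abs_neg]) u l
  have h3 : gW α s = fun v m => (fun v m => hW α v * Real.exp (s * xW α v m)) v m +
      (fun v m => hW α v * Real.exp (-s * xW α v m)) v m := rfl
  rw [h3, stepW_add]
  rw [neg_sq] at h2
  unfold gW at *
  simp only at *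
  linarith

theorem gW_pos (h : Crit α β) (s : ℝ) (u : Bool) (l : ℤ) : 0 < gW α s u l := by
  have := h.hW_pos u
  unfold gW
  positivity

theorem Crit.hW_ge (h : Crit α β) (u : Bool) : 2 * α ≤ hW α u := by
  cases u <;> simp [hW]
  linarith [h.lt_third]

theorem Crit.hW_le (h : Crit α β) (u : Bool) : hW α u ≤ 1 := by
  cases u <;> simp [hW] <;> linarith [h.ha, h.lt_third]

theorem xW_abs (h : Crit α β) (u : Bool) (l : ℤ) :
    |(l : ℝ)| - 1 / 2 ≤ |xW α u l| ∧ |xW α u l| ≤ |(l : ℝ)| + 1 / 2 := by
  have h1 := h.cW_pos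
  have h2 := h.cW_lt
  have h3 : |cond u (cW α) 0| ≤ 1 / 2 := by
    cases u
    · simp
    · simp only [cond_true]
      rw [abs_of_pos h1]
      exact h2.le
  unfold xW
  constructor
  · have := abs_sub_abs_le_abs_sub (l : ℝ) (-(cond u (cW α) 0))
    rw [abs_neg, sub_neg_eq_add] at this
    linarith
  · have := abs_add_le (l : ℝ) (cond u (cW α) 0)
    linarith

theorem gW_lower (h : Crit α β) {s : ℝ} (hs : 0 ≤ s) {L : ℤ} (u : Bool) {l : ℤ} (hl : L ≤ |l|) :
    2 * α * Real.exp (s * (L - 1 / 2)) ≤ gW α s u l := by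
  have h1 := (xW_abs h u l).1
  have h2 : (L : ℝ) ≤ |(l : ℝ)| := by exact_mod_cast hl
  have h3 := h.hW_ge u
  have h4 := h.hW_pos u
  have h5 : Real.exp (s * |xW α u l|) ≤ Real.exp (s * xW α u l) + Real.exp (-s * xW α u l) := by
    rcases abs_cases (xW α u l) with ⟨e, _⟩ | ⟨e, _⟩
    · rw [e]; linarith [Real.exp_pos (-s * xW α u l)]
    · rw [e]
      have : s * -xW α u l = -s * xW α u l := by ring
      rw [this]; linarith [Real.exp_pos (s * xW α u l)]
  have h6 : Real.exp (s * (L - 1 / 2)) ≤ Real.exp (s * |xW α u l|) := by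
    apply Real.exp_le_exp.2
    exact mul_le_mul_of_nonneg_left (by linarith) hs
  unfold gW
  have ha := h.ha
  nlinarith [Real.exp_pos (s * (L - 1 / 2)), Real.exp_pos (s * xW α u l),
    Real.exp_pos (-s * xW α u l), mul_le_mul h3 (h6.trans h5) (Real.exp_pos _).le h4.le]

theorem gW_upper (h : Crit α β) {s : ℝ} (hs : 0 ≤ s) (u : Bool) (l : ℤ) :
    gW α s u l ≤ 2 * Real.exp (s * (|(l : ℝ)| + 1 / 2)) := by
  have h1 := (xW_abs h u l).2
  have h3 := h.hW_le u
  have h4 := h.hW_pos u
  have a1 : Real.exp (s * xW α u l) ≤ Real.exp (s * (|(l : ℝ)| + 1 / 2)) := by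
    apply Real.exp_le_exp.2
    exact mul_le_mul_of_nonneg_left ((le_abs_self _).trans h1) hs
  have a2 : Real.exp (-s * xW α u l) ≤ Real.exp (s * (|(l : ℝ)| + 1 / 2)) := by
    apply Real.exp_le_exp.2
    have : -s * xW α u l = s * (-xW α u l) := by ring
    rw [this]
    exact mul_le_mul_of_nonneg_left ((neg_le_abs _).trans h1) hs
  unfold gW
  nlinarith [Real.exp_pos (s * xW α u l), Real.exp_pos (-s * xW α u l)]

/-- **discounted first passage** -/
theorem fpW_disc (h : Crit α β) {lam : ℝ} (h0 : 0 ≤ lam) (h1 : lam ≤ 1) (L : ℤ) (n : ℕ) (u : Bool)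
    (l : ℤ) :
    ∑ m ∈ range (n + 1), Real.exp (-lam * m) * fpW α β L m u l ≤
      (3 / α) * Real.exp (-(Real.sqrt lam * (L - |(l : ℝ)|))) := by
  set s := Real.sqrt lam with hsd
  have hs : 0 ≤ s := Real.sqrt_nonneg _
  have hs2 : s ^ 2 = lam := Real.sq_sqrt h0
  have hs1 : |s| ≤ 1 := by
    rw [abs_of_nonneg hs, hsd]
    exact Real.sqrt_le_one.2 h1
  have ha := h.ha
  set A := 2 * α * Real.exp (s * (L - 1 / 2)) with hA
  have hApos : 0 < A := by positivity
  have main : ∀ n : ℕ, ∀ u : Bool, ∀ l : ℤ,
      A * ∑ m ∈ range (n + 1), Real.exp (-lam * m) * fpW α β L m u l ≤ gW α s u l := by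
    intro n
    induction n with
    | zero =>
      intro u l
      simp only [zero_add, sum_range_one, Nat.cast_zero, mul_zero, Real.exp_zero, one_mul, fpW]
      split_ifs with hl
      · rw [mul_one]; exact gW_lower h hs u hl
      · rw [mul_zero]; exact (gW_pos h s u l).le
    | succ n ih =>
      intro u l
      rw [sum_range_succ']
      by_cases hl : L ≤ |l|
      · have z : ∑ k ∈ range (n + 1), Real.exp (-lam * ((k + 1 : ℕ) : ℝ)) * fpW α β L (k + 1) u l = 0 := by
          apply sum_eq_zero
          intro k _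
          simp [fpW, hl]
        rw [z]
        simp only [fpW, hl, if_true, Nat.cast_zero, mul_zero, Real.exp_zero, zero_add, mul_one]
        exact gW_lower h hs u hl
      · have z : fpW α β L 0 u l = 0 := by simp [fpW, hl]
        rw [z, mul_zero, add_zero]
        have e : ∑ k ∈ range (n + 1), Real.exp (-lam * ((k + 1 : ℕ) : ℝ)) * fpW α β L (k + 1) u l =
            Real.exp (-lam) * stepW α β
              (fun v m => ∑ k ∈ range (n + 1), Real.exp (-lam * k) * fpW α β L k v m) u l := by
          unfold stepW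
          simp only [mul_sum]
          rw [← sum_add_distrib, ← sum_add_distrib, mul_sum]
          refine sum_congr rfl fun k _ => ?_
          have : fpW α β L (k + 1) u l = stepW α β (fpW α β L k) u l := by
            simp [fpW, hl]
          rw [this]
          have e1 : Real.exp (-lam * ((k + 1 : ℕ) : ℝ)) = Real.exp (-lam) * Real.exp (-lam * k) := by
            rw [← Real.exp_add]; push_cast; ring_nf
          rw [e1]
          unfold stepW
          ring
        rw [e]
        have k1 : A * (Real.exp (-lam) * stepW α β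
              (fun v m => ∑ k ∈ range (n + 1), Real.exp (-lam * k) * fpW α β L k v m) u l) =
            Real.exp (-lam) * stepW α β
              (fun v m => A * ∑ k ∈ range (n + 1), Real.exp (-lam * k) * fpW α β L k v m) u l := by
          rw [stepW_smul]; ring
        rw [k1]
        have k2 : stepW α β
              (fun v m => A * ∑ k ∈ range (n + 1), Real.exp (-lam * k) * fpW α β L k v m) u l ≤
            stepW α β (gW α s) u l := stepW_mono h (ih _ _) (ih _ _) (ih _ _)
        have k3 := gW_step h hs1 u l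
        rw [hs2] at k3
        calc _ ≤ Real.exp (-lam) * (Real.exp lam * gW α s u l) :=
              mul_le_mul_of_nonneg_left (k2.trans k3) (Real.exp_pos _).le
          _ = gW α s u l := by
              rw [← mul_assoc, ← Real.exp_add, neg_add_cancel, Real.exp_zero, one_mul]
  have hm := main n u l
  have hu := gW_upper h hs u l
  have hfin : ∑ m ∈ range (n + 1), Real.exp (-lam * m) * fpW α β L m u l ≤
      2 * Real.exp (s * (|(l : ℝ)| + 1 / 2)) / A := by
    rw [le_div_iff₀ hApos, mul_comm]
    linarith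
  refine hfin.trans ?_
  rw [hA, div_le_iff₀ hApos]
  have e1 : Real.exp (s * (|(l : ℝ)| + 1 / 2)) =
      Real.exp (-(s * (L - |(l : ℝ)|))) * Real.exp (s * (L - 1 / 2)) * Real.exp s := by
    rw [← Real.exp_add, ← Real.exp_add]; ring_nf
  rw [e1]
  have e2 : Real.exp s ≤ 3 := by
    have : s ≤ 1 := by rwa [abs_of_nonneg hs] at hs1
    have := Real.exp_le_exp.2 this
    have h3 := Real.exp_one_lt_d9
    linarith
  have p1 : 0 < Real.exp (-(s * (L - |(l : ℝ)|))) * Real.exp (s * (L - 1 / 2)) := by positivity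
  have : 3 / α * Real.exp (-(s * (L - |(l : ℝ)|))) * (2 * α * Real.exp (s * (L - 1 / 2))) =
      6 * (Real.exp (-(s * (L - |(l : ℝ)|))) * Real.exp (s * (L - 1 / 2))) := by
    field_simp; ring
  rw [this]
  nlinarith

theorem stepW_nonneg (h : Crit α β) {g : Bool → ℤ → ℝ} (hg : ∀ v m, 0 ≤ g v m) (u : Bool) (l : ℤ) :
    0 ≤ stepW α β g u l := by
  have := cond_pos h u
  have := h.ha
  unfold stepW
  have h1 := hg true (l - 1)
  have h2 := hg false l
  have h3 := hg false (l + 1)
  positivity

theorem fpW_nonneg (h : Crit α β) (L : ℤ) (n : ℕ) (u : Bool) (l : ℤ) : 0 ≤ fpW α β L n u l := by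
  induction n generalizing u l with
  | zero => simp only [fpW]; split_ifs <;> norm_num
  | succ n ih =>
    simp only [fpW]
    split_ifs
    · exact le_rfl
    · exact stepW_nonneg h (fun v m => ih v m) u l

theorem endW_nonneg (h : Crit α β) (L : ℤ) (n : ℕ) (u : Bool) (l : ℤ) : 0 ≤ endW α β L n u l := by
  induction n generalizing u l with
  | zero => simp only [endW]; split_ifs <;> norm_num
  | succ n ih => exact stepW_nonneg h (fun v m => ih v m) u l

theorem stripW_nonneg (h : Crit α β) (L : ℤ) (n : ℕ) (u : Bool) (l : ℤ) :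
    0 ≤ stripW α β L n u l := by
  induction n generalizing u l with
  | zero => simp only [stripW]; split_ifs <;> norm_num
  | succ n ih =>
    simp only [stripW]
    split_ifs
    · exact stepW_nonneg h (fun v m => ih v m) u l
    · exact le_rfl

/-- no first passage of `L` before time `L - |l|` -/
theorem fpW_zero (α β : ℝ) (L : ℤ) (n : ℕ) (u : Bool) (l : ℤ) (hn : |l| + n < L) :
    fpW α β L n u l = 0 := by
  induction n generalizing u l with
  | zero =>
    simp only [fpW]
    rw [if_neg]
    push_cast at hn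
    linarith
  | succ n ih =>
    push_cast at hn
    simp only [fpW]
    split_ifs with hl
    · rfl
    · unfold stepW
      have e1 : |l - 1| ≤ |l| + 1 := by
        have := abs_sub l 1
        simpa using this
      have e2 : |l + 1| ≤ |l| + 1 := by
        have := abs_add_le l 1
        simpa using this
      rw [ih true (l - 1) (by linarith), ih false l (by linarith), ih false (l + 1) (by linarith)]
      ring

/-- **hitting before time `T`** -/
theorem fpW_before (h : Crit α β) (L : ℕ) (T : ℕ) (hT : 1 ≤ T) (u : Bool) :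
    ∑ m ∈ range (T + 1), fpW α β L m u 0 ≤ (3 / α) * Real.exp (-((L : ℝ) ^ 2 / (4 * T))) := by
  have ha := h.ha
  have hT' : (1 : ℝ) ≤ T := by exact_mod_cast hT
  rcases le_or_gt L (2 * T) with hL | hL
  · have hL' : (L : ℝ) ≤ 2 * T := by exact_mod_cast hL
    set r := (L : ℝ) / (2 * T) with hr
    have r0 : 0 ≤ r := by positivity
    have r1 : r ≤ 1 := by rw [hr, div_le_one (by positivity)]; exact hL'
    have hd := fpW_disc h (lam := r ^ 2) (by positivity) (by nlinarith) (L : ℤ) T u 0
    rw [Real.sqrt_sq r0] at hd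
    have hle : Real.exp (-(r ^ 2) * T) * ∑ m ∈ range (T + 1), fpW α β L m u 0 ≤
        ∑ m ∈ range (T + 1), Real.exp (-(r ^ 2) * m) * fpW α β L m u 0 := by
      rw [mul_sum]
      refine sum_le_sum fun m hm => ?_
      apply mul_le_mul_of_nonneg_right _ (fpW_nonneg h _ _ _ _)
      apply Real.exp_le_exp.2
      have : (m : ℝ) ≤ T := by
        have := mem_range.1 hm
        exact_mod_cast Nat.lt_succ_iff.1 this
      nlinarith [sq_nonneg r]
    have hc := hle.trans hd
    have e : Real.exp (-(r ^ 2) * T) * (∑ m ∈ range (T + 1), fpW α β L m u 0) =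
        (∑ m ∈ range (T + 1), fpW α β L m u 0) / Real.exp (r ^ 2 * T) := by
      rw [div_eq_mul_inv, ← Real.exp_neg, mul_comm]; ring_nf
    rw [e, div_le_iff₀ (Real.exp_pos _), mul_assoc, ← Real.exp_add] at hc
    refine hc.trans ?_
    apply mul_le_mul_of_nonneg_left _ (by positivity)
    apply Real.exp_le_exp.2
    simp only [Int.cast_natCast, Int.cast_zero, abs_zero, sub_zero]
    rw [hr]
    have hT0 : (T : ℝ) ≠ 0 := by positivity
    apply le_of_eq
    field_simp
    ring
  · have z : ∑ m ∈ range (T + 1), fpW α β L m u 0 = 0 := by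
      apply sum_eq_zero
      intro m hm
      apply fpW_zero α β
      have := mem_range.1 hm
      simp only [abs_zero, zero_add]
      exact_mod_cast (by omega : m < L)
    rw [z]
    positivity

/-- bound of the end mass, for every `0 ≤ s ≤ 1` -/
theorem endW_le (h : Crit α β) {s : ℝ} (h0 : 0 ≤ s) (h1 : s ≤ 1) (L : ℤ) (n : ℕ) (u : Bool)
    (l : ℤ) :
    endW α β L n u l ≤ (3 / α) * Real.exp (s ^ 2 * n - s * (L - |(l : ℝ)|)) := by
  have hs1 : |s| ≤ 1 := by rwa [abs_of_nonneg h0]
  have ha := h.ha
  set A := 2 * α * Real.exp (s * (L - 1 / 2)) with hA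
  have hApos : 0 < A := by positivity
  have main : ∀ n : ℕ, ∀ u : Bool, ∀ l : ℤ,
      A * endW α β L n u l ≤ Real.exp (s ^ 2 * n) * gW α s u l := by
    intro n
    induction n with
    | zero =>
      intro u l
      simp only [endW, Nat.cast_zero, mul_zero, Real.exp_zero, one_mul]
      split_ifs with hl
      · rw [mul_one]; exact gW_lower h h0 u hl
      · rw [mul_zero]; exact (gW_pos h s u l).le
    | succ n ih =>
      intro u l
      have k0 : A * endW α β L (n + 1) u l = stepW α β (fun v m => A * endW α β L n v m) u l := by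
        rw [stepW_smul]; rfl
      rw [k0]
      have k2 : stepW α β (fun v m => A * endW α β L n v m) u l ≤
          stepW α β (fun v m => Real.exp (s ^ 2 * n) * gW α s v m) u l :=
        stepW_mono h (ih _ _) (ih _ _) (ih _ _)
      refine k2.trans ?_
      rw [stepW_smul]
      have k3 := gW_step h hs1 u l
      calc _ ≤ Real.exp (s ^ 2 * n) * (Real.exp (s ^ 2) * gW α s u l) :=
            mul_le_mul_of_nonneg_left k3 (Real.exp_pos _).le
        _ = _ := by
            rw [← mul_assoc, ← Real.exp_add]; push_cast; ring_nf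
  have hm := main n u l
  have hu := gW_upper h h0 u l
  have hfin : endW α β L n u l ≤
      Real.exp (s ^ 2 * n) * (2 * Real.exp (s * (|(l : ℝ)| + 1 / 2))) / A := by
    rw [le_div_iff₀ hApos, mul_comm]
    exact hm.trans (mul_le_mul_of_nonneg_left hu (Real.exp_pos _).le)
  refine hfin.trans ?_
  rw [hA, div_le_iff₀ (by positivity)]
  have e1 : Real.exp (s * (|(l : ℝ)| + 1 / 2)) =
      Real.exp (-(s * (L - |(l : ℝ)|))) * Real.exp (s * (L - 1 / 2)) * Real.exp s := by
    rw [← Real.exp_add, ← Real.exp_add]; ring_nf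
  have e3 : Real.exp (s ^ 2 * n - s * (L - |(l : ℝ)|)) =
      Real.exp (s ^ 2 * n) * Real.exp (-(s * (L - |(l : ℝ)|))) := by
    rw [← Real.exp_add]; ring_nf
  rw [e1, e3]
  have e2 : Real.exp s ≤ 3 := by
    have := Real.exp_le_exp.2 h1
    have h3 := Real.exp_one_lt_d9
    linarith
  have p1 : 0 < Real.exp (s ^ 2 * n) * (Real.exp (-(s * (L - |(l : ℝ)|))) * Real.exp (s * (L - 1 / 2))) := by
    positivity
  have : 3 / α * (Real.exp (s ^ 2 * n) * Real.exp (-(s * (L - |(l : ℝ)|)))) *
      (2 * α * Real.exp (s * (L - 1 / 2))) =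
      6 * (Real.exp (s ^ 2 * n) * (Real.exp (-(s * (L - |(l : ℝ)|))) * Real.exp (s * (L - 1 / 2)))) := by
    field_simp; ring
  rw [this]
  nlinarith

/-- no path of length `n` ends at distance `> n` -/
theorem endW_zero (α β : ℝ) (L : ℤ) (n : ℕ) (u : Bool) (l : ℤ) (hn : |l| + n < L) :
    endW α β L n u l = 0 := by
  induction n generalizing u l with
  | zero =>
    simp only [endW]
    rw [if_neg]
    push_cast at hn
    linarith
  | succ n ih =>
    push_cast at hn
    simp only [endW]
    unfold stepW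
    have e1 : |l - 1| ≤ |l| + 1 := by
      have := abs_sub l 1
      simpa using this
    have e2 : |l + 1| ≤ |l| + 1 := by
      have := abs_add_le l 1
      simpa using this
    rw [ih true (l - 1) (by linarith), ih false l (by linarith), ih false (l + 1) (by linarith)]
    ring

/-- **deviations** -/
theorem endW_dev (h : Crit α β) (L : ℕ) (n : ℕ) (hn : 1 ≤ n) (u : Bool) :
    endW α β L n u 0 ≤ (3 / α) * Real.exp (-((L : ℝ) ^ 2 / (4 * n))) := by
  have ha := h.ha
  have hn' : (1 : ℝ) ≤ n := by exact_mod_cast hn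
  rcases le_or_gt L (2 * n) with hL | hL
  · have hL' : (L : ℝ) ≤ 2 * n := by exact_mod_cast hL
    have := endW_le h (s := (L : ℝ) / (2 * n)) (by positivity)
      (by rw [div_le_one (by positivity)]; exact hL') (L : ℤ) n u 0
    refine this.trans ?_
    apply mul_le_mul_of_nonneg_left _ (by positivity)
    apply Real.exp_le_exp.2
    simp only [Int.cast_natCast, Int.cast_zero, abs_zero, sub_zero]
    apply le_of_eq
    field_simp
    ring
  · rw [endW_zero α β]
    · positivity
    · simp only [abs_zero, zero_add]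
      exact_mod_cast (by omega : n < L)

/-- total mass of all paths of length `n` -/
theorem mass_le (h : Crit α β) (n : ℕ) (u : Bool) (l : ℤ) :
    2 * α * endW α β 0 n u l ≤ hW α u := by
  induction n generalizing u l with
  | zero =>
    simp only [endW, abs_nonneg, if_true, mul_one]
    exact h.hW_ge u
  | succ n ih =>
    have k0 : 2 * α * endW α β 0 (n + 1) u l = stepW α β (fun v m => 2 * α * endW α β 0 n v m) u l := by
      rw [stepW_smul]; rfl
    rw [k0]
    have k2 : stepW α β (fun v m => 2 * α * endW α β 0 n v m) u l ≤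
        stepW α β (fun v _ => hW α v) u l := stepW_mono h (ih _ _) (ih _ _) (ih _ _)
    refine k2.trans (le_of_eq ?_)
    have := stepW_hx (α := α) (β := β) (fun _ => 1) u l
    simp only [mul_one] at this
    rw [this]
    exact h.mass u

/-- the quadratic supersolution in a strip -/
theorem stepW_quad (h : Crit α β) (B : ℝ) (u : Bool) (l : ℤ) :
    stepW α β (fun v m => hW α v * (B - xW α v m ^ 2)) u l ≤
      hW α u * (B - xW α u l ^ 2 - α) := by
  rw [stepW_hx (fun x => B - x ^ 2)]
  set x := xW α u l with hx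
  set cc := cond u (cW α) 0 with hcc
  have hxl : x = l + cc := rfl
  have hm := h.mass u
  have hmean := h.mean u
  rw [← hcc] at hmean
  have ha := h.ha
  have hl := h.lt_third
  have w := cond_pos h u
  have hvar : α * hW α u ≤ cond u α (α + β) * (2 * α) * (-1 + cW α - cc) ^ 2 +
      cond u α (α + β) * (1 - α) * (0 - cc) ^ 2 + α * (1 - α) * (1 - cc) ^ 2 := by
    cases u
    · simp only [cond_false] at hcc w ⊢
      rw [hcc]
      simp only [hW, cond_false]
      have : 0 ≤ (α + β) * (2 * α) * (-1 + cW α - 0) ^ 2 := by positivity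
      nlinarith
    · simp only [cond_true] at hcc w ⊢
      rw [hcc]
      simp only [hW, cond_true]
      have h1 : 0 ≤ α * (1 - α) * (0 - cW α) ^ 2 := by
        have : 0 ≤ 1 - α := by linarith
        positivity
      have h2 : 0 ≤ α * (1 - α) * (1 - cW α) ^ 2 := by
        have : 0 ≤ 1 - α := by linarith
        positivity
      have h3 : (-1 + cW α - cW α) ^ 2 = 1 := by ring
      rw [h3]
      nlinarith
  have e : cond u α (α + β) * (2 * α) * (B - (l - 1 + cW α) ^ 2) +
      cond u α (α + β) * (1 - α) * (B - (l : ℝ) ^ 2) + α * (1 - α) * (B - (l + 1) ^ 2) =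
      (cond u α (α + β) * (2 * α) + cond u α (α + β) * (1 - α) + α * (1 - α)) * (B - x ^ 2) -
      2 * x * (cond u α (α + β) * (2 * α) * (-1 + cW α - cc) +
        cond u α (α + β) * (1 - α) * (0 - cc) + α * (1 - α) * (1 - cc)) -
      (cond u α (α + β) * (2 * α) * (-1 + cW α - cc) ^ 2 +
        cond u α (α + β) * (1 - α) * (0 - cc) ^ 2 + α * (1 - α) * (1 - cc) ^ 2) := by
    have : (l : ℝ) = x - cc := by rw [hxl]; ring
    rw [this]
    ring
  rw [e, hm, hmean]
  nlinarith

/-- **strip** -/
theorem stripW_le (h : Crit α β) (L : ℕ) (n : ℕ) (u : Bool) (l : ℤ) :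
    stripW α β L n u l ≤ (2 / (3 * α)) * Real.exp (-(α * n / (4 * ((L : ℝ) + 1) ^ 2))) := by
  have ha := h.ha
  have hl3 := h.lt_third
  set L' : ℝ := (L : ℝ) + 1 with hL'
  have hL1 : 1 ≤ L' := by rw [hL']; have : (0 : ℝ) ≤ L := Nat.cast_nonneg L; linarith
  set q := 1 - α / (4 * L' ^ 2) with hq
  have hq0 : 0 ≤ q := by
    rw [hq, sub_nonneg, div_le_one (by positivity)]
    nlinarith
  have hpos : ∀ v : Bool, ∀ m : ℤ, |m| ≤ (L : ℤ) + 1 → 0 ≤ hW α v * (4 * L' ^ 2 - xW α v m ^ 2) := by
    intro v m hm
    have h1 := (xW_abs h v m).2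
    have h2 : |(m : ℝ)| ≤ L + 1 := by exact_mod_cast hm
    have h3 : |xW α v m| ≤ 2 * L' := by linarith
    have h4 := h.hW_pos v
    have h5 : xW α v m ^ 2 ≤ (2 * L') ^ 2 := sq_le_sq' (by linarith [neg_abs_le (xW α v m)])
      (by linarith [le_abs_self (xW α v m)])
    apply mul_nonneg h4.le
    nlinarith
  have main : ∀ n : ℕ, ∀ u : Bool, ∀ l : ℤ, |l| ≤ (L : ℤ) + 1 →
      6 * α * L' ^ 2 * stripW α β L n u l ≤ q ^ n * (hW α u * (4 * L' ^ 2 - xW α u l ^ 2)) := by
    intro n
    induction n with
    | zero =>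
      intro u l hl'
      simp only [stripW, pow_zero, one_mul]
      split_ifs with hl
      · have h1 := (xW_abs h u l).2
        have h2 : |(l : ℝ)| ≤ L := by exact_mod_cast hl
        have h5 : xW α u l ^ 2 ≤ L' ^ 2 := sq_le_sq' (by linarith [neg_abs_le (xW α u l)])
          (by linarith [le_abs_self (xW α u l)])
        have h6 := h.hW_ge u
        have h7 : 3 * L' ^ 2 ≤ 4 * L' ^ 2 - xW α u l ^ 2 := by linarith
        have := mul_le_mul h6 h7 (by positivity) (h.hW_pos u).le
        linarith
      · rw [mul_zero]; exact hpos u l hl'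
    | succ n ih =>
      intro u l hl'
      simp only [stripW]
      split_ifs with hl
      · have k0 : 6 * α * L' ^ 2 * stepW α β (stripW α β L n) u l =
            stepW α β (fun v m => 6 * α * L' ^ 2 * stripW α β L n v m) u l := by
          rw [stepW_smul]
        rw [k0]
        have e1 : |l - 1| ≤ (L : ℤ) + 1 := by
          have := abs_sub l 1
          simp only [abs_one] at this
          linarith
        have e2 : |l + 1| ≤ (L : ℤ) + 1 := by
          have := abs_add_le l 1
          simp only [abs_one] at this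
          linarith
        have k2 : stepW α β (fun v m => 6 * α * L' ^ 2 * stripW α β L n v m) u l ≤
            stepW α β (fun v m => q ^ n * (hW α v * (4 * L' ^ 2 - xW α v m ^ 2))) u l :=
          stepW_mono h (ih _ _ e1) (ih _ _ hl') (ih _ _ e2)
        refine k2.trans ?_
        rw [stepW_smul]
        have k3 := stepW_quad h (4 * L' ^ 2) u l
        have k4 : hW α u * (4 * L' ^ 2 - xW α u l ^ 2 - α) ≤
            q * (hW α u * (4 * L' ^ 2 - xW α u l ^ 2)) := by
          have h1 : 4 * L' ^ 2 - xW α u l ^ 2 ≤ 4 * L' ^ 2 := by nlinarith [sq_nonneg (xW α u l)]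
          have h2 := h.hW_pos u
          have h3 : α / (4 * L' ^ 2) * (4 * L' ^ 2 - xW α u l ^ 2) ≤ α := by
            calc _ ≤ α / (4 * L' ^ 2) * (4 * L' ^ 2) := mul_le_mul_of_nonneg_left h1 (by positivity)
              _ = α := by field_simp
          rw [hq]
          nlinarith
        calc _ ≤ q ^ n * (q * (hW α u * (4 * L' ^ 2 - xW α u l ^ 2))) :=
              mul_le_mul_of_nonneg_left (k3.trans k4) (by positivity)
          _ = _ := by ring
      · rw [mul_zero]
        exact mul_nonneg (by positivity) (hpos u l hl')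
  rcases le_or_gt |l| (L : ℤ) with hl | hl
  · have hm := main n u l (by linarith)
    have hup : hW α u * (4 * L' ^ 2 - xW α u l ^ 2) ≤ 4 * L' ^ 2 := by
      have h1 := h.hW_le u
      have h2 := h.hW_pos u
      have h3 := hpos u l (by linarith)
      nlinarith [sq_nonneg (xW α u l), sq_nonneg L']
    have hqe : q ≤ Real.exp (-(α / (4 * L' ^ 2))) := by
      have := Real.add_one_le_exp (-(α / (4 * L' ^ 2)))
      rw [hq]; linarith
    have hqn : q ^ n ≤ Real.exp (-(α * n / (4 * L' ^ 2))) := by
      calc q ^ n ≤ (Real.exp (-(α / (4 * L' ^ 2)))) ^ n := pow_le_pow_left₀ hq0 hqe n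
        _ = _ := by rw [← Real.exp_nat_mul]; ring_nf
    have hfin : 6 * α * L' ^ 2 * stripW α β L n u l ≤
        Real.exp (-(α * n / (4 * L' ^ 2))) * (4 * L' ^ 2) := by
      refine hm.trans ?_
      exact mul_le_mul hqn hup (hpos u l (by linarith)) (Real.exp_pos _).le
    have hpos6 : 0 < 6 * α * L' ^ 2 := by positivity
    have : stripW α β L n u l ≤ Real.exp (-(α * n / (4 * L' ^ 2))) * (4 * L' ^ 2) / (6 * α * L' ^ 2) := by
      rw [le_div_iff₀ hpos6, mul_comm]; exact hfin
    refine this.trans (le_of_eq ?_)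
    field_simp
    ring
  · have z : stripW α β L n u l = 0 := by
      cases n with
      | zero => simp only [stripW]; rw [if_neg (not_le.2 hl)]
      | succ n => simp only [stripW]; rw [if_neg (not_le.2 hl)]
    rw [z]
    positivity

/-- the number of steps in a strip -/
theorem stripW_sum (h : Crit α β) (L : ℕ) (n : ℕ) (u : Bool) (l : ℤ) :
    ∑ m ∈ range n, stripW α β L m u l ≤ (2 / (3 * α)) * (1 + 4 * ((L : ℝ) + 1) ^ 2 / α) := by
  have ha := h.ha
  have hl3 := h.lt_third
  set L' : ℝ := (L : ℝ) + 1 with hL'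
  have hL1 : 1 ≤ L' := by rw [hL']; have : (0 : ℝ) ≤ L := Nat.cast_nonneg L; linarith
  set t := α / (4 * L' ^ 2) with ht
  have ht0 : 0 < t := by positivity
  have hq1 : Real.exp (-t) < 1 := by rw [Real.exp_lt_one_iff]; linarith
  have hq0 := Real.exp_pos (-t)
  have h1 : ∑ m ∈ range n, stripW α β L m u l ≤ ∑ m ∈ range n, (2 / (3 * α)) * Real.exp (-t) ^ m := by
    refine sum_le_sum fun m _ => ?_
    have := stripW_le h L m u l
    refine this.trans (le_of_eq ?_)
    rw [← Real.exp_nat_mul, ht]
    congr 2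
    ring
  refine h1.trans ?_
  rw [← mul_sum]
  apply mul_le_mul_of_nonneg_left _ (by positivity)
  have h2 : ∑ m ∈ range n, Real.exp (-t) ^ m ≤ 1 / (1 - Real.exp (-t)) := by
    have h3 : (∑ m ∈ range n, Real.exp (-t) ^ m) * (1 - Real.exp (-t)) = 1 - Real.exp (-t) ^ n := by
      have := geom_sum_mul (Real.exp (-t)) n
      linarith
    rw [le_div_iff₀ (by linarith), h3]
    have : 0 ≤ Real.exp (-t) ^ n := by positivity
    linarith
  refine h2.trans ?_
  have h4 : Real.exp (-t) ≤ 1 / (1 + t) := by
    rw [Real.exp_neg, ← one_div]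
    apply one_div_le_one_div_of_le (by linarith)
    linarith [Real.add_one_le_exp t]
  have h5 : t / (1 + t) ≤ 1 - Real.exp (-t) := by
    have : t / (1 + t) = 1 - 1 / (1 + t) := by field_simp; ring
    rw [this]; linarith
  calc 1 / (1 - Real.exp (-t)) ≤ 1 / (t / (1 + t)) :=
        one_div_le_one_div_of_le (by positivity) h5
    _ = 1 + 1 / t := by field_simp; ring
    _ = _ := by rw [ht]; field_simp

end

end Pool.Agent.DiamP
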