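import Pool.Agent.DiamP.Pow

/-!
# Weights of powers: the transfer lemma and its applications (chapter 4 of MP_d7a93a_pr)

`R n = Σ_j τ_j P(S_j = n)` with `S_j` a heavy sum.  Information on `R` gives information on `τ`.
-/

set_option autoImplicit false

open Finset Filter Topology
open scoped Real

namespace Pool.Agent.DiamP

/-- the data -/
structure TD (c K KR : ℝ) (p τ R : ℕ → ℝ) : Prop where
  c_pos : 0 < c
  law : HLaw c K p
  p_zero : p 0 = 0
  τ_nonneg : ∀ j, 0 ≤ τ j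
  τ_zero : τ 0 = 0
  R_eq : ∀ n, R n = ∑ j ∈ range (n + 1), τ j * pw p j n
  R_up : ∀ n : ℕ, 1 ≤ n → R n ≤ KR * (n : ℝ) ^ (-(5 / 2) : ℝ)

theorem meanL_replicate (p : ℕ → ℝ) (j : ℕ) : meanL (List.replicate j p) = j * mean p := by
  induction j with
  | zero => simp
  | succ j ih =>
    rw [List.replicate_succ, meanL_cons, ih]
    push_cast
    ring

theorem IsLaw.pw {p : ℕ → ℝ} (hp : IsLaw p) (j : ℕ) : IsLaw (pw p j) :=
  isLaw_cvL fun q hq => by rw [List.eq_of_mem_replicate hq]; exact hp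

section
variable {c K KR : ℝ} {p τ R : ℕ → ℝ}

theorem TD.isLaw (h : TD c K KR p τ R) : IsLaw p := h.law.law

theorem TD.K_nonneg (h : TD c K KR p τ R) : 0 ≤ K := h.law.ht.K_nonneg

theorem TD.R_nonneg (h : TD c K KR p τ R) (n : ℕ) : 0 ≤ R n := by
  rw [h.R_eq]
  exact sum_nonneg fun j _ => mul_nonneg (h.τ_nonneg j) ((h.isLaw.pw j).nonneg n)

theorem TD.KR_nonneg (h : TD c K KR p τ R) : 0 ≤ KR := by
  have h1 := h.R_up 1 le_rfl
  rw [Nat.cast_one, Real.one_rpow, mul_one] at h1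
  exact (h.R_nonneg 1).trans h1

/-- the mean is at least one -/
theorem TD.one_le_mean (h : TD c K KR p τ R) : 1 ≤ mean p := by
  rw [← h.isLaw.tsum]
  unfold mean ex
  refine h.isLaw.summable.tsum_le_tsum (fun n => ?_) h.law.ht.summable_mean
  rcases Nat.eq_zero_or_pos n with rfl | hn
  · rw [h.p_zero, zero_mul]
  · have : (1 : ℝ) ≤ n := by exact_mod_cast hn
    have := mul_le_mul_of_nonneg_left this (h.isLaw.nonneg n)
    linarith

/-- half of the mass of `S_j` is in the window of width `j^(2/3)` -/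
theorem TD.half (h : TD c K KR p τ R) : ∃ l : ℝ, 0 < l ∧ ∀ j : ℕ, 1 ≤ j → ∀ M : ℕ,
    (∀ N : ℕ, |(N : ℝ) - j * mean p| < l * (j : ℝ) ^ (2 / 3 : ℝ) → N < M) →
    1 / 2 ≤ ∑ N ∈ (range M).filter (fun N : ℕ => |(N : ℝ) - j * mean p| <
      l * (j : ℝ) ^ (2 / 3 : ℝ)), pw p j N := by
  have hd := dK_nonneg h.K_nonneg
  set C := 4 * dK K + 1 with hC
  have hCpos : 0 < C := by linarith
  refine ⟨(2 * C) ^ (2 / 3 : ℝ), by positivity, fun j hj M hM => ?_⟩
  set l := (2 * C) ^ (2 / 3 : ℝ) with hl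
  have hl0 : 0 < l := by positivity
  have hj' : (0 : ℝ) < j := by exact_mod_cast hj
  set t := l * (j : ℝ) ^ (2 / 3 : ℝ) with ht
  have ht0 : 0 < t := by positivity
  have hlaw := h.isLaw.pw j
  have h1 := heavy_dev h.K_nonneg (l := List.replicate j p)
    (fun q hq => by rw [List.eq_of_mem_replicate hq]; exact h.law.ht) ht0
  rw [meanL_replicate, List.length_replicate] at h1
  have h2 : (4 * dK K + 1) * (j : ℝ) * t ^ (-(3 / 2) : ℝ) = 1 / 2 := by
    rw [ht, Real.mul_rpow hl0.le (by positivity), ← Real.rpow_mul hj'.le, hl,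
      ← Real.rpow_mul (by positivity)]
    rw [show ((2 : ℝ) / 3 * -(3 / 2)) = -1 by norm_num, Real.rpow_neg_one, Real.rpow_neg_one, ← hC]
    field_simp
  rw [h2] at h1
  -- total mass
  have h3 : ∑ N ∈ (range M).filter (fun N : ℕ => |(N : ℝ) - j * mean p| < t), pw p j N =
      pr (pw p j) {N | |(N : ℝ) - j * mean p| < t} := by
    unfold pr
    rw [tsum_eq_sum (s := (range M).filter (fun N : ℕ => |(N : ℝ) - j * mean p| < t))]
    · refine sum_congr rfl fun N hN => ?_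
      rw [Set.indicator_of_mem]
      exact (mem_filter.1 hN).2
    · intro N hN
      rw [Set.indicator_of_notMem]
      intro hmem
      have hmem' : |(N : ℝ) - j * mean p| < t := hmem
      exact hN (mem_filter.2 ⟨mem_range.2 (hM N hmem'), hmem'⟩)
  rw [h3]
  have h4 : pr (pw p j) {N | |(N : ℝ) - j * mean p| < t} +
      pr (pw p j) {N | t ≤ |(N : ℝ) - j * mean p|} = 1 := by
    unfold pr
    rw [← (hlaw.summable_indicator _).tsum_add (hlaw.summable_indicator _), ← hlaw.tsum]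
    refine tsum_congr fun N => ?_
    by_cases hN : |(N : ℝ) - j * mean p| < t
    · rw [Set.indicator_of_mem (s := {N : ℕ | |(N : ℝ) - j * mean p| < t}) hN,
        Set.indicator_of_notMem, add_zero]
      exact not_le.2 hN
    · rw [Set.indicator_of_notMem (s := {N : ℕ | |(N : ℝ) - j * mean p| < t}) hN,
        Set.indicator_of_mem, zero_add]
      exact not_lt.1 hN
  have h5 : pr (pw p j) {N | t ≤ |(N : ℝ) - j * mean p|} ≤ 1 / 2 := h1
  linarith

/-- **transfer**: sums of `τ_j g_j` are bounded by sums of `R` -/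
theorem TD.transfer (h : TD c K KR p τ R) : ∃ l : ℝ, 0 < l ∧ ∀ (J : Finset ℕ) (g G : ℕ → ℝ) (M : ℕ),
    (∀ j ∈ J, 0 ≤ g j) → (∀ N < M, 0 ≤ G N) →
    (∀ j ∈ J, 1 ≤ j → ∀ N : ℕ, |(N : ℝ) - j * mean p| < l * (j : ℝ) ^ (2 / 3 : ℝ) →
      N < M ∧ g j ≤ G N) →
    ∑ j ∈ J, τ j * g j ≤ 2 * ∑ N ∈ range M, G N * R N := by
  obtain ⟨l, hl, hhalf⟩ := h.half
  refine ⟨l, hl, fun J g G M hg hG hW => ?_⟩
  have h1 : ∀ j ∈ J, τ j * g j ≤ 2 * ∑ N ∈ range M, G N * (τ j * pw p j N) := by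
    intro j hj
    rcases Nat.eq_zero_or_pos j with rfl | hj0
    · rw [h.τ_zero]
      simp
    have h2 := hhalf j hj0 M fun N hN => (hW j hj hj0 N hN).1
    have h3 : 0 ≤ τ j * g j := mul_nonneg (h.τ_nonneg j) (hg j hj)
    have h4 : τ j * g j ≤ 2 * ((τ j * g j) *
        ∑ N ∈ (range M).filter (fun N : ℕ => |(N : ℝ) - j * mean p| <
          l * (j : ℝ) ^ (2 / 3 : ℝ)), pw p j N) := by nlinarith
    refine h4.trans (mul_le_mul_of_nonneg_left ?_ (by norm_num))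
    rw [Finset.mul_sum]
    have h5 : ∑ N ∈ (range M).filter (fun N : ℕ => |(N : ℝ) - j * mean p| <
          l * (j : ℝ) ^ (2 / 3 : ℝ)), τ j * g j * pw p j N ≤
        ∑ N ∈ (range M).filter (fun N : ℕ => |(N : ℝ) - j * mean p| <
          l * (j : ℝ) ^ (2 / 3 : ℝ)), G N * (τ j * pw p j N) := by
      refine sum_le_sum fun N hN => ?_
      have h6 := (hW j hj hj0 N (mem_filter.1 hN).2).2
      have h7 : 0 ≤ τ j * pw p j N := mul_nonneg (h.τ_nonneg j) ((h.isLaw.pw j).nonneg N)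
      calc τ j * g j * pw p j N = g j * (τ j * pw p j N) := by ring
        _ ≤ G N * (τ j * pw p j N) := mul_le_mul_of_nonneg_right h6 h7
    refine h5.trans (sum_le_sum_of_subset_of_nonneg (filter_subset _ _) fun N hN _ => ?_)
    exact mul_nonneg (hG N (mem_range.1 hN))
      (mul_nonneg (h.τ_nonneg j) ((h.isLaw.pw j).nonneg N))
  refine (sum_le_sum h1).trans ?_
  rw [← Finset.mul_sum, Finset.sum_comm]
  refine mul_le_mul_of_nonneg_left (sum_le_sum fun N hN => ?_) (by norm_num)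
  rw [← Finset.mul_sum]
  refine mul_le_mul_of_nonneg_left ?_ (hG N (mem_range.1 hN))
  rw [h.R_eq]
  have h3 : ∑ j ∈ J, τ j * pw p j N ≤ ∑ j ∈ J.filter (fun j => j < N + 1), τ j * pw p j N := by
    rw [Finset.sum_filter]
    refine sum_le_sum fun j _ => ?_
    split_ifs with hj
    · exact le_rfl
    · rw [pw_eq_zero h.p_zero (by omega), mul_zero]
  refine h3.trans ?_
  refine sum_le_sum_of_subset_of_nonneg ?_ fun j _ _ =>
    mul_nonneg (h.τ_nonneg j) ((h.isLaw.pw j).nonneg N)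
  intro j hj
  exact mem_range.2 (mem_filter.1 hj).2

/-- a power is small compared with another one -/
theorem eventually_pow_lt {α β C : ℝ} (hαβ : α < β) : ∃ n0 : ℕ, 1 ≤ n0 ∧ ∀ x : ℝ, n0 ≤ x →
    C * x ^ α ≤ x ^ β := by
  have h1 : Tendsto (fun x : ℝ => x ^ (β - α)) atTop atTop := tendsto_rpow_atTop (by linarith)
  have h2 := h1.eventually (eventually_ge_atTop C)
  obtain ⟨x0, hx0⟩ := Filter.eventually_atTop.1 h2
  refine ⟨⌈x0⌉₊ + 1, by omega, fun x hx => ?_⟩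
  push_cast at hx
  have h3 : x0 ≤ x := (Nat.le_ceil x0).trans (by linarith)
  have h4 := hx0 x h3
  have h5 : 0 < x := by
    have : (0 : ℝ) ≤ ⌈x0⌉₊ := Nat.cast_nonneg _
    linarith
  have h6 : x ^ β = x ^ (β - α) * x ^ α := by rw [← Real.rpow_add h5]; congr 1; ring
  rw [h6]
  exact mul_le_mul_of_nonneg_right h4 (by positivity)

/-- `Σ τ_j j^(4/3)` converges -/
theorem TD.summable_four_thirds (h : TD c K KR p τ R) :
    Summable fun j : ℕ => τ j * (j : ℝ) ^ (4 / 3 : ℝ) := by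
  obtain ⟨l, hl, htr⟩ := h.transfer
  have hμ := h.one_le_mean
  set μ := mean p with hμdef
  have hμ0 : 0 < μ := by linarith
  have hKR := h.KR_nonneg
  obtain ⟨j0, hj0, hpow⟩ := eventually_pow_lt (α := 2 / 3) (β := 1) (C := 2 * l) (by norm_num)
  have key : ∀ n : ℕ, ∑ j ∈ range n, τ j * (j : ℝ) ^ (4 / 3 : ℝ) ≤
      ∑ j ∈ range j0, τ j * (j : ℝ) ^ (4 / 3 : ℝ) +
        2 * ((2 : ℝ) ^ (4 / 3 : ℝ) * KR * pc (1 / 6)) := by
    intro n
    have hnn : ∀ j : ℕ, 0 ≤ τ j * (j : ℝ) ^ (4 / 3 : ℝ) := fun j =>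
      mul_nonneg (h.τ_nonneg j) (by positivity)
    have h1 : ∑ j ∈ range n, τ j * (j : ℝ) ^ (4 / 3 : ℝ) ≤
        ∑ j ∈ range j0, τ j * (j : ℝ) ^ (4 / 3 : ℝ) +
          ∑ j ∈ (range n).filter (fun j => j0 ≤ j), τ j * (j : ℝ) ^ (4 / 3 : ℝ) := by
      rw [← sum_filter_add_sum_filter_not (range n) (fun j => j0 ≤ j), add_comm]
      refine add_le_add (sum_le_sum_of_subset_of_nonneg ?_ fun j _ _ => hnn j) le_rfl
      intro j hj
      exact mem_range.2 (not_le.1 (mem_filter.1 hj).2)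
    refine h1.trans (add_le_add le_rfl ?_)
    -- transfer
    obtain ⟨M, hM⟩ : ∃ M : ℕ, ∀ j ∈ (range n).filter (fun j => j0 ≤ j), ∀ N : ℕ,
        |(N : ℝ) - j * μ| < l * (j : ℝ) ^ (2 / 3 : ℝ) → N < M := by
      refine ⟨⌈(n : ℝ) * μ + l * (n : ℝ) ^ (2 / 3 : ℝ)⌉₊ + 1, fun j hj N hN => ?_⟩
      have hjn : (j : ℝ) ≤ n := by
        have := mem_range.1 (mem_filter.1 hj).1
        exact_mod_cast this.le
      have h2 := (abs_lt.1 hN).2
      have h3 : (j : ℝ) ^ (2 / 3 : ℝ) ≤ (n : ℝ) ^ (2 / 3 : ℝ) :=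
        Real.rpow_le_rpow (Nat.cast_nonneg _) hjn (by norm_num)
      have h4 : (N : ℝ) < (n : ℝ) * μ + l * (n : ℝ) ^ (2 / 3 : ℝ) := by nlinarith
      have h5 := h4.le.trans (Nat.le_ceil _)
      have h6 : N ≤ ⌈(n : ℝ) * μ + l * (n : ℝ) ^ (2 / 3 : ℝ)⌉₊ := by exact_mod_cast h5
      omega
    have h2 := htr ((range n).filter (fun j => j0 ≤ j)) (fun j => (j : ℝ) ^ (4 / 3 : ℝ))
      (fun N => (2 * N : ℝ) ^ (4 / 3 : ℝ)) M (fun j _ => by positivity) (fun N _ => by positivity)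
      (fun j hj hj1 N hN => ⟨hM j hj N hN, by
        have hjj : (j0 : ℝ) ≤ j := by exact_mod_cast (mem_filter.1 hj).2
        have h3 := hpow j hjj
        rw [Real.rpow_one] at h3
        have h4 := (abs_lt.1 hN).1
        have hjpos : (0 : ℝ) < j := by exact_mod_cast hj1
        refine Real.rpow_le_rpow hjpos.le ?_ (by norm_num)
        nlinarith⟩)
    refine h2.trans (mul_le_mul_of_nonneg_left ?_ (by norm_num))
    rcases Nat.eq_zero_or_pos M with rfl | hM0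
    · have := pc_pos (γ := 1 / 6) (by norm_num)
      simp only [range_zero, sum_empty]
      positivity
    obtain ⟨M', rfl⟩ : ∃ M', M = M' + 1 := ⟨M - 1, by omega⟩
    rw [sum_range_succ']
    have h0 : (2 * ((0 : ℕ) : ℝ)) ^ (4 / 3 : ℝ) * R 0 = 0 := by
      rw [Nat.cast_zero, mul_zero, Real.zero_rpow (by norm_num), zero_mul]
    rw [h0, add_zero]
    have h3 : ∀ N ∈ range M', (2 * ((N + 1 : ℕ) : ℝ)) ^ (4 / 3 : ℝ) * R (N + 1) ≤
        (2 : ℝ) ^ (4 / 3 : ℝ) * KR * ((N + 1 : ℕ) : ℝ) ^ (-(1 + 1 / 6) : ℝ) := by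
      intro N _
      have hN : (0 : ℝ) < ((N + 1 : ℕ) : ℝ) := by positivity
      have h4 := h.R_up (N + 1) (by omega)
      rw [Real.mul_rpow (by norm_num) hN.le]
      have h5 : ((N + 1 : ℕ) : ℝ) ^ (-(1 + 1 / 6) : ℝ) =
          ((N + 1 : ℕ) : ℝ) ^ (4 / 3 : ℝ) * ((N + 1 : ℕ) : ℝ) ^ (-(5 / 2) : ℝ) := by
        rw [← Real.rpow_add hN]; norm_num
      rw [h5]
      calc _ ≤ (2 : ℝ) ^ (4 / 3 : ℝ) * ((N + 1 : ℕ) : ℝ) ^ (4 / 3 : ℝ) *
            (KR * ((N + 1 : ℕ) : ℝ) ^ (-(5 / 2) : ℝ)) :=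
            mul_le_mul_of_nonneg_left h4 (by positivity)
        _ = _ := by ring
    refine (sum_le_sum h3).trans ?_
    rw [← Finset.mul_sum]
    refine mul_le_mul_of_nonneg_left ?_ (by positivity)
    refine (sum_range_pow_le (γ := 1 / 6) (by norm_num) (le_refl 1) M').trans ?_
    have hpc := pc_pos (γ := 1 / 6) (by norm_num)
    rw [Nat.cast_one, Real.one_rpow]
    have : (0 : ℝ) ≤ ((M' + 1 : ℕ) : ℝ) ^ (-(1 / 6) : ℝ) := by positivity
    nlinarith
  exact summable_of_sum_range_le (fun j => mul_nonneg (h.τ_nonneg j) (by positivity)) key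

/-- sums far from a point -/
theorem sum_far {D : ℝ} (hD : 1 ≤ D) (N X : ℕ) :
    ∑ M ∈ (range X).filter (fun M : ℕ => D ≤ |(M : ℝ) - N|), |(M : ℝ) - N| ^ (-(3 / 2) : ℝ) ≤
      2 * pc (1 / 2) * D ^ (-(1 / 2) : ℝ) := by
  set s := ⌈D⌉₊ with hs
  have hs1 : 1 ≤ s := Nat.one_le_ceil_iff.2 (by linarith)
  have hsD : D ≤ s := Nat.le_ceil D
  have hD0 : 0 < D := by linarith
  have hbound : ∀ X : ℕ, ∑ d ∈ Ico s X, (d : ℝ) ^ (-(3 / 2) : ℝ) ≤
      pc (1 / 2) * D ^ (-(1 / 2) : ℝ) := by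
    intro X
    have hpc := pc_pos (γ := 1 / 2) (by norm_num)
    rw [Finset.sum_Ico_eq_sum_range]
    have h4 := sum_range_pow_le (γ := 1 / 2) (by norm_num) hs1 (X - s)
    have h5 : ∑ k ∈ range (X - s), ((s + k : ℕ) : ℝ) ^ (-(3 / 2) : ℝ) =
        ∑ n ∈ range (X - s), ((n + s : ℕ) : ℝ) ^ (-(1 + 1 / 2) : ℝ) := by
      refine sum_congr rfl fun k _ => ?_
      rw [show (-(1 + 1 / 2) : ℝ) = -(3 / 2) by norm_num, add_comm s k]
    rw [h5]
    refine h4.trans ?_
    refine mul_le_mul_of_nonneg_left ?_ hpc.le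
    have h6 : (0 : ℝ) ≤ ((X - s + s : ℕ) : ℝ) ^ (-(1 / 2) : ℝ) := by positivity
    have h7 : ((s : ℕ) : ℝ) ^ (-(1 / 2) : ℝ) ≤ D ^ (-(1 / 2) : ℝ) :=
      Real.rpow_le_rpow_of_nonpos hD0 hsD (by norm_num)
    linarith
  rw [← sum_filter_add_sum_filter_not ((range X).filter (fun M : ℕ => D ≤ |(M : ℝ) - N|))
    (fun M => M < N)]
  have h1 : ∑ M ∈ ((range X).filter (fun M : ℕ => D ≤ |(M : ℝ) - N|)).filter (fun M => M < N),
      |(M : ℝ) - N| ^ (-(3 / 2) : ℝ) ≤ pc (1 / 2) * D ^ (-(1 / 2) : ℝ) := by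
    refine le_trans ?_ (hbound (N + 1))
    refine le_trans (le_of_eq ?_) (sum_le_sum_of_subset_of_nonneg (s := (((range X).filter
      (fun M : ℕ => D ≤ |(M : ℝ) - N|)).filter (fun M => M < N)).image fun M => N - M) ?_
      fun d _ _ => by positivity)
    · rw [sum_image]
      · refine sum_congr rfl fun M hM => ?_
        have hMN := (mem_filter.1 hM).2
        rw [Nat.cast_sub hMN.le, abs_sub_comm, abs_of_nonneg]
        have : (M : ℝ) ≤ N := by exact_mod_cast hMN.le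
        linarith
      · intro M hM M' hM' hMM
        have h3 := (mem_filter.1 hM).2
        have h4 := (mem_filter.1 hM').2
        simp only at hMM
        omega
    · intro d hd
      obtain ⟨M, hM, rfl⟩ := mem_image.1 hd
      have hMN := (mem_filter.1 hM).2
      have hMD := (mem_filter.1 (mem_filter.1 hM).1).2
      refine mem_Ico.2 ⟨?_, by omega⟩
      rw [hs, Nat.ceil_le, Nat.cast_sub hMN.le]
      have : (M : ℝ) ≤ N := by exact_mod_cast hMN.le
      rwa [abs_sub_comm, abs_of_nonneg (by linarith)] at hMD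
  have h2 : ∑ M ∈ ((range X).filter (fun M : ℕ => D ≤ |(M : ℝ) - N|)).filter (fun M => ¬ M < N),
      |(M : ℝ) - N| ^ (-(3 / 2) : ℝ) ≤ pc (1 / 2) * D ^ (-(1 / 2) : ℝ) := by
    refine le_trans ?_ (hbound X)
    refine le_trans (le_of_eq ?_) (sum_le_sum_of_subset_of_nonneg (s := (((range X).filter
      (fun M : ℕ => D ≤ |(M : ℝ) - N|)).filter (fun M => ¬ M < N)).image fun M => M - N) ?_
      fun d _ _ => by positivity)
    · rw [sum_image]
      · refine sum_congr rfl fun M hM => ?_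
        have hMN := not_lt.1 (mem_filter.1 hM).2
        rw [Nat.cast_sub hMN, abs_of_nonneg]
        have : (N : ℝ) ≤ M := by exact_mod_cast hMN
        linarith
      · intro M hM M' hM' hMM
        have h3 := (mem_filter.1 hM).2
        have h4 := (mem_filter.1 hM').2
        simp only at hMM
        omega
    · intro d hd
      obtain ⟨M, hM, rfl⟩ := mem_image.1 hd
      have hMN := not_lt.1 (mem_filter.1 hM).2
      have hMD := (mem_filter.1 (mem_filter.1 hM).1).2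
      have hMX := mem_range.1 (mem_filter.1 (mem_filter.1 hM).1).1
      refine mem_Ico.2 ⟨?_, by omega⟩
      rw [hs, Nat.ceil_le, Nat.cast_sub hMN]
      have : (N : ℝ) ≤ M := by exact_mod_cast hMN
      rwa [abs_of_nonneg (by linarith)] at hMD
  calc _ ≤ pc (1 / 2) * D ^ (-(1 / 2) : ℝ) + pc (1 / 2) * D ^ (-(1 / 2) : ℝ) := add_le_add h1 h2
    _ = _ := by ring

end

end Pool.Agent.DiamP
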