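import Pool.Agent.DiamP.RgCrit
import Pool.Agent.DiamP.Tau

/-!
# The number of vertices of a rigid map with `j` edges ((4.3) of MP_d7a93a_pr)
-/

set_option autoImplicit false
set_option linter.unusedSectionVars false

namespace Pool.Agent.DiamP
open PGr Filter Topology Set
open scoped ENNReal Classical

/-- one coefficient at the critical point -/
theorem rc_le_crit {t : ℝ} (h0 : 0 < t) (h1 : t < 1) (hs : scr t ≤ 1 / 10) (j : ℕ) :
    (rc' (ENNReal.ofReal (scr t)) j).toReal * ecr t ^ j ≤ ecr t := by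
  have hsp : 0 < scr t := scr_pos h0 h1
  have hcrit := Ef_crit h0 h1
  have hrc := rc_ne_top h0 h1 hs
  have key : ∀ v, 0 < v → v < t →
      (rc' (ENNReal.ofReal (scr t)) j).toReal * Ef (scr t) v ^ j ≤ Ef (scr t) v := by
    intro v hv hv'
    have hv1 : v < 1 := hv'.trans h1
    obtain ⟨h2, h3⟩ := Rg_expl h0 h1 hs hv hv'
    have hE : 0 < Ef (scr t) v := by
      have := Ef_strictMonoOn h0 h1 (left_mem_Icc.2 h0.le) ⟨hv.le, hv'.le⟩ hv
      rwa [Ef_zero] at this
    have hY := RgSmall_Yf_pos hsp hv hv1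
    have h4 : rc' (ENNReal.ofReal (scr t)) j * ENNReal.ofReal (Ef (scr t) v) ^ j ≤
        ENNReal.ofReal (Rf (scr t) v) := by
      rw [← h3, Rg_series]
      exact ENNReal.le_tsum j
    have h5 : Rf (scr t) v ≤ Ef (scr t) v := by
      unfold Rf
      have b1 : 0 ≤ scr t * Ef (scr t) v ^ 2 / (1 + scr t * Ef (scr t) v) := by positivity
      have b2 : 0 ≤ Ef (scr t) v ^ 2 / (1 + Ef (scr t) v) := by positivity
      linarith
    rw [Pring_term _ hrc hE.le] at h4
    exact ((ENNReal.ofReal_le_ofReal_iff h2).1 h4).trans h5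
  have hcE : ContinuousWithinAt (Ef (scr t)) (Iio t) t :=
    (Ef_hasDerivAt hsp h0 h1).continuousAt.continuousWithinAt
  have t1 : Tendsto (Ef (scr t)) (𝓝[<] t) (𝓝 (ecr t)) := by
    have := hcE.tendsto
    rwa [hcrit] at this
  refine le_of_tendsto_of_tendsto ((t1.pow j).const_mul _) t1 ?_
  filter_upwards [Ioo_mem_nhdsLT h0] with v hv
  exact key v hv.1 hv.2

/-- weight of the rigid maps with `j` nonroot edges whose number of vertices satisfies `Q` -/
noncomputable def rcQ (s : ℝ≥0∞) (j : ℕ) (Q : ℕ → Prop) : ℝ≥0∞ :=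
  ∑' c : GC, if Rigid c.rep.1 ∧ Fintype.card c.rep.1.D / 2 = j ∧ Q (nV c.rep.1.s) then
    s ^ (nV c.rep.1.s - 2) else 0

theorem rcQ_or (s : ℝ≥0∞) (j : ℕ) (Q Q' : ℕ → Prop) :
    rcQ s j (fun v => Q v ∨ Q' v) ≤ rcQ s j Q + rcQ s j Q' := by
  unfold rcQ
  rw [← ENNReal.tsum_add]
  refine ENNReal.tsum_le_tsum fun c => ?_
  by_cases h1 : Rigid c.rep.1 ∧ Fintype.card c.rep.1.D / 2 = j ∧ Q (nV c.rep.1.s)
  · rw [if_pos h1, if_pos ⟨h1.1, h1.2.1, Or.inl h1.2.2⟩]
    exact le_self_add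
  · by_cases h2 : Rigid c.rep.1 ∧ Fintype.card c.rep.1.D / 2 = j ∧ Q' (nV c.rep.1.s)
    · rw [if_pos h2, if_pos ⟨h2.1, h2.2.1, Or.inr h2.2.2⟩]
      exact le_add_self
    · rw [if_neg h1, if_neg h2, if_neg, add_zero]
      rintro ⟨a, b, c | c⟩
      · exact h1 ⟨a, b, c⟩
      · exact h2 ⟨a, b, c⟩

/-- exponential tilt -/
theorem rcQ_tilt {x θ m : ℝ} (hx : 0 < x) (j : ℕ) (Q : ℕ → Prop)
    (hQ : ∀ v, Q v → θ * m ≤ θ * ((v - 2 : ℕ) : ℝ)) :
    rcQ (ENNReal.ofReal x) j Q ≤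
      ENNReal.ofReal (Real.exp (-(θ * m))) * rc' (ENNReal.ofReal (x * Real.exp θ)) j := by
  unfold rcQ rc'
  rw [← ENNReal.tsum_mul_left]
  refine ENNReal.tsum_le_tsum fun c => ?_
  by_cases h1 : Rigid c.rep.1 ∧ Fintype.card c.rep.1.D / 2 = j ∧ Q (nV c.rep.1.s)
  · rw [if_pos h1, if_pos ⟨h1.1, h1.2.1⟩, ← ENNReal.ofReal_pow hx.le,
      ← ENNReal.ofReal_pow (by positivity), ← ENNReal.ofReal_mul (by positivity)]
    apply ENNReal.ofReal_le_ofReal
    set k := nV c.rep.1.s - 2 with hk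
    have h2 := hQ _ h1.2.2
    rw [mul_pow, ← Real.exp_nat_mul]
    have h3 : (1 : ℝ) ≤ Real.exp (-(θ * m)) * Real.exp (k * θ) := by
      rw [← Real.exp_add, Real.one_le_exp_iff]
      linarith
    have h4 : 0 < x ^ k := by positivity
    calc x ^ k = x ^ k * 1 := (mul_one _).symm
      _ ≤ x ^ k * (Real.exp (-(θ * m)) * Real.exp (k * θ)) := mul_le_mul_of_nonneg_left h3 h4.le
      _ = _ := by ring
  · rw [if_neg h1]
    exact zero_le

/-- expansion of the logarithm -/
theorem log_exp2 {ε : ℝ} (hε : |ε| ≤ 1 / 2) : |Real.log (1 - ε) + ε| ≤ 2 * ε ^ 2 := by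
  have h1 := Real.abs_log_sub_add_sum_range_le (x := ε) (by linarith) 1
  simp only [Finset.sum_range_one, zero_add, pow_one, Nat.cast_zero, div_one] at h1
  rw [add_comm] at h1
  refine h1.trans ?_
  rw [show (1 + 1 : ℕ) = 2 from rfl, sq_abs, div_le_iff₀ (by linarith)]
  nlinarith [sq_nonneg ε]

/-- the derivative of `log ecr` -/
noncomputable def fa (t : ℝ) : ℝ := 2 / t + 1 / (1 - t) - 3 / (1 + 3 * t)

/-- minus the derivative of `log scr` -/
noncomputable def fb (t : ℝ) : ℝ := 3 / t + 3 / (1 - t) - 3 / (1 + 3 * t)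

/-- the density of vertices -/
noncomputable def alpha (t : ℝ) : ℝ := fa t / fb t

theorem fa_pos {t : ℝ} (h0 : 0 < t) (h1 : t < 1) : 0 < fa t := by
  unfold fa
  have h2 : 0 < 1 - t := by linarith
  have h3 : 3 / (1 + 3 * t) ≤ 1 / t := by
    rw [div_le_div_iff₀ (by positivity) h0]
    linarith
  have h4 : 0 < 1 / (1 - t) := by positivity
  have h5 : 2 / t = 1 / t + 1 / t := by ring
  have h6 : 0 < 1 / t := by positivity
  linarith

theorem fb_pos {t : ℝ} (h0 : 0 < t) (h1 : t < 1) : 0 < fb t := by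
  unfold fb
  have h2 : 0 < 1 - t := by linarith
  have h3 : 3 / (1 + 3 * t) ≤ 1 / t := by
    rw [div_le_div_iff₀ (by positivity) h0]
    linarith
  have h4 : 0 < 3 / (1 - t) := by positivity
  have h5 : 3 / t = 1 / t + 2 / t := by ring
  have h6 : 0 < 2 / t := by positivity
  linarith

theorem log_scr {t : ℝ} (h0 : 0 < t) (h1 : t < 1) :
    Real.log (scr t) = Real.log (1 + 3 * t) + 3 * Real.log (1 - t) - Real.log 16 -
      3 * Real.log t := by
  unfold scr
  have h2 : 0 < 1 - t := by linarith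
  rw [Real.log_div (by positivity) (by positivity), Real.log_mul (by positivity) (by positivity),
    Real.log_mul (by norm_num) (by positivity), Real.log_pow, Real.log_pow]
  push_cast
  ring

theorem log_ecr {t : ℝ} (h0 : 0 < t) (h1 : t < 1) :
    Real.log (ecr t) = Real.log 3 + 2 * Real.log t - Real.log (1 - t) - Real.log (1 + 3 * t) := by
  unfold ecr
  have h2 : 0 < 1 - t := by linarith
  rw [Real.log_div (by positivity) (by positivity), Real.log_mul (by norm_num) (by positivity),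
    Real.log_mul (by positivity) (by positivity), Real.log_pow]
  push_cast
  ring

theorem log_shift {c d h : ℝ} (hc : 0 < c) (hd : |d| ≤ 3 * c) (hh : |h| ≤ 1 / 8) :
    |Real.log (c - d * h) - Real.log c + d * h / c| ≤ 18 * h ^ 2 := by
  have hε : |d * h / c| ≤ 3 * |h| := by
    rw [abs_div, abs_mul, abs_of_pos hc, div_le_iff₀ hc]
    have := mul_le_mul_of_nonneg_right hd (abs_nonneg h)
    linarith
  have h1 : c - d * h = c * (1 - d * h / c) := by field_simp
  have h2 : (1 - d * h / c) ≠ 0 := by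
    have := (abs_le.1 hε).2
    have : |h| ≤ 1 / 8 := hh
    intro h3
    linarith
  rw [h1, Real.log_mul hc.ne' h2]
  have h3 := log_exp2 (ε := d * h / c) (by linarith)
  have h4 : Real.log c + Real.log (1 - d * h / c) - Real.log c + d * h / c =
      Real.log (1 - d * h / c) + d * h / c := by ring
  rw [h4]
  refine h3.trans ?_
  have h5 : (d * h / c) ^ 2 ≤ (3 * |h|) ^ 2 := by
    rw [← sq_abs]
    exact pow_le_pow_left₀ (abs_nonneg _) hε 2
  rw [mul_pow, sq_abs] at h5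
  linarith

/-- second order expansions on the critical curve -/
theorem curve_expand {t h : ℝ} (h0 : 3 / 5 ≤ t) (h1 : t ≤ 2 / 3) (hh : |h| ≤ 1 / 20) :
    |Real.log (scr (t - h)) - Real.log (scr t) - fb t * h| ≤ 126 * h ^ 2 ∧
    |Real.log (ecr t) - Real.log (ecr (t - h)) - fa t * h| ≤ 126 * h ^ 2 := by
  have hh2 := abs_le.1 hh
  have ht : 0 < t := by linarith
  have ht' : 0 < t - h := by linarith
  have ht1 : t < 1 := by linarith
  have ht1' : t - h < 1 := by linarith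
  have hh8 : |h| ≤ 1 / 8 := by linarith
  have e1 := log_shift (c := 1 + 3 * t) (d := 3) (h := h) (by linarith)
    (by rw [abs_of_pos (by norm_num)]; linarith) hh8
  have e2 := log_shift (c := 1 - t) (d := -1) (h := h) (by linarith)
    (by rw [abs_neg, abs_one]; linarith) hh8
  have e3 := log_shift (c := t) (d := 1) (h := h) ht
    (by rw [abs_one]; linarith) hh8
  have c1 : 1 + 3 * t - 3 * h = 1 + 3 * (t - h) := by ring
  have c2 : 1 - t - -1 * h = 1 - (t - h) := by ring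
  have c3 : t - 1 * h = t - h := by ring
  rw [c1] at e1
  rw [c2] at e2
  rw [c3] at e3
  rw [log_scr ht ht1, log_scr ht' ht1', log_ecr ht ht1, log_ecr ht' ht1']
  obtain ⟨e1a, e1b⟩ := abs_le.1 e1
  obtain ⟨e2a, e2b⟩ := abs_le.1 e2
  obtain ⟨e3a, e3b⟩ := abs_le.1 e3
  have d1 : fb t * h = 3 * (1 * h / t) - 3 * (-1 * h / (1 - t)) - 3 * h / (1 + 3 * t) := by
    unfold fb; ring
  have d2 : fa t * h = 2 * (1 * h / t) - (-1 * h / (1 - t)) - 3 * h / (1 + 3 * t) := by
    unfold fa; ring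
  rw [d1, d2]
  constructor
  · rw [abs_le]
    constructor <;> linarith
  · rw [abs_le]
    constructor <;> linarith

/-- the tilted bound -/
theorem tilt_bound {t h m : ℝ} (h0 : 3 / 5 + 1 / 20 ≤ t + 1 / 20) (h1 : t ≤ 2 / 3) (hh : |h| ≤ 1 / 20)
    (hs : scr (t - h) ≤ 1 / 10) (j : ℕ) (Q : ℕ → Prop)
    (hQ : ∀ v, Q v → (Real.log (scr (t - h)) - Real.log (scr t)) * m ≤
      (Real.log (scr (t - h)) - Real.log (scr t)) * ((v - 2 : ℕ) : ℝ)) :
    rcQ (ENNReal.ofReal (scr t)) j Q * ENNReal.ofReal (ecr t) ^ j ≤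
      ENNReal.ofReal (ecr (t - h) * Real.exp (-((Real.log (scr (t - h)) - Real.log (scr t)) * m) +
        j * (Real.log (ecr t) - Real.log (ecr (t - h))))) := by
  have hh2 := abs_le.1 hh
  have ht : 0 < t := by linarith
  have ht' : 0 < t - h := by linarith
  have ht1 : t < 1 := by linarith
  have ht1' : t - h < 1 := by linarith
  set θ := Real.log (scr (t - h)) - Real.log (scr t) with hθ
  have hx := scr_pos ht ht1
  have hx' := scr_pos ht' ht1'
  have hE := ecr_pos ht ht1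
  have hE' := ecr_pos ht' ht1'
  have h2 := rcQ_tilt (θ := θ) (m := m) hx j Q hQ
  have h3 : scr t * Real.exp θ = scr (t - h) := by
    rw [hθ, Real.exp_sub, Real.exp_log hx', Real.exp_log hx]
    field_simp
  rw [h3] at h2
  have hrc := rc_ne_top ht' ht1' hs j
  have h4 := rc_le_crit ht' ht1' hs j
  have h5 : rc' (ENNReal.ofReal (scr (t - h))) j =
      ENNReal.ofReal (rc' (ENNReal.ofReal (scr (t - h))) j).toReal := (ENNReal.ofReal_toReal hrc).symm
  have h6 : rcQ (ENNReal.ofReal (scr t)) j Q * ENNReal.ofReal (ecr t) ^ j ≤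
      ENNReal.ofReal (Real.exp (-(θ * m))) * rc' (ENNReal.ofReal (scr (t - h))) j *
        ENNReal.ofReal (ecr t) ^ j := mul_le_mul_left h2 _
  refine h6.trans ?_
  rw [h5, ← ENNReal.ofReal_pow hE.le, ← ENNReal.ofReal_mul (by positivity),
    ← ENNReal.ofReal_mul (by positivity)]
  apply ENNReal.ofReal_le_ofReal
  have h7 : ecr t ^ j = ecr (t - h) ^ j *
      Real.exp (j * (Real.log (ecr t) - Real.log (ecr (t - h)))) := by
    rw [Real.exp_nat_mul, Real.exp_sub, Real.exp_log hE, Real.exp_log hE', ← mul_pow]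
    congr 1
    field_simp
  rw [h7, Real.exp_add]
  have h8 := mul_le_mul_of_nonneg_right h4 (show 0 ≤ Real.exp (-(θ * m)) *
    Real.exp (j * (Real.log (ecr t) - Real.log (ecr (t - h)))) by positivity)
  calc _ = (rc' (ENNReal.ofReal (scr (t - h))) j).toReal * ecr (t - h) ^ j *
        (Real.exp (-(θ * m)) * Real.exp (j * (Real.log (ecr t) - Real.log (ecr (t - h))))) := by ring
    _ ≤ _ := h8

/-- **(4.3)**: the number of vertices of a rigid map with `j` nonroot edges is `α j` up to `j^(3/5)` -/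
theorem v_given_e {t : ℝ} (h0 : 606 / 1000 ≤ t) (h1 : t ≤ 63 / 100) :
    0 < alpha t ∧ ∃ j0 : ℕ, ∀ j : ℕ, j0 ≤ j →
      rcQ (ENNReal.ofReal (scr t)) j (fun v => (j : ℝ) ^ (3 / 5 : ℝ) ≤ |(v : ℝ) - alpha t * j|) *
        ENNReal.ofReal (ecr t) ^ j ≤ ENNReal.ofReal (Real.exp (-(j : ℝ) ^ (1 / 10 : ℝ))) := by
  have ht : 0 < t := by linarith
  have ht1 : t < 1 := by linarith
  have hfa := fa_pos ht ht1
  have hfb := fb_pos ht ht1
  have hα : 0 < alpha t := div_pos hfa hfb
  refine ⟨hα, ?_⟩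
  have hαb : alpha t * fb t = fa t := div_mul_cancel₀ _ hfb.ne'
  set α := alpha t with hαdef
  set b := fb t with hbdef
  -- requirements for `j`
  obtain ⟨n1, hn1, hp1⟩ := eventually_pow_lt (α := 0) (β := 9 / 20) (C := 1000 + 252 / b)
    (by norm_num)
  obtain ⟨n2, hn2, hp2⟩ := eventually_pow_lt (α := 0) (β := 3 / 5) (C := 4) (by norm_num)
  obtain ⟨n3, hn3, hp3⟩ := eventually_pow_lt (α := 1 / 10) (β := 3 / 20)
    (C := 4 / b * (126 * (α + 1) + 3)) (by norm_num)
  refine ⟨n1 + n2 + n3, fun j hj => ?_⟩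
  have hj1 : 1 ≤ j := by omega
  have hj' : (1 : ℝ) ≤ j := by exact_mod_cast hj1
  have hjpos : (0 : ℝ) < j := by linarith
  have q1 := hp1 j (by have : n1 ≤ j := by omega
                       exact_mod_cast this)
  have q2 := hp2 j (by have : n2 ≤ j := by omega
                       exact_mod_cast this)
  have q3 := hp3 j (by have : n3 ≤ j := by omega
                       exact_mod_cast this)
  rw [Real.rpow_zero, mul_one] at q1 q2
  set J := (j : ℝ) with hJ
  set r := J ^ (1 / 10 : ℝ) with hr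
  set h := J ^ (-(9 / 20) : ℝ) with hh
  have hr1 : 1 ≤ r := Real.one_le_rpow hj' (by norm_num)
  have hpos9 : 0 < J ^ (9 / 20 : ℝ) := by positivity
  have hhpos : 0 < h := by positivity
  have hhinv : h * J ^ (9 / 20 : ℝ) = 1 := by
    rw [hh, ← Real.rpow_add hjpos]; norm_num
  have hh1 : h ≤ 1 / 1000 := by
    rw [le_div_iff₀ (by norm_num)]
    have hb0 : 0 < 252 / b := by positivity
    have : h * 1000 ≤ h * J ^ (9 / 20 : ℝ) := mul_le_mul_of_nonneg_left (by linarith) hhpos.le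
    linarith
  have hhb : 252 * h ≤ b := by
    have h2 : 252 / b ≤ J ^ (9 / 20 : ℝ) := by linarith
    have h3 : h * (252 / b) ≤ 1 := by
      rw [← hhinv]
      exact mul_le_mul_of_nonneg_left h2 hhpos.le
    rw [← mul_div_assoc, div_le_one hfb] at h3
    linarith
  have hh2 : h ^ 2 * J = r := by
    rw [hh, hr, ← Real.rpow_natCast, ← Real.rpow_mul hjpos.le]
    nth_rewrite 2 [← Real.rpow_one J]
    rw [← Real.rpow_add hjpos]; norm_num
  have hh3 : h * J ^ (3 / 5 : ℝ) = J ^ (3 / 20 : ℝ) := by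
    rw [hh, ← Real.rpow_add hjpos]; norm_num
  -- common final estimate
  have hfin : 126 * (α + 1) * r - (b / 4) * J ^ (3 / 20 : ℝ) ≤ -(3 * r) := by
    have h2 := mul_le_mul_of_nonneg_left q3 (show 0 ≤ b / 4 by positivity)
    have h3 : b / 4 * (4 / b * (126 * (α + 1) + 3) * r) = (126 * (α + 1) + 3) * r := by
      field_simp
    rw [h3] at h2
    linarith
  have hscr : ∀ s : ℝ, 3 / 5 ≤ s → s ≤ 2 / 3 → scr s ≤ 1 / 10 := by
    intro s hs1 hs2
    unfold scr
    rw [div_le_iff₀ (by positivity)]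
    have b2 : (3 / 5) ^ 3 ≤ s ^ 3 := pow_le_pow_left₀ (by norm_num) hs1 3
    have b3 : (1 - s) ^ 3 ≤ (2 / 5) ^ 3 := pow_le_pow_left₀ (by linarith) (by linarith) 3
    have b4 : (1 + 3 * s) * (1 - s) ^ 3 ≤ 3 * (2 / 5) ^ 3 :=
      mul_le_mul (by linarith) b3 (pow_nonneg (by linarith) 3) (by norm_num)
    linarith
  have hecr : ∀ s : ℝ, 3 / 5 ≤ s → s ≤ 2 / 3 → ecr s ≤ 2 := by
    intro s hs1 hs2
    unfold ecr
    have h2 : 0 < 1 - s := by linarith
    rw [div_le_iff₀ (by positivity)]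
    nlinarith
  -- upper part
  have hU : rcQ (ENNReal.ofReal (scr t)) j (fun v => J ^ (3 / 5 : ℝ) ≤ (v : ℝ) - α * J) *
        ENNReal.ofReal (ecr t) ^ j ≤ ENNReal.ofReal (2 * Real.exp (-(3 * r))) := by
    have hhab : |h| ≤ 1 / 20 := by rw [abs_of_pos hhpos]; linarith
    obtain ⟨c1, c2⟩ := curve_expand (t := t) (h := h) (by linarith) (by linarith) hhab
    obtain ⟨c1a, c1b⟩ := abs_le.1 c1
    obtain ⟨c2a, c2b⟩ := abs_le.1 c2
    set θ := Real.log (scr (t - h)) - Real.log (scr t) with hθ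
    have hθ1 : b * h - 126 * h ^ 2 ≤ θ := by linarith
    have hθ2 : b * h / 2 ≤ θ := by nlinarith
    have hθ0 : 0 ≤ θ := by nlinarith
    have key := tilt_bound (t := t) (h := h) (m := α * J + J ^ (3 / 5 : ℝ) - 2) (by linarith)
      (by linarith) hhab (hscr _ (by linarith) (by linarith)) j
      (fun v => J ^ (3 / 5 : ℝ) ≤ (v : ℝ) - α * J) (fun v hv => by
        refine mul_le_mul_of_nonneg_left ?_ hθ0
        have h3 : (v : ℝ) - 2 ≤ ((v - 2 : ℕ) : ℝ) := by
          rcases le_total 2 v with h4 | h4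
          · rw [Nat.cast_sub h4]; norm_num
          · rw [Nat.sub_eq_zero_of_le h4]
            have : (v : ℝ) ≤ 2 := by exact_mod_cast h4
            push_cast; linarith
        linarith)
    refine key.trans (ENNReal.ofReal_le_ofReal ?_)
    refine mul_le_mul (hecr _ (by linarith) (by linarith)) (Real.exp_le_exp.2 ?_)
      (Real.exp_pos _).le (by norm_num)
    have h3 : J * (Real.log (ecr t) - Real.log (ecr (t - h))) ≤ J * (fa t * h + 126 * h ^ 2) :=
      mul_le_mul_of_nonneg_left (by linarith) hjpos.le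
    have h4 : (b * h - 126 * h ^ 2) * (α * J) ≤ θ * (α * J) :=
      mul_le_mul_of_nonneg_right hθ1 (by positivity)
    have h5 : b * h / 2 * (J ^ (3 / 5 : ℝ) / 2) ≤ θ * (J ^ (3 / 5 : ℝ) - 2) :=
      mul_le_mul hθ2 (by linarith) (by positivity) hθ0
    have e1 : (b * h - 126 * h ^ 2) * (α * J) = fa t * h * J - 126 * α * (h ^ 2 * J) := by
      rw [← hαb]; ring
    have e2 : b * h / 2 * (J ^ (3 / 5 : ℝ) / 2) = b / 4 * (h * J ^ (3 / 5 : ℝ)) := by ring
    have e3 : J * (fa t * h + 126 * h ^ 2) = fa t * h * J + 126 * (h ^ 2 * J) := by ring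
    rw [e1, hh2] at h4
    rw [e2, hh3] at h5
    rw [e3, hh2] at h3
    have e4 : θ * (α * J + J ^ (3 / 5 : ℝ) - 2) = θ * (α * J) + θ * (J ^ (3 / 5 : ℝ) - 2) := by ring
    rw [e4]
    linarith
  -- lower part
  have hD : rcQ (ENNReal.ofReal (scr t)) j (fun v => J ^ (3 / 5 : ℝ) ≤ α * J - (v : ℝ)) *
        ENNReal.ofReal (ecr t) ^ j ≤ ENNReal.ofReal (2 * Real.exp (-(3 * r))) := by
    have hhab : |(-h)| ≤ 1 / 20 := by rw [abs_neg, abs_of_pos hhpos]; linarith
    obtain ⟨c1, c2⟩ := curve_expand (t := t) (h := -h) (by linarith) (by linarith) hhab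
    rw [neg_sq] at c1 c2
    obtain ⟨c1a, c1b⟩ := abs_le.1 c1
    obtain ⟨c2a, c2b⟩ := abs_le.1 c2
    set θ := Real.log (scr (t - -h)) - Real.log (scr t) with hθ
    have hθ1 : b * h - 126 * h ^ 2 ≤ -θ := by linarith
    have hθ1' : -θ ≤ b * h + 126 * h ^ 2 := by linarith
    have hθ2 : b * h / 2 ≤ -θ := by nlinarith
    have hθ0 : 0 ≤ -θ := by nlinarith
    have key := tilt_bound (t := t) (h := -h) (m := α * J - J ^ (3 / 5 : ℝ)) (by linarith)
      (by linarith) hhab (hscr _ (by linarith) (by linarith)) j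
      (fun v => J ^ (3 / 5 : ℝ) ≤ α * J - (v : ℝ)) (fun v hv => by
        have h3 : ((v - 2 : ℕ) : ℝ) ≤ (v : ℝ) := by exact_mod_cast Nat.sub_le _ _
        have h4 : ((v - 2 : ℕ) : ℝ) ≤ α * J - J ^ (3 / 5 : ℝ) := by linarith
        have := mul_le_mul_of_nonneg_left h4 hθ0
        linarith)
    refine key.trans (ENNReal.ofReal_le_ofReal ?_)
    refine mul_le_mul (hecr _ (by linarith) (by linarith)) (Real.exp_le_exp.2 ?_)
      (Real.exp_pos _).le (by norm_num)
    have h3 : J * (Real.log (ecr t) - Real.log (ecr (t - -h))) ≤ J * (-(fa t * h) + 126 * h ^ 2) :=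
      mul_le_mul_of_nonneg_left (by linarith) hjpos.le
    have h4 : -θ * (α * J) ≤ (b * h + 126 * h ^ 2) * (α * J) :=
      mul_le_mul_of_nonneg_right hθ1' (by positivity)
    have h5 : b * h / 2 * (J ^ (3 / 5 : ℝ) / 2) ≤ -θ * J ^ (3 / 5 : ℝ) :=
      mul_le_mul hθ2 (by linarith) (by positivity) hθ0
    have e1 : (b * h + 126 * h ^ 2) * (α * J) = fa t * h * J + 126 * α * (h ^ 2 * J) := by
      rw [← hαb]; ring
    have e2 : b * h / 2 * (J ^ (3 / 5 : ℝ) / 2) = b / 4 * (h * J ^ (3 / 5 : ℝ)) := by ring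
    have e3 : J * (-(fa t * h) + 126 * h ^ 2) = -(fa t * h * J) + 126 * (h ^ 2 * J) := by ring
    rw [e1, hh2] at h4
    rw [e2, hh3] at h5
    rw [e3, hh2] at h3
    have e4 : -(θ * (α * J - J ^ (3 / 5 : ℝ))) = -θ * (α * J) - -θ * J ^ (3 / 5 : ℝ) := by ring
    rw [e4]
    linarith
  -- together
  have hsub : rcQ (ENNReal.ofReal (scr t)) j (fun v => J ^ (3 / 5 : ℝ) ≤ |(v : ℝ) - α * J|) ≤
      rcQ (ENNReal.ofReal (scr t)) j (fun v => J ^ (3 / 5 : ℝ) ≤ (v : ℝ) - α * J) +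
      rcQ (ENNReal.ofReal (scr t)) j (fun v => J ^ (3 / 5 : ℝ) ≤ α * J - (v : ℝ)) := by
    refine le_trans ?_ (rcQ_or _ _ _ _)
    unfold rcQ
    refine ENNReal.tsum_le_tsum fun c => ?_
    by_cases h2 : Rigid c.rep.1 ∧ Fintype.card c.rep.1.D / 2 = j ∧
        J ^ (3 / 5 : ℝ) ≤ |((nV c.rep.1.s : ℕ) : ℝ) - α * J|
    · rw [if_pos h2, if_pos]
      refine ⟨h2.1, h2.2.1, ?_⟩
      rcases le_total 0 (((nV c.rep.1.s : ℕ) : ℝ) - α * J) with h3 | h3
      · left
        have := h2.2.2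
        rwa [abs_of_nonneg h3] at this
      · right
        have := h2.2.2
        rw [abs_of_nonpos h3] at this
        linarith
    · rw [if_neg h2]
      exact zero_le
  have h2 := mul_le_mul_left hsub (ENNReal.ofReal (ecr t) ^ j)
  refine h2.trans ?_
  rw [add_mul]
  refine (add_le_add hU hD).trans ?_
  rw [← ENNReal.ofReal_add (by positivity) (by positivity)]
  apply ENNReal.ofReal_le_ofReal
  have h3 : Real.exp (-(3 * r)) = Real.exp (-(2 * r)) * Real.exp (-r) := by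
    rw [← Real.exp_add]; congr 1; ring
  have h4 : 4 * Real.exp (-(2 * r)) ≤ 1 := by
    have h5 : Real.exp (-(2 * r)) ≤ Real.exp (-2) := Real.exp_le_exp.2 (by linarith)
    have h6 : (4 : ℝ) ≤ Real.exp 2 := by
      have h7 : (2 : ℝ) ≤ Real.exp 1 := by
        have := Real.add_one_le_exp (1 : ℝ)
        linarith
      have h8 : Real.exp 2 = Real.exp 1 * Real.exp 1 := by rw [← Real.exp_add]; norm_num
      rw [h8]
      nlinarith
    have h7 : Real.exp (-2) * Real.exp 2 = 1 := by rw [← Real.exp_add]; norm_num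
    have h8 : 0 < Real.exp (-2) := Real.exp_pos _
    nlinarith
  have h5 : 0 < Real.exp (-r) := Real.exp_pos _
  calc 2 * Real.exp (-(3 * r)) + 2 * Real.exp (-(3 * r)) =
        (4 * Real.exp (-(2 * r))) * Real.exp (-r) := by rw [h3]; ring
    _ ≤ 1 * Real.exp (-r) := mul_le_mul_of_nonneg_right h4 h5.le
    _ = Real.exp (-r) := one_mul _

end Pool.Agent.DiamP
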