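import Pool.Agent.DiamP.ForestLow

/-!
# Forests of restricted trees: lower bounds (Theorem B' of MP_d7a93a_pr)

`q ≤ p` are the masses of a restricted class; the deficit is at most `d`, and `q` has the right order
up to size `M`.
-/

set_option autoImplicit false

open Finset Filter Topology
open scoped Real

namespace Pool.Agent.DiamP

/-- a sub-law -/
structure SubLaw (c K d : ℝ) (M : ℕ) (p q : ℕ → ℝ) : Prop where
  fl : FLaw c K p
  nonneg : ∀ n, 0 ≤ q n
  le : ∀ n, q n ≤ p n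
  low : ∀ n : ℕ, 1 ≤ n → n ≤ M → c * (n : ℝ) ^ (-(3 / 2) : ℝ) ≤ q n
  deficit : ∀ s : ℕ, ∑ n ∈ range s, (p n - q n) ≤ d

theorem SubLaw.d_nonneg {c K d : ℝ} {M : ℕ} {p q : ℕ → ℝ} (h : SubLaw c K d M p q) : 0 ≤ d := by
  have := h.deficit 0
  simpa using this

/-- partial sums of a convolution -/
theorem sum_cv_le {p q : ℕ → ℝ} (hp : ∀ n, 0 ≤ p n) (hq : ∀ n, 0 ≤ q n) (s : ℕ) :
    ∑ n ∈ range s, cv p q n ≤ (∑ n ∈ range s, p n) * ∑ n ∈ range s, q n := by
  rw [Finset.sum_mul_sum, ← Finset.sum_product']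
  unfold cv
  rw [← Finset.sum_biUnion]
  · refine sum_le_sum_of_subset_of_nonneg ?_ fun ij _ _ => mul_nonneg (hp _) (hq _)
    intro ij hij
    obtain ⟨n, hn, hij'⟩ := mem_biUnion.1 hij
    have := mem_antidiagonal.1 hij'
    have := mem_range.1 hn
    exact mem_product.2 ⟨mem_range.2 (by omega), mem_range.2 (by omega)⟩
  · intro m _ n _ hmn
    simp only [Function.onFun]
    rw [Finset.disjoint_left]
    intro ab hm hn
    apply hmn
    rw [← mem_antidiagonal.1 hm, ← mem_antidiagonal.1 hn]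

theorem cv_sub (p q r : ℕ → ℝ) (n : ℕ) : cv p (fun m => q m - r m) n = cv p q n - cv p r n := by
  unfold cv
  rw [← sum_sub_distrib]
  exact sum_congr rfl fun ij _ => by ring

theorem cv_sub' (p q r : ℕ → ℝ) (n : ℕ) : cv (fun m => q m - r m) p n = cv q p n - cv r p n := by
  unfold cv
  rw [← sum_sub_distrib]
  exact sum_congr rfl fun ij _ => by ring

/-- the deficit of a sum -/
theorem sub_deficit {c K d : ℝ} {M : ℕ} : ∀ l : List (ℕ → ℝ),
    (∀ q ∈ l, ∃ p, SubLaw c K d M p q) → ∃ l' : List (ℕ → ℝ), l'.length = l.length ∧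
      (∀ p ∈ l', FLaw c K p) ∧ (∀ n, 0 ≤ cvL l n) ∧ (∀ n, cvL l n ≤ cvL l' n) ∧
      ∀ s, ∑ n ∈ range s, (cvL l' n - cvL l n) ≤ l.length * d := by
  intro l
  induction l with
  | nil =>
    intro _
    exact ⟨[], rfl, by simp, fun n => by simpa using (isLaw_one0.nonneg n), by simp, by simp⟩
  | cons q l ih =>
    intro hl
    obtain ⟨l', h1, h2, h3, h4, h5⟩ := ih fun q' hq' => hl q' (by simp [hq'])
    obtain ⟨p, hp⟩ := hl q (by simp)
    have L' : IsLaw (cvL l') := FLaw.isLaw_cvL h2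
    refine ⟨p :: l', by simp [h1], ?_, ?_, ?_, ?_⟩
    · intro p' hp'
      rcases List.mem_cons.1 hp' with rfl | h
      · exact hp.fl
      · exact h2 p' h
    · intro n
      rw [cvL_cons]
      exact cv_nonneg hp.nonneg h3 n
    · intro n
      rw [cvL_cons, cvL_cons]
      unfold cv
      exact sum_le_sum fun ij _ => mul_le_mul (hp.le _) (h4 _) (h3 _) (hp.fl.law.nonneg _)
    · intro s
      rw [cvL_cons, cvL_cons]
      have e : ∀ n, cv p (cvL l') n - cv q (cvL l) n =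
          cv (fun m => p m - q m) (cvL l') n + cv q (fun m => cvL l' m - cvL l m) n := by
        intro n
        rw [cv_sub, cv_sub']
        ring
      rw [sum_congr rfl fun n _ => e n, sum_add_distrib]
      have i1 : ∑ n ∈ range s, cv (fun m => p m - q m) (cvL l') n ≤ d := by
        refine (sum_cv_le (fun n => sub_nonneg.2 (hp.le n)) L'.nonneg s).trans ?_
        have h6 := L'.sum_le_one (range s)
        have h7 : 0 ≤ ∑ n ∈ range s, (p n - q n) := sum_nonneg fun n _ => sub_nonneg.2 (hp.le n)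
        calc _ ≤ (∑ n ∈ range s, (p n - q n)) * 1 := mul_le_mul_of_nonneg_left h6 h7
          _ ≤ d := by rw [mul_one]; exact hp.deficit s
      have i2 : ∑ n ∈ range s, cv q (fun m => cvL l' m - cvL l m) n ≤ l.length * d := by
        refine (sum_cv_le hp.nonneg (fun n => sub_nonneg.2 (h4 n)) s).trans ?_
        have h6 : ∑ n ∈ range s, q n ≤ 1 :=
          (sum_le_sum fun n _ => hp.le n).trans (hp.fl.law.sum_le_one (range s))
        have h7 : 0 ≤ ∑ n ∈ range s, (cvL l' n - cvL l n) := sum_nonneg fun n _ => sub_nonneg.2 (h4 n)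
        calc _ ≤ 1 * ∑ n ∈ range s, (cvL l' n - cvL l n) := mul_le_mul_of_nonneg_right h6 h7
          _ ≤ _ := by rw [one_mul]; exact h5 s
      rw [List.length_cons]
      push_cast
      linarith

/-- a short block -/
theorem sub_local_low {c : ℝ} (hc : 0 < c) (K : ℝ) {A : ℝ} (hA : 0 < A) :
    ∃ c5 c6 : ℝ, 0 < c5 ∧ 0 < c6 ∧ ∃ N0 : ℕ, ∀ n : ℕ, N0 ≤ n → ∀ (d : ℝ) (M : ℕ), n ≤ M →
      ∀ l : List (ℕ → ℝ), (∀ q ∈ l, ∃ p, SubLaw c K d M p q) →
      (l.length : ℝ) ≤ A * (n : ℝ) ^ (1 / 2 : ℝ) → (l.length : ℝ) * d ≤ c5 →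
      c6 * (l.length : ℝ) * (n : ℝ) ^ (-(3 / 2) : ℝ) ≤ cvL l n := by
  obtain ⟨c5, hc5, N0, h5⟩ := forest_small_low hc K (show 0 < 4 * A by positivity)
  refine ⟨c5 / 2, c5 / 2 * c / 2, by positivity, by positivity, 4 * N0 + 16,
    fun n hn d M hM l hl hlen hd => ?_⟩
  have hn1 : 1 ≤ n := by omega
  have hn' : (0 : ℝ) < n := by exact_mod_cast hn1
  obtain ⟨_, _, _, hL0, _, _⟩ := sub_deficit l hl
  rcases Nat.eq_zero_or_pos l.length with h0 | h0
  · rw [h0, Nat.cast_zero, mul_zero, zero_mul]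
    exact hL0 n
  obtain ⟨g, hg⟩ : ∃ g, l.length = g + 1 := ⟨l.length - 1, by omega⟩
  set B := (n : ℝ) / 2 * (c * (n : ℝ) ^ (-(3 / 2) : ℝ)) * (c5 / 2) with hB
  have key := size_bias_low (fun q => ∃ p, SubLaw c K d M p q) B n g (by
    intro q rest hq hrest hrg
    obtain ⟨rest', k1, k2, k3, k4, k5⟩ := sub_deficit rest hrest
    obtain ⟨p, hp⟩ := hq
    set m := n / 4 with hm
    have h6 := h5 m (by omega) rest' k2 (by
      have h7 : (rest'.length : ℝ) ≤ l.length := by
        rw [k1, hrg, hg]; push_cast; linarith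
      refine (h7.trans hlen).trans ?_
      have h8 : (n : ℝ) ≤ 16 * m := by
        have : n ≤ 16 * m := by omega
        exact_mod_cast this
      have h9 : (n : ℝ) ^ (1 / 2 : ℝ) ≤ (16 * m : ℝ) ^ (1 / 2 : ℝ) :=
        Real.rpow_le_rpow hn'.le h8 (by norm_num)
      have h10 : (16 * m : ℝ) ^ (1 / 2 : ℝ) = 4 * (m : ℝ) ^ (1 / 2 : ℝ) := by
        rw [Real.mul_rpow (by norm_num) (by positivity)]
        congr 1
        rw [show (16 : ℝ) = 4 ^ (2 : ℝ) by norm_num, ← Real.rpow_mul (by norm_num)]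
        norm_num
      rw [h10] at h9
      calc A * (n : ℝ) ^ (1 / 2 : ℝ) ≤ A * (4 * (m : ℝ) ^ (1 / 2 : ℝ)) :=
            mul_le_mul_of_nonneg_left h9 hA.le
        _ = 4 * A * (m : ℝ) ^ (1 / 2 : ℝ) := by ring)
    have h6' : c5 / 2 ≤ ∑ i ∈ range (m + 1), cvL rest i := by
      have h7 := k5 (m + 1)
      rw [sum_sub_distrib] at h7
      have h8 : (rest.length : ℝ) * d ≤ (l.length : ℝ) * d := by
        refine mul_le_mul_of_nonneg_right ?_ hp.d_nonneg
        rw [hrg, hg]; push_cast; linarith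
      linarith
    rw [cv_comm, cv_eq_range]
    have h7 : ∑ i ∈ range (m + 1), cvL rest i * ((n : ℝ) / 2 * (c * (n : ℝ) ^ (-(3 / 2) : ℝ))) ≤
        ∑ a ∈ range (n + 1), cvL rest a * sb q (n - a) := by
      refine le_trans (sum_le_sum (g := fun a => cvL rest a * sb q (n - a)) fun i hi => ?_)
        (sum_le_sum_of_subset_of_nonneg ?_ fun a _ _ => mul_nonneg (k3 a)
          (mul_nonneg (Nat.cast_nonneg _) (hp.nonneg _)))
      · have hi' := mem_range.1 hi
        refine mul_le_mul_of_nonneg_left ?_ (k3 i)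
        unfold sb
        have h8 : (n : ℝ) / 2 ≤ ((n - i : ℕ) : ℝ) := by
          have : n ≤ 2 * (n - i) := by omega
          have : (n : ℝ) ≤ 2 * ((n - i : ℕ) : ℝ) := by exact_mod_cast this
          linarith
        have h9 : c * (n : ℝ) ^ (-(3 / 2) : ℝ) ≤ q (n - i) := by
          refine le_trans ?_ (hp.low (n - i) (by omega) (by omega))
          refine mul_le_mul_of_nonneg_left ?_ hc.le
          refine Real.rpow_le_rpow_of_nonpos (by linarith) ?_ (by norm_num)
          exact_mod_cast Nat.sub_le _ _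
        exact mul_le_mul h8 h9 (by positivity) (by positivity)
      · intro a ha
        have := mem_range.1 ha
        exact mem_range.2 (by omega)
    rw [← Finset.sum_mul] at h7
    refine le_trans ?_ h7
    rw [hB, mul_comm]
    exact mul_le_mul_of_nonneg_right h6' (by positivity)) l [] hl (by simp) (by simp [hg])
  rw [cvL_nil, one0_cv] at key
  have h1 : (n : ℝ) * (c5 / 2 * c / 2 * (l.length : ℝ) * (n : ℝ) ^ (-(3 / 2) : ℝ)) ≤
      n * cvL l n := by
    refine le_trans (le_of_eq ?_) key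
    rw [hB]
    ring
  exact le_of_mul_le_mul_left h1 hn'

/-- many blocks -/
theorem sub_blocks {Q : (ℕ → ℝ) → Prop} (hQ : ∀ l : List (ℕ → ℝ), (∀ q ∈ l, Q q) → ∀ n, 0 ≤ cvL l n)
    {u η1 : ℝ} {h0 : ℕ} (hu : 4 ≤ u) (hη : 0 ≤ η1)
    (hb : ∀ l : List (ℕ → ℝ), (∀ q ∈ l, Q q) → h0 ≤ l.length → l.length ≤ 2 * h0 →
      ∀ m : ℕ, u / 2 ≤ m → (m : ℝ) ≤ 3 * u / 2 → η1 / u ≤ cvL l m) :
    ∀ j : ℕ, ∀ l : List (ℕ → ℝ), (∀ q ∈ l, Q q) → (j + 1) * h0 ≤ l.length →
      l.length ≤ (j + 2) * h0 → ∀ n : ℕ, |(n : ℝ) - (j + 1) * u| ≤ u / 4 →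
      η1 * (η1 / 4) ^ j / u ≤ cvL l n := by
  have hu0 : 0 < u := by linarith
  intro j
  induction j with
  | zero =>
    intro l hl h1 h2 n hn
    simp only [zero_add, one_mul, CharP.cast_eq_zero] at h1 h2 hn
    obtain ⟨h3, h4⟩ := abs_le.1 hn
    rw [pow_zero, mul_one]
    exact hb l hl h1 h2 n (by linarith) (by linarith)
  | succ j ih =>
    intro l hl h1 h2 n hn
    push_cast at hn
    obtain ⟨h3, h4⟩ := abs_le.1 hn
    have e : l = l.take h0 ++ l.drop h0 := (List.take_append_drop h0 l).symm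
    have g1 : ∀ p ∈ l.take h0, Q p := fun p hp => hl p (List.mem_of_mem_take hp)
    have g2 : ∀ p ∈ l.drop h0, Q p := fun p hp => hl p (List.mem_of_mem_drop hp)
    have e1 : (j + 1 + 1) * h0 = (j + 1) * h0 + h0 := by ring
    have e2 : (j + 1 + 2) * h0 = (j + 2) * h0 + h0 := by ring
    have hh0 : h0 ≤ l.length := by
      have : h0 ≤ (j + 1) * h0 + h0 := Nat.le_add_left _ _
      omega
    have g3 : (l.take h0).length = h0 := by rw [List.length_take]; omega
    have g4 : (l.drop h0).length = l.length - h0 := List.length_drop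
    rw [e, cvL_append, cv_eq_range]
    -- the good `m`
    set a := ⌈(n : ℝ) - (j + 1) * u - u / 4⌉₊ with ha
    set b := ⌊(n : ℝ) - (j + 1) * u + u / 4⌋₊ with hb'
    have hA1 : (0 : ℝ) ≤ (n : ℝ) - (j + 1) * u - u / 4 := by linarith
    have hB1 : (0 : ℝ) ≤ (n : ℝ) - (j + 1) * u + u / 4 := by linarith
    have ha1 : (n : ℝ) - (j + 1) * u - u / 4 ≤ a := Nat.le_ceil _
    have ha2 : (a : ℝ) < (n : ℝ) - (j + 1) * u - u / 4 + 1 := Nat.ceil_lt_add_one hA1
    have hb1 : (b : ℝ) ≤ (n : ℝ) - (j + 1) * u + u / 4 := Nat.floor_le hB1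
    have hb2 : (n : ℝ) - (j + 1) * u + u / 4 < b + 1 := Nat.lt_floor_add_one _
    have hab : (a : ℝ) ≤ b := by linarith
    have hab' : a ≤ b := by exact_mod_cast hab
    have hju : 0 ≤ (j : ℝ) * u := by positivity
    have hbn : b ≤ n := by
      have : (b : ℝ) ≤ n := by nlinarith
      exact_mod_cast this
    have hterm : ∀ m ∈ Icc a b, η1 / u * (η1 * (η1 / 4) ^ j / u) ≤
        cvL (l.take h0) m * cvL (l.drop h0) (n - m) := by
      intro m hm
      obtain ⟨m1, m2⟩ := mem_Icc.1 hm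
      have m1' : (a : ℝ) ≤ m := by exact_mod_cast m1
      have m2' : (m : ℝ) ≤ b := by exact_mod_cast m2
      have i1 := hb (l.take h0) g1 (by omega) (by omega) m (by nlinarith) (by nlinarith)
      have hnm : ((n - m : ℕ) : ℝ) = n - m := Nat.cast_sub (by omega)
      have i2 := ih (l.drop h0) g2 (by omega) (by omega) (n - m) (by
        rw [hnm, abs_le]
        constructor <;> linarith)
      exact mul_le_mul i1 i2 (by positivity) (hQ _ g1 m)
    have hsum : ∑ m ∈ Icc a b, cvL (l.take h0) m * cvL (l.drop h0) (n - m) ≤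
        ∑ m ∈ range (n + 1), cvL (l.take h0) m * cvL (l.drop h0) (n - m) := by
      refine sum_le_sum_of_subset_of_nonneg ?_ fun m _ _ => mul_nonneg (hQ _ g1 m) (hQ _ g2 _)
      intro m hm
      obtain ⟨m1, m2⟩ := mem_Icc.1 hm
      exact mem_range.2 (by omega)
    refine le_trans ?_ hsum
    refine le_trans ?_ (sum_le_sum hterm)
    rw [sum_const, Nat.card_Icc, nsmul_eq_mul]
    have hcard : u / 4 ≤ ((b + 1 - a : ℕ) : ℝ) := by
      rw [Nat.cast_sub (by omega)]
      push_cast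
      linarith
    have hpos : 0 ≤ η1 / u * (η1 * (η1 / 4) ^ j / u) := by positivity
    refine le_trans (le_of_eq ?_) (mul_le_mul_of_nonneg_right hcard hpos)
    rw [pow_succ]
    field_simp

/-- (F7) **forests of restricted trees**: the sum hits `N` with probability at least `η / N` -/
theorem forest_sub_low {c : ℝ} (hc : 0 < c) (K : ℝ) {ε D a A : ℝ} (hε : 0 < ε) (hD : 0 < D)
    (ha : 0 < a) (hA : 0 < A) :
    ∃ η : ℝ, 0 < η ∧ ∃ N0 : ℕ, ∀ N : ℕ, N0 ≤ N → ∀ (d : ℝ) (M : ℕ),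
      d * (N : ℝ) ^ (1 / 2 : ℝ) ≤ D → ε * N ≤ M →
      ∀ l : List (ℕ → ℝ), (∀ q ∈ l, ∃ p, SubLaw c K d M p q) →
      a * (N : ℝ) ^ (1 / 2 : ℝ) ≤ l.length → (l.length : ℝ) ≤ A * (N : ℝ) ^ (1 / 2 : ℝ) →
      η / N ≤ cvL l N := by
  obtain ⟨c5, c6, hc5, hc6, N0, hloc⟩ := sub_local_low hc K (A := 1) one_pos
  -- number of blocks
  obtain ⟨r, hr1, hrA, hrD, hrε⟩ : ∃ r : ℕ, 1 ≤ r ∧ 8 * A ^ 2 ≤ r ∧ 2 * A * D / c5 ≤ r ∧
      2 / ε ≤ r := by
    refine ⟨⌈8 * A ^ 2 + 2 * A * D / c5 + 2 / ε⌉₊ + 1, by omega, ?_, ?_, ?_⟩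
    all_goals
      have h1 := Nat.le_ceil (8 * A ^ 2 + 2 * A * D / c5 + 2 / ε)
      have h2 : 0 ≤ 8 * A ^ 2 := by positivity
      have h3 : 0 ≤ 2 * A * D / c5 := by positivity
      have h4 : 0 ≤ 2 / ε := by positivity
      push_cast
      linarith
  have hr' : (1 : ℝ) ≤ r := by exact_mod_cast hr1
  have hr0 : (0 : ℝ) < r := by linarith
  set η1 := c6 * (a / (2 * r)) * ((3 / 2 : ℝ) / r) ^ (-(3 / 2) : ℝ) / r with hη1
  have hη1pos : 0 < η1 := by positivity
  obtain ⟨j, hj⟩ : ∃ j, r = j + 1 := ⟨r - 1, by omega⟩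
  refine ⟨η1 * (η1 / 4) ^ j * r, by positivity,
    r * (2 * N0 + 4) + ⌈(2 * r * (r + 1) / a) ^ 2⌉₊ + 1,
    fun N hN d M hd hM l hl hlen1 hlen2 => ?_⟩
  have hN1 : 1 ≤ N := by omega
  have hN' : (0 : ℝ) < N := by exact_mod_cast hN1
  set q := (N : ℝ) ^ (1 / 2 : ℝ) with hq
  have hq0 : 0 < q := by positivity
  have hq2 : q * q = N := by rw [hq, ← Real.rpow_add hN']; norm_num
  have hNr : (r : ℝ) * (2 * N0 + 4) ≤ N := by
    have h1 : r * (2 * N0 + 4) ≤ N := by omega
    exact_mod_cast h1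
  have hqr : 2 * r * (r + 1) / a ≤ q := by
    have h1 := Nat.le_ceil ((2 * (r : ℝ) * (r + 1) / a) ^ 2)
    have h2 : ((⌈(2 * (r : ℝ) * (r + 1) / a) ^ 2⌉₊ : ℕ) : ℝ) ≤ N := by
      have : ⌈(2 * (r : ℝ) * (r + 1) / a) ^ 2⌉₊ ≤ N := by omega
      exact_mod_cast this
    rw [hq, ← Real.sqrt_eq_rpow]
    exact Real.le_sqrt_of_sq_le (h1.trans h2)
  set u := (N : ℝ) / r with hu
  have hu0 : 0 < u := by positivity
  have hu4 : 2 * (N0 : ℝ) + 4 ≤ u := by
    rw [hu, le_div_iff₀ hr0]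
    linarith
  have hN00 : (0 : ℝ) ≤ N0 := Nat.cast_nonneg _
  set h0 := l.length / r with hh0
  have hlr : 2 * r * (r + 1) ≤ (l.length : ℝ) := by
    have h1 : 2 * r * (r + 1) ≤ a * q := by
      rw [div_le_iff₀ ha] at hqr
      linarith
    linarith
  have hlr' : 2 * r * (r + 1) ≤ l.length := by exact_mod_cast hlr
  have h01 : r * h0 ≤ l.length := Nat.mul_div_le _ _
  have h02 : l.length < r * h0 + r := by
    have := Nat.div_add_mod l.length r
    have := Nat.mod_lt l.length (show 0 < r by omega)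
    rw [← hh0] at *
    omega
  have h03 : r ≤ h0 := by
    by_contra hcon
    have h1 : h0 + 1 ≤ r := by omega
    have h2 : r * (h0 + 1) ≤ r * r := Nat.mul_le_mul_left r h1
    have e3 : r * (h0 + 1) = r * h0 + r := by ring
    have e4 : 2 * r * (r + 1) = r * r + r * r + 2 * r := by ring
    omega
  have h0pos : (1 : ℝ) ≤ h0 := by
    have : 1 ≤ h0 := by omega
    exact_mod_cast this
  have h04 : (r : ℝ) * h0 ≤ A * q := by
    have : ((r * h0 : ℕ) : ℝ) ≤ l.length := by exact_mod_cast h01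
    push_cast at this
    linarith
  have h05 : a * q ≤ 2 * r * h0 := by
    have h1 : (l.length : ℝ) ≤ r * h0 + r := by
      have : ((l.length : ℕ) : ℝ) ≤ ((r * h0 + r : ℕ) : ℝ) := by exact_mod_cast h02.le
      push_cast at this
      exact this
    nlinarith
  have hQ : ∀ l : List (ℕ → ℝ), (∀ q ∈ l, ∃ p, SubLaw c K d M p q) → ∀ n, 0 ≤ cvL l n := by
    intro l hl
    obtain ⟨_, _, _, hL0, _, _⟩ := sub_deficit l hl
    exact hL0
  have hMu : ∀ m : ℕ, (m : ℝ) ≤ 3 * u / 2 → m ≤ M := by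
    intro m hm
    have h1 : 3 * u / 2 ≤ ε * N := by
      have h2 : 2 ≤ ε * r := by
        rw [div_le_iff₀ hε] at hrε
        linarith
      have h3 : 3 * u / 2 = 3 / 2 * N / r := by rw [hu]; ring
      rw [h3, div_le_iff₀ hr0]
      nlinarith
    have : (m : ℝ) ≤ M := by linarith
    exact_mod_cast this
  have key := sub_blocks (Q := fun q => ∃ p, SubLaw c K d M p q) hQ (u := u) (η1 := η1)
    (h0 := h0) (by linarith) hη1pos.le (by
      intro l' hl' g1 g2 m hm1 hm2
      have hmpos : (0 : ℝ) < m := by linarith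
      have g2' : (l'.length : ℝ) ≤ 2 * h0 := by exact_mod_cast g2
      have g1' : (h0 : ℝ) ≤ l'.length := by exact_mod_cast g1
      have hdn : 0 ≤ d := by
        obtain ⟨q, hq⟩ : ∃ q, q ∈ l' := by
          have : 0 < l'.length := by
            have : 1 ≤ h0 := by omega
            omega
          exact List.exists_mem_of_length_pos this
        obtain ⟨p, hp⟩ := hl' q hq
        exact hp.d_nonneg
      have i1 := hloc m (by
        have : (N0 : ℝ) ≤ m := by linarith
        exact_mod_cast this) d M (hMu m hm2) l' hl' (by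
          rw [one_mul]
          refine g2'.trans ?_
          -- `2 h0 ≤ √m`, `m ≥ N / (2r)`, `h0 ≤ A q / r`
          rw [← Real.sqrt_eq_rpow]
          refine Real.le_sqrt_of_sq_le ?_
          have h1 : (r : ℝ) ^ 2 * (2 * h0) ^ 2 ≤ 4 * A ^ 2 * N := by
            have h2 : ((r : ℝ) * h0) ^ 2 ≤ (A * q) ^ 2 := pow_le_pow_left₀ (by positivity) h04 2
            have e1 : (r : ℝ) ^ 2 * (2 * h0) ^ 2 = 4 * (r * h0) ^ 2 := by ring
            have e2 : (A * q) ^ 2 = A ^ 2 * (q * q) := by ring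
            rw [e1]
            rw [e2, hq2] at h2
            linarith
          have h2 : 4 * A ^ 2 * N ≤ (r : ℝ) ^ 2 * m := by
            have h3 : (N : ℝ) ≤ 2 * r * m := by
              have : (N : ℝ) / r ≤ 2 * m := by rw [← hu]; linarith
              rw [div_le_iff₀ hr0] at this
              linarith
            have h4 : 4 * A ^ 2 * N ≤ 4 * A ^ 2 * (2 * r * m) :=
              mul_le_mul_of_nonneg_left h3 (by positivity)
            have h5 : 4 * A ^ 2 * (2 * r * m) = 8 * A ^ 2 * (r * m) := by ring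
            have h6 : 8 * A ^ 2 * (r * m) ≤ r * (r * m) :=
              mul_le_mul_of_nonneg_right hrA (by positivity)
            nlinarith
          have hr2 : (0 : ℝ) < (r : ℝ) ^ 2 := by positivity
          exact le_of_mul_le_mul_left (h1.trans h2) hr2) (by
          -- deficit
          have h1 : (l'.length : ℝ) * d ≤ 2 * h0 * d := mul_le_mul_of_nonneg_right g2' hdn
          refine h1.trans ?_
          have h2 : (r : ℝ) * (2 * h0 * d) ≤ 2 * A * D := by
            have e1 : (r : ℝ) * (2 * h0 * d) = 2 * (r * h0) * d := by ring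
            rw [e1]
            calc 2 * ((r : ℝ) * h0) * d ≤ 2 * (A * q) * d :=
                  mul_le_mul_of_nonneg_right (by linarith) hdn
              _ = 2 * A * (d * q) := by ring
              _ ≤ 2 * A * D := mul_le_mul_of_nonneg_left hd (by positivity)
          have h3 : 2 * A * D ≤ r * c5 := by
            rwa [div_le_iff₀ hc5] at hrD
          exact le_of_mul_le_mul_left (h2.trans h3) hr0)
      refine le_trans ?_ i1
      -- `η1 / u ≤ c6 h0 m^(-3/2)`
      have h1 : (3 / 2 * u) ^ (-(3 / 2) : ℝ) ≤ (m : ℝ) ^ (-(3 / 2) : ℝ) :=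
        Real.rpow_le_rpow_of_nonpos hmpos (by linarith) (by norm_num)
      have h2 : c6 * (h0 : ℝ) * (3 / 2 * u) ^ (-(3 / 2) : ℝ) ≤
          c6 * (l'.length : ℝ) * (m : ℝ) ^ (-(3 / 2) : ℝ) :=
        mul_le_mul (mul_le_mul_of_nonneg_left g1' hc6.le) h1 (by positivity) (by positivity)
      refine le_trans ?_ h2
      have h3 : (3 / 2 * u) ^ (-(3 / 2) : ℝ) = ((3 / 2 : ℝ) / r) ^ (-(3 / 2) : ℝ) *
          (N : ℝ) ^ (-(3 / 2) : ℝ) := by
        rw [← Real.mul_rpow (by positivity) hN'.le]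
        congr 1
        rw [hu]; ring
      rw [h3]
      have h4 : a / (2 * r) * q ≤ h0 := by
        rw [div_mul_eq_mul_div, div_le_iff₀ (by positivity)]
        linarith
      have h5 : q * (N : ℝ) ^ (-(3 / 2) : ℝ) = 1 / N := by
        rw [hq, ← Real.rpow_add hN', show (1 / 2 : ℝ) + -(3 / 2) = -1 by norm_num,
          Real.rpow_neg_one, one_div]
      have h6 : η1 / u = c6 * (a / (2 * r) * q) * (((3 / 2 : ℝ) / r) ^ (-(3 / 2) : ℝ) *
          (N : ℝ) ^ (-(3 / 2) : ℝ)) := by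
        calc η1 / u = c6 * (a / (2 * r)) * ((3 / 2 : ℝ) / r) ^ (-(3 / 2) : ℝ) * (1 / N) := by
              rw [hη1, hu]
              field_simp
          _ = _ := by rw [← h5]; ring
      rw [h6]
      exact mul_le_mul_of_nonneg_right (mul_le_mul_of_nonneg_left h4 hc6.le) (by positivity))
    j l hl (by rw [← hj]; exact h01) (by
      have e1 : (j + 2) * h0 = r * h0 + h0 := by rw [hj]; ring
      omega) N (by
      have e1 : ((j : ℝ) + 1) * u = N := by
        have : (r : ℝ) = j + 1 := by rw [hj]; push_cast; ring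
        rw [← this, hu]
        field_simp
      rw [e1, sub_self, abs_zero]
      positivity)
  refine le_trans (le_of_eq ?_) key
  rw [hu]
  field_simp

end Pool.Agent.DiamP
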