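import Pool.Agent.DiamP.Walk

/-!
# The two-state walk stays in a strip with positive probability (Theorem B' of MP_d7a93a_pr)
-/

set_option autoImplicit false

open Finset

namespace Pool.Agent.DiamP

section
variable {α β : ℝ}

theorem sin_sub_le {y : ℝ} (hy : |y| ≤ 1) : |Real.sin y - y| ≤ |y| ^ 3 / 4 := by
  have key : ∀ z : ℝ, 0 ≤ z → z ≤ 1 → |Real.sin z - z| ≤ z ^ 3 / 4 := by
    intro z h0 h1
    rcases h0.eq_or_lt with rfl | h0
    · simp
    · have h2 := Real.sin_gt_sub_cube h0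
      have h3 := Real.sin_lt h0
      have h4 : 0 < z ^ 3 := by positivity
      rw [abs_le]
      constructor
      · linarith
      · have : 0 ≤ z ^ 3 / 4 := by positivity
        linarith
  rcases abs_cases y with ⟨e, h⟩ | ⟨e, h⟩
  · rw [e]
    rw [e] at hy
    exact key y h hy
  · rw [e]
    rw [e] at hy
    have := key (-y) (by linarith) hy
    rw [Real.sin_neg] at this
    rw [← abs_neg]
    have e2 : -(Real.sin y - y) = -Real.sin y - -y := by ring
    rw [e2]
    exact this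

/-- one step applied to a cosine -/
theorem stepW_cos (h : Crit α β) {θ : ℝ} (h0 : 0 ≤ θ) (h1 : θ ≤ 1) (u : Bool) (l : ℤ)
    (hc : 0 ≤ Real.cos (θ * xW α u l)) :
    hW α u * ((1 - θ ^ 2 / 2) * Real.cos (θ * xW α u l) - θ ^ 3 / 4) ≤
      stepW α β (fun v m => hW α v * Real.cos (θ * xW α v m)) u l := by
  rw [stepW_hx (fun x => Real.cos (θ * x))]
  set x := xW α u l with hx
  set cc := cond u (cW α) 0 with hcc
  have hxl : x = l + cc := rfl
  have e1 : Real.cos (θ * ((l : ℝ) - 1 + cW α)) = Real.cos (θ * x) * Real.cos (θ * (-1 + cW α - cc)) -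
      Real.sin (θ * x) * Real.sin (θ * (-1 + cW α - cc)) := by
    rw [← Real.cos_add, hxl]; ring_nf
  have e2 : Real.cos (θ * (l : ℝ)) = Real.cos (θ * x) * Real.cos (θ * (0 - cc)) -
      Real.sin (θ * x) * Real.sin (θ * (0 - cc)) := by
    rw [← Real.cos_add, hxl]; ring_nf
  have e3 : Real.cos (θ * ((l : ℝ) + 1)) = Real.cos (θ * x) * Real.cos (θ * (1 - cc)) -
      Real.sin (θ * x) * Real.sin (θ * (1 - cc)) := by
    rw [← Real.cos_add, hxl]; ring_nf
  rw [e1, e2, e3]
  obtain ⟨i1, i2, i3⟩ := h.incr u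
  rw [← hcc] at i1 i2 i3
  have w := cond_pos h u
  have ha := h.ha
  have hl := h.lt_third
  set w1 := cond u α (α + β) * (2 * α) with hw1
  set w2 := cond u α (α + β) * (1 - α) with hw2
  set w3 := α * (1 - α) with hw3
  have w10 : 0 ≤ w1 := by positivity
  have w20 : 0 ≤ w2 := mul_nonneg w.le (by linarith)
  have w30 : 0 ≤ w3 := mul_nonneg ha.le (by linarith)
  have hm : w1 + w2 + w3 = hW α u := h.mass u
  have hmean : w1 * (-1 + cW α - cc) + w2 * (0 - cc) + w3 * (1 - cc) = 0 := h.mean u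
  set y1 := -1 + cW α - cc with hy1
  set y2 := 0 - cc with hy2
  set y3 := 1 - cc with hy3
  have hcos : ∀ y : ℝ, |y| ≤ 1 → 1 - θ ^ 2 / 2 ≤ Real.cos (θ * y) := by
    intro y hy
    have h2 := Real.one_sub_sq_div_two_le_cos (x := θ * y)
    have h3 : (θ * y) ^ 2 ≤ θ ^ 2 := by
      rw [mul_pow]
      have : y ^ 2 ≤ 1 := by rw [← sq_abs]; nlinarith [abs_nonneg y]
      nlinarith [sq_nonneg θ]
    linarith
  have hsin : ∀ y : ℝ, |y| ≤ 1 → |Real.sin (θ * y) - θ * y| ≤ θ ^ 3 / 4 := by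
    intro y hy
    have h2 : |θ * y| ≤ θ := by
      rw [abs_mul, abs_of_nonneg h0]
      exact mul_le_of_le_one_right h0 hy
    refine (sin_sub_le (h2.trans h1)).trans ?_
    have h3 : |θ * y| ^ 3 ≤ θ ^ 3 := pow_le_pow_left₀ (abs_nonneg _) h2 3
    linarith
  have c1 := mul_le_mul_of_nonneg_left (hcos _ i1) w10
  have c2 := mul_le_mul_of_nonneg_left (hcos _ i2) w20
  have c3 := mul_le_mul_of_nonneg_left (hcos _ i3) w30
  have hC : hW α u * (1 - θ ^ 2 / 2) ≤ w1 * Real.cos (θ * y1) + w2 * Real.cos (θ * y2) +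
      w3 * Real.cos (θ * y3) := by
    rw [← hm]
    linarith
  have hS : |w1 * Real.sin (θ * y1) + w2 * Real.sin (θ * y2) + w3 * Real.sin (θ * y3)| ≤
      hW α u * (θ ^ 3 / 4) := by
    have h2 : w1 * Real.sin (θ * y1) + w2 * Real.sin (θ * y2) + w3 * Real.sin (θ * y3) =
        w1 * (Real.sin (θ * y1) - θ * y1) + w2 * (Real.sin (θ * y2) - θ * y2) +
          w3 * (Real.sin (θ * y3) - θ * y3) := by
      have : w1 * (θ * y1) + w2 * (θ * y2) + w3 * (θ * y3) = 0 := by
        have : w1 * (θ * y1) + w2 * (θ * y2) + w3 * (θ * y3) =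
          θ * (w1 * y1 + w2 * y2 + w3 * y3) := by ring
        rw [this, hmean, mul_zero]
      linarith
    rw [h2, ← hm]
    refine (abs_add_le _ _).trans ?_
    have a1 := abs_add_le (w1 * (Real.sin (θ * y1) - θ * y1)) (w2 * (Real.sin (θ * y2) - θ * y2))
    have b1 : |w1 * (Real.sin (θ * y1) - θ * y1)| ≤ w1 * (θ ^ 3 / 4) := by
      rw [abs_mul, abs_of_nonneg w10]
      exact mul_le_mul_of_nonneg_left (hsin _ i1) w10
    have b2 : |w2 * (Real.sin (θ * y2) - θ * y2)| ≤ w2 * (θ ^ 3 / 4) := by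
      rw [abs_mul, abs_of_nonneg w20]
      exact mul_le_mul_of_nonneg_left (hsin _ i2) w20
    have b3 : |w3 * (Real.sin (θ * y3) - θ * y3)| ≤ w3 * (θ ^ 3 / 4) := by
      rw [abs_mul, abs_of_nonneg w30]
      exact mul_le_mul_of_nonneg_left (hsin _ i3) w30
    linarith
  have hsx : |Real.sin (θ * x)| ≤ 1 := Real.abs_sin_le_one _
  have hprod : Real.sin (θ * x) * (w1 * Real.sin (θ * y1) + w2 * Real.sin (θ * y2) +
      w3 * Real.sin (θ * y3)) ≤ hW α u * (θ ^ 3 / 4) := by
    refine (le_abs_self _).trans ?_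
    rw [abs_mul]
    calc _ ≤ 1 * (hW α u * (θ ^ 3 / 4)) := mul_le_mul hsx hS (abs_nonneg _) (by norm_num)
      _ = _ := one_mul _
  have hC2 := mul_le_mul_of_nonneg_left hC hc
  have e4 : w1 * (Real.cos (θ * x) * Real.cos (θ * y1) - Real.sin (θ * x) * Real.sin (θ * y1)) +
      w2 * (Real.cos (θ * x) * Real.cos (θ * y2) - Real.sin (θ * x) * Real.sin (θ * y2)) +
      w3 * (Real.cos (θ * x) * Real.cos (θ * y3) - Real.sin (θ * x) * Real.sin (θ * y3)) =
      Real.cos (θ * x) * (w1 * Real.cos (θ * y1) + w2 * Real.cos (θ * y2) + w3 * Real.cos (θ * y3)) -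
      Real.sin (θ * x) * (w1 * Real.sin (θ * y1) + w2 * Real.sin (θ * y2) +
        w3 * Real.sin (θ * y3)) := by ring
  rw [e4]
  have e5 : hW α u * ((1 - θ ^ 2 / 2) * Real.cos (θ * x) - θ ^ 3 / 4) =
      Real.cos (θ * x) * (hW α u * (1 - θ ^ 2 / 2)) - hW α u * (θ ^ 3 / 4) := by ring
  rw [e5]
  linarith

theorem stepW_one (h : Crit α β) (u : Bool) (l : ℤ) :
    stepW α β (fun v _ => hW α v) u l = hW α u := by
  have h1 := stepW_hx (α := α) (β := β) (fun _ => 1) u l
  simp only [mul_one] at h1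
  rw [h1]
  exact h.mass u

/-- **lower bound for the strip**, with a cosine -/
theorem stripW_cos (h : Crit α β) {L : ℕ} (hL : 2 ≤ L) (n : ℕ) : ∀ (u : Bool) (l : ℤ), |l| ≤ L →
    hW α u * ((1 - (Real.pi / (2 * L + 1)) ^ 2 / 2) ^ n *
      Real.cos (Real.pi / (2 * L + 1) * xW α u l) - n * ((Real.pi / (2 * L + 1)) ^ 3 / 4)) ≤
      stripW α β L n u l := by
  have hL' : (2 : ℝ) ≤ L := by exact_mod_cast hL
  have hpi := Real.pi_pos
  have hpi4 := Real.pi_le_four
  set θ := Real.pi / (2 * L + 1) with hθ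
  have hθ0 : 0 < θ := by positivity
  have hθ1 : θ ≤ 1 := by
    rw [hθ, div_le_one (by positivity)]
    linarith
  have hθ2 : θ * (2 * L + 1) = Real.pi := by
    rw [hθ]
    field_simp
  set lam := 1 - θ ^ 2 / 2 with hlam
  have hlam0 : 0 ≤ lam := by nlinarith
  have hlam1 : lam ≤ 1 := by nlinarith
  induction n with
  | zero =>
    intro u l hl
    simp only [pow_zero, one_mul, Nat.cast_zero, zero_mul, sub_zero, stripW, if_pos hl]
    have h1 := h.hW_le u
    have h2 := h.hW_pos u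
    have h3 := Real.cos_le_one (θ * xW α u l)
    nlinarith
  | succ n ih =>
    intro u l hl
    have hl' : |(l : ℝ)| ≤ L := by exact_mod_cast hl
    have hx := (xW_abs h u l).2
    have hcos0 : 0 ≤ Real.cos (θ * xW α u l) := by
      rw [← Real.cos_abs]
      refine Real.cos_nonneg_of_neg_pi_div_two_le_of_le ?_ ?_
      · have := abs_nonneg (θ * xW α u l)
        linarith
      · rw [abs_mul, abs_of_pos hθ0]
        nlinarith
    have hg : ∀ (v : Bool) (m : ℤ), |m| ≤ L + 1 →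
        hW α v * (lam ^ n * Real.cos (θ * xW α v m) - n * (θ ^ 3 / 4)) ≤ stripW α β L n v m := by
      intro v m hm
      by_cases hm' : |m| ≤ L
      · exact ih v m hm'
      · have hm2 : |m| = L + 1 := le_antisymm hm (by omega)
        have hm3 : |(m : ℝ)| = L + 1 := by exact_mod_cast hm2
        obtain ⟨h1, h2⟩ := xW_abs h v m
        rw [hm3] at h1 h2
        have h3 : Real.cos (θ * xW α v m) ≤ 0 := by
          rw [← Real.cos_abs, abs_mul, abs_of_pos hθ0]
          refine Real.cos_nonpos_of_pi_div_two_le_of_le ?_ ?_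
          · nlinarith
          · nlinarith
        refine le_trans ?_ (stripW_nonneg h L n v m)
        have h4 : lam ^ n * Real.cos (θ * xW α v m) ≤ 0 :=
          mul_nonpos_of_nonneg_of_nonpos (by positivity) h3
        have h5 : 0 ≤ (n : ℝ) * (θ ^ 3 / 4) := by positivity
        exact mul_nonpos_of_nonneg_of_nonpos (h.hW_pos v).le (by linarith)
    have hstep : stepW α β (fun v m => hW α v * (lam ^ n * Real.cos (θ * xW α v m) -
        n * (θ ^ 3 / 4))) u l ≤ stepW α β (stripW α β L n) u l := by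
      have hb := abs_le.1 hl
      exact stepW_mono h (hg true (l - 1) (by rw [abs_le]; constructor <;> omega))
        (hg false l (by omega)) (hg false (l + 1) (by rw [abs_le]; constructor <;> omega))
    have e1 : stepW α β (fun v m => hW α v * (lam ^ n * Real.cos (θ * xW α v m) -
        n * (θ ^ 3 / 4))) u l = lam ^ n * stepW α β (fun v m => hW α v * Real.cos (θ * xW α v m)) u l -
        n * (θ ^ 3 / 4) * stepW α β (fun v _ => hW α v) u l := by
      unfold stepW; ring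
    rw [e1, stepW_one h] at hstep
    have h1 := stepW_cos h hθ0.le hθ1 u l hcos0
    have h2 : lam ^ n * (hW α u * (lam * Real.cos (θ * xW α u l) - θ ^ 3 / 4)) ≤
        lam ^ n * stepW α β (fun v m => hW α v * Real.cos (θ * xW α v m)) u l :=
      mul_le_mul_of_nonneg_left h1 (by positivity)
    have h3 : stripW α β L (n + 1) u l = stepW α β (stripW α β L n) u l := by
      simp only [stripW, if_pos hl]
    rw [h3]
    refine le_trans ?_ hstep
    have h4 : lam ^ n ≤ 1 := pow_le_one₀ hlam0 hlam1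
    have h5 : 0 ≤ hW α u * (θ ^ 3 / 4) := mul_nonneg (h.hW_pos u).le (by positivity)
    have h6 : lam ^ n * (hW α u * (θ ^ 3 / 4)) ≤ hW α u * (θ ^ 3 / 4) :=
      mul_le_of_le_one_left h5 h4
    have e2 : hW α u * (lam ^ (n + 1) * Real.cos (θ * xW α u l) -
        ((n + 1 : ℕ) : ℝ) * (θ ^ 3 / 4)) = hW α u * (lam ^ (n + 1) * Real.cos (θ * xW α u l)) -
        n * (θ ^ 3 / 4) * hW α u - hW α u * (θ ^ 3 / 4) := by
      push_cast; ring
    have e3 : lam ^ n * (hW α u * (lam * Real.cos (θ * xW α u l) - θ ^ 3 / 4)) =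
        hW α u * (lam ^ (n + 1) * Real.cos (θ * xW α u l)) - lam ^ n * (hW α u * (θ ^ 3 / 4)) := by
      ring
    rw [e2]
    rw [e3] at h2
    linarith

/-- **the walk stays in a strip of width `L` for `C L ^ 2` steps with positive probability** -/
theorem stripW_low (h : Crit α β) {C : ℝ} (hC : 0 < C) : ∃ η : ℝ, 0 < η ∧ ∃ L0 : ℕ, ∀ L n : ℕ,
    L0 ≤ L → (n : ℝ) ≤ C * L ^ 2 → ∀ u : Bool, η ≤ stripW α β L n u 0 := by
  have ha := h.ha
  set q := Real.exp (-(4 * C)) with hq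
  have hq0 : 0 < q := Real.exp_pos _
  refine ⟨2 * α * (q / 4), by positivity, ⌈64 * C / q⌉₊ + 8, fun L n hL hn u => ?_⟩
  have hL8 : 8 ≤ L := by omega
  have hL' : (8 : ℝ) ≤ L := by exact_mod_cast hL8
  have hLC : 64 * C / q ≤ L := by
    have h1 := Nat.le_ceil (64 * C / q)
    have h2 : ((⌈64 * C / q⌉₊ + 8 : ℕ) : ℝ) ≤ L := by exact_mod_cast hL
    push_cast at h2
    linarith
  have hpi := Real.pi_pos
  have hpi4 := Real.pi_le_four
  have h1 := stripW_cos h (L := L) (by omega) n u 0 (by simp)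
  set θ := Real.pi / (2 * L + 1) with hθ
  have hθ0 : 0 < θ := by positivity
  have hθL : θ * L ≤ 2 := by
    rw [hθ, div_mul_eq_mul_div, div_le_iff₀ (by positivity)]
    nlinarith
  have hθ1 : θ ≤ 1 / 4 := by nlinarith
  -- the power
  have hpow : q ≤ (1 - θ ^ 2 / 2) ^ n := by
    have h2 : Real.exp (-θ ^ 2) ≤ 1 - θ ^ 2 / 2 := by
      have h3 : Real.exp (-θ ^ 2) * (1 + θ ^ 2) ≤ 1 := by
        have h4 := Real.add_one_le_exp (θ ^ 2)
        have h5 : Real.exp (-θ ^ 2) * Real.exp (θ ^ 2) = 1 := by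
          rw [← Real.exp_add]; simp
        calc _ ≤ Real.exp (-θ ^ 2) * Real.exp (θ ^ 2) :=
              mul_le_mul_of_nonneg_left (by linarith) (Real.exp_pos _).le
          _ = 1 := h5
      have h4 : Real.exp (-θ ^ 2) ≤ 1 / (1 + θ ^ 2) := by
        rw [le_div_iff₀ (by positivity)]
        exact h3
      refine h4.trans ?_
      rw [div_le_iff₀ (by positivity)]
      have : 0 ≤ θ ^ 2 := by positivity
      have : θ ^ 2 ≤ 1 := by nlinarith
      nlinarith
    refine le_trans ?_ (pow_le_pow_left₀ (Real.exp_pos _).le h2 n)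
    rw [← Real.exp_nat_mul, hq]
    apply Real.exp_le_exp.2
    have h3 : (n : ℝ) * θ ^ 2 ≤ C * (L ^ 2 * θ ^ 2) := by
      calc (n : ℝ) * θ ^ 2 ≤ C * L ^ 2 * θ ^ 2 := mul_le_mul_of_nonneg_right hn (by positivity)
        _ = _ := by ring
    have h4 : (L : ℝ) ^ 2 * θ ^ 2 ≤ 4 := by
      have : (θ * L) ^ 2 ≤ 2 ^ 2 := pow_le_pow_left₀ (by positivity) hθL 2
      nlinarith
    have h5 : C * (L ^ 2 * θ ^ 2) ≤ C * 4 := mul_le_mul_of_nonneg_left h4 hC.le
    have e : (n : ℝ) * -θ ^ 2 = -(n * θ ^ 2) := by ring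
    rw [e]
    linarith
  -- the cosine
  have hcos : 1 / 2 ≤ Real.cos (θ * xW α u 0) := by
    have h2 := Real.one_sub_sq_div_two_le_cos (x := θ * xW α u 0)
    have h3 := (xW_abs h u 0).2
    simp only [Int.cast_zero, abs_zero, zero_add] at h3
    have h4 : |θ * xW α u 0| ≤ 1 / 8 := by
      rw [abs_mul, abs_of_pos hθ0]
      nlinarith [abs_nonneg (xW α u 0)]
    have h5 : (θ * xW α u 0) ^ 2 ≤ (1 / 8) ^ 2 := by
      rw [← sq_abs]
      exact pow_le_pow_left₀ (abs_nonneg _) h4 2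
    linarith
  -- the error
  have herr : (n : ℝ) * (θ ^ 3 / 4) ≤ q / 4 := by
    have h2 : (n : ℝ) * θ ^ 3 ≤ C * L ^ 2 * θ ^ 3 := mul_le_mul_of_nonneg_right hn (by positivity)
    have h3 : (L : ℝ) * (C * L ^ 2 * θ ^ 3) ≤ C * 8 := by
      have h4 : (θ * L) ^ 3 ≤ 2 ^ 3 := pow_le_pow_left₀ (by positivity) hθL 3
      have e : (L : ℝ) * (C * L ^ 2 * θ ^ 3) = C * (θ * L) ^ 3 := by ring
      rw [e]
      exact mul_le_mul_of_nonneg_left (by linarith) hC.le
    have h4 : 64 * C ≤ L * q := by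
      rwa [div_le_iff₀ hq0] at hLC
    have hLpos : (0 : ℝ) < L := by linarith
    have h5 : C * L ^ 2 * θ ^ 3 ≤ q := by
      have h6 : (L : ℝ) * (C * L ^ 2 * θ ^ 3) ≤ L * q := by
        have : C * 8 ≤ 64 * C := by linarith
        linarith
      exact le_of_mul_le_mul_left h6 hLpos
    linarith
  refine le_trans ?_ h1
  have h2 : q / 4 ≤ (1 - θ ^ 2 / 2) ^ n * Real.cos (θ * xW α u 0) - n * (θ ^ 3 / 4) := by
    have h3 : q * (1 / 2) ≤ (1 - θ ^ 2 / 2) ^ n * Real.cos (θ * xW α u 0) :=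
      mul_le_mul hpow hcos (by norm_num) (hq0.le.trans hpow)
    linarith
  exact mul_le_mul (h.hW_ge u) h2 (by positivity) (h.hW_pos u).le

end

end Pool.Agent.DiamP
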