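import Pool.Agent.DiamP.Conv
import Pool.Agent.DiamP.Fourier

/-!
# Heavy sums with mean: deviations from tail bounds `P(X ≥ s) ≤ K s^(-3/2)` ((4.1) of MP_d7a93a_pr)
-/

set_option autoImplicit false

open Finset Filter Topology
open scoped Real

namespace Pool.Agent.DiamP

/-- a law with tail `P(X ≥ s) ≤ K s^(-3/2)` -/
structure HT (K : ℝ) (p : ℕ → ℝ) : Prop where
  law : IsLaw p
  tail : ∀ s : ℕ, 1 ≤ s → tl p s ≤ K * (s : ℝ) ^ (-(3 / 2) : ℝ)

/-- the mean -/
noncomputable def mean (p : ℕ → ℝ) : ℝ := ex p fun n => (n : ℝ)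

/-- the mean of a sum -/
noncomputable def meanL (l : List (ℕ → ℝ)) : ℝ := (l.map mean).sum

@[simp] theorem meanL_nil : meanL [] = 0 := rfl
@[simp] theorem meanL_cons (p : ℕ → ℝ) (l : List (ℕ → ℝ)) : meanL (p :: l) = mean p + meanL l := by
  simp [meanL]

theorem meanL_append (l l' : List (ℕ → ℝ)) : meanL (l ++ l') = meanL l + meanL l' := by
  simp [meanL]

theorem HT.K_nonneg {K : ℝ} {p : ℕ → ℝ} (hp : HT K p) : 0 ≤ K := by
  have h1 := hp.tail 1 le_rfl
  rw [Nat.cast_one, Real.one_rpow, mul_one] at h1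
  exact (hp.law.tl_nonneg 1).trans h1

theorem HT.mean_aux {K : ℝ} {p : ℕ → ℝ} (hp : HT K p) :
    (Summable fun n => p n * (n : ℝ)) ∧ mean p ≤ K * pc (1 / 2) := by
  have h1 := hp.law.abel (δ := fun _ => 1) (T := fun s => K * ((s + 1 : ℕ) : ℝ) ^ (-(1 + 1 / 2) : ℝ))
    (fun _ => zero_le_one) (fun s => by
      have := hp.tail (s + 1) (by omega)
      rwa [show (-(1 + 1 / 2) : ℝ) = -(3 / 2) by norm_num]) (by
      simpa using (summable_pow (γ := 1 / 2) (by norm_num) (le_refl 1)).mul_left K)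
  have e : (fun n : ℕ => p n * ∑ s ∈ range n, (1 : ℝ)) = fun n => p n * (n : ℝ) := by
    funext n; simp
  have e2 : (fun n : ℕ => ∑ s ∈ range n, (1 : ℝ)) = fun n : ℕ => (n : ℝ) := by
    funext n; simp
  rw [e, e2] at h1
  refine ⟨h1.1, h1.2.trans ?_⟩
  simp only [one_mul]
  rw [tsum_mul_left]
  have := tsum_pow_le (γ := 1 / 2) (by norm_num) (le_refl 1)
  rw [Nat.cast_one, Real.one_rpow, mul_one] at this
  exact mul_le_mul_of_nonneg_left this hp.K_nonneg

theorem HT.summable_mean {K : ℝ} {p : ℕ → ℝ} (hp : HT K p) : Summable fun n => p n * (n : ℝ) :=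
  hp.mean_aux.1

theorem HT.mean_le {K : ℝ} {p : ℕ → ℝ} (hp : HT K p) : mean p ≤ K * pc (1 / 2) := hp.mean_aux.2

theorem IsLaw.mean_nonneg {p : ℕ → ℝ} (hp : IsLaw p) : 0 ≤ mean p :=
  tsum_nonneg fun n => mul_nonneg (hp.nonneg n) (Nat.cast_nonneg n)

/-! ### the test function `G u = u² / (1 + u²)` -/

/-- test function -/
noncomputable def GG (u : ℝ) : ℝ := u ^ 2 / (1 + u ^ 2)

theorem GG_nonneg (u : ℝ) : 0 ≤ GG u := by unfold GG; positivity

theorem GG_le_one (u : ℝ) : GG u ≤ 1 := by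
  unfold GG
  rw [div_le_one (by positivity)]
  linarith

theorem GG_abs (u : ℝ) : |GG u| ≤ 1 := by rw [abs_of_nonneg (GG_nonneg u)]; exact GG_le_one u

theorem half_le_GG {u : ℝ} (hu : 1 ≤ |u|) : 1 / 2 ≤ GG u := by
  unfold GG
  have h1 : 1 ≤ u ^ 2 := by rw [← sq_abs]; nlinarith
  rw [div_le_div_iff₀ (by norm_num) (by positivity)]
  linarith

theorem GG_sub (y u : ℝ) : GG u - GG y = (u - y) * (u + y) / ((1 + y ^ 2) * (1 + u ^ 2)) := by
  unfold GG
  have h1 : (1 + y ^ 2) ≠ 0 := by positivity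
  have h2 : (1 + u ^ 2) ≠ 0 := by positivity
  field_simp
  ring

theorem GG_add_sq (y z : ℝ) :
    GG (y + z) ≤ GG y + 2 * y / (1 + y ^ 2) ^ 2 * z + z ^ 2 := by
  have h := GG_sub y (y + z)
  set u := y + z with hu
  have hz : z = u - y := by rw [hu]; ring
  have hA : 0 < 1 + y ^ 2 := by positivity
  have hB : 0 < 1 + u ^ 2 := by positivity
  have h1 : (u - y) * (u + y) / ((1 + y ^ 2) * (1 + u ^ 2)) - 2 * y / (1 + y ^ 2) ^ 2 * (u - y) =
      (u - y) ^ 2 * ((1 - y ^ 2 - 2 * u * y) / ((1 + y ^ 2) ^ 2 * (1 + u ^ 2))) := by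
    field_simp
    ring
  have h2 : (1 - y ^ 2 - 2 * u * y) / ((1 + y ^ 2) ^ 2 * (1 + u ^ 2)) ≤ 1 := by
    rw [div_le_one (by positivity)]
    have h3 : 1 - y ^ 2 - 2 * u * y ≤ 1 + u ^ 2 := by nlinarith [sq_nonneg (u + y)]
    have h4 : (1 : ℝ) ≤ (1 + y ^ 2) ^ 2 := by nlinarith [sq_nonneg y, sq_nonneg (y ^ 2)]
    nlinarith
  have h3 : (u - y) ^ 2 * ((1 - y ^ 2 - 2 * u * y) / ((1 + y ^ 2) ^ 2 * (1 + u ^ 2))) ≤
      (u - y) ^ 2 * 1 := mul_le_mul_of_nonneg_left h2 (sq_nonneg _)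
  rw [hz]
  linarith

theorem GG_add_abs (y z : ℝ) :
    GG (y + z) ≤ GG y + 2 * y / (1 + y ^ 2) ^ 2 * z + 2 * |z| := by
  have h := GG_sub y (y + z)
  set u := y + z with hu
  have hz : z = u - y := by rw [hu]; ring
  have hA : 0 < 1 + y ^ 2 := by positivity
  have hB : 0 < 1 + u ^ 2 := by positivity
  have h1 : |(u - y) * (u + y) / ((1 + y ^ 2) * (1 + u ^ 2))| ≤ |z| := by
    rw [abs_div, abs_mul, abs_of_pos (mul_pos hA hB), div_le_iff₀ (mul_pos hA hB), hz]
    refine mul_le_mul_of_nonneg_left ?_ (abs_nonneg _)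
    have h2 : |u + y| ≤ |u| + |y| := abs_add_le _ _
    have h3 : |u| ≤ (1 + u ^ 2) / 2 := by nlinarith [sq_nonneg (|u| - 1), sq_abs u]
    have h4 : |y| ≤ (1 + y ^ 2) / 2 := by nlinarith [sq_nonneg (|y| - 1), sq_abs y]
    nlinarith [mul_nonneg (sq_nonneg y) (sq_nonneg u), sq_nonneg y, sq_nonneg u]
  have h2 : |2 * y / (1 + y ^ 2) ^ 2 * z| ≤ |z| := by
    rw [abs_mul]
    have h3 : |2 * y / (1 + y ^ 2) ^ 2| ≤ 1 := by
      rw [abs_div, abs_mul, abs_of_pos (show (0:ℝ) < 2 by norm_num),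
        abs_of_pos (show 0 < (1 + y ^ 2) ^ 2 by positivity), div_le_one (by positivity)]
      nlinarith [sq_nonneg (|y| - 1), sq_abs y, sq_nonneg y, sq_nonneg (y ^ 2)]
    calc |2 * y / (1 + y ^ 2) ^ 2| * |z| ≤ 1 * |z| := mul_le_mul_of_nonneg_right h3 (abs_nonneg _)
      _ = |z| := one_mul _
  have h4 := (abs_le.1 h1).2
  have h5 := (abs_le.1 h2).1
  linarith

/-- `min (x²) |x|` -/
noncomputable def psi (x : ℝ) : ℝ := min (x ^ 2) |x|

theorem psi_nonneg (x : ℝ) : 0 ≤ psi x := le_min (sq_nonneg _) (abs_nonneg _)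

theorem GG_add (y z : ℝ) :
    GG (y + z) ≤ GG y + 2 * y / (1 + y ^ 2) ^ 2 * z + 2 * psi z := by
  unfold psi
  rcases le_total (z ^ 2) |z| with h | h
  · rw [min_eq_left h]
    have := GG_add_sq y z
    nlinarith [sq_nonneg z]
  · rw [min_eq_right h]
    exact GG_add_abs y z

theorem psi_mono {x y : ℝ} (h : |x| ≤ |y|) : psi x ≤ psi y := by
  unfold psi
  refine min_le_min ?_ h
  rw [← sq_abs x, ← sq_abs y]
  exact pow_le_pow_left₀ (abs_nonneg _) h 2

theorem psi_le_rpow {x : ℝ} (hx : 0 ≤ x) : psi x ≤ x ^ (3 / 2 : ℝ) := by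
  unfold psi
  rw [abs_of_nonneg hx]
  rcases le_total x 1 with h | h
  · rcases hx.eq_or_lt with rfl | hx0
    · rw [Real.zero_rpow (by norm_num)]
      simp
    · refine (min_le_left _ _).trans ?_
      rw [← Real.rpow_natCast]
      exact Real.rpow_le_rpow_of_exponent_ge hx0 h (by norm_num)
  · refine (min_le_right _ _).trans ?_
    nth_rewrite 1 [← Real.rpow_one x]
    exact Real.rpow_le_rpow_of_exponent_le h (by norm_num)

theorem psi_nat_le {t : ℝ} (ht : 0 < t) (n : ℕ) :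
    psi (n / t) ≤ ∑ s ∈ range n, 2 * min (((s : ℝ) + 1) / t ^ 2) (1 / t) := by
  have hpsi : ∀ n : ℕ, psi (n / t) = min ((n : ℝ) ^ 2 / t ^ 2) (n / t) := by
    intro n
    unfold psi
    rw [div_pow, abs_of_nonneg (by positivity)]
  induction n with
  | zero => simp [psi]
  | succ n ih =>
    rw [sum_range_succ, hpsi]
    rw [hpsi] at ih
    refine le_trans ?_ (add_le_add_left ih _)
    push_cast
    have hn : (0 : ℝ) ≤ n := Nat.cast_nonneg n
    have ht2 : 0 < t ^ 2 := by positivity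
    have e1 : (n : ℝ) / t = n * t / t ^ 2 := by field_simp
    have e2 : ((n : ℝ) + 1) / t = (n + 1) * t / t ^ 2 := by field_simp
    have e3 : 1 / t = t / t ^ 2 := by field_simp
    rw [e1, e2, e3]
    have hmin : ∀ x y : ℝ, min (x / t ^ 2) (y / t ^ 2) = min x y / t ^ 2 := by
      intro x y
      rcases le_total x y with h | h
      · rw [min_eq_left h, min_eq_left (div_le_div_of_nonneg_right h ht2.le)]
      · rw [min_eq_right h, min_eq_right (div_le_div_of_nonneg_right h ht2.le)]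
    rw [hmin, hmin, hmin, ← mul_div_assoc, ← add_div]
    refine div_le_div_of_nonneg_right ?_ ht2.le
    rcases le_total ((n : ℝ) + 1) t with h | h
    · have h2 : (n : ℝ) ^ 2 ≤ n * t := by nlinarith
      rw [min_eq_left h, min_eq_left h2]
      refine (min_le_left _ _).trans ?_
      nlinarith
    · rw [min_eq_right h]
      refine (min_le_right _ _).trans ?_
      rcases le_total ((n : ℝ) ^ 2) (n * t) with h2 | h2
      · rw [min_eq_left h2]
        rcases Nat.eq_zero_or_pos n with rfl | hn0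
        · simp; linarith
        · have : (1 : ℝ) ≤ n := by exact_mod_cast hn0
          nlinarith
      · rw [min_eq_right h2]
        linarith

theorem HT.ex_psi_le {K : ℝ} {p : ℕ → ℝ} (hp : HT K p) {t : ℝ} (ht : 1 ≤ t) :
    (Summable fun n => p n * psi (n / t)) ∧
      ex p (fun n => psi (n / t)) ≤ 2 * K * (2 + pc (1 / 2)) * t ^ (-(3 / 2) : ℝ) := by
  have ht0 : 0 < t := by linarith
  have hK := hp.K_nonneg
  set δ : ℕ → ℝ := fun s => 2 * min (((s : ℝ) + 1) / t ^ 2) (1 / t) with hδ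
  have hδ0 : ∀ s, 0 ≤ δ s := by
    intro s
    simp only [hδ]
    have : 0 ≤ min (((s : ℝ) + 1) / t ^ 2) (1 / t) := le_min (by positivity) (by positivity)
    linarith
  set T : ℕ → ℝ := fun s => K * ((s + 1 : ℕ) : ℝ) ^ (-(3 / 2) : ℝ) with hT
  have hT0 : ∀ s, 0 ≤ T s := fun s => by simp only [hT]; positivity
  have hTt : ∀ s, tl p (s + 1) ≤ T s := fun s => hp.tail (s + 1) (by omega)
  set M := ⌊t⌋₊ with hM
  have hM1 : 1 ≤ M := (Nat.one_le_floor_iff t).2 ht
  have hMt : (M : ℝ) ≤ t := Nat.floor_le ht0.le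
  have htM : t < (M : ℝ) + 1 := Nat.lt_floor_add_one t
  have hupper : ∀ n : ℕ, δ n * T n ≤ 2 * K / t * ((n + 1 : ℕ) : ℝ) ^ (-(1 + 1 / 2) : ℝ) := by
    intro n
    simp only [hδ, hT]
    rw [show (-(1 + 1 / 2) : ℝ) = -(3 / 2) by norm_num]
    have h1 : min (((n : ℝ) + 1) / t ^ 2) (1 / t) ≤ 1 / t := min_le_right _ _
    have h2 : 0 ≤ K * ((n + 1 : ℕ) : ℝ) ^ (-(3 / 2) : ℝ) := by positivity
    calc _ ≤ 2 * (1 / t) * (K * ((n + 1 : ℕ) : ℝ) ^ (-(3 / 2) : ℝ)) :=
          mul_le_mul_of_nonneg_right (by linarith) h2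
      _ = _ := by ring
  have hsum : Summable fun s => δ s * T s :=
    Summable.of_nonneg_of_le (fun s => mul_nonneg (hδ0 s) (hT0 s)) hupper
      ((summable_pow (γ := 1 / 2) (by norm_num) (le_refl 1)).mul_left _)
  obtain ⟨h1, h2⟩ := hp.law.abel hδ0 hTt hsum
  have hs : Summable fun n => p n * psi (n / t) := by
    refine Summable.of_nonneg_of_le (fun n => mul_nonneg (hp.law.nonneg n) (psi_nonneg _))
      (fun n => mul_le_mul_of_nonneg_left (psi_nat_le ht0 n) (hp.law.nonneg n)) h1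
  refine ⟨hs, ?_⟩
  have h3 : ex p (fun n => psi (n / t)) ≤ ex p (fun n => ∑ s ∈ range n, δ s) :=
    hp.law.ex_mono hs h1 fun n => psi_nat_le ht0 n
  refine (h3.trans h2).trans ?_
  rw [← hsum.sum_add_tsum_nat_add M]
  have h4 : ∑ s ∈ range M, δ s * T s ≤ 2 * K * 2 * t ^ (-(3 / 2) : ℝ) := by
    have h5 : ∀ s ∈ range M, δ s * T s ≤ 2 * K / t ^ 2 * ((s + 1 : ℕ) : ℝ) ^ (-(1 / 2) : ℝ) := by
      intro s _
      simp only [hδ, hT]
      have hs1 : (0 : ℝ) < ((s + 1 : ℕ) : ℝ) := by positivity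
      have h6 : min (((s : ℝ) + 1) / t ^ 2) (1 / t) ≤ ((s : ℝ) + 1) / t ^ 2 := min_le_left _ _
      have h7 : 0 ≤ K * ((s + 1 : ℕ) : ℝ) ^ (-(3 / 2) : ℝ) := by positivity
      have h8 : ((s + 1 : ℕ) : ℝ) ^ (-(1 / 2) : ℝ) =
          ((s : ℝ) + 1) * ((s + 1 : ℕ) : ℝ) ^ (-(3 / 2) : ℝ) := by
        have : ((s : ℝ) + 1) = ((s + 1 : ℕ) : ℝ) ^ (1 : ℝ) := by rw [Real.rpow_one]; push_cast; ring
        rw [this, ← Real.rpow_add hs1]
        norm_num
      rw [h8]
      calc _ ≤ 2 * (((s : ℝ) + 1) / t ^ 2) * (K * ((s + 1 : ℕ) : ℝ) ^ (-(3 / 2) : ℝ)) :=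
            mul_le_mul_of_nonneg_right (by linarith) h7
        _ = _ := by ring
    refine (sum_le_sum h5).trans ?_
    rw [← Finset.mul_sum]
    have h6 := sum_rsqrt_le M
    have h7 : (M : ℝ) ^ (1 / 2 : ℝ) ≤ t ^ (1 / 2 : ℝ) :=
      Real.rpow_le_rpow (Nat.cast_nonneg _) hMt (by norm_num)
    have h8 : t ^ (-(3 / 2) : ℝ) = t ^ (1 / 2 : ℝ) / t ^ 2 := by
      rw [← Real.rpow_natCast, ← Real.rpow_sub ht0]; norm_num
    calc 2 * K / t ^ 2 * ∑ m ∈ range M, ((m + 1 : ℕ) : ℝ) ^ (-(1 / 2) : ℝ) ≤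
          2 * K / t ^ 2 * (2 * t ^ (1 / 2 : ℝ)) :=
          mul_le_mul_of_nonneg_left (by linarith) (by positivity)
      _ = _ := by rw [h8]; ring
  have h5 : ∑' i, δ (i + M) * T (i + M) ≤ 2 * K * pc (1 / 2) * t ^ (-(3 / 2) : ℝ) := by
    have h6 : ∀ i : ℕ, δ (i + M) * T (i + M) ≤
        2 * K / t * ((i + (M + 1) : ℕ) : ℝ) ^ (-(1 + 1 / 2) : ℝ) := fun i => hupper (i + M)
    have hM1' : 1 ≤ M + 1 := by omega
    have h7 : ∑' i, δ (i + M) * T (i + M) ≤
        ∑' i : ℕ, 2 * K / t * ((i + (M + 1) : ℕ) : ℝ) ^ (-(1 + 1 / 2) : ℝ) :=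
      ((summable_nat_add_iff M).2 hsum).tsum_le_tsum h6
        ((summable_pow (γ := 1 / 2) (by norm_num) hM1').mul_left _)
    rw [tsum_mul_left] at h7
    refine h7.trans ?_
    have h8 := tsum_pow_le (γ := 1 / 2) (by norm_num) hM1'
    have h9 : ((M + 1 : ℕ) : ℝ) ^ (-(1 / 2) : ℝ) ≤ t ^ (-(1 / 2) : ℝ) := by
      refine Real.rpow_le_rpow_of_nonpos ht0 ?_ (by norm_num)
      push_cast
      exact htM.le
    have hpc := pc_pos (γ := 1 / 2) (by norm_num)
    have h10 : t ^ (-(3 / 2) : ℝ) = t ^ (-(1 / 2) : ℝ) / t := by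
      nth_rewrite 3 [← Real.rpow_one t]
      rw [← Real.rpow_sub ht0]; norm_num
    calc 2 * K / t * ∑' n : ℕ, ((n + (M + 1) : ℕ) : ℝ) ^ (-(1 + 1 / 2) : ℝ) ≤
          2 * K / t * (pc (1 / 2) * t ^ (-(1 / 2) : ℝ)) :=
          mul_le_mul_of_nonneg_left (h8.trans (mul_le_mul_of_nonneg_left h9 hpc.le))
            (by positivity)
      _ = _ := by rw [h10]; ring
  calc _ ≤ 2 * K * 2 * t ^ (-(3 / 2) : ℝ) + 2 * K * pc (1 / 2) * t ^ (-(3 / 2) : ℝ) :=
        add_le_add h4 h5
    _ = _ := by ring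

/-- the constant of the deviation bound -/
noncomputable def dK (K : ℝ) : ℝ := 2 * K * (2 + pc (1 / 2)) + (K * pc (1 / 2)) ^ (3 / 2 : ℝ)

theorem dK_nonneg {K : ℝ} (hK : 0 ≤ K) : 0 ≤ dK K := by
  have := pc_pos (γ := 1 / 2) (by norm_num)
  unfold dK
  positivity

theorem HT.ex_psi_centred {K : ℝ} {p : ℕ → ℝ} (hp : HT K p) {t : ℝ} (ht : 1 ≤ t) :
    (Summable fun n => p n * psi ((n - mean p) / t)) ∧
      ex p (fun n => psi ((n - mean p) / t)) ≤ dK K * t ^ (-(3 / 2) : ℝ) := by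
  have ht0 : 0 < t := by linarith
  obtain ⟨h1, h2⟩ := hp.ex_psi_le ht
  have hm := hp.law.mean_nonneg
  have hpt : ∀ n : ℕ, psi ((n - mean p) / t) ≤ psi (n / t) + psi (mean p / t) := by
    intro n
    have hn : (0 : ℝ) ≤ n := Nat.cast_nonneg n
    rcases le_total (n : ℝ) (mean p) with h | h
    · have : psi ((n - mean p) / t) ≤ psi (mean p / t) := by
        apply psi_mono
        rw [abs_div, abs_div]
        refine div_le_div_of_nonneg_right ?_ (abs_nonneg _)
        rw [abs_of_nonneg hm, abs_le]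
        constructor <;> linarith
      have := psi_nonneg (n / t)
      linarith
    · have : psi ((n - mean p) / t) ≤ psi (n / t) := by
        apply psi_mono
        rw [abs_div, abs_div]
        refine div_le_div_of_nonneg_right ?_ (abs_nonneg _)
        rw [abs_of_nonneg hn, abs_le]
        constructor <;> linarith
      have := psi_nonneg (mean p / t)
      linarith
  have hs2 : Summable fun n => p n * (psi (n / t) + psi (mean p / t)) := by
    refine (h1.add (hp.law.summable.mul_right (psi (mean p / t)))).congr fun n => ?_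
    ring
  have hs : Summable fun n => p n * psi ((n - mean p) / t) :=
    Summable.of_nonneg_of_le (fun n => mul_nonneg (hp.law.nonneg n) (psi_nonneg _))
      (fun n => mul_le_mul_of_nonneg_left (hpt n) (hp.law.nonneg n)) hs2
  refine ⟨hs, (hp.law.ex_mono hs hs2 hpt).trans ?_⟩
  have h3 : ex p (fun n => psi (n / t) + psi (mean p / t)) =
      ex p (fun n => psi (n / t)) + psi (mean p / t) := by
    unfold ex
    simp_rw [mul_add]
    rw [h1.tsum_add (hp.law.summable.mul_right _), tsum_mul_right, hp.law.tsum, one_mul]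
  rw [h3]
  have h4 : psi (mean p / t) ≤ (K * pc (1 / 2)) ^ (3 / 2 : ℝ) * t ^ (-(3 / 2) : ℝ) := by
    refine (psi_le_rpow (by positivity)).trans ?_
    rw [Real.div_rpow hm ht0.le, div_eq_mul_inv, ← Real.rpow_neg ht0.le]
    refine mul_le_mul_of_nonneg_right ?_ (by positivity)
    exact Real.rpow_le_rpow hm hp.mean_le (by norm_num)
  unfold dK
  linarith

/-- one step -/
theorem HT.step {K : ℝ} {p : ℕ → ℝ} (hp : HT K p) {t : ℝ} (ht : 1 ≤ t) (y : ℝ) :
    ex p (fun n => GG ((y + (n - mean p)) / t)) ≤ GG (y / t) + 2 * dK K * t ^ (-(3 / 2) : ℝ) := by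
  have ht0 : 0 < t := by linarith
  obtain ⟨h1, h2⟩ := hp.ex_psi_centred ht
  set A := 2 * (y / t) / (1 + (y / t) ^ 2) ^ 2 with hA
  have hpt : ∀ n : ℕ, GG ((y + (n - mean p)) / t) ≤
      GG (y / t) + A * ((n - mean p) / t) + 2 * psi ((n - mean p) / t) := by
    intro n
    rw [add_div]
    exact GG_add (y / t) ((n - mean p) / t)
  have hs1 : Summable fun n => p n * GG (y / t) := hp.law.summable.mul_right _
  have hs2 : Summable fun n => p n * (A * ((n - mean p) / t)) := by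
    refine ((hp.summable_mean.sub (hp.law.summable.mul_right (mean p))).mul_left (A / t)).congr
      fun n => ?_
    ring
  have hs3 : Summable fun n => p n * (2 * psi ((n - mean p) / t)) := by
    refine (h1.mul_left 2).congr fun n => ?_
    ring
  have hs : Summable fun n => p n *
      (GG (y / t) + A * ((n - mean p) / t) + 2 * psi ((n - mean p) / t)) := by
    refine ((hs1.add hs2).add hs3).congr fun n => ?_
    ring
  refine (hp.law.ex_mono (hp.law.summable_mul fun n => GG_abs _) hs hpt).trans ?_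
  have e : ex p (fun n => GG (y / t) + A * ((n - mean p) / t) + 2 * psi ((n - mean p) / t)) =
      GG (y / t) + 2 * ex p (fun n => psi ((n - mean p) / t)) := by
    unfold ex
    have e1 : ∀ n : ℕ, p n * (GG (y / t) + A * ((n - mean p) / t) + 2 * psi ((n - mean p) / t)) =
        p n * GG (y / t) + p n * (A * ((n - mean p) / t)) + p n * (2 * psi ((n - mean p) / t)) :=
      fun n => by ring
    simp_rw [e1]
    rw [(hs1.add hs2).tsum_add hs3, hs1.tsum_add hs2, tsum_mul_right, hp.law.tsum, one_mul]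
    have e2 : ∑' n : ℕ, p n * (A * ((n - mean p) / t)) = 0 := by
      have e3 : ∀ n : ℕ, p n * (A * ((n - mean p) / t)) =
          A / t * (p n * (n : ℝ) - p n * mean p) := fun n => by ring
      simp_rw [e3]
      rw [tsum_mul_left, hp.summable_mean.tsum_sub (hp.law.summable.mul_right _), tsum_mul_right,
        hp.law.tsum, one_mul]
      have : ∑' n, p n * (n : ℝ) = mean p := rfl
      rw [this, sub_self, mul_zero]
    have e4 : ∑' n : ℕ, p n * (2 * psi ((n - mean p) / t)) =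
        2 * ∑' n : ℕ, p n * psi ((n - mean p) / t) := by
      rw [← tsum_mul_left]
      exact tsum_congr fun n => by ring
    rw [e2, e4]
    ring
  rw [e]
  linarith

theorem ex_GG_le {K : ℝ} {l : List (ℕ → ℝ)} (hl : ∀ p ∈ l, HT K p) {t : ℝ} (ht : 1 ≤ t) :
    ∀ y : ℝ, ex (cvL l) (fun n => GG ((y + (n - meanL l)) / t)) ≤
      GG (y / t) + (l.length : ℝ) * (2 * dK K * t ^ (-(3 / 2) : ℝ)) := by
  induction l with
  | nil =>
    intro y
    rw [cvL_nil, meanL_nil]
    have : ex one0 (fun n => GG ((y + (n - 0)) / t)) = GG (y / t) := by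
      unfold ex
      rw [tsum_eq_single 0]
      · simp [one0]
      · intro n hn
        simp [one0, hn]
    rw [this]
    simp
  | cons p l ih =>
    intro y
    have hp := hl p (by simp)
    have hl' : ∀ q ∈ l, HT K q := fun q hq => hl q (by simp [hq])
    have hL : IsLaw (cvL l) := isLaw_cvL fun q hq => (hl' q hq).law
    rw [cvL_cons, ex_cv hp.law hL (C := 1) fun n => GG_abs _]
    have h1 : ∀ a : ℕ, ex (cvL l) (fun b => GG ((y + (((a + b : ℕ) : ℝ) - meanL (p :: l))) / t)) ≤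
        GG ((y + (a - mean p)) / t) + (l.length : ℝ) * (2 * dK K * t ^ (-(3 / 2) : ℝ)) := by
      intro a
      have := ih hl' (y + (a - mean p))
      refine le_trans (le_of_eq ?_) this
      congr 1
      funext b
      congr 2
      rw [meanL_cons]
      push_cast
      ring
    have h2 := hp.law.ex_mono (f := fun a => ex (cvL l)
        (fun b => GG ((y + (((a + b : ℕ) : ℝ) - meanL (p :: l))) / t)))
      (g := fun a => GG ((y + (a - mean p)) / t) +
        (l.length : ℝ) * (2 * dK K * t ^ (-(3 / 2) : ℝ)))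
      (hp.law.summable_mul (C := 1) fun a => hL.ex_abs_le fun b => GG_abs _)
      (by
        refine ((hp.law.summable_mul (f := fun n => GG ((y + (n - mean p)) / t)) (C := 1)
          fun n => GG_abs _).add (hp.law.summable.mul_right
            ((l.length : ℝ) * (2 * dK K * t ^ (-(3 / 2) : ℝ))))).congr fun n => ?_
        ring) h1
    refine h2.trans ?_
    have e : ex p (fun a => GG ((y + (a - mean p)) / t) +
        (l.length : ℝ) * (2 * dK K * t ^ (-(3 / 2) : ℝ))) =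
        ex p (fun a => GG ((y + (a - mean p)) / t)) +
          (l.length : ℝ) * (2 * dK K * t ^ (-(3 / 2) : ℝ)) := by
      unfold ex
      simp_rw [mul_add]
      rw [(hp.law.summable_mul (C := 1) fun n => GG_abs _).tsum_add
        (hp.law.summable.mul_right _), tsum_mul_right, hp.law.tsum, one_mul]
    rw [e, List.length_cons]
    push_cast
    have := hp.step ht y
    linarith

/-- **deviations of heavy sums**: `P(|S - E S| ≥ t) ≤ C j t^(-3/2)` -/
theorem heavy_dev {K : ℝ} (hK : 0 ≤ K) {l : List (ℕ → ℝ)} (hl : ∀ p ∈ l, HT K p) {t : ℝ}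
    (ht : 0 < t) : pr (cvL l) {n | t ≤ |(n : ℝ) - meanL l|} ≤
      (4 * dK K + 1) * (l.length : ℝ) * t ^ (-(3 / 2) : ℝ) := by
  have hL : IsLaw (cvL l) := isLaw_cvL fun q hq => (hl q hq).law
  have hd := dK_nonneg hK
  rcases Nat.eq_zero_or_pos l.length with h0 | hlen
  · have hnil : l = [] := List.eq_nil_of_length_eq_zero h0
    subst hnil
    have : pr (cvL ([] : List (ℕ → ℝ))) {n | t ≤ |(n : ℝ) - meanL []|} = 0 := by
      unfold pr
      rw [← tsum_zero (α := ℝ) (β := ℕ)]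
      refine tsum_congr fun n => ?_
      by_cases hn : n = 0
      · subst hn
        rw [Set.indicator_of_notMem]
        simp
        exact ht
      · rw [cvL_nil]
        by_cases h : n ∈ {n : ℕ | t ≤ |(n : ℝ) - meanL []|}
        · rw [Set.indicator_of_mem h]
          simp [one0, hn]
        · rw [Set.indicator_of_notMem h]
    rw [this]
    simp
  have hlen' : (1 : ℝ) ≤ l.length := by exact_mod_cast hlen
  rcases le_total 1 t with h1 | h1
  · have h2 := ex_GG_le hl h1 0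
    rw [zero_div] at h2
    have hG0 : GG 0 = 0 := by simp [GG]
    rw [hG0, zero_add] at h2
    simp only [zero_add] at h2
    have hs : Summable fun n => cvL l n * (2 * GG ((n - meanL l) / t)) := by
      refine hL.summable_mul (C := 2) fun n => ?_
      rw [abs_mul, abs_of_pos (show (0:ℝ) < 2 by norm_num)]
      have := GG_abs ((n - meanL l) / t)
      linarith
    have h3 := hL.pr_le_ex (A := {n | t ≤ |(n : ℝ) - meanL l|})
      (f := fun n => 2 * GG ((n - meanL l) / t)) (fun n => by have := GG_nonneg ((n - meanL l) / t); linarith)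
      (fun n hn => by
        have hn' : t ≤ |(n : ℝ) - meanL l| := hn
        have : 1 ≤ |((n : ℝ) - meanL l) / t| := by
          rw [abs_div, abs_of_pos ht, one_le_div ht]
          exact hn'
        have := half_le_GG this
        linarith) hs
    refine h3.trans ?_
    have h4 : ex (cvL l) (fun n => 2 * GG ((n - meanL l) / t)) =
        2 * ex (cvL l) (fun n => GG ((n - meanL l) / t)) := by
      unfold ex
      rw [← tsum_mul_left]
      exact tsum_congr fun n => by ring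
    rw [h4]
    have h5 : 0 ≤ (l.length : ℝ) * t ^ (-(3 / 2) : ℝ) := by positivity
    calc 2 * ex (cvL l) (fun n => GG ((n - meanL l) / t)) ≤
          2 * ((l.length : ℝ) * (2 * dK K * t ^ (-(3 / 2) : ℝ))) :=
          mul_le_mul_of_nonneg_left h2 (by norm_num)
      _ ≤ (4 * dK K + 1) * (l.length : ℝ) * t ^ (-(3 / 2) : ℝ) := by nlinarith
  · refine (hL.pr_le_one _).trans ?_
    have h2 : 1 ≤ t ^ (-(3 / 2) : ℝ) :=
      Real.one_le_rpow_of_pos_of_le_one_of_nonpos ht h1 (by norm_num)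
    have h3 : (1 : ℝ) ≤ (l.length : ℝ) * t ^ (-(3 / 2) : ℝ) := by nlinarith
    nlinarith

/-- halving a sum -/
theorem halving {p q : ℕ → ℝ} (hp : IsLaw p) (hq : IsLaw q) {A : ℝ} (hA : 0 ≤ A)
    (hpA : ∀ n, p n ≤ A) (hqA : ∀ n, q n ≤ A) {m : ℕ} {M1 M2 t : ℝ}
    (ht : 2 * t ≤ |(m : ℝ) - (M1 + M2)|) :
    cv p q m ≤ A * (pr p {n | t ≤ |(n : ℝ) - M1|} + pr q {n | t ≤ |(n : ℝ) - M2|}) := by
  set E1 : Set ℕ := {n | t ≤ |(n : ℝ) - M1|} with hE1
  set E2 : Set ℕ := {n | t ≤ |(n : ℝ) - M2|} with hE2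
  have key : ∀ ij ∈ antidiagonal m, p ij.1 * q ij.2 ≤ E1.indicator p ij.1 * A +
      A * E2.indicator q ij.2 := by
    intro ij hij
    have hm : (m : ℝ) = (ij.1 : ℝ) + (ij.2 : ℝ) := by
      rw [← Finset.HasAntidiagonal.mem_antidiagonal.1 hij]; push_cast; ring
    have hi1 : 0 ≤ E1.indicator p ij.1 := Set.indicator_nonneg (fun _ _ => hp.nonneg _) _
    have hi2 : 0 ≤ E2.indicator q ij.2 := Set.indicator_nonneg (fun _ _ => hq.nonneg _) _
    by_cases h1 : ij.1 ∈ E1
    · rw [Set.indicator_of_mem h1]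
      have := mul_le_mul_of_nonneg_left (hqA ij.2) (hp.nonneg ij.1)
      have := mul_nonneg hA hi2
      linarith
    · have h2 : ij.2 ∈ E2 := by
        have h1' : ¬ t ≤ |(ij.1 : ℝ) - M1| := h1
        rw [not_le] at h1'
        change t ≤ |(ij.2 : ℝ) - M2|
        rw [hm] at ht
        have h3 : |(ij.1 : ℝ) + ij.2 - (M1 + M2)| ≤ |(ij.1 : ℝ) - M1| + |(ij.2 : ℝ) - M2| := by
          have : (ij.1 : ℝ) + ij.2 - (M1 + M2) = ((ij.1 : ℝ) - M1) + ((ij.2 : ℝ) - M2) := by ring
          rw [this]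
          exact abs_add_le _ _
        linarith
      rw [Set.indicator_of_mem h2]
      have := mul_le_mul_of_nonneg_right (hpA ij.1) (hq.nonneg ij.2)
      have := mul_nonneg hi1 hA
      linarith
  unfold cv
  refine (sum_le_sum key).trans ?_
  rw [sum_add_distrib, ← Finset.sum_mul, ← Finset.mul_sum]
  have hs1 : ∑ ij ∈ antidiagonal m, E1.indicator p ij.1 ≤ pr p E1 := by
    rw [Finset.Nat.sum_antidiagonal_eq_sum_range_succ (fun i _ => E1.indicator p i)]
    exact (hp.summable_indicator E1).sum_le_tsum _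
      fun n _ => Set.indicator_nonneg (fun _ _ => hp.nonneg _) _
  have hs2 : ∑ ij ∈ antidiagonal m, E2.indicator q ij.2 ≤ pr q E2 := by
    have h1 : ∑ ij ∈ antidiagonal m, E2.indicator q ij.2 =
        ∑ n ∈ range (m + 1), E2.indicator q n := by
      rw [Finset.Nat.sum_antidiagonal_eq_sum_range_succ (fun _ j => E2.indicator q j)]
      exact Finset.sum_range_reflect (fun a => E2.indicator q a) (m + 1)
    rw [h1]
    exact (hq.summable_indicator E2).sum_le_tsum _
      fun n _ => Set.indicator_nonneg (fun _ _ => hq.nonneg _) _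
  have h1 := mul_le_mul_of_nonneg_right hs1 hA
  have h2 := mul_le_mul_of_nonneg_left hs2 hA
  linarith

end Pool.Agent.DiamP
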