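import Pool.Agent.DiamP.Tail

/-!
# Local bounds for heavy sums ((4.1) of MP_d7a93a_pr)
-/

set_option autoImplicit false

open Finset Filter Topology
open scoped Real

namespace Pool.Agent.DiamP

/-- a law with tail `P(X ≥ s) ≤ K s^(-3/2)` and masses `≥ c n^(-5/2)` (`n ≥ 1`) -/
structure HLaw (c K : ℝ) (p : ℕ → ℝ) : Prop where
  ht : HT K p
  low : ∀ n : ℕ, 1 ≤ n → c * (n : ℝ) ^ (-(5 / 2) : ℝ) ≤ p n

theorem HLaw.law {c K : ℝ} {p : ℕ → ℝ} (hp : HLaw c K p) : IsLaw p := hp.ht.law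

/-- concentration: all masses of a sum of `j` laws are `≤ K' j^(-2/3)` -/
theorem heavy_conc {c : ℝ} (hc : 0 < c) (K : ℝ) : ∃ K' : ℝ, 0 < K' ∧ ∀ l : List (ℕ → ℝ),
    (∀ p ∈ l, HLaw c K p) → l ≠ [] → ∀ n, cvL l n ≤ K' * (l.length : ℝ) ^ (-(2 / 3) : ℝ) := by
  obtain ⟨K', hK', h⟩ := conc (c := c) (β := 5 / 2) hc (by norm_num)
  refine ⟨K', hK', fun l hl hne n => ?_⟩
  have h1 := h l (fun p hp => (hl p hp).law) (fun p hp => (hl p hp).low) hne n
  rwa [show (-1 / ((5 / 2 : ℝ) - 1)) = -(2 / 3) by norm_num] at h1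

/-- the mass of one point far from the mean -/
theorem IsLaw.le_pr {p : ℕ → ℝ} (hp : IsLaw p) {A : Set ℕ} {n : ℕ} (hn : n ∈ A) : p n ≤ pr p A := by
  have h := (hp.summable_indicator A).le_tsum n
    (fun m _ => Set.indicator_nonneg (fun _ _ => hp.nonneg _) m)
  rwa [Set.indicator_of_mem hn] at h

/-- **local bound for heavy sums** -/
theorem heavy_local {c : ℝ} (hc : 0 < c) {K : ℝ} (hK : 0 ≤ K) : ∃ K' : ℝ, 0 < K' ∧
    ∀ l : List (ℕ → ℝ), (∀ p ∈ l, HLaw c K p) → l ≠ [] → ∀ m : ℕ,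
      cvL l m ≤ K' * (l.length : ℝ) ^ (-(2 / 3) : ℝ) ∧
      ∀ t : ℝ, 0 < t → t ≤ |(m : ℝ) - meanL l| →
        cvL l m ≤ K' * (l.length : ℝ) ^ (1 / 3 : ℝ) * t ^ (-(3 / 2) : ℝ) := by
  obtain ⟨K1, hK1, h1⟩ := heavy_conc hc K
  have hd := dK_nonneg hK
  set C := 4 * dK K + 1 with hC
  have hCpos : 0 < C := by linarith
  refine ⟨K1 + C + 24 * K1 * C, by positivity, fun l hl hne m => ⟨?_, ?_⟩⟩
  · refine (h1 l hl hne m).trans ?_
    refine mul_le_mul_of_nonneg_right ?_ (by positivity)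
    have : 0 < C + 24 * K1 * C := by positivity
    linarith
  intro t ht htm
  have hL : IsLaw (cvL l) := isLaw_cvL fun p hp => (hl p hp).law
  have hlen : 1 ≤ l.length := List.length_pos_iff.2 hne
  have hlen' : (1 : ℝ) ≤ l.length := by exact_mod_cast hlen
  have htpos : 0 < t ^ (-(3 / 2) : ℝ) := Real.rpow_pos_of_pos ht _
  rcases Nat.lt_or_ge l.length 2 with h2 | h2
  · -- one term
    have h3 : l.length = 1 := by omega
    have h4 := heavy_dev hK (fun p hp => (hl p hp).ht) ht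
    have h5 : cvL l m ≤ pr (cvL l) {n | t ≤ |(n : ℝ) - meanL l|} := hL.le_pr htm
    rw [h3] at h4 ⊢
    rw [Nat.cast_one, Real.one_rpow, mul_one]
    rw [Nat.cast_one, mul_one] at h4
    refine (h5.trans h4).trans ?_
    refine mul_le_mul_of_nonneg_right ?_ htpos.le
    have : 0 < K1 + 24 * K1 * C := by positivity
    linarith
  · set k := l.length / 2 with hk
    set l1 := l.take k with hl1
    set l2 := l.drop k with hl2
    have e : l = l1 ++ l2 := (List.take_append_drop k l).symm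
    have hlen1 : l1.length = k := by rw [hl1, List.length_take]; omega
    have hlen2 : l2.length = l.length - k := by rw [hl2, List.length_drop]
    have hm1 : ∀ p ∈ l1, HLaw c K p := fun p hp => hl p (by rw [e]; simp [hp])
    have hm2 : ∀ p ∈ l2, HLaw c K p := fun p hp => hl p (by rw [e]; simp [hp])
    have hL1 : IsLaw (cvL l1) := isLaw_cvL fun p hp => (hm1 p hp).law
    have hL2 : IsLaw (cvL l2) := isLaw_cvL fun p hp => (hm2 p hp).law
    have hne1 : l1 ≠ [] := by rw [← List.length_pos_iff]; omega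
    have hne2 : l2 ≠ [] := by rw [← List.length_pos_iff]; omega
    have hlpos : (0 : ℝ) < l.length := by linarith
    set A := K1 * (((l.length : ℝ) / 3) ^ (-(2 / 3) : ℝ)) with hA
    have hA0 : 0 ≤ A := by positivity
    have hb : ∀ k' : ℕ, 1 ≤ k' → l.length ≤ 3 * k' →
        K1 * (k' : ℝ) ^ (-(2 / 3) : ℝ) ≤ A := by
      intro k' hk1 hk'
      refine mul_le_mul_of_nonneg_left ?_ hK1.le
      refine Real.rpow_le_rpow_of_nonpos (by positivity) ?_ (by norm_num)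
      have : (l.length : ℝ) ≤ 3 * k' := by exact_mod_cast hk'
      linarith
    have hA1 : ∀ n, cvL l1 n ≤ A := fun n =>
      (h1 l1 hm1 hne1 n).trans (hb l1.length (by omega) (by omega))
    have hA2 : ∀ n, cvL l2 n ≤ A := fun n =>
      (h1 l2 hm2 hne2 n).trans (hb l2.length (by omega) (by omega))
    have ht2 : 0 < t / 2 := by linarith
    have h3 := halving hL1 hL2 hA0 hA1 hA2 (m := m) (M1 := meanL l1) (M2 := meanL l2) (t := t / 2)
      (by rw [← meanL_append, ← e]; linarith)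
    have h4 := heavy_dev hK (fun p hp => (hm1 p hp).ht) ht2
    have h5 := heavy_dev hK (fun p hp => (hm2 p hp).ht) ht2
    rw [← cvL_append, ← e] at h3
    have h6 : pr (cvL l1) {n | t / 2 ≤ |(n : ℝ) - meanL l1|} +
        pr (cvL l2) {n | t / 2 ≤ |(n : ℝ) - meanL l2|} ≤
        C * (l.length : ℝ) * (t / 2) ^ (-(3 / 2) : ℝ) := by
      have : (l1.length : ℝ) + l2.length = l.length := by
        rw [hlen1, hlen2]
        have : k + (l.length - k) = l.length := by omega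
        exact_mod_cast this
      calc _ ≤ C * (l1.length : ℝ) * (t / 2) ^ (-(3 / 2) : ℝ) +
            C * (l2.length : ℝ) * (t / 2) ^ (-(3 / 2) : ℝ) := add_le_add h4 h5
        _ = C * ((l1.length : ℝ) + l2.length) * (t / 2) ^ (-(3 / 2) : ℝ) := by ring
        _ = _ := by rw [this]
    have h7 := h3.trans (mul_le_mul_of_nonneg_left h6 hA0)
    refine h7.trans ?_
    have e1 : (t / 2) ^ (-(3 / 2) : ℝ) = t ^ (-(3 / 2) : ℝ) * 2 ^ (3 / 2 : ℝ) := by
      rw [Real.div_rpow ht.le (by norm_num), Real.rpow_neg (by norm_num : (0:ℝ) ≤ 2), div_inv_eq_mul]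
    have e2 : ((l.length : ℝ) / 3) ^ (-(2 / 3) : ℝ) =
        (l.length : ℝ) ^ (-(2 / 3) : ℝ) * 3 ^ (2 / 3 : ℝ) := by
      rw [Real.div_rpow hlpos.le (by norm_num), Real.rpow_neg (by norm_num : (0:ℝ) ≤ 3),
        div_inv_eq_mul]
    have e3 : (l.length : ℝ) ^ (-(2 / 3) : ℝ) * (l.length : ℝ) = (l.length : ℝ) ^ (1 / 3 : ℝ) := by
      nth_rewrite 2 [← Real.rpow_one (l.length : ℝ)]
      rw [← Real.rpow_add hlpos]; norm_num
    have b1 : (2 : ℝ) ^ (3 / 2 : ℝ) ≤ 4 := by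
      have : (2 : ℝ) ^ (3 / 2 : ℝ) ≤ 2 ^ (2 : ℝ) :=
        Real.rpow_le_rpow_of_exponent_le (by norm_num) (by norm_num)
      refine this.trans (le_of_eq ?_)
      norm_num
    have b2 : (3 : ℝ) ^ (2 / 3 : ℝ) ≤ 3 := by
      have : (3 : ℝ) ^ (2 / 3 : ℝ) ≤ 3 ^ (1 : ℝ) :=
        Real.rpow_le_rpow_of_exponent_le (by norm_num) (by norm_num)
      rwa [Real.rpow_one] at this
    have b1' : (0 : ℝ) < 2 ^ (3 / 2 : ℝ) := by positivity
    have b2' : (0 : ℝ) < 3 ^ (2 / 3 : ℝ) := by positivity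
    have hXX : 0 ≤ (l.length : ℝ) ^ (1 / 3 : ℝ) * t ^ (-(3 / 2) : ℝ) := by positivity
    calc A * (C * (l.length : ℝ) * (t / 2) ^ (-(3 / 2) : ℝ)) =
          K1 * C * (3 ^ (2 / 3 : ℝ) * 2 ^ (3 / 2 : ℝ)) *
            (((l.length : ℝ) ^ (-(2 / 3) : ℝ) * (l.length : ℝ)) * t ^ (-(3 / 2) : ℝ)) := by
          rw [hA, e1, e2]; ring
      _ = K1 * C * (3 ^ (2 / 3 : ℝ) * 2 ^ (3 / 2 : ℝ)) *
            ((l.length : ℝ) ^ (1 / 3 : ℝ) * t ^ (-(3 / 2) : ℝ)) := by rw [e3]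
      _ ≤ K1 * C * (3 * 4) * ((l.length : ℝ) ^ (1 / 3 : ℝ) * t ^ (-(3 / 2) : ℝ)) := by
          refine mul_le_mul_of_nonneg_right ?_ hXX
          refine mul_le_mul_of_nonneg_left ?_ (by positivity)
          exact mul_le_mul b2 b1 b1'.le (by norm_num)
      _ ≤ (K1 + C + 24 * K1 * C) * ((l.length : ℝ) ^ (1 / 3 : ℝ) * t ^ (-(3 / 2) : ℝ)) := by
          refine mul_le_mul_of_nonneg_right ?_ hXX
          have : 0 < K1 * C := by positivity
          nlinarith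
      _ = _ := by ring

end Pool.Agent.DiamP
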