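import Pool.Agent.DiamP.Forest

/-!
# Forests: lower bounds
-/

set_option autoImplicit false

open Finset Filter Topology
open scoped Real

namespace Pool.Agent.DiamP

/-- size biasing of a sum, lower bound -/
theorem size_bias_low (Q : (ℕ → ℝ) → Prop) (B : ℝ) (n g : ℕ)
    (hB : ∀ p rest, Q p → (∀ q ∈ rest, Q q) → rest.length = g → B ≤ cv (sb p) (cvL rest) n) :
    ∀ l l' : List (ℕ → ℝ), (∀ p ∈ l, Q p) → (∀ p ∈ l', Q p) → l.length + l'.length = g + 1 →
      (l.length : ℝ) * B ≤ cv (cvL l') (sb (cvL l)) n := by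
  intro l
  induction l with
  | nil =>
    intro l' _ _ _
    rw [cvL_nil, sb_one0, cv_zero]
    simp
  | cons p l ih =>
    intro l' hl hl' hlen
    rw [cvL_cons, sb_cv, cv_add, Pi.add_apply]
    have h1 : cv (cvL l') (cv (sb p) (cvL l)) = cv (sb p) (cvL (l' ++ l)) := by
      rw [cv_left_comm, cvL_append]
    have h2 : cv (cvL l') (cv p (sb (cvL l))) = cv (cvL (p :: l')) (sb (cvL l)) := by
      rw [cv_left_comm, cvL_cons, cv_assoc]
    rw [h1, h2]
    have h3 := ih (p :: l') (fun q hq => hl q (by simp [hq])) (by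
      intro q hq
      rcases List.mem_cons.1 hq with rfl | hq
      · exact hl q (by simp)
      · exact hl' q hq) (by simp only [List.length_cons] at hlen ⊢; omega)
    have h4 := hB p (l' ++ l) (hl p (by simp)) (by
      intro q hq
      rcases List.mem_append.1 hq with hq | hq
      · exact hl' q hq
      · exact hl q (by simp [hq])) (by
        rw [List.length_append]; simp only [List.length_cons] at hlen; omega)
    rw [List.length_cons]
    push_cast
    linarith

/-- the distribution function of a sum -/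
theorem cdf_cv {p q : ℕ → ℝ} (hp : ∀ n, 0 ≤ p n) (hq : ∀ n, 0 ≤ q n) (a b : ℕ) :
    (∑ i ∈ range (a + 1), p i) * (∑ j ∈ range (b + 1), q j) ≤
      ∑ n ∈ range (a + b + 1), cv p q n := by
  have h1 : (∑ i ∈ range (a + 1), p i) * (∑ j ∈ range (b + 1), q j) =
      ∑ ij ∈ range (a + 1) ×ˢ range (b + 1), p ij.1 * q ij.2 := by
    rw [Finset.sum_mul_sum, ← Finset.sum_product']
  rw [h1]
  unfold cv
  rw [← Finset.sum_biUnion]
  · refine sum_le_sum_of_subset_of_nonneg ?_ fun ij _ _ => mul_nonneg (hp _) (hq _)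
    intro ij hij
    obtain ⟨h2, h3⟩ := mem_product.1 hij
    have := mem_range.1 h2
    have := mem_range.1 h3
    exact mem_biUnion.2 ⟨ij.1 + ij.2, mem_range.2 (by omega), mem_antidiagonal.2 rfl⟩
  · intro m _ n _ hmn
    simp only [Function.onFun]
    rw [Finset.disjoint_left]
    intro ab hm hn
    apply hmn
    rw [← mem_antidiagonal.1 hm, ← mem_antidiagonal.1 hn]

/-- blocks -/
theorem blocks {Q : (ℕ → ℝ) → Prop} (hQ : ∀ p, Q p → IsLaw p) {b m : ℕ}
    (hb : ∀ l : List (ℕ → ℝ), (∀ p ∈ l, Q p) → l.length ≤ b →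
      1 / 2 ≤ ∑ n ∈ range (m + 1), cvL l n) :
    ∀ k : ℕ, ∀ l : List (ℕ → ℝ), (∀ p ∈ l, Q p) → l.length ≤ k * b →
      (1 / 2 : ℝ) ^ k ≤ ∑ n ∈ range (k * m + 1), cvL l n := by
  intro k
  induction k with
  | zero =>
    intro l _ hlen
    have : l = [] := List.eq_nil_of_length_eq_zero (by omega)
    subst this
    simp [one0]
  | succ k ih =>
    intro l hl hlen
    have e : l = l.take b ++ l.drop b := (List.take_append_drop b l).symm
    have h1 : ∀ p ∈ l.take b, Q p := fun p hp => hl p (List.mem_of_mem_take hp)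
    have h2 : ∀ p ∈ l.drop b, Q p := fun p hp => hl p (List.mem_of_mem_drop hp)
    have h3 := hb (l.take b) h1 (by rw [List.length_take]; omega)
    have h4 := ih (l.drop b) h2 (by
      rw [List.length_drop]
      have : (k + 1) * b = k * b + b := by ring
      omega)
    have L1 : IsLaw (cvL (l.take b)) := isLaw_cvL fun p hp => hQ p (h1 p hp)
    have L2 : IsLaw (cvL (l.drop b)) := isLaw_cvL fun p hp => hQ p (h2 p hp)
    have h5 := cdf_cv L1.nonneg L2.nonneg m (k * m)
    rw [← cvL_append, ← e] at h5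
    have h6 : m + k * m + 1 = (k + 1) * m + 1 := by ring
    rw [h6] at h5
    refine le_trans ?_ h5
    rw [pow_succ, mul_comm]
    exact mul_le_mul h3 h4 (by positivity) (by linarith)

/-- (F5) a forest of `h ≤ A √N` trees has size `≤ N` with positive probability -/
theorem forest_small_low {c : ℝ} (hc : 0 < c) (K : ℝ) {A : ℝ} (hA : 0 < A) :
    ∃ c5 : ℝ, 0 < c5 ∧ ∃ N0 : ℕ, ∀ N : ℕ, N0 ≤ N → ∀ l : List (ℕ → ℝ), (∀ p ∈ l, FLaw c K p) →
      (l.length : ℝ) ≤ A * (N : ℝ) ^ (1 / 2 : ℝ) → c5 ≤ ∑ n ∈ range (N + 1), cvL l n := by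
  obtain ⟨K3, hK3, hF3⟩ := forest_tail hc K
  -- `k` blocks of length `b ≥ A √N / k`
  obtain ⟨k, hk1, hk⟩ : ∃ k : ℕ, 1 ≤ k ∧ 16 * K3 ^ 2 * (2 * A) ^ 2 ≤ k := by
    refine ⟨⌈16 * K3 ^ 2 * (2 * A) ^ 2⌉₊ + 1, by omega, ?_⟩
    push_cast
    have := Nat.le_ceil (16 * K3 ^ 2 * (2 * A) ^ 2)
    linarith
  have hk' : (1 : ℝ) ≤ k := by exact_mod_cast hk1
  have hk0 : (0 : ℝ) < k := by linarith
  refine ⟨(1 / 2) ^ k, by positivity, ⌈(k / A) ^ 2⌉₊ + 2 * k + 1, fun N hN l hl hlen => ?_⟩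
  have hN1 : 1 ≤ N := by omega
  have hN' : (0 : ℝ) < N := by exact_mod_cast hN1
  set q := (N : ℝ) ^ (1 / 2 : ℝ) with hq
  have hq0 : 0 < q := by positivity
  have hq2 : q * q = N := by rw [hq, ← Real.rpow_add hN']; norm_num
  -- `A q / k ≥ 1`
  have hAq : 1 ≤ A * q / k := by
    rw [le_div_iff₀ hk0, one_mul]
    have h1 : (k / A) ^ 2 ≤ N := by
      have h2 := Nat.le_ceil ((k / A) ^ 2)
      have h3 : ((⌈(k / A) ^ 2⌉₊ + 2 * k + 1 : ℕ) : ℝ) ≤ N := by exact_mod_cast hN
      push_cast at h3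
      have : (0 : ℝ) ≤ 2 * k := by positivity
      linarith
    have h2 : k / A ≤ q := by
      rw [hq, ← Real.sqrt_eq_rpow]
      exact Real.le_sqrt_of_sq_le h1
    rw [div_le_iff₀ hA] at h2
    linarith
  set b := ⌈A * q / k⌉₊ with hb
  have hb1 : A * q / k ≤ b := Nat.le_ceil _
  have hb2 : (b : ℝ) ≤ 2 * (A * q / k) := by
    have := Nat.ceil_lt_add_one (show 0 ≤ A * q / k by positivity)
    linarith
  set m := N / k with hm
  have hmk : k * m ≤ N := Nat.mul_div_le N k
  have hm1 : 1 ≤ m := by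
    rw [hm]
    exact (Nat.one_le_div_iff (by omega)).2 (by omega)
  have hm2 : (N : ℝ) / (2 * k) ≤ m := by
    rw [div_le_iff₀ (by positivity)]
    have h1 : N < k * m + k := by
      have := Nat.div_add_mod N k
      have := Nat.mod_lt N (show 0 < k by omega)
      rw [← hm] at *
      omega
    have h2 : k ≤ k * m := Nat.le_mul_of_pos_right k hm1
    have h3 : N ≤ m * (2 * k) := by
      have : m * (2 * k) = k * m + k * m := by ring
      omega
    exact_mod_cast h3
  have hblock : ∀ l : List (ℕ → ℝ), (∀ p ∈ l, FLaw c K p) → l.length ≤ b →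
      1 / 2 ≤ ∑ n ∈ range (m + 1), cvL l n := by
    intro l hl hlen
    have hL := FLaw.isLaw_cvL hl
    have h1 := hF3 l hl (m + 1) (by omega)
    rw [hL.tl_eq] at h1
    have h2 : K3 * (l.length : ℝ) * ((m + 1 : ℕ) : ℝ) ^ (-(1 / 2) : ℝ) ≤ 1 / 2 := by
      have h3 : (l.length : ℝ) ≤ 2 * (A * q / k) := by
        have : (l.length : ℝ) ≤ b := by exact_mod_cast hlen
        linarith
      have h4 : ((m + 1 : ℕ) : ℝ) ^ (-(1 / 2) : ℝ) ≤ (N / (2 * k) : ℝ) ^ (-(1 / 2) : ℝ) := by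
        refine Real.rpow_le_rpow_of_nonpos (by positivity) ?_ (by norm_num)
        push_cast
        linarith
      have h5 : (N / (2 * k) : ℝ) ^ (-(1 / 2) : ℝ) = (2 * k : ℝ) ^ (1 / 2 : ℝ) / q := by
        rw [Real.div_rpow hN'.le (by positivity), Real.rpow_neg hN'.le,
          Real.rpow_neg (by positivity), div_inv_eq_mul, mul_comm, ← div_eq_mul_inv]
      rw [h5] at h4
      have h6 : K3 * (l.length : ℝ) * ((m + 1 : ℕ) : ℝ) ^ (-(1 / 2) : ℝ) ≤
          K3 * (2 * (A * q / k)) * ((2 * k : ℝ) ^ (1 / 2 : ℝ) / q) :=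
        mul_le_mul (mul_le_mul_of_nonneg_left h3 hK3.le) h4 (by positivity) (by positivity)
      refine h6.trans ?_
      have h7 : K3 * (2 * (A * q / k)) * ((2 * k : ℝ) ^ (1 / 2 : ℝ) / q) =
          K3 * (2 * A) * ((2 * k : ℝ) ^ (1 / 2 : ℝ) / k) := by
        field_simp
      rw [h7]
      -- `(K3 2A)^2 (2k) / k^2 ≤ 1/4`
      set s := (2 * k : ℝ) ^ (1 / 2 : ℝ) with hs
      have hs0 : 0 < s := by positivity
      have hs2 : s * s = 2 * k := by
        rw [hs, ← Real.rpow_add (by positivity)]; norm_num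
      have h8 : K3 * (2 * A) * (s / k) = (K3 * (2 * A) * s) / k := by ring
      rw [h8, div_le_iff₀ hk0]
      have h9 : (K3 * (2 * A) * s) ^ 2 ≤ (1 / 2 * k) ^ 2 := by
        have : (K3 * (2 * A) * s) ^ 2 = K3 ^ 2 * (2 * A) ^ 2 * (s * s) := by ring
        rw [this, hs2]
        nlinarith
      exact (abs_le_of_sq_le_sq' h9 (by positivity)).2
    linarith
  have h1 := blocks (Q := fun p => FLaw c K p) (fun p hp => hp.law) hblock k l hl (by
    have h2 : (l.length : ℝ) ≤ k * b := by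
      have h3 : A * q ≤ k * b := by
        have := mul_le_mul_of_nonneg_left hb1 hk0.le
        rwa [mul_div_cancel₀ _ hk0.ne'] at this
      linarith
    exact_mod_cast h2)
  refine h1.trans ?_
  have hL := FLaw.isLaw_cvL hl
  refine sum_le_sum_of_subset_of_nonneg ?_ fun n _ _ => hL.nonneg n
  intro n hn
  have := mem_range.1 hn
  exact mem_range.2 (by omega)

/-- (F6) lower bound for the local probabilities -/
theorem forest_local_low {c : ℝ} (hc : 0 < c) (K : ℝ) {A : ℝ} (hA : 0 < A) :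
    ∃ c6 : ℝ, 0 < c6 ∧ ∃ N0 : ℕ, ∀ n : ℕ, N0 ≤ n → ∀ l : List (ℕ → ℝ), (∀ p ∈ l, FLaw c K p) →
      (l.length : ℝ) ≤ A * (n : ℝ) ^ (1 / 2 : ℝ) →
      c6 * (l.length : ℝ) * (n : ℝ) ^ (-(3 / 2) : ℝ) ≤ cvL l n := by
  obtain ⟨c5, hc5, N0, h5⟩ := forest_small_low hc K (show 0 < 4 * A by positivity)
  refine ⟨c5 * c / 2, by positivity, 4 * N0 + 16, fun n hn l hl hlen => ?_⟩
  have hn1 : 1 ≤ n := by omega
  have hn' : (0 : ℝ) < n := by exact_mod_cast hn1
  have hL := FLaw.isLaw_cvL hl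
  rcases Nat.eq_zero_or_pos l.length with h0 | h0
  · rw [h0, Nat.cast_zero, mul_zero, zero_mul]
    exact hL.nonneg n
  obtain ⟨g, hg⟩ : ∃ g, l.length = g + 1 := ⟨l.length - 1, by omega⟩
  set B := (n : ℝ) / 2 * (c * (n : ℝ) ^ (-(3 / 2) : ℝ)) * c5 with hB
  have key := size_bias_low (fun p => FLaw c K p) B n g (by
    intro p rest hp hrest hrg
    have hLr := FLaw.isLaw_cvL hrest
    set m := n / 4 with hm
    have h6 := h5 m (by omega) rest hrest (by
      have h7 : (rest.length : ℝ) ≤ l.length := by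
        rw [hrg, hg]; push_cast; linarith
      refine (h7.trans hlen).trans ?_
      have h8 : (n : ℝ) ≤ 16 * m := by
        have : n ≤ 16 * m := by omega
        exact_mod_cast this
      have h9 : (n : ℝ) ^ (1 / 2 : ℝ) ≤ (16 * m : ℝ) ^ (1 / 2 : ℝ) :=
        Real.rpow_le_rpow hn'.le h8 (by norm_num)
      have h10 : (16 * m : ℝ) ^ (1 / 2 : ℝ) = 4 * (m : ℝ) ^ (1 / 2 : ℝ) := by
        rw [Real.mul_rpow (by norm_num) (by positivity)]
        congr 1
        rw [show (16 : ℝ) = 4 ^ (2 : ℝ) by norm_num, ← Real.rpow_mul (by norm_num)]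
        norm_num
      rw [h10] at h9
      calc A * (n : ℝ) ^ (1 / 2 : ℝ) ≤ A * (4 * (m : ℝ) ^ (1 / 2 : ℝ)) :=
            mul_le_mul_of_nonneg_left h9 hA.le
        _ = 4 * A * (m : ℝ) ^ (1 / 2 : ℝ) := by ring)
    rw [cv_comm, cv_eq_range]
    have h7 : ∑ i ∈ range (m + 1), cvL rest i * ((n : ℝ) / 2 * (c * (n : ℝ) ^ (-(3 / 2) : ℝ))) ≤
        ∑ a ∈ range (n + 1), cvL rest a * sb p (n - a) := by
      refine le_trans (sum_le_sum (g := fun a => cvL rest a * sb p (n - a)) fun i hi => ?_)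
        (sum_le_sum_of_subset_of_nonneg ?_ fun a _ _ => mul_nonneg (hLr.nonneg a)
          (mul_nonneg (Nat.cast_nonneg _) (hp.law.nonneg _)))
      · have hi' := mem_range.1 hi
        refine mul_le_mul_of_nonneg_left ?_ (hLr.nonneg i)
        unfold sb
        have h8 : (n : ℝ) / 2 ≤ ((n - i : ℕ) : ℝ) := by
          have : n ≤ 2 * (n - i) := by omega
          have : (n : ℝ) ≤ 2 * ((n - i : ℕ) : ℝ) := by exact_mod_cast this
          linarith
        have h9 : c * (n : ℝ) ^ (-(3 / 2) : ℝ) ≤ p (n - i) := by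
          refine le_trans ?_ (hp.low (n - i) (by omega))
          refine mul_le_mul_of_nonneg_left ?_ hc.le
          refine Real.rpow_le_rpow_of_nonpos (by linarith) ?_ (by norm_num)
          exact_mod_cast Nat.sub_le _ _
        exact mul_le_mul h8 h9 (by positivity) (by positivity)
      · intro a ha
        have := mem_range.1 ha
        exact mem_range.2 (by omega)
    rw [← Finset.sum_mul] at h7
    refine le_trans ?_ h7
    rw [hB, mul_comm]
    exact mul_le_mul_of_nonneg_right h6 (by positivity)) l [] hl (by simp) (by simp [hg])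
  rw [cvL_nil, one0_cv] at key
  have h1 : (n : ℝ) * (c5 * c / 2 * (l.length : ℝ) * (n : ℝ) ^ (-(3 / 2) : ℝ)) ≤ n * cvL l n := by
    refine le_trans (le_of_eq ?_) key
    rw [hB]
    ring
  exact le_of_mul_le_mul_left h1 hn'

end Pool.Agent.DiamP
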