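import Pool.Agent.DiamP.HvLocal

/-!
# Heavy sums, part 5: conditional laws and one big jump (lower bound (H3) of (6.7), MP_d7a93a_pr)
-/

set_option autoImplicit false

open Finset Filter Topology

namespace Pool.Agent.DiamP.Hv

theorem TB.of_HT {K : ℝ} {p : ℕ → ℝ} (h : HT K p) : TB K p := by
  refine ⟨h.law, fun k M hk => ?_⟩
  have hk' : (0 : ℝ) < k := by exact_mod_cast hk
  have h1 := h.tail k hk
  rw [rpow_three_half hk', mul_one_div] at h1
  exact (h.law.sum_le_tl (Ico k M) (fun n hn => (mem_Ico.1 hn).1)).trans h1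

theorem mean_eq_mn (p : ℕ → ℝ) : mean p = mn p := by
  unfold mean ex mn
  exact tsum_congr fun n => by ring

theorem meanL_eq_mn (l : List (ℕ → ℝ)) : meanL l = (l.map mn).sum := by
  unfold meanL
  congr 1
  exact List.map_congr_left fun p _ => mean_eq_mn p

theorem TB.mono {K K' : ℝ} {p : ℕ → ℝ} (h : TB K p) (hK : K ≤ K') : TB K' p :=
  ⟨h.law, fun k M hk => (h.tl k M hk).trans (by gcongr)⟩

/-! ## the conditional law -/

/-- the restriction to `[0, B]` -/
noncomputable def trn (B : ℕ) (p : ℕ → ℝ) (n : ℕ) : ℝ := if n ≤ B then p n else 0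

/-- the conditional law given `X ≤ B` -/
noncomputable def cnd (B : ℕ) (p : ℕ → ℝ) (n : ℕ) : ℝ := if n ≤ B then p n / (1 - tauB p B) else 0

theorem one_sub_tauB (p : ℕ → ℝ) (B : ℕ) : 1 - tauB p B = ∑ j ∈ range (B + 1), p j := by
  unfold tauB; ring

theorem cnd_spt (B : ℕ) (p : ℕ → ℝ) : Spt (cnd B p) B := by
  intro n hn
  unfold cnd
  rw [if_neg (by omega)]

theorem sum_cnd (B : ℕ) (p f : ℕ → ℝ) :
    ∑' n, cnd B p n * f n = (∑ n ∈ range (B + 1), p n * f n) / (1 - tauB p B) := by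
  rw [tsum_eq_sum (s := range (B + 1)), sum_div]
  · refine sum_congr rfl fun n hn => ?_
    have := mem_range.1 hn
    unfold cnd
    rw [if_pos (by omega)]
    ring
  · intro n hn
    rw [cnd_spt B p n (by simpa using hn), zero_mul]

theorem cnd_nonneg {p : ℕ → ℝ} (hp : IsLaw p) {B : ℕ} (h : tauB p B < 1) (n : ℕ) :
    0 ≤ cnd B p n := by
  unfold cnd
  split_ifs
  · exact div_nonneg (hp.nonneg n) (by linarith)
  · exact le_rfl

theorem isLaw_cnd {p : ℕ → ℝ} (hp : IsLaw p) {B : ℕ} (h : tauB p B < 1) : IsLaw (cnd B p) := by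
  refine ⟨cnd_nonneg hp h, ?_⟩
  have hs : Summable (cnd B p) :=
    summable_of_ne_finset_zero (s := range (B + 1)) fun n hn => cnd_spt B p n (by simpa using hn)
  have h1 := sum_cnd B p fun _ => 1
  simp only [mul_one] at h1
  rw [← one_sub_tauB, div_self (by linarith)] at h1
  rw [← h1]
  exact hs.hasSum

theorem mn_cnd (B : ℕ) (p : ℕ → ℝ) :
    mn (cnd B p) = (∑ n ∈ range (B + 1), (n : ℝ) * p n) / (1 - tauB p B) := by
  unfold mn
  have h1 := sum_cnd B p fun n => (n : ℝ)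
  have h2 : ∑ n ∈ range (B + 1), (n : ℝ) * p n = ∑ n ∈ range (B + 1), p n * (n : ℝ) :=
    sum_congr rfl fun n _ => by ring
  rw [h2, ← h1]
  exact tsum_congr fun n => by ring

theorem m1_le {K : ℝ} {p : ℕ → ℝ} (h : TB K p) (B : ℕ) :
    ∑ n ∈ range (B + 1), (n : ℝ) * p n ≤ 5 * K := by
  have := h.m1_tail 1 (B + 1) le_rfl
  rw [range_eq_Ico, sum_eq_sum_Ico_succ_bot (by omega)]
  simpa using this

theorem vr_cnd_le {K : ℝ} {p : ℕ → ℝ} (hp : TB K p) {B : ℕ} (h : tauB p B ≤ 1 / 2) :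
    vr (cnd B p) (mn (cnd B p)) ≤ 8 * K * Real.sqrt B := by
  have hl := isLaw_cnd hp.law (B := B) (by linarith)
  refine (vr_le hl (cnd_spt B p)).trans ?_
  rw [sum_cnd B p fun n => (n : ℝ) ^ 2]
  have h2 : ∑ n ∈ range (B + 1), p n * (n : ℝ) ^ 2 ≤ 4 * K * Real.sqrt B := by
    refine le_trans (le_of_eq ?_) (hp.m2_le B)
    exact sum_congr rfl fun n _ => by ring
  rw [div_le_iff₀ (by linarith)]
  have hK := hp.K_nonneg
  have : 0 ≤ 8 * K * Real.sqrt B := by positivity
  nlinarith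

theorem shift_le {K : ℝ} {p : ℕ → ℝ} (hp : TB K p) {B : ℕ} (h : tauB p B ≤ 1 / 2) :
    mn p - mn (cnd B p) ≤ 5 * K / Real.sqrt ((B + 1 : ℕ) : ℝ) := by
  refine le_trans ?_ (hp.mn_sub B).2
  have h0 : 0 ≤ ∑ n ∈ range (B + 1), (n : ℝ) * p n :=
    sum_nonneg fun n _ => mul_nonneg (by positivity) (hp.law.nonneg n)
  have h1 : ∑ n ∈ range (B + 1), (n : ℝ) * p n ≤ mn (cnd B p) := by
    rw [mn_cnd, le_div_iff₀ (by linarith)]
    have := tauB_nonneg hp.law B
    nlinarith
  linarith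

theorem shift_ge {K : ℝ} {p : ℕ → ℝ} (hp : TB K p) {B : ℕ} (h : tauB p B ≤ 1 / 2) :
    (mn p - ∑ n ∈ range (B + 1), (n : ℝ) * p n) -
      10 * K ^ 2 / (((B + 1 : ℕ) : ℝ) * Real.sqrt ((B + 1 : ℕ) : ℝ)) ≤ mn p - mn (cnd B p) := by
  have hK := hp.K_nonneg
  have h0 : 0 ≤ ∑ n ∈ range (B + 1), (n : ℝ) * p n :=
    sum_nonneg fun n _ => mul_nonneg (by positivity) (hp.law.nonneg n)
  have h1 := m1_le hp B
  have h2 := hp.tauB_le B
  have h3 := tauB_nonneg hp.law B
  set S := ∑ n ∈ range (B + 1), (n : ℝ) * p n with hS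
  set τ := tauB p B with hτ
  have h4 : mn (cnd B p) ≤ S + 2 * τ * S := by
    rw [mn_cnd, ← hS, ← hτ, div_le_iff₀ (by linarith)]
    nlinarith [mul_nonneg h3 h0]
  have h5 : 2 * τ * S ≤ 10 * K ^ 2 / (((B + 1 : ℕ) : ℝ) * Real.sqrt ((B + 1 : ℕ) : ℝ)) := by
    calc 2 * τ * S ≤ 2 * (K / (((B + 1 : ℕ) : ℝ) * Real.sqrt ((B + 1 : ℕ) : ℝ))) * (5 * K) := by
          gcongr
      _ = _ := by ring
  linarith

/-- the mean above `B` of a law with windows -/
theorem win_tail {c K : ℝ} {p : ℕ → ℝ} (hp : TB K p) (hw : WL c 0 p) (B : ℕ) :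
    c / Real.sqrt ((B + 1 : ℕ) : ℝ) ≤ mn p - ∑ n ∈ range (B + 1), (n : ℝ) * p n := by
  have hs := hp.summable_m1
  have hnn : ∀ n : ℕ, 0 ≤ (n : ℝ) * p n := fun n => mul_nonneg (by positivity) (hp.law.nonneg n)
  have h1 := hs.sum_le_tsum (range (2 * (B + 1) + 1)) fun n _ => hnn n
  have e : ∑ n ∈ range (2 * (B + 1) + 1), (n : ℝ) * p n =
      ∑ n ∈ range (B + 1), (n : ℝ) * p n + ∑ n ∈ Ico (B + 1) (2 * (B + 1) + 1), (n : ℝ) * p n := by
    rw [sum_range_add_sum_Ico _ (by omega)]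
  have h2 := hw.win (B + 1) (by omega)
  have hB : (0 : ℝ) < ((B + 1 : ℕ) : ℝ) := by positivity
  have hsq : 0 < Real.sqrt ((B + 1 : ℕ) : ℝ) := Real.sqrt_pos.2 hB
  have h3 : ((B + 1 : ℕ) : ℝ) * ∑ n ∈ Icc (B + 1) (2 * (B + 1)), p n ≤
      ∑ n ∈ Ico (B + 1) (2 * (B + 1) + 1), (n : ℝ) * p n := by
    rw [mul_sum]
    have : Icc (B + 1) (2 * (B + 1)) = Ico (B + 1) (2 * (B + 1) + 1) := by
      ext n; simp only [mem_Icc, mem_Ico]; omega
    rw [this]
    refine sum_le_sum fun n hn => mul_le_mul_of_nonneg_right ?_ (hp.law.nonneg n)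
    exact_mod_cast (mem_Ico.1 hn).1
  have h4 : c / Real.sqrt ((B + 1 : ℕ) : ℝ) ≤
      ((B + 1 : ℕ) : ℝ) * ∑ n ∈ Icc (B + 1) (2 * (B + 1)), p n := by
    calc c / Real.sqrt ((B + 1 : ℕ) : ℝ) = ((B + 1 : ℕ) : ℝ) *
          (c / (((B + 1 : ℕ) : ℝ) * Real.sqrt ((B + 1 : ℕ) : ℝ))) := by field_simp
      _ ≤ _ := mul_le_mul_of_nonneg_left h2 hB.le
  unfold mn
  linarith

/-! ## monotonicity, the product of the conditionings, one big jump -/

theorem cv_mono2 {p p' q q' : ℕ → ℝ} (hp' : ∀ n, 0 ≤ p' n) (hq : ∀ n, 0 ≤ q n)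
    (h1 : ∀ n, p n ≤ p' n) (h2 : ∀ n, q n ≤ q' n) (n : ℕ) : cv p q n ≤ cv p' q' n := by
  unfold cv
  refine sum_le_sum fun ij _ => ?_
  exact mul_le_mul (h1 _) (h2 _) (hq _) (hp' _)

theorem cvL_nonneg {l : List (ℕ → ℝ)} (h : ∀ p ∈ l, ∀ n, 0 ≤ p n) : ∀ n, 0 ≤ cvL l n := by
  induction l with
  | nil => intro n; rw [cvL_nil]; unfold one0; split_ifs <;> norm_num
  | cons p l ih =>
    intro n
    rw [cvL_cons]
    exact cv_nonneg (h p (by simp)) (ih fun q hq => h q (by simp [hq])) n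

theorem cvL_map_low {a : ℝ} (ha : 0 ≤ a) {f g : (ℕ → ℝ) → ℕ → ℝ} {l : List (ℕ → ℝ)}
    (hf : ∀ p ∈ l, ∀ n, 0 ≤ f p n) (hg : ∀ p ∈ l, ∀ n, a * f p n ≤ g p n) (n : ℕ) :
    a ^ l.length * cvL (l.map f) n ≤ cvL (l.map g) n := by
  induction l generalizing n with
  | nil => simp
  | cons p l ih =>
    have ih' := ih (fun q hq => hf q (by simp [hq])) (fun q hq => hg q (by simp [hq]))
    have hfl : ∀ n, 0 ≤ cvL (l.map f) n := cvL_nonneg (by
      intro q hq n
      obtain ⟨r, hr, rfl⟩ := List.mem_map.1 hq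
      exact hf r (by simp [hr]) n)
    rw [List.map_cons, List.map_cons, cvL_cons, cvL_cons, List.length_cons]
    have e : a ^ (l.length + 1) * cv (f p) (cvL (l.map f)) n =
        cv (fun n => a * f p n) (fun n => a ^ l.length * cvL (l.map f) n) n := by
      unfold cv
      rw [mul_sum]
      exact sum_congr rfl fun ij _ => by ring
    rw [e]
    refine cv_mono2 (fun n => ?_) (fun n => ?_) (hg p (by simp)) ih' n
    · exact (mul_nonneg ha (hf p (by simp) n)).trans (hg p (by simp) n)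
    · exact mul_nonneg (pow_nonneg ha _) (hfl n)

/-- one of the `h + 1` variables makes a jump -/
theorem jump {d x y : ℕ → ℝ} (hx : ∀ n, 0 ≤ x n) (hy : ∀ n, 0 ≤ y n)
    (hxy : ∀ n, x n + y n ≤ d n) {l : List (ℕ → ℝ)} (hl : ∀ p ∈ l, ∀ n, 0 ≤ p n) (h : ℕ) (n : ℕ) :
    ((h : ℝ) + 1) * cv y (cvL (List.replicate h x ++ l)) n ≤
      cvL (List.replicate (h + 1) d ++ l) n := by
  have hd : ∀ n, 0 ≤ d n := fun n => (add_nonneg (hx n) (hy n)).trans (hxy n)
  have hxd : ∀ n, x n ≤ d n := fun n => by have := hxy n; have := hy n; linarith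
  have hG : ∀ h n, 0 ≤ cvL (List.replicate h x ++ l) n := fun h => cvL_nonneg (by
    intro p hp n
    rcases List.mem_append.1 hp with h1 | h1
    · rw [List.eq_of_mem_replicate h1]; exact hx n
    · exact hl p h1 n)
  have hF : ∀ h n, 0 ≤ cvL (List.replicate h d ++ l) n := fun h => cvL_nonneg (by
    intro p hp n
    rcases List.mem_append.1 hp with h1 | h1
    · rw [List.eq_of_mem_replicate h1]; exact hd n
    · exact hl p h1 n)
  have hGF : ∀ h n, cvL (List.replicate h x ++ l) n ≤ cvL (List.replicate h d ++ l) n := by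
    intro h
    induction h with
    | zero => intro n; simp
    | succ h ih =>
      intro n
      rw [List.replicate_succ, List.replicate_succ, List.cons_append, List.cons_append, cvL_cons,
        cvL_cons]
      exact cv_mono2 hd (hG h) hxd ih n
  induction h generalizing n with
  | zero =>
    rw [Nat.cast_zero, zero_add, one_mul, zero_add, List.replicate_succ, List.cons_append, cvL_cons]
    refine cv_mono2 hd (hG 0) (fun n => ?_) (fun n => le_of_eq ?_) n
    · have := hxy n; have := hx n; linarith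
    · simp
  | succ h ih =>
    have e1 : cvL (List.replicate (h + 1 + 1) d ++ l) =
        cv d (cvL (List.replicate (h + 1) d ++ l)) := by
      rw [List.replicate_succ, List.cons_append, cvL_cons]
    have h1 : cv x (cvL (List.replicate (h + 1) d ++ l)) n +
        cv y (cvL (List.replicate (h + 1) d ++ l)) n ≤
        cv d (cvL (List.replicate (h + 1) d ++ l)) n := by
      unfold cv
      rw [← sum_add_distrib]
      refine sum_le_sum fun ij _ => ?_
      rw [← add_mul]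
      exact mul_le_mul_of_nonneg_right (hxy _) (hF _ _)
    have h2 : ((h : ℝ) + 1) * cv y (cvL (List.replicate (h + 1) x ++ l)) n ≤
        cv x (cvL (List.replicate (h + 1) d ++ l)) n := by
      have e2 : cv y (cvL (List.replicate (h + 1) x ++ l)) =
          cv x (cv y (cvL (List.replicate h x ++ l))) := by
        rw [List.replicate_succ, List.cons_append, cvL_cons, cv_left_comm]
      have e3 : ((h : ℝ) + 1) * cv x (cv y (cvL (List.replicate h x ++ l))) n =
          cv x (fun n => ((h : ℝ) + 1) * cv y (cvL (List.replicate h x ++ l)) n) n := by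
        conv_lhs => unfold cv
        conv_rhs => unfold cv
        rw [mul_sum]
        refine sum_congr rfl fun ij _ => ?_
        ring
      rw [e2, e3]
      exact cv_mono hx ih n
    have h3 : cv y (cvL (List.replicate (h + 1) x ++ l)) n ≤
        cv y (cvL (List.replicate (h + 1) d ++ l)) n := cv_mono hy (hGF (h + 1)) n
    rw [e1]
    push_cast
    linarith

end Pool.Agent.DiamP.Hv
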