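import Pool.Agent.DiamP.HvLow

/-!
# Heavy sums, part 6: every window of length `δ T` near the mean has mass bounded below
(lower bound (H3) of (6.7), MP_d7a93a_pr)
-/

set_option autoImplicit false

open Finset Filter Topology

namespace Pool.Agent.DiamP.Hv

theorem one_sub_pow_ge {τ : ℝ} (h0 : 0 ≤ τ) (h1 : τ ≤ 1 / 2) (N : ℕ) :
    Real.exp (-(2 * (τ * N))) ≤ (1 - τ) ^ N := by
  have h2 : Real.exp (-(2 * τ)) ≤ 1 - τ := by
    rw [Real.exp_neg, inv_le_comm₀ (Real.exp_pos _) (by linarith)]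
    have h3 := Real.add_one_le_exp (2 * τ)
    refine le_trans ?_ h3
    rw [inv_le_iff_one_le_mul₀ (by linarith)]
    nlinarith
  have h3 := pow_le_pow_left₀ (Real.exp_pos _).le h2 N
  refine le_trans (le_of_eq ?_) h3
  rw [← Real.exp_nat_mul]
  congr 1
  ring

theorem list_sum_ge {α : Type*} (l : List α) (f : α → ℝ) (c : ℝ) (h : ∀ x ∈ l, c ≤ f x) :
    l.length * c ≤ (l.map f).sum := by
  induction l with
  | nil => simp
  | cons a l ih =>
    rw [List.map_cons, List.sum_cons, List.length_cons]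
    have := h a (by simp)
    have := ih fun x hx => h x (by simp [hx])
    push_cast; linarith

/-- the conditioned sum: concentration and shift of the mean -/
theorem cond_sum {d : ℕ → ℝ} {K1 c0 : ℝ} (hd : TB K1 d) (hw : WL c0 0 d)
    {l : List (ℕ → ℝ)} (hl : ∀ p ∈ l, TB K1 p) {h B : ℕ} {τ : ℝ}
    (hτ : K1 / (((B + 1 : ℕ) : ℝ) * Real.sqrt ((B + 1 : ℕ) : ℝ)) ≤ τ) (hτ1 : τ ≤ 1 / 2) :
    IsLaw (cvL ((List.replicate h d ++ l).map (cnd B))) ∧
    (∀ y : ℝ, 0 < y → Ex (cvL ((List.replicate h d ++ l).map (cnd B)))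
      (fun n => if y ≤ |(n : ℝ) - ((List.replicate h d ++ l).map fun p => mn (cnd B p)).sum| then 1
        else 0) ≤ ((h : ℝ) + l.length) * (8 * K1 * Real.sqrt B) / y ^ 2) ∧
    meanL (List.replicate h d ++ l) -
      ((List.replicate h d ++ l).map fun p => mn (cnd B p)).sum ≤
        ((h : ℝ) + l.length) * (5 * K1 / Real.sqrt ((B + 1 : ℕ) : ℝ)) ∧
    h * (c0 / Real.sqrt ((B + 1 : ℕ) : ℝ)) - ((h : ℝ) + l.length) *
      (10 * K1 ^ 2 / (((B + 1 : ℕ) : ℝ) * Real.sqrt ((B + 1 : ℕ) : ℝ))) ≤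
      meanL (List.replicate h d ++ l) -
      ((List.replicate h d ++ l).map fun p => mn (cnd B p)).sum := by
  set L := List.replicate h d ++ l with hL
  have hTB : ∀ p ∈ L, TB K1 p := by
    intro p hp
    rcases List.mem_append.1 hp with h1 | h1
    · rw [List.eq_of_mem_replicate h1]; exact hd
    · exact hl p h1
  have hlen : (L.length : ℝ) = (h : ℝ) + l.length := by
    rw [hL]; simp
  have hT : ∀ p ∈ L, tauB p B ≤ 1 / 2 := fun p hp => ((hTB p hp).tauB_le B).trans (hτ.trans hτ1)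
  have hlaws : ∀ q ∈ L.map (cnd B), IsLaw q := by
    intro q hq
    obtain ⟨p, hp, rfl⟩ := List.mem_map.1 hq
    exact isLaw_cnd (hTB p hp).law (by have := hT p hp; linarith)
  have hspt : ∀ q ∈ L.map (cnd B), Spt q B := by
    intro q hq
    obtain ⟨p, hp, rfl⟩ := List.mem_map.1 hq
    exact cnd_spt B p
  have hG : IsLaw (cvL (L.map (cnd B))) := isLaw_cvL hlaws
  have hmn : mn (cvL (L.map (cnd B))) = (L.map fun p => mn (cnd B p)).sum := by
    rw [mn_cvL hlaws hspt, List.map_map]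
    rfl
  have hvr : vr (cvL (L.map (cnd B))) (mn (cvL (L.map (cnd B)))) ≤
      ((h : ℝ) + l.length) * (8 * K1 * Real.sqrt B) := by
    rw [vr_cvL hlaws hspt, List.map_map, ← hlen]
    exact list_sum_le L _ _ fun p hp => vr_cnd_le (hTB p hp) (hT p hp)
  refine ⟨hG, fun y hy => ?_, ?_, ?_⟩
  · rw [← hmn]
    refine (cheb hG (Spt.inL hspt) _ hy).trans ?_
    gcongr
  · rw [meanL_eq_mn, list_sum_sub, ← hlen]
    exact list_sum_le L _ _ fun p hp => shift_le (hTB p hp) (hT p hp)
  · rw [meanL_eq_mn, list_sum_sub]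
    set ε := 10 * K1 ^ 2 / (((B + 1 : ℕ) : ℝ) * Real.sqrt ((B + 1 : ℕ) : ℝ)) with hε
    have h1 : ∀ p ∈ L, -ε ≤ mn p - mn (cnd B p) := by
      intro p hp
      have h2 := shift_ge (hTB p hp) (hT p hp)
      have h3 := ((hTB p hp).mn_sub B).1
      linarith
    rw [hL, List.map_append, List.sum_append]
    have h2 : h * (c0 / Real.sqrt ((B + 1 : ℕ) : ℝ) - ε) ≤
        ((List.replicate h d).map fun x => mn x - mn (cnd B x)).sum := by
      have := list_sum_ge (List.replicate h d) (fun x => mn x - mn (cnd B x))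
        (c0 / Real.sqrt ((B + 1 : ℕ) : ℝ) - ε) (by
          intro x hx
          have hxd := List.eq_of_mem_replicate hx
          rw [hxd]
          have hdL : tauB d B ≤ 1 / 2 := (hd.tauB_le B).trans (hτ.trans hτ1)
          have h3 := shift_ge hd hdL
          have h4 := win_tail hd hw B
          linarith)
      rwa [List.length_replicate] at this
    have h3 : l.length * (-ε) ≤ (l.map fun x => mn x - mn (cnd B x)).sum :=
      list_sum_ge l _ _ fun p hp => h1 p (by rw [hL]; simp [hp])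
    linarith

/-- the mass produced by one big jump -/
theorem jump_mass {d : ℕ → ℝ} {K1 : ℝ} (hd : TB K1 d)
    {l : List (ℕ → ℝ)} (hl : ∀ p ∈ l, TB K1 p) {h B : ℕ} {τ : ℝ}
    (hτ : K1 / (((B + 1 : ℕ) : ℝ) * Real.sqrt ((B + 1 : ℕ) : ℝ)) ≤ τ) (hτ1 : τ ≤ 1 / 2)
    {k0 k1 : ℕ} (hBk : B < k0) {m z y : ℝ} (hy : 0 < y)
    (hconc : Ex (cvL ((List.replicate h d ++ l).map (cnd B)))
      (fun n => if y ≤ |(n : ℝ) - m| then 1 else 0) ≤ 1 / 2)
    (hk0 : z - m ≤ k0) (hk1 : (k1 : ℝ) ≤ z - m + y) :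
    ((h : ℝ) + 1) * (1 - τ) ^ (h + l.length) * (∑ n ∈ Icc k0 k1, d n) * (1 / 2) ≤
      Ex (cvL (List.replicate (h + 1) d ++ l)) (fun n => if |(n : ℝ) - z| ≤ 2 * y then 1 else 0) := by
  set L := List.replicate h d ++ l with hL
  have hTB : ∀ p ∈ L, TB K1 p := by
    intro p hp
    rcases List.mem_append.1 hp with h1 | h1
    · rw [List.eq_of_mem_replicate h1]; exact hd
    · exact hl p h1
  have hlenN : L.length = h + l.length := by rw [hL]; simp
  have hT : ∀ p ∈ L, tauB p B ≤ τ := fun p hp => ((hTB p hp).tauB_le B).trans hτ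
  have hlaws : ∀ q ∈ L.map (cnd B), IsLaw q := by
    intro q hq
    obtain ⟨p, hp, rfl⟩ := List.mem_map.1 hq
    exact isLaw_cnd (hTB p hp).law (by have := hT p hp; linarith)
  have hG : IsLaw (cvL (L.map (cnd B))) := isLaw_cvL hlaws
  set G := cvL (L.map (cnd B)) with hGdef
  have hF : IsLaw (cvL (List.replicate (h + 1) d ++ l)) := isLaw_cvL (by
    intro p hp
    rcases List.mem_append.1 hp with h1 | h1
    · rw [List.eq_of_mem_replicate h1]; exact hd.law
    · exact (hl p h1).law)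
  set F := cvL (List.replicate (h + 1) d ++ l) with hFdef
  set y' : ℕ → ℝ := fun n => if n ∈ Icc k0 k1 then d n else 0 with hy'
  have hy0 : ∀ n, 0 ≤ y' n := fun n => by
    simp only [hy']
    split_ifs
    · exact hd.law.nonneg n
    · exact le_rfl
  have hx0 : ∀ n, 0 ≤ trn B d n := fun n => by
    unfold trn
    split_ifs
    · exact hd.law.nonneg n
    · exact le_rfl
  have hxy : ∀ n, trn B d n + y' n ≤ d n := by
    intro n
    simp only [hy']
    unfold trn
    have := hd.law.nonneg n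
    split_ifs with h1 h2 h2
    · have := (mem_Icc.1 h2).1
      omega
    · linarith
    · linarith
    · linarith
  have hl0 : ∀ p ∈ l.map (trn B), ∀ n, 0 ≤ p n := by
    intro p hp n
    obtain ⟨q, hq, rfl⟩ := List.mem_map.1 hp
    unfold trn
    split_ifs
    · exact (hl q hq).law.nonneg n
    · exact le_rfl
  -- pointwise lower bound
  have hstep1 : ∀ n, ((h : ℝ) + 1) * cv y' (cvL (L.map (trn B))) n ≤ F n := by
    intro n
    have h1 := jump hx0 hy0 hxy hl0 h n
    have e1 : List.replicate h (trn B d) ++ l.map (trn B) = L.map (trn B) := by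
      rw [hL, List.map_append, List.map_replicate]
    rw [e1] at h1
    refine h1.trans ?_
    rw [hFdef, cvL_append, cvL_append]
    have h2 : ∀ n, cvL (l.map (trn B)) n ≤ cvL l n := by
      intro n
      have := cvL_map_low (a := 1) zero_le_one (f := trn B) (g := id) (l := l)
        (fun p hp n => hl0 _ (List.mem_map.2 ⟨p, hp, rfl⟩) n) (fun p hp n => by
          rw [one_mul]
          unfold trn
          split_ifs
          · exact le_rfl
          · exact (hl p hp).law.nonneg n) n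
      simpa using this
    exact cv_mono (cvL_nonneg fun p hp => by
      rw [List.eq_of_mem_replicate hp]; exact hd.law.nonneg) h2 n
  have hstep2 : ∀ n, (1 - τ) ^ (h + l.length) * G n ≤ cvL (L.map (trn B)) n := by
    intro n
    rw [← hlenN]
    refine cvL_map_low (by linarith) (fun p hp n => cnd_nonneg (hTB p hp).law
      (by have := hT p hp; linarith) n) (fun p hp n => ?_) n
    unfold cnd trn
    have h2 := hT p hp
    have h3 := (hTB p hp).law.nonneg n
    split_ifs
    · rw [← mul_div_assoc, div_le_iff₀ (by linarith)]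
      nlinarith
    · simp
  set w := ((h : ℝ) + 1) * (1 - τ) ^ (h + l.length) with hw
  have hw0 : 0 ≤ w := by
    have : 0 ≤ 1 - τ := by linarith
    positivity
  have hcvnn : ∀ n, 0 ≤ cv y' G n := cv_nonneg hy0 hG.nonneg
  have hlow : ∀ n, w * cv y' G n ≤ F n := by
    intro n
    refine le_trans ?_ (hstep1 n)
    rw [hw, mul_assoc]
    refine mul_le_mul_of_nonneg_left ?_ (by positivity)
    have e : (1 - τ) ^ (h + l.length) * cv y' G n =
        cv y' (fun n => (1 - τ) ^ (h + l.length) * G n) n := by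
      unfold cv
      rw [mul_sum]
      exact sum_congr rfl fun ij _ => by ring
    rw [e]
    exact cv_mono hy0 hstep2 n
  set f : ℕ → ℝ := fun n => if |(n : ℝ) - z| ≤ 2 * y then 1 else 0 with hf
  have hf0 : ∀ n, 0 ≤ f n := fun n => by simp only [hf]; split_ifs <;> norm_num
  have hf1 : ∀ n, f n ≤ 1 := fun n => by simp only [hf]; split_ifs <;> norm_num
  have hfa : ∀ n, |f n| ≤ 1 := fun n => by rw [abs_of_nonneg (hf0 n)]; exact hf1 n
  have hsF : Summable fun n => F n * f n := hF.summable_mul hfa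
  have hsH : Summable fun n => w * cv y' G n * f n := by
    refine Summable.of_nonneg_of_le (fun n => mul_nonneg (mul_nonneg hw0 (hcvnn n)) (hf0 n))
      (fun n => ?_) hsF
    exact mul_le_mul_of_nonneg_right (hlow n) (hf0 n)
  have h1 : ∑' n, w * cv y' G n * f n ≤ Ex F f :=
    hsH.tsum_le_tsum (fun n => mul_le_mul_of_nonneg_right (hlow n) (hf0 n)) hsF
  refine le_trans ?_ h1
  have e1 : ∑' n, w * cv y' G n * f n = w * ∑' n, cv y' G n * f n := by
    rw [← tsum_mul_left]
    exact tsum_congr fun n => by ring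
  have hys : Summable fun n => ‖y' n‖ := by
    refine summable_of_ne_finset_zero (s := Icc k0 k1) fun n hn => ?_
    simp only [hy']
    rw [if_neg hn, norm_zero]
  have hGs : Summable fun n => ‖G n‖ := by
    simpa [Real.norm_of_nonneg (hG.nonneg _)] using hG.summable
  rw [e1, hasSum_cv hys hGs hfa, mul_assoc]
  refine mul_le_mul_of_nonneg_left ?_ hw0
  rw [tsum_eq_sum (s := Icc k0 k1)]
  · rw [sum_mul]
    refine sum_le_sum fun k hk => ?_
    have hyk : y' k = d k := by simp only [hy']; rw [if_pos hk]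
    rw [hyk]
    refine mul_le_mul_of_nonneg_left ?_ (hd.law.nonneg k)
    have hk2 := mem_Icc.1 hk
    have hka : (k0 : ℝ) ≤ k := by exact_mod_cast hk2.1
    have hkb : (k : ℝ) ≤ k1 := by exact_mod_cast hk2.2
    have h2 : ∑' b, G b * f (k + b) ≥ ∑' b, G b * (1 - if y ≤ |(b : ℝ) - m| then 1 else 0) := by
      refine Summable.tsum_le_tsum (fun b => ?_) (hG.summable_mul (C := 1) fun b => ?_)
        (hG.summable_mul (C := 1) fun b => hfa _)
      · refine mul_le_mul_of_nonneg_left ?_ (hG.nonneg b)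
        split_ifs with h3
        · rw [sub_self]; exact hf0 _
        · rw [not_le, abs_lt] at h3
          simp only [hf]
          rw [if_pos]
          · norm_num
          · push_cast
            rw [abs_le]
            constructor <;> linarith
      · split_ifs <;> norm_num
    have h3 : ∑' b, G b * (1 - if y ≤ |(b : ℝ) - m| then 1 else 0) =
        1 - Ex G (fun n => if y ≤ |(n : ℝ) - m| then 1 else 0) := by
      unfold Ex
      have hs2 : Summable fun b => G b * (if y ≤ |(b : ℝ) - m| then (1 : ℝ) else 0) :=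
        hG.summable_mul (C := 1) fun b => by split_ifs <;> norm_num
      have h4 := hG.summable.tsum_sub hs2
      rw [hG.tsum] at h4
      rw [← h4]
      exact tsum_congr fun b => by ring
    linarith
  · intro k hk
    simp only [hy']
    rw [if_neg hk, zero_mul]

/-- **every window of length `δ T` at distance `≤ A T` from the mean has mass `≥ c`** -/
theorem star {d : ℕ → ℝ} {K : ℝ} (hd : HT K d) (hD : DL d) {A A3 δ a : ℝ} (hA : 0 ≤ A)
    (hA3 : 1 ≤ A3) (hδ : 0 < δ) (ha : 0 < a) :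
    ∃ c : ℝ, 0 < c ∧ ∃ T0 : ℝ, ∀ T : ℝ, T0 ≤ T → ∀ h : ℕ, ∀ l : List (ℕ → ℝ),
      (∀ p ∈ l, HT K p) → a * (T * Real.sqrt T) ≤ h →
      (h : ℝ) + l.length ≤ A3 * (T * Real.sqrt T) → ∀ z : ℝ,
      |z - meanL (List.replicate (h + 1) d ++ l)| ≤ A * T →
      c ≤ Ex (cvL (List.replicate (h + 1) d ++ l))
        (fun n => if |(n : ℝ) - z| ≤ δ * T then 1 else 0) := by
  have hK := hd.K_nonneg
  set K1 := max K 1 with hK1d
  have hK1 : 1 ≤ K1 := le_max_right _ _
  have hK1pos : 0 < K1 := by linarith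
  obtain ⟨c0, hc0, hw⟩ := hD.wl
  have hdT : TB K1 d := (TB.of_HT hd).mono (le_max_left _ _)
  have hmd : 0 ≤ mn d := by rw [← mean_eq_mn]; exact hd.law.mean_nonneg
  -- the parameter `β`
  obtain ⟨β, hβ0, hβ1, hβ2, hβ3⟩ : ∃ β : ℝ, 0 < β ∧ β ≤ 1 ∧ 64 * K1 * A3 * β ≤ δ ^ 2 ∧
      2 * (A + 3) * β ≤ a * c0 := by
    refine ⟨min 1 (min (δ ^ 2 / (64 * K1 * A3)) (a * c0 / (2 * (A + 3)))), ?_, min_le_left _ _, ?_,
      ?_⟩
    · refine lt_min one_pos (lt_min (by positivity) (by positivity))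
    · have h1 : min 1 (min (δ ^ 2 / (64 * K1 * A3)) (a * c0 / (2 * (A + 3)))) ≤
        δ ^ 2 / (64 * K1 * A3) := (min_le_right _ _).trans (min_le_left _ _)
      rw [le_div_iff₀ (by positivity)] at h1
      linarith
    · have h1 : min 1 (min (δ ^ 2 / (64 * K1 * A3)) (a * c0 / (2 * (A + 3)))) ≤
        a * c0 / (2 * (A + 3)) := (min_le_right _ _).trans (min_le_right _ _)
      rw [le_div_iff₀ (by positivity)] at h1
      linarith
  have hA3pos : 0 < A3 := by linarith
  set U := A + 5 * K1 * A3 / β + 1 with hU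
  have hU1 : 1 ≤ U := by
    have : 0 ≤ 5 * K1 * A3 / β := by positivity
    linarith
  have hUpos : 0 < U := by linarith
  set η := δ / (8 * U) with hη
  have hη0 : 0 < η := by positivity
  obtain ⟨cη, hcη, kη, hwin⟩ := hD.win η hη0
  set E1 := 10 * K1 ^ 2 * A3 / β ^ 3 with hE1
  have hE10 : 0 ≤ E1 := by positivity
  refine ⟨(a / (2 * U * Real.sqrt (2 * U))) * Real.exp (-(2 * (K1 * A3 / β ^ 3))) * cη * (1 / 2),
    by positivity, 1 + 1 / β ^ 2 + E1 + mn d + 4 / δ + kη + 2 * K1 / β ^ 3,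
    fun T hT h l hl hah hN z hz => ?_⟩
  have p1 : 0 ≤ 1 / β ^ 2 := by positivity
  have p2 : 0 ≤ 4 / δ := by positivity
  have p3 : (0 : ℝ) ≤ kη := by positivity
  have p4 : 0 ≤ 2 * K1 / β ^ 3 := by positivity
  have hT1 : 1 ≤ T := by linarith
  have hTβ : 1 / β ^ 2 ≤ T := by linarith
  have hTE : E1 ≤ T := by linarith
  have hTm : mn d ≤ T := by linarith
  have hTδ : 4 / δ ≤ T := by linarith
  have hTk : (kη : ℝ) ≤ T := by linarith
  have hTτ : 2 * K1 / β ^ 3 ≤ T := by linarith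
  have hTpos : 0 < T := by linarith
  set s := Real.sqrt T with hs
  have hss : s ^ 2 = T := Real.sq_sqrt hTpos.le
  have hs1 : 1 ≤ s := by rw [hs, Real.one_le_sqrt]; exact hT1
  have hspos : 0 < s := by linarith
  set B := ⌊β ^ 2 * T⌋₊ with hB
  have hB1 : β ^ 2 * T ≤ ((B + 1 : ℕ) : ℝ) := by
    have := Nat.lt_floor_add_one (β ^ 2 * T)
    push_cast
    linarith
  have hB2 : (B : ℝ) ≤ β ^ 2 * T := Nat.floor_le (by positivity)
  have hB3 : ((B + 1 : ℕ) : ℝ) ≤ (2 * β * s) ^ 2 := by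
    rw [div_le_iff₀ (by positivity)] at hTβ
    push_cast
    have : (2 * β * s) ^ 2 = 4 * (β ^ 2 * T) := by rw [← hss]; ring
    rw [this]
    linarith
  have hBpos : (0 : ℝ) < ((B + 1 : ℕ) : ℝ) := by positivity
  set q := Real.sqrt ((B + 1 : ℕ) : ℝ) with hq
  have hqpos : 0 < q := Real.sqrt_pos.2 hBpos
  have hq1 : β * s ≤ q := by
    rw [hq]
    apply Real.le_sqrt_of_sq_le
    calc (β * s) ^ 2 = β ^ 2 * T := by rw [← hss]; ring
      _ ≤ _ := hB1
  have hq2 : q ≤ 2 * β * s := by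
    rw [hq, Real.sqrt_le_left (by positivity)]
    exact hB3
  have hBq : β ^ 3 * (T * s) ≤ ((B + 1 : ℕ) : ℝ) * q := by
    calc β ^ 3 * (T * s) = (β ^ 2 * T) * (β * s) := by ring
      _ ≤ _ := mul_le_mul hB1 hq1 (by positivity) hBpos.le
  have hTs : 0 < T * s := by positivity
  set τ := K1 / (β ^ 3 * (T * s)) with hτ
  have hτ0 : 0 ≤ τ := by positivity
  have hτa : K1 / (((B + 1 : ℕ) : ℝ) * q) ≤ τ := by
    rw [hτ]
    exact div_le_div_of_nonneg_left hK1pos.le (by positivity) hBq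
  have hτ1 : τ ≤ 1 / 2 := by
    rw [hτ, div_le_iff₀ (by positivity)]
    rw [div_le_iff₀ (by positivity)] at hTτ
    have h1 : T * β ^ 3 ≤ T * s * β ^ 3 := by
      refine mul_le_mul_of_nonneg_right ?_ (by positivity)
      exact le_mul_of_one_le_right hTpos.le hs1
    linarith
  have hlT : ∀ p ∈ l, TB K1 p := fun p hp => (TB.of_HT (hl p hp)).mono (le_max_left _ _)
  obtain ⟨_, hconc, hup, hlow⟩ := cond_sum hdT hw hlT (h := h) hτa hτ1
  set m := ((List.replicate h d ++ l).map fun p => mn (cnd B p)).sum with hm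
  set ML := meanL (List.replicate h d ++ l) with hML
  set N := (h : ℝ) + l.length with hNd
  have hN0 : 0 ≤ N := by positivity
  have hML2 : meanL (List.replicate (h + 1) d ++ l) = mn d + ML := by
    rw [hML, List.replicate_succ, List.cons_append, meanL_cons, mean_eq_mn]
  rw [hML2] at hz
  -- concentration
  have hsB : Real.sqrt B ≤ β * s := by
    rw [Real.sqrt_le_left (by positivity)]
    calc (B : ℝ) ≤ β ^ 2 * T := hB2
      _ = _ := by rw [← hss]; ring
  have hy : 0 < δ * T / 2 := by positivity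
  have hc1 := hconc (δ * T / 2) hy
  have hc2 : N * (8 * K1 * Real.sqrt B) / (δ * T / 2) ^ 2 ≤ 1 / 2 := by
    rw [div_le_iff₀ (by positivity)]
    have h1 : N * (8 * K1 * Real.sqrt B) ≤ A3 * (T * s) * (8 * K1 * (β * s)) := by
      gcongr
    have h2 : A3 * (T * s) * (8 * K1 * (β * s)) = 8 * K1 * A3 * β * T ^ 2 := by
      have : T ^ 2 = T * s ^ 2 := by rw [hss]; ring
      rw [this]; ring
    have h3 : 64 * K1 * A3 * β * T ^ 2 ≤ δ ^ 2 * T ^ 2 :=
      mul_le_mul_of_nonneg_right hβ2 (by positivity)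
    have h4 : (1 : ℝ) / 2 * (δ * T / 2) ^ 2 = δ ^ 2 * T ^ 2 / 8 := by ring
    linarith
  have hconc' := hc1.trans hc2
  -- the shift
  have hD1 : ML - m ≤ 5 * K1 * A3 / β * T := by
    refine hup.trans ?_
    calc N * (5 * K1 / q) ≤ A3 * (T * s) * (5 * K1 / (β * s)) := by gcongr
      _ = 5 * K1 * A3 / β * T := by field_simp
  have hD2 : (A + 3) * T - E1 ≤ ML - m := by
    refine le_trans ?_ hlow
    have h1 : N * (10 * K1 ^ 2 / (((B + 1 : ℕ) : ℝ) * q)) ≤ E1 := by
      calc N * (10 * K1 ^ 2 / (((B + 1 : ℕ) : ℝ) * q)) ≤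
            A3 * (T * s) * (10 * K1 ^ 2 / (β ^ 3 * (T * s))) := by gcongr
        _ = E1 := by rw [hE1]; field_simp
    have h2 : (A + 3) * T ≤ h * (c0 / q) := by
      calc (A + 3) * T = (2 * (A + 3) * β) * T / (2 * β) := by field_simp
        _ ≤ (a * c0) * T / (2 * β) := by gcongr
        _ = (a * (T * s)) * (c0 / (2 * β * s)) := by field_simp
        _ ≤ h * (c0 / q) := by gcongr
    linarith
  have hz' := abs_le.1 hz
  set w := z - m with hwd
  have hw1 : 2 * T ≤ w := by
    have : w = (z - (mn d + ML)) + mn d + (ML - m) := by rw [hwd]; ring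
    rw [this]
    linarith
  have hw2 : w ≤ U * T := by
    have : w = (z - (mn d + ML)) + mn d + (ML - m) := by rw [hwd]; ring
    have h5 : U * T = A * T + 5 * K1 * A3 / β * T + T := by rw [hU]; ring
    rw [this, h5]
    linarith
  set k0 := ⌈w⌉₊ with hk0
  have hk0a : w ≤ k0 := Nat.le_ceil w
  have hk0b : (k0 : ℝ) < w + 1 := Nat.ceil_lt_add_one (by linarith)
  have hUT : 1 ≤ U * T := one_le_mul_of_one_le_of_one_le hU1 hT1
  have hk0c : (k0 : ℝ) ≤ 2 * U * T := by
    have : 2 * U * T = U * T + U * T := by ring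
    rw [this]
    linarith
  have hk0T : 2 * T ≤ (k0 : ℝ) := by linarith
  have hk0pos : (0 : ℝ) < k0 := by linarith
  have hBk : B < k0 := by
    have h1 : (B : ℝ) < k0 := by
      have h2 : β ^ 2 * T ≤ 1 * T := by
        refine mul_le_mul_of_nonneg_right ?_ hTpos.le
        exact pow_le_one₀ hβ0.le hβ1
      linarith
    exact_mod_cast h1
  have hkη : kη ≤ k0 := by
    have h1 : (kη : ℝ) ≤ k0 := by linarith
    exact_mod_cast h1
  have hwin' := hwin k0 hkη
  set k1 := ⌊(1 + η) * (k0 : ℝ)⌋₊ with hk1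
  have hk1a : (k1 : ℝ) ≤ (1 + η) * k0 := Nat.floor_le (by positivity)
  have hk1b : (k1 : ℝ) ≤ z - m + δ * T / 2 := by
    have h1 : η * k0 ≤ δ * T / 4 := by
      calc η * k0 ≤ δ / (8 * U) * (2 * U * T) := by gcongr
        _ = δ * T / 4 := by field_simp; norm_num
    have h2 : 1 ≤ δ * T / 4 := by
      rw [div_le_iff₀ hδ] at hTδ
      linarith
    have : w = z - m := hwd
    linarith
  have hjm := jump_mass hdT hlT (h := h) hτa hτ1 hBk hy (m := m) (z := z) hconc'
    (by rw [← hwd]; exact hk0a) hk1b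
  have e2 : 2 * (δ * T / 2) = δ * T := by ring
  rw [e2] at hjm
  refine le_trans ?_ hjm
  -- the constants
  have hwin2 : cη / (2 * U * Real.sqrt (2 * U) * (T * s)) ≤ ∑ n ∈ Icc k0 k1, d n := by
    refine le_trans ?_ hwin'
    rw [rpow_three_half hk0pos, mul_one_div]
    apply div_le_div_of_nonneg_left hcη.le (by positivity)
    have h1 : Real.sqrt k0 ≤ Real.sqrt (2 * U) * s := by
      rw [hs, ← Real.sqrt_mul (by positivity)]
      exact Real.sqrt_le_sqrt hk0c
    calc (k0 : ℝ) * Real.sqrt k0 ≤ (2 * U * T) * (Real.sqrt (2 * U) * s) := by gcongr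
      _ = _ := by ring
  have hpow : Real.exp (-(2 * (K1 * A3 / β ^ 3))) ≤ (1 - τ) ^ (h + l.length) := by
    refine le_trans ?_ (one_sub_pow_ge hτ0 hτ1 _)
    apply Real.exp_le_exp.2
    have h1 : τ * ((h + l.length : ℕ) : ℝ) ≤ K1 * A3 / β ^ 3 := by
      push_cast
      calc τ * ((h : ℝ) + l.length) ≤ K1 / (β ^ 3 * (T * s)) * (A3 * (T * s)) := by
            rw [hτ]; gcongr
        _ = _ := by field_simp
    linarith
  have hh : a * (T * s) ≤ (h : ℝ) + 1 := by linarith
  have h0 : 0 ≤ ∑ n ∈ Icc k0 k1, d n := sum_nonneg fun n _ => hd.law.nonneg n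
  have hQ0 : 0 ≤ (1 - τ) ^ (h + l.length) := pow_nonneg (by linarith) _
  set Q := (1 - τ) ^ (h + l.length) with hQ
  have hwin0 : 0 ≤ cη / (2 * U * Real.sqrt (2 * U) * (T * s)) := by positivity
  have hhQ : (a * (T * s)) * Real.exp (-(2 * (K1 * A3 / β ^ 3))) ≤ ((h : ℝ) + 1) * Q :=
    mul_le_mul hh hpow (Real.exp_pos _).le (by positivity)
  calc (a / (2 * U * Real.sqrt (2 * U))) * Real.exp (-(2 * (K1 * A3 / β ^ 3))) * cη * (1 / 2)
      = (a * (T * s)) * Real.exp (-(2 * (K1 * A3 / β ^ 3))) *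
        (cη / (2 * U * Real.sqrt (2 * U) * (T * s))) * (1 / 2) := by field_simp
    _ ≤ ((h : ℝ) + 1) * Q * (∑ n ∈ Icc k0 k1, d n) * (1 / 2) :=
        mul_le_mul_of_nonneg_right (mul_le_mul hhQ hwin2 hwin0 (by positivity)) (by norm_num)

end Pool.Agent.DiamP.Hv
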