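import Pool.Agent.DiamP.Tau

/-!
# Windows of `τ` and the source term near a point
-/

set_option autoImplicit false

open Finset Filter Topology
open scoped Real

namespace Pool.Agent.DiamP

section
variable {c K KR : ℝ} {p τ R : ℕ → ℝ}

theorem TD.local (h : TD c K KR p τ R) : ∃ K' : ℝ, 0 < K' ∧ ∀ j : ℕ, 1 ≤ j → ∀ m : ℕ,
    pw p j m ≤ K' * (j : ℝ) ^ (-(2 / 3) : ℝ) ∧ ∀ t : ℝ, 0 < t → t ≤ |(m : ℝ) - j * mean p| →
      pw p j m ≤ K' * (j : ℝ) ^ (1 / 3 : ℝ) * t ^ (-(3 / 2) : ℝ) := by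
  obtain ⟨K', hK', hloc⟩ := heavy_local h.c_pos h.K_nonneg
  refine ⟨K', hK', fun j hj m => ?_⟩
  have h1 := hloc (List.replicate j p) (fun q hq => by rw [List.eq_of_mem_replicate hq]; exact h.law)
    (by rw [← List.length_pos_iff, List.length_replicate]; exact hj) m
  rw [meanL_replicate, List.length_replicate] at h1
  exact h1

theorem half_rpow {x : ℝ} (hx : 0 < x) : (x / 2) ^ (-(5 / 2) : ℝ) ≤ 8 * x ^ (-(5 / 2) : ℝ) := by
  rw [Real.div_rpow hx.le (by norm_num), Real.rpow_neg (by norm_num : (0:ℝ) ≤ 2), div_inv_eq_mul,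
    mul_comm]
  refine mul_le_mul_of_nonneg_right ?_ (by positivity)
  have : (2 : ℝ) ^ (5 / 2 : ℝ) ≤ 2 ^ (3 : ℝ) :=
    Real.rpow_le_rpow_of_exponent_le (by norm_num) (by norm_num)
  refine this.trans (le_of_eq ?_)
  norm_num

/-- number of integers in an interval -/
theorem card_Icc_real (lo hi : ℝ) (hlh : lo ≤ hi) (M : ℕ) :
    (((range M).filter (fun N : ℕ => lo ≤ N ∧ (N : ℝ) ≤ hi)).card : ℝ) ≤ hi - lo + 1 := by
  rcases lt_or_ge hi 0 with hneg | hhi
  · have : (range M).filter (fun N : ℕ => lo ≤ N ∧ (N : ℝ) ≤ hi) = ∅ := by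
      refine filter_eq_empty_iff.2 fun N _ hN => ?_
      have : (0 : ℝ) ≤ N := Nat.cast_nonneg N
      linarith [hN.2]
    rw [this]
    simp
    linarith
  have h1 : (range M).filter (fun N : ℕ => lo ≤ N ∧ (N : ℝ) ≤ hi) ⊆ Icc ⌈lo⌉₊ ⌊hi⌋₊ := by
    intro N hN
    obtain ⟨_, h2, h3⟩ := mem_filter.1 hN
    exact mem_Icc.2 ⟨Nat.ceil_le.2 h2, Nat.le_floor h3⟩
  have h2 : (((range M).filter (fun N : ℕ => lo ≤ N ∧ (N : ℝ) ≤ hi)).card : ℝ) ≤
      ((⌊hi⌋₊ + 1 - ⌈lo⌉₊ : ℕ) : ℝ) := by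
    have := card_le_card h1
    rw [Nat.card_Icc] at this
    exact_mod_cast this
  refine h2.trans ?_
  rcases le_total ⌈lo⌉₊ (⌊hi⌋₊ + 1) with h3 | h3
  · rw [Nat.cast_sub h3]
    push_cast
    have h4 := Nat.floor_le hhi
    have h5 := Nat.le_ceil lo
    linarith
  · rw [Nat.sub_eq_zero_of_le h3]
    simp
    linarith

/-- **upper bound for windows** -/
theorem TD.window_up (h : TD c K KR p τ R) : ∃ C : ℝ, 0 < C ∧ ∀ n : ℕ, 1 ≤ n → ∀ J : Finset ℕ,
    (∀ j ∈ J, n ≤ j ∧ (j : ℝ) ≤ n + (n : ℝ) ^ (2 / 3 : ℝ)) →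
    ∑ j ∈ J, τ j ≤ C * (n : ℝ) ^ (-(11 / 6) : ℝ) := by
  obtain ⟨l, hl, htr⟩ := h.transfer
  have hμ := h.one_le_mean
  set μ := mean p with hμdef
  have hμ0 : 0 < μ := by linarith
  have hKR := h.KR_nonneg
  obtain ⟨n0, hn0, hpow⟩ := eventually_pow_lt (α := 2 / 3) (β := 1) (C := 4 * l) (by norm_num)
  set T := ∑' j : ℕ, τ j * (j : ℝ) ^ (4 / 3 : ℝ) with hT
  have hT0 : 0 ≤ T := tsum_nonneg fun j => mul_nonneg (h.τ_nonneg j) (by positivity)
  have hn0' : (1 : ℝ) ≤ n0 := by exact_mod_cast hn0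
  refine ⟨T * (n0 : ℝ) ^ (11 / 6 : ℝ) + 16 * KR * (μ + 4 * l + 1) + 1, by positivity,
    fun n hn J hJ => ?_⟩
  have hn' : (1 : ℝ) ≤ n := by exact_mod_cast hn
  have hnpos : (0 : ℝ) < n := by linarith
  have hnpow : 0 < (n : ℝ) ^ (-(11 / 6) : ℝ) := by positivity
  rcases Nat.lt_or_ge n n0 with hlt | hge
  · -- small `n`
    have h1 : ∑ j ∈ J, τ j ≤ T := by
      have h2 : ∑ j ∈ J, τ j ≤ ∑ j ∈ J, τ j * (j : ℝ) ^ (4 / 3 : ℝ) := by
        refine sum_le_sum fun j hj => ?_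
        have h3 : (1 : ℝ) ≤ j := by
          have := (hJ j hj).1
          have : 1 ≤ j := by omega
          exact_mod_cast this
        have h4 : (1 : ℝ) ≤ (j : ℝ) ^ (4 / 3 : ℝ) := Real.one_le_rpow h3 (by norm_num)
        have := h.τ_nonneg j
        nlinarith
      exact h2.trans (h.summable_four_thirds.sum_le_tsum J fun j _ =>
        mul_nonneg (h.τ_nonneg j) (by positivity))
    have h2 : 1 ≤ (n0 : ℝ) ^ (11 / 6 : ℝ) * (n : ℝ) ^ (-(11 / 6) : ℝ) := by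
      have h3 : (n : ℝ) ≤ n0 := by exact_mod_cast hlt.le
      have h4 : (n0 : ℝ) ^ (-(11 / 6) : ℝ) ≤ (n : ℝ) ^ (-(11 / 6) : ℝ) :=
        Real.rpow_le_rpow_of_nonpos hnpos h3 (by norm_num)
      have h5 : (n0 : ℝ) ^ (11 / 6 : ℝ) * (n0 : ℝ) ^ (-(11 / 6) : ℝ) = 1 := by
        rw [← Real.rpow_add (by linarith)]; norm_num
      rw [← h5]
      exact mul_le_mul_of_nonneg_left h4 (by positivity)
    calc ∑ j ∈ J, τ j ≤ T := h1
      _ ≤ T * ((n0 : ℝ) ^ (11 / 6 : ℝ) * (n : ℝ) ^ (-(11 / 6) : ℝ)) := by nlinarith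
      _ = T * (n0 : ℝ) ^ (11 / 6 : ℝ) * (n : ℝ) ^ (-(11 / 6) : ℝ) := by ring
      _ ≤ _ := by
          refine mul_le_mul_of_nonneg_right ?_ hnpow.le
          have : 0 ≤ 16 * KR * (μ + 4 * l + 1) := by positivity
          linarith
  · have hge' : (n0 : ℝ) ≤ n := by exact_mod_cast hge
    have hp := hpow n hge'
    rw [Real.rpow_one] at hp
    set q := (n : ℝ) ^ (2 / 3 : ℝ) with hq
    have hq1 : 1 ≤ q := Real.one_le_rpow hn' (by norm_num)
    have hqn : q ≤ n := by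
      have : q ≤ (n : ℝ) ^ (1 : ℝ) := Real.rpow_le_rpow_of_exponent_le hn' (by norm_num)
      rwa [Real.rpow_one] at this
    set lo := n * μ - 2 * l * q with hlo
    set hi := n * μ + (μ + 2 * l) * q with hhi
    have hjq : ∀ j ∈ J, (j : ℝ) ^ (2 / 3 : ℝ) ≤ 2 * q := by
      intro j hj
      have h1 : (j : ℝ) ≤ 2 * n := by linarith [(hJ j hj).2]
      calc (j : ℝ) ^ (2 / 3 : ℝ) ≤ (2 * n : ℝ) ^ (2 / 3 : ℝ) :=
            Real.rpow_le_rpow (Nat.cast_nonneg _) h1 (by norm_num)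
        _ = (2 : ℝ) ^ (2 / 3 : ℝ) * q := by rw [Real.mul_rpow (by norm_num) hnpos.le]
        _ ≤ 2 * q := by
            refine mul_le_mul_of_nonneg_right ?_ (by linarith)
            have : (2 : ℝ) ^ (2 / 3 : ℝ) ≤ 2 ^ (1 : ℝ) :=
              Real.rpow_le_rpow_of_exponent_le (by norm_num) (by norm_num)
            rwa [Real.rpow_one] at this
    have hwin : ∀ j ∈ J, 1 ≤ j → ∀ N : ℕ, |(N : ℝ) - j * μ| < l * (j : ℝ) ^ (2 / 3 : ℝ) →
        lo ≤ N ∧ (N : ℝ) ≤ hi := by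
      intro j hj _ N hN
      have h1 := hjq j hj
      have h2 := abs_lt.1 hN
      have h3 : (n : ℝ) ≤ j := by exact_mod_cast (hJ j hj).1
      have h4 := (hJ j hj).2
      have h5 : l * (j : ℝ) ^ (2 / 3 : ℝ) ≤ l * (2 * q) := mul_le_mul_of_nonneg_left h1 hl.le
      have h6 : (n : ℝ) * μ ≤ j * μ := mul_le_mul_of_nonneg_right h3 hμ0.le
      have h7 : (j : ℝ) * μ ≤ (n + q) * μ := mul_le_mul_of_nonneg_right h4 hμ0.le
      constructor <;> nlinarith
    have h1 := htr J (fun _ => 1) (fun N => if lo ≤ (N : ℝ) ∧ (N : ℝ) ≤ hi then 1 else 0)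
      (⌊hi⌋₊ + 1) (fun _ _ => zero_le_one) (fun N _ => by split_ifs <;> norm_num)
      (fun j hj hj1 N hN => by
        have h2 := hwin j hj hj1 N hN
        refine ⟨?_, by rw [if_pos h2]⟩
        have := Nat.le_floor h2.2
        omega)
    simp only [mul_one] at h1
    refine h1.trans ?_
    have h2 : ∑ N ∈ range (⌊hi⌋₊ + 1), (if lo ≤ (N : ℝ) ∧ (N : ℝ) ≤ hi then (1 : ℝ) else 0) * R N =
        ∑ N ∈ (range (⌊hi⌋₊ + 1)).filter (fun N : ℕ => lo ≤ N ∧ (N : ℝ) ≤ hi), R N := by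
      rw [sum_filter]
      refine sum_congr rfl fun N _ => ?_
      split_ifs <;> simp
    rw [h2]
    have hlo2 : (n : ℝ) / 2 ≤ lo := by
      rw [hlo]
      nlinarith
    have h3 : ∀ N ∈ (range (⌊hi⌋₊ + 1)).filter (fun N : ℕ => lo ≤ N ∧ (N : ℝ) ≤ hi),
        R N ≤ KR * (8 * (n : ℝ) ^ (-(5 / 2) : ℝ)) := by
      intro N hN
      have h4 := (mem_filter.1 hN).2.1
      have h5 : (n : ℝ) / 2 ≤ N := hlo2.trans h4
      have h6 : 1 ≤ N := by
        rcases Nat.eq_zero_or_pos N with h0 | h0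
        · rw [h0, Nat.cast_zero] at h5
          linarith
        · exact h0
      refine (h.R_up N h6).trans (mul_le_mul_of_nonneg_left ?_ hKR)
      refine le_trans ?_ (half_rpow hnpos)
      exact Real.rpow_le_rpow_of_nonpos (by linarith) h5 (by norm_num)
    have h4 := sum_le_card_nsmul _ _ _ h3
    rw [nsmul_eq_mul] at h4
    have h5 := card_Icc_real lo hi (by rw [hlo, hhi]; nlinarith) (⌊hi⌋₊ + 1)
    have h6 : hi - lo + 1 ≤ (μ + 4 * l + 1) * q := by rw [hlo, hhi]; nlinarith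
    have h7 : q * (n : ℝ) ^ (-(5 / 2) : ℝ) = (n : ℝ) ^ (-(11 / 6) : ℝ) := by
      rw [hq, ← Real.rpow_add hnpos]; norm_num
    have h8 : 0 ≤ KR * (8 * (n : ℝ) ^ (-(5 / 2) : ℝ)) := by positivity
    calc 2 * ∑ N ∈ (range (⌊hi⌋₊ + 1)).filter (fun N : ℕ => lo ≤ N ∧ (N : ℝ) ≤ hi), R N ≤
          2 * (((μ + 4 * l + 1) * q) * (KR * (8 * (n : ℝ) ^ (-(5 / 2) : ℝ)))) := by
          refine mul_le_mul_of_nonneg_left ?_ (by norm_num)
          exact h4.trans (mul_le_mul_of_nonneg_right (h5.trans h6) h8)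
      _ = 16 * KR * (μ + 4 * l + 1) * (q * (n : ℝ) ^ (-(5 / 2) : ℝ)) := by ring
      _ = 16 * KR * (μ + 4 * l + 1) * (n : ℝ) ^ (-(11 / 6) : ℝ) := by rw [h7]
      _ ≤ _ := by
          refine mul_le_mul_of_nonneg_right ?_ hnpow.le
          have : 0 ≤ T * (n0 : ℝ) ^ (11 / 6 : ℝ) := by positivity
          linarith

/-- **the source near a point** -/
theorem TD.src_bound (h : TD c K KR p τ R) {ε B δ : ℝ} (hε : 0 < ε) (hB : 0 ≤ B) (hδ : 0 < δ) :
    ∃ A C : ℝ, 0 < A ∧ 0 < C ∧ ∃ n0 : ℕ, ∀ n : ℕ, n0 ≤ n → ∀ N : ℕ, N ≤ n →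
      (n : ℝ) - B * (n : ℝ) ^ (2 / 3 : ℝ) ≤ N →
      ∑ j ∈ (range (N + 1)).filter (fun j : ℕ => ε * n < j), τ j * pw p j N ≤
        δ * (n : ℝ) ^ (-(5 / 2) : ℝ) + C * (n : ℝ) ^ (-(2 / 3) : ℝ) *
          ∑ j ∈ (range (n + 1)).filter (fun j : ℕ => |mean p * j - n| ≤
            A * (n : ℝ) ^ (2 / 3 : ℝ)), τ j := by
  obtain ⟨l, hl, htr⟩ := h.transfer
  obtain ⟨K', hK', hloc⟩ := h.local
  have hμ := h.one_le_mean
  set μ := mean p with hμdef
  have hμ0 : 0 < μ := by linarith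
  have hKR := h.KR_nonneg
  have hpc := pc_pos (γ := 1 / 2) (by norm_num)
  -- the constant `Q` in `Q D^(-1/2)`
  set Q := 2 * (K' * 4 * (KR * (8 * ε ^ (-(5 / 2) : ℝ)))) * (2 * pc (1 / 2)) with hQ
  have hQ0 : 0 ≤ Q := by positivity
  -- choose `D = (Q/δ + 1)^2 + l + 1`
  set D := (Q / δ + 1) ^ 2 + 1 with hD
  have hD1 : 1 ≤ D := by rw [hD]; nlinarith [sq_nonneg (Q / δ + 1)]
  set A := D + 2 * l + B with hA
  have hA0 : 0 < A := by linarith
  obtain ⟨n1, hn1, hpow1⟩ := eventually_pow_lt (α := 2 / 3) (β := 1) (C := 4 * l / ε + 2 * A) (by norm_num)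
  refine ⟨A, K' * (2 * μ), hA0, by positivity, n1 + 1, fun n hn N hN hNB => ?_⟩
  have hn' : (1 : ℝ) ≤ n := by
    have : 1 ≤ n := by omega
    exact_mod_cast this
  have hnpos : (0 : ℝ) < n := by linarith
  set q := (n : ℝ) ^ (2 / 3 : ℝ) with hq
  have hq1 : 1 ≤ q := Real.one_le_rpow hn' (by norm_num)
  have hp1 := hpow1 n (by have : n1 ≤ n := by omega
                          exact_mod_cast this)
  rw [Real.rpow_one] at hp1
  have hlε : 0 ≤ 4 * l / ε := by positivity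
  have hp2 : 4 * l * q ≤ ε * n := by
    have h1 : 4 * l / ε * q ≤ n := by nlinarith
    rw [div_mul_eq_mul_div, div_le_iff₀ hε] at h1
    linarith
  have hp3 : 2 * A * q ≤ n := by nlinarith
  have hNn : (N : ℝ) ≤ n := by exact_mod_cast hN
  have hjq : ∀ j : ℕ, j ≤ N → (j : ℝ) ^ (2 / 3 : ℝ) ≤ q := by
    intro j hj
    refine Real.rpow_le_rpow (Nat.cast_nonneg _) ?_ (by norm_num)
    have : (j : ℝ) ≤ N := by exact_mod_cast hj
    linarith
  set J := (range (N + 1)).filter (fun j : ℕ => ε * n < j) with hJ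
  rw [← sum_filter_add_sum_filter_not J (fun j : ℕ => |μ * j - n| ≤ A * q), add_comm]
  refine add_le_add ?_ ?_
  · -- far `j`
    set J' := J.filter (fun j : ℕ => ¬ |μ * j - n| ≤ A * q) with hJ'
    have hJmem : ∀ j ∈ J', j ≤ N ∧ ε * n < j ∧ A * q < |μ * j - n| := by
      intro j hj
      obtain ⟨h1, h2⟩ := mem_filter.1 hj
      obtain ⟨h3, h4⟩ := mem_filter.1 h1
      have := mem_range.1 h3
      exact ⟨by omega, h4, not_le.1 h2⟩
    have hdist : ∀ j ∈ J', (D + 2 * l) * q ≤ |(N : ℝ) - j * μ| := by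
      intro j hj
      obtain ⟨h1, h2, h3⟩ := hJmem j hj
      have h4 : |μ * j - n| ≤ |(N : ℝ) - j * μ| + (n - N) := by
        have : μ * j - n = -((N : ℝ) - j * μ) + -(n - N) := by ring
        rw [this]
        refine (abs_add_le _ _).trans ?_
        rw [abs_neg, abs_neg, abs_of_nonneg (show (0 : ℝ) ≤ n - N by linarith)]
      have h5 : A * q = (D + 2 * l) * q + B * q := by rw [hA]; ring
      linarith
    have h1 : ∀ j ∈ J', τ j * pw p j N ≤
        τ j * (K' * (j : ℝ) ^ (1 / 3 : ℝ) * |(N : ℝ) - j * μ| ^ (-(3 / 2) : ℝ)) := by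
      intro j hj
      obtain ⟨h1, h2, h3⟩ := hJmem j hj
      have hj0 : 1 ≤ j := by
        rcases Nat.eq_zero_or_pos j with h0 | h0
        · rw [h0, Nat.cast_zero] at h2
          have : 0 < ε * n := by positivity
          linarith
        · exact h0
      refine mul_le_mul_of_nonneg_left ?_ (h.τ_nonneg j)
      refine (hloc j hj0 N).2 _ ?_ le_rfl
      have := hdist j hj
      have : 0 < (D + 2 * l) * q := by positivity
      linarith
    refine (sum_le_sum h1).trans ?_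
    have h2 := htr J' (fun j => K' * (j : ℝ) ^ (1 / 3 : ℝ) * |(N : ℝ) - j * μ| ^ (-(3 / 2) : ℝ))
      (fun M => if D * q ≤ |(M : ℝ) - N| ∧ ε * n / 2 ≤ M then
        K' * (n : ℝ) ^ (1 / 3 : ℝ) * (4 * |(M : ℝ) - N| ^ (-(3 / 2) : ℝ)) else 0)
      (⌈(n : ℝ) * μ + l * q⌉₊ + 1) (fun j _ => by positivity)
      (fun M _ => by split_ifs <;> positivity)
      (fun j hj hj1 M hM => by
        obtain ⟨h3, h4, h5⟩ := hJmem j hj
        have h6 := hjq j h3
        have h7 := hdist j hj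
        have h8 : |(M : ℝ) - j * μ| < l * q := lt_of_lt_of_le hM (mul_le_mul_of_nonneg_left h6 hl.le)
        have h9 := abs_lt.1 h8
        have hjn : (j : ℝ) ≤ n := by
          have : (j : ℝ) ≤ N := by exact_mod_cast h3
          linarith
        have hjpos : (0 : ℝ) < j := by exact_mod_cast hj1
        have h10 : (j : ℝ) * μ ≤ n * μ := mul_le_mul_of_nonneg_right hjn hμ0.le
        have h11 : |(N : ℝ) - j * μ| ≤ |(M : ℝ) - N| + l * q := by
          have : (N : ℝ) - j * μ = -((M : ℝ) - N) + ((M : ℝ) - j * μ) := by ring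
          rw [this]
          refine (abs_add_le _ _).trans ?_
          rw [abs_neg]
          linarith
        have h12 : |(M : ℝ) - N| ≤ |(N : ℝ) - j * μ| + l * q := by
          have : (M : ℝ) - N = -((N : ℝ) - j * μ) + ((M : ℝ) - j * μ) := by ring
          rw [this]
          refine (abs_add_le _ _).trans ?_
          rw [abs_neg]
          linarith
        have h13 : D * q ≤ |(M : ℝ) - N| := by nlinarith
        have h14 : ε * n / 2 ≤ M := by
          have h15 : (j : ℝ) ≤ j * μ := by nlinarith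
          nlinarith
        refine ⟨?_, ?_⟩
        · have h15 : (M : ℝ) ≤ (n : ℝ) * μ + l * q := by linarith
          have h16 := h15.trans (Nat.le_ceil _)
          have h17 : M ≤ ⌈(n : ℝ) * μ + l * q⌉₊ := by exact_mod_cast h16
          omega
        · rw [if_pos ⟨h13, h14⟩]
          have h18 : (j : ℝ) ^ (1 / 3 : ℝ) ≤ (n : ℝ) ^ (1 / 3 : ℝ) :=
            Real.rpow_le_rpow hjpos.le hjn (by norm_num)
          have hMN0 : 0 < |(M : ℝ) - N| := by
            have : 0 < D * q := by positivity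
            linarith
          have h19 : |(N : ℝ) - j * μ| ^ (-(3 / 2) : ℝ) ≤ 4 * |(M : ℝ) - N| ^ (-(3 / 2) : ℝ) := by
            have h20 : |(M : ℝ) - N| / 2 ≤ |(N : ℝ) - j * μ| := by nlinarith
            refine (Real.rpow_le_rpow_of_nonpos (by linarith) h20 (by norm_num)).trans ?_
            rw [Real.div_rpow hMN0.le (by norm_num), Real.rpow_neg (by norm_num : (0:ℝ) ≤ 2),
              div_inv_eq_mul, mul_comm]
            refine mul_le_mul_of_nonneg_right ?_ (by positivity)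
            have : (2 : ℝ) ^ (3 / 2 : ℝ) ≤ 2 ^ (2 : ℝ) :=
              Real.rpow_le_rpow_of_exponent_le (by norm_num) (by norm_num)
            refine this.trans (le_of_eq ?_)
            norm_num
          refine mul_le_mul ?_ h19 (by positivity) (by positivity)
          exact mul_le_mul_of_nonneg_left h18 hK'.le)
    refine h2.trans ?_
    have h3 : ∑ M ∈ range (⌈(n : ℝ) * μ + l * q⌉₊ + 1),
        (if D * q ≤ |(M : ℝ) - N| ∧ ε * n / 2 ≤ M then
          K' * (n : ℝ) ^ (1 / 3 : ℝ) * (4 * |(M : ℝ) - N| ^ (-(3 / 2) : ℝ)) else 0) * R M ≤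
        ∑ M ∈ (range (⌈(n : ℝ) * μ + l * q⌉₊ + 1)).filter (fun M : ℕ => D * q ≤ |(M : ℝ) - N|),
          (K' * (n : ℝ) ^ (1 / 3 : ℝ) * 4 * (KR * (8 * (ε * n) ^ (-(5 / 2) : ℝ)))) *
            |(M : ℝ) - N| ^ (-(3 / 2) : ℝ) := by
      rw [sum_filter]
      refine sum_le_sum fun M _ => ?_
      by_cases h4 : D * q ≤ |(M : ℝ) - N|
      · rw [if_pos h4]
        by_cases h5 : ε * n / 2 ≤ (M : ℝ)
        · rw [if_pos ⟨h4, h5⟩]
          have hεn : 0 < ε * n := by positivity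
          have h6 : 1 ≤ M := by
            rcases Nat.eq_zero_or_pos M with h0 | h0
            · rw [h0, Nat.cast_zero] at h5
              linarith
            · exact h0
          have h7 : R M ≤ KR * (8 * (ε * n) ^ (-(5 / 2) : ℝ)) := by
            refine (h.R_up M h6).trans (mul_le_mul_of_nonneg_left ?_ hKR)
            refine le_trans ?_ (half_rpow hεn)
            exact Real.rpow_le_rpow_of_nonpos (by linarith) h5 (by norm_num)
          calc _ ≤ K' * (n : ℝ) ^ (1 / 3 : ℝ) * (4 * |(M : ℝ) - N| ^ (-(3 / 2) : ℝ)) *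
                (KR * (8 * (ε * n) ^ (-(5 / 2) : ℝ))) :=
                mul_le_mul_of_nonneg_left h7 (by positivity)
            _ = _ := by ring
        · rw [if_neg (fun h => h5 h.2), zero_mul]
          positivity
      · rw [if_neg (fun h => h4 h.1), if_neg h4, zero_mul]
    refine (mul_le_mul_of_nonneg_left h3 (by norm_num)).trans ?_
    rw [← Finset.mul_sum]
    have hDq : 1 ≤ D * q := by nlinarith
    have h4 := sum_far hDq N (⌈(n : ℝ) * μ + l * q⌉₊ + 1)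
    have h5 : 0 ≤ K' * (n : ℝ) ^ (1 / 3 : ℝ) * 4 * (KR * (8 * (ε * n) ^ (-(5 / 2) : ℝ))) := by
      positivity
    have h6 : (D * q) ^ (-(1 / 2) : ℝ) = D ^ (-(1 / 2) : ℝ) * (n : ℝ) ^ (-(1 / 3) : ℝ) := by
      rw [Real.mul_rpow (by linarith) (by linarith), hq, ← Real.rpow_mul hnpos.le]
      norm_num
    have h7 : (ε * n) ^ (-(5 / 2) : ℝ) = ε ^ (-(5 / 2) : ℝ) * (n : ℝ) ^ (-(5 / 2) : ℝ) :=
      Real.mul_rpow hε.le hnpos.le
    have h8 : (n : ℝ) ^ (1 / 3 : ℝ) * (n : ℝ) ^ (-(1 / 3) : ℝ) = 1 := by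
      rw [← Real.rpow_add hnpos]; norm_num
    have h9 : Q * D ^ (-(1 / 2) : ℝ) ≤ δ := by
      have h10 : (Q / δ + 1) ≤ D ^ (1 / 2 : ℝ) := by
        rw [← Real.sqrt_eq_rpow]
        refine Real.le_sqrt_of_sq_le ?_
        rw [hD]; linarith
      have hD0 : 0 < D := by linarith
      have h11 : 0 < D ^ (1 / 2 : ℝ) := by positivity
      rw [Real.rpow_neg hD0.le, ← div_eq_mul_inv, div_le_iff₀ h11]
      have h12 : Q ≤ δ * (Q / δ + 1) := by
        rw [mul_add, mul_div_cancel₀ _ hδ.ne']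
        linarith
      exact h12.trans (mul_le_mul_of_nonneg_left h10 hδ.le)
    calc 2 * (K' * (n : ℝ) ^ (1 / 3 : ℝ) * 4 * (KR * (8 * (ε * n) ^ (-(5 / 2) : ℝ))) *
          ∑ M ∈ (range (⌈(n : ℝ) * μ + l * q⌉₊ + 1)).filter
            (fun M : ℕ => D * q ≤ |(M : ℝ) - N|), |(M : ℝ) - N| ^ (-(3 / 2) : ℝ)) ≤
          2 * (K' * (n : ℝ) ^ (1 / 3 : ℝ) * 4 * (KR * (8 * (ε * n) ^ (-(5 / 2) : ℝ))) *
            (2 * pc (1 / 2) * (D * q) ^ (-(1 / 2) : ℝ))) :=
          mul_le_mul_of_nonneg_left (mul_le_mul_of_nonneg_left h4 h5) (by norm_num)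
      _ = Q * D ^ (-(1 / 2) : ℝ) * ((n : ℝ) ^ (1 / 3 : ℝ) * (n : ℝ) ^ (-(1 / 3) : ℝ)) *
            (n : ℝ) ^ (-(5 / 2) : ℝ) := by
          rw [h6, h7, hQ]; ring
      _ = Q * D ^ (-(1 / 2) : ℝ) * (n : ℝ) ^ (-(5 / 2) : ℝ) := by rw [h8, mul_one]
      _ ≤ δ * (n : ℝ) ^ (-(5 / 2) : ℝ) := mul_le_mul_of_nonneg_right h9 (by positivity)
  · -- near `j`
    rw [Finset.mul_sum]
    have h1 : ∀ j ∈ J.filter (fun j : ℕ => |μ * j - n| ≤ A * q), τ j * pw p j N ≤
        K' * (2 * μ) * (n : ℝ) ^ (-(2 / 3) : ℝ) * τ j := by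
      intro j hj
      obtain ⟨h2, h3⟩ := mem_filter.1 hj
      obtain ⟨h4, h5⟩ := mem_filter.1 h2
      have hj0 : 1 ≤ j := by
        rcases Nat.eq_zero_or_pos j with h0 | h0
        · rw [h0, Nat.cast_zero] at h5
          have : 0 < ε * n := by positivity
          linarith
        · exact h0
      have hjpos : (0 : ℝ) < j := by exact_mod_cast hj0
      have h6 : (n : ℝ) / (2 * μ) ≤ j := by
        rw [div_le_iff₀ (by positivity)]
        have := (abs_le.1 h3).1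
        nlinarith
      have h7 : (j : ℝ) ^ (-(2 / 3) : ℝ) ≤ (2 * μ) * (n : ℝ) ^ (-(2 / 3) : ℝ) := by
        refine (Real.rpow_le_rpow_of_nonpos (by positivity) h6 (by norm_num)).trans ?_
        rw [Real.div_rpow hnpos.le (by positivity), Real.rpow_neg (by positivity : 0 ≤ 2 * μ),
          div_inv_eq_mul, mul_comm]
        refine mul_le_mul_of_nonneg_right ?_ (by positivity)
        have : (2 * μ) ^ (2 / 3 : ℝ) ≤ (2 * μ) ^ (1 : ℝ) :=
          Real.rpow_le_rpow_of_exponent_le (by linarith) (by norm_num)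
        rwa [Real.rpow_one] at this
      calc τ j * pw p j N ≤ τ j * (K' * (j : ℝ) ^ (-(2 / 3) : ℝ)) :=
            mul_le_mul_of_nonneg_left (hloc j hj0 N).1 (h.τ_nonneg j)
        _ ≤ τ j * (K' * ((2 * μ) * (n : ℝ) ^ (-(2 / 3) : ℝ))) :=
            mul_le_mul_of_nonneg_left (mul_le_mul_of_nonneg_left h7 hK'.le) (h.τ_nonneg j)
        _ = _ := by ring
    refine (sum_le_sum h1).trans ?_
    refine sum_le_sum_of_subset_of_nonneg ?_ fun j _ _ => by
      have := h.τ_nonneg j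
      positivity
    intro j hj
    obtain ⟨h2, h3⟩ := mem_filter.1 hj
    have h4 := mem_range.1 (mem_filter.1 h2).1
    exact mem_filter.2 ⟨mem_range.2 (by omega), h3⟩

end

end Pool.Agent.DiamP
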