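import Pool.Agent.DiamP.Sys
import Pool.Agent.DiamP.Tau2

/-!
# The kernel of the rigid term (chapter 4 of MP_d7a93a_pr)
-/

set_option autoImplicit false

open Finset Filter Topology
open scoped Real

namespace Pool.Agent.DiamP

/-- `Σ_j ρ_j Y^{*j}` -/
noncomputable def RR (ρ Y : ℕ → ℝ) (n : ℕ) : ℝ := ∑ j ∈ range (n + 1), ρ j * pw Y j n

/-- the kernel `Σ_j j ρ_j Y^{*(j-1)}` -/
noncomputable def kk (ρ Y : ℕ → ℝ) (m : ℕ) : ℝ :=
  ∑ j ∈ range (m + 2), (j : ℝ) * ρ j * pw Y (j - 1) m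

theorem kk_nonneg {ρ Y : ℕ → ℝ} (hρ : ∀ j, 0 ≤ ρ j) (hY : ∀ n, 0 ≤ Y n) (m : ℕ) : 0 ≤ kk ρ Y m :=
  sum_nonneg fun j _ => mul_nonneg (mul_nonneg (Nat.cast_nonneg j) (hρ j)) (pw_nonneg hY _ _)

/-- size biasing of `Σ_j ρ_j Y^{*j}` -/
theorem sb_RR (ρ : ℕ → ℝ) {Y : ℕ → ℝ} (hY : Y 0 = 0) (N : ℕ) :
    (N : ℝ) * RR ρ Y N = cv (sb Y) (kk ρ Y) N := by
  have h1 : cv (sb Y) (kk ρ Y) N =
      ∑ j ∈ range (N + 1), (j : ℝ) * ρ j * cv (sb Y) (pw Y (j - 1)) N := by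
    have h2 : ∀ ij ∈ antidiagonal N, sb Y ij.1 * kk ρ Y ij.2 =
        ∑ j ∈ range (N + 1), (j : ℝ) * ρ j * (sb Y ij.1 * pw Y (j - 1) ij.2) := by
      intro ij hij
      have hsum := mem_antidiagonal.1 hij
      rcases Nat.eq_zero_or_pos ij.1 with h0 | h0
      · have : sb Y ij.1 = 0 := by rw [h0]; simp [sb]
        rw [this]
        simp
      · unfold kk
        rw [Finset.mul_sum]
        have h3 : ∑ j ∈ range (ij.2 + 2), sb Y ij.1 * ((j : ℝ) * ρ j * pw Y (j - 1) ij.2) =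
            ∑ j ∈ range (N + 1), sb Y ij.1 * ((j : ℝ) * ρ j * pw Y (j - 1) ij.2) := by
          refine sum_subset ?_ fun j _ hj => ?_
          · intro j hj
            have := mem_range.1 hj
            exact mem_range.2 (by omega)
          · have hj' : ij.2 + 2 ≤ j := by
              by_contra hcon
              exact hj (mem_range.2 (by omega))
            rw [pw_eq_zero hY (show ij.2 < j - 1 by omega)]
            ring
        rw [h3]
        exact sum_congr rfl fun j _ => by ring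
    unfold cv
    rw [sum_congr rfl h2, sum_comm]
    exact sum_congr rfl fun j _ => by rw [Finset.mul_sum]
  rw [h1]
  unfold RR
  rw [Finset.mul_sum]
  refine sum_congr rfl fun j _ => ?_
  rcases j with _ | j
  · rcases Nat.eq_zero_or_pos N with rfl | hN
    · simp
    · have : pw Y 0 N = 0 := by
        rw [pw_zero]
        simp [one0]
        omega
      rw [this]
      simp
  · have h2 := congrFun (sb_pw Y j) N
    simp only [sb, Pi.smul_apply, smul_eq_mul] at h2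
    rw [show j + 1 - 1 = j from rfl]
    have h3 : (N : ℝ) * (ρ (j + 1) * pw Y (j + 1) N) = ρ (j + 1) * ((N : ℝ) * pw Y (j + 1) N) := by
      ring
    rw [h3, h2]
    push_cast
    unfold sb
    ring

/-- the kernel is small: `k(m) Y(1) ≤ (m+1) R(m+1)` -/
theorem kk_mul_le {ρ Y : ℕ → ℝ} (hρ : ∀ j, 0 ≤ ρ j) (hY : ∀ n, 0 ≤ Y n) (hY0 : Y 0 = 0) (m : ℕ) :
    Y 1 * kk ρ Y m ≤ ((m + 1 : ℕ) : ℝ) * RR ρ Y (m + 1) := by
  rw [sb_RR ρ hY0]
  have h1 := le_cv (F := sb Y) (G := kk ρ Y) (fun n => mul_nonneg (Nat.cast_nonneg n) (hY n))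
    (kk_nonneg hρ hY) 1 m
  rw [add_comm 1 m] at h1
  refine le_trans (le_of_eq ?_) h1
  simp [sb]

/-- partial sums of the kernel -/
theorem sum_kk_le {ρ Y : ℕ → ℝ} (hρ : ∀ j, 0 ≤ ρ j) (hY : ∀ n, 0 ≤ Y n) (hYs : Summable Y)
    {B : ℝ} (hB : ∀ J : Finset ℕ, ∑ j ∈ J, (j : ℝ) * ρ j * tot Y ^ (j - 1) ≤ B) (s : Finset ℕ) :
    ∑ m ∈ s, kk ρ Y m ≤ B := by
  obtain ⟨M, hM⟩ : ∃ M, ∀ n ∈ s, n ≤ M := ⟨s.sup id, fun n hn => Finset.le_sup (f := id) hn⟩
  have h1 : ∀ m ∈ s, kk ρ Y m ≤ ∑ j ∈ range (M + 2), (j : ℝ) * ρ j * pw Y (j - 1) m := by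
    intro m hm
    refine sum_le_sum_of_subset_of_nonneg ?_ fun j _ _ =>
      mul_nonneg (mul_nonneg (Nat.cast_nonneg j) (hρ j)) (pw_nonneg hY _ _)
    intro j hj
    have := mem_range.1 hj
    have := hM m hm
    exact mem_range.2 (by omega)
  refine (sum_le_sum h1).trans ?_
  rw [sum_comm]
  refine le_trans (sum_le_sum fun j _ => ?_) (hB (range (M + 2)))
  rw [← Finset.mul_sum]
  refine mul_le_mul_of_nonneg_left ?_ (mul_nonneg (Nat.cast_nonneg j) (hρ j))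
  obtain ⟨h2, h3⟩ := tot_pw hY hYs (j - 1)
  rw [← h3]
  exact h2.sum_le_tsum s fun n _ => pw_nonneg hY _ n

section
variable {x y : ℝ} {ρ a z S P R Y : ℕ → ℝ}

theorem Sys.R_eq_RR (h : Sys x y ρ a z S P R Y) (n : ℕ) : R n = RR ρ Y n := h.R_eq n

/-- the normalised law of `Y` -/
noncomputable def nrm (Y : ℕ → ℝ) : ℕ → ℝ := (tot Y)⁻¹ • Y

theorem pw_nrm {Y : ℕ → ℝ} (hY : 0 < tot Y) (j n : ℕ) :
    pw Y j n = tot Y ^ j * pw (nrm Y) j n := by
  have h1 : Y = tot Y • nrm Y := by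
    unfold nrm
    rw [smul_smul, mul_inv_cancel₀ hY.ne', one_smul]
  conv_lhs => rw [h1, pw_smul]
  rfl

theorem Sys.td (h : Sys x y ρ a z S P R Y) {c K : ℝ} (hm : h.Mass c K) :
    TD (c / tot Y) (K / tot Y * pc (3 / 2)) K (nrm Y) (fun j => ρ j * tot Y ^ j) R := by
  have hT := h.totY_pos hm
  have hK := hm.fY.K_nonneg
  have hlaw : IsLaw (nrm Y) := by
    refine ⟨fun n => ?_, ?_⟩
    · exact mul_nonneg (inv_nonneg.2 hT.le) (h.Y_nonneg n)
    · have := hm.fY.summable.hasSum.mul_left (tot Y)⁻¹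
      have e : (tot Y)⁻¹ * ∑' n, Y n = 1 := inv_mul_cancel₀ hT.ne'
      rw [e] at this
      exact this
  refine ⟨div_pos hm.c_pos hT, ⟨⟨hlaw, fun s hs => ?_⟩, fun n hn => ?_⟩, ?_, ?_, ?_, ?_, hm.fR.up⟩
  · have h1 : tl (nrm Y) s ≤ ∑' n : ℕ, K / tot Y * ((n + s : ℕ) : ℝ) ^ (-(1 + 3 / 2) : ℝ) := by
      refine Summable.tsum_le_tsum (fun n => ?_) ((summable_nat_add_iff s).2 hlaw.summable)
        ((summable_pow (γ := 3 / 2) (by norm_num) hs).mul_left _)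
      have := hm.fY.up (n + s) (by omega)
      rw [show (-(1 + 3 / 2) : ℝ) = -(5 / 2) by norm_num]
      have h2 := mul_le_mul_of_nonneg_left this (inv_nonneg.2 hT.le)
      refine le_trans (le_of_eq rfl) (h2.trans (le_of_eq ?_))
      ring
    rw [tsum_mul_left] at h1
    refine h1.trans ?_
    rw [mul_assoc]
    exact mul_le_mul_of_nonneg_left (tsum_pow_le (by norm_num) hs) (by positivity)
  · have h1 := (hm.low n hn).trans (h.z_le_Y n)
    have h2 := mul_le_mul_of_nonneg_left h1 (inv_nonneg.2 hT.le)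
    refine le_trans (le_of_eq ?_) (h2.trans (le_of_eq rfl))
    ring
  · simp [nrm, h.Y_zero]
  · exact fun j => mul_nonneg (h.ρ_nonneg j) (by positivity)
  · simp [h.ρ_zero]
  · intro n
    rw [h.R_eq]
    refine sum_congr rfl fun j _ => ?_
    rw [pw_nrm hT]
    ring

/-- the cut weights -/
noncomputable def lo (ρ : ℕ → ℝ) (E : ℕ) (j : ℕ) : ℝ := if j ≤ E then ρ j else 0

/-- the cut weights -/
noncomputable def up (ρ : ℕ → ℝ) (E : ℕ) (j : ℕ) : ℝ := if j ≤ E then 0 else ρ j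

theorem lo_nonneg {ρ : ℕ → ℝ} (hρ : ∀ j, 0 ≤ ρ j) (E j : ℕ) : 0 ≤ lo ρ E j := by
  unfold lo; split_ifs
  · exact hρ j
  · exact le_rfl

theorem up_nonneg {ρ : ℕ → ℝ} (hρ : ∀ j, 0 ≤ ρ j) (E j : ℕ) : 0 ≤ up ρ E j := by
  unfold up; split_ifs
  · exact le_rfl
  · exact hρ j

theorem kk_cut (ρ Y : ℕ → ℝ) (E m : ℕ) : kk ρ Y m = kk (lo ρ E) Y m + kk (up ρ E) Y m := by
  unfold kk
  rw [← sum_add_distrib]
  refine sum_congr rfl fun j _ => ?_
  unfold lo up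
  split_ifs <;> ring

/-- the low part of the kernel is small at large arguments -/
theorem Sys.kk_low (h : Sys x y ρ a z S P R Y) {c K : ℝ} (hm : h.Mass c K) {δ : ℝ} (hδ : 0 < δ) :
    ∃ M0 : ℕ, 1 ≤ M0 ∧ ∀ M : ℕ, M0 ≤ M → ∀ E : ℕ, 2 * (mean (nrm Y) * E) ≤ M →
      kk (lo ρ E) Y M ≤ δ * (M : ℝ) ^ (-(3 / 2) : ℝ) := by
  have htd := h.td hm
  have hT := h.totY_pos hm
  obtain ⟨K', hK', hloc⟩ := htd.local
  have hμ := htd.one_le_mean
  set μ := mean (nrm Y) with hμdef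
  have hsum := htd.summable_four_thirds
  set τ : ℕ → ℝ := fun j => ρ j * tot Y ^ j with hτ
  have hτ0 : ∀ j, 0 ≤ τ j := htd.τ_nonneg
  set δ1 := δ * tot Y / (2 * (4 * K')) with hδ1
  have hδ1pos : 0 < δ1 := by positivity
  -- tail of the series
  obtain ⟨J0, hJ0⟩ : ∃ J0 : ℕ, ∀ J : Finset ℕ, (∀ j ∈ J, J0 ≤ j) →
      ∑ j ∈ J, τ j * (j : ℝ) ^ (4 / 3 : ℝ) ≤ δ1 := by
    have h1 := (summable_iff_vanishing_norm.1 hsum) δ1 hδ1pos
    obtain ⟨s, hs⟩ := h1
    refine ⟨s.sup id + 1, fun J hJ => ?_⟩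
    have h2 := hs J (by
      rw [Finset.disjoint_left]
      intro j hj hjs
      have h3 := hJ j hj
      have h4 : j ≤ s.sup id := Finset.le_sup (f := id) hjs
      omega)
    rw [Real.norm_eq_abs] at h2
    exact (le_abs_self _).trans h2.le
  -- the finitely many first terms
  have hfix : ∀ j : ℕ, ∃ C : ℝ, 0 ≤ C ∧ ∀ M : ℕ, 1 ≤ M →
      pw Y (j - 1) M ≤ C * (M : ℝ) ^ (-(5 / 2) : ℝ) := fun j => by
    obtain ⟨C, hC⟩ := hm.fY.pw (j - 1)
    exact ⟨C, hC.K_nonneg, hC.up⟩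
  choose Cj hCj0 hCj using hfix
  set C1 := ∑ j ∈ range J0, (j : ℝ) * ρ j * Cj j with hC1
  have hC10 : 0 ≤ C1 := sum_nonneg fun j _ =>
    mul_nonneg (mul_nonneg (Nat.cast_nonneg j) (h.ρ_nonneg j)) (hCj0 j)
  refine ⟨⌈2 * C1 / δ⌉₊ + 1, by omega, fun M hM E hE => ?_⟩
  have hM1 : 1 ≤ M := by omega
  have hM' : (0 : ℝ) < M := by exact_mod_cast hM1
  have hMC : 2 * C1 / δ ≤ M := by
    have h1 := Nat.le_ceil (2 * C1 / δ)
    have h2 : ((⌈2 * C1 / δ⌉₊ + 1 : ℕ) : ℝ) ≤ M := by exact_mod_cast hM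
    push_cast at h2
    linarith
  unfold kk
  rw [← sum_filter_add_sum_filter_not (range (M + 2)) (fun j => j < J0)]
  have hp1 : ∑ j ∈ (range (M + 2)).filter (fun j => j < J0), (j : ℝ) * lo ρ E j * pw Y (j - 1) M ≤
      δ / 2 * (M : ℝ) ^ (-(3 / 2) : ℝ) := by
    have h1 : ∑ j ∈ (range (M + 2)).filter (fun j => j < J0),
        (j : ℝ) * lo ρ E j * pw Y (j - 1) M ≤ ∑ j ∈ (range (M + 2)).filter (fun j => j < J0),
        (j : ℝ) * ρ j * (Cj j * (M : ℝ) ^ (-(5 / 2) : ℝ)) := by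
      refine sum_le_sum fun j _ => ?_
      refine mul_le_mul ?_ (hCj j M hM1) (pw_nonneg h.Y_nonneg _ _)
        (mul_nonneg (Nat.cast_nonneg j) (h.ρ_nonneg j))
      refine mul_le_mul_of_nonneg_left ?_ (Nat.cast_nonneg j)
      unfold lo
      split_ifs
      · exact le_rfl
      · exact h.ρ_nonneg j
    have h2 : ∑ j ∈ (range (M + 2)).filter (fun j => j < J0),
        (j : ℝ) * ρ j * (Cj j * (M : ℝ) ^ (-(5 / 2) : ℝ)) ≤
        ∑ j ∈ range J0, (j : ℝ) * ρ j * (Cj j * (M : ℝ) ^ (-(5 / 2) : ℝ)) := by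
      refine sum_le_sum_of_subset_of_nonneg ?_ fun j _ _ =>
        mul_nonneg (mul_nonneg (Nat.cast_nonneg j) (h.ρ_nonneg j))
          (mul_nonneg (hCj0 j) (by positivity))
      intro j hj
      exact mem_range.2 (mem_filter.1 hj).2
    have h3 : ∑ j ∈ range J0, (j : ℝ) * ρ j * (Cj j * (M : ℝ) ^ (-(5 / 2) : ℝ)) =
        C1 * (M : ℝ) ^ (-(5 / 2) : ℝ) := by
      rw [hC1, Finset.sum_mul]
      exact sum_congr rfl fun j _ => by ring
    rw [h3] at h2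
    refine (h1.trans h2).trans ?_
    have h4 : (M : ℝ) ^ (-(3 / 2) : ℝ) = M * (M : ℝ) ^ (-(5 / 2) : ℝ) := by
      nth_rewrite 2 [← Real.rpow_one (M : ℝ)]
      rw [← Real.rpow_add hM']; norm_num
    rw [h4, ← mul_assoc]
    refine mul_le_mul_of_nonneg_right ?_ (by positivity)
    rw [div_le_iff₀ hδ] at hMC
    linarith
  have hp2 : ∑ j ∈ (range (M + 2)).filter (fun j => ¬ j < J0), (j : ℝ) * lo ρ E j * pw Y (j - 1) M ≤
      δ / 2 * (M : ℝ) ^ (-(3 / 2) : ℝ) := by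
    have h1 : ∀ j ∈ (range (M + 2)).filter (fun j => ¬ j < J0),
        (j : ℝ) * lo ρ E j * pw Y (j - 1) M ≤
          4 * K' / tot Y * (M : ℝ) ^ (-(3 / 2) : ℝ) * (τ j * (j : ℝ) ^ (4 / 3 : ℝ)) := by
      intro j _
      have hnn : 0 ≤ 4 * K' / tot Y * (M : ℝ) ^ (-(3 / 2) : ℝ) * (τ j * (j : ℝ) ^ (4 / 3 : ℝ)) := by
        have := hτ0 j
        positivity
      by_cases hjE : j ≤ E
      · have hlo : lo ρ E j = ρ j := by unfold lo; rw [if_pos hjE]
        rw [hlo]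
        rcases Nat.lt_or_ge j 2 with h2 | h2
        · have : (j : ℝ) * ρ j = 0 := by
            have : j = 0 ∨ j = 1 := by omega
            rcases this with rfl | rfl
            · simp
            · rw [h.ρ_one, mul_zero]
          rw [this, zero_mul]
          exact hnn
        obtain ⟨i, rfl⟩ : ∃ i, j = i + 1 := ⟨j - 1, by omega⟩
        rw [show i + 1 - 1 = i from rfl, pw_nrm hT]
        have hi : 1 ≤ i := by omega
        have hipos : (0 : ℝ) < i := by exact_mod_cast hi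
        have hiE : (i : ℝ) ≤ E := by
          have : i ≤ E := by omega
          exact_mod_cast this
        have h3 : (M : ℝ) / 2 ≤ |(M : ℝ) - i * μ| := by
          have h4 : (i : ℝ) * μ ≤ M / 2 := by
            have := mul_le_mul_of_nonneg_right hiE (show 0 ≤ μ by linarith)
            linarith
          rw [abs_of_nonneg (by linarith)]
          linarith
        have h4 := (hloc i hi M).2 _ (by positivity) h3
        have h5 : ((M : ℝ) / 2) ^ (-(3 / 2) : ℝ) ≤ 4 * (M : ℝ) ^ (-(3 / 2) : ℝ) := by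
          rw [Real.div_rpow hM'.le (by norm_num), Real.rpow_neg (by norm_num : (0:ℝ) ≤ 2),
            div_inv_eq_mul, mul_comm]
          refine mul_le_mul_of_nonneg_right ?_ (by positivity)
          have : (2 : ℝ) ^ (3 / 2 : ℝ) ≤ 2 ^ (2 : ℝ) :=
            Real.rpow_le_rpow_of_exponent_le (by norm_num) (by norm_num)
          refine this.trans (le_of_eq ?_)
          norm_num
        have h6 : (i : ℝ) ^ (1 / 3 : ℝ) ≤ ((i + 1 : ℕ) : ℝ) ^ (1 / 3 : ℝ) := by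
          refine Real.rpow_le_rpow hipos.le ?_ (by norm_num)
          push_cast; linarith
        have h7 : pw (nrm Y) i M ≤
            K' * ((i + 1 : ℕ) : ℝ) ^ (1 / 3 : ℝ) * (4 * (M : ℝ) ^ (-(3 / 2) : ℝ)) := by
          refine h4.trans (mul_le_mul ?_ h5 (by positivity) (by positivity))
          exact mul_le_mul_of_nonneg_left h6 hK'.le
        have hj1 : (0 : ℝ) < ((i + 1 : ℕ) : ℝ) := by positivity
        have h8 : ((i + 1 : ℕ) : ℝ) ^ (4 / 3 : ℝ) =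
            ((i + 1 : ℕ) : ℝ) * ((i + 1 : ℕ) : ℝ) ^ (1 / 3 : ℝ) := by
          nth_rewrite 2 [← Real.rpow_one ((i + 1 : ℕ) : ℝ)]
          rw [← Real.rpow_add hj1]; norm_num
        rw [h8]
        have h9 : 0 ≤ ((i + 1 : ℕ) : ℝ) * ρ (i + 1) * tot Y ^ i := by
          have := h.ρ_nonneg (i + 1)
          positivity
        calc ((i + 1 : ℕ) : ℝ) * ρ (i + 1) * (tot Y ^ i * pw (nrm Y) i M) =
              (((i + 1 : ℕ) : ℝ) * ρ (i + 1) * tot Y ^ i) * pw (nrm Y) i M := by ring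
          _ ≤ (((i + 1 : ℕ) : ℝ) * ρ (i + 1) * tot Y ^ i) *
              (K' * ((i + 1 : ℕ) : ℝ) ^ (1 / 3 : ℝ) * (4 * (M : ℝ) ^ (-(3 / 2) : ℝ))) :=
              mul_le_mul_of_nonneg_left h7 h9
          _ = _ := by
              simp only [hτ]
              rw [pow_succ]
              field_simp
      · have hlo : lo ρ E j = 0 := by unfold lo; rw [if_neg hjE]
        rw [hlo, mul_zero, zero_mul]
        exact hnn
    refine (sum_le_sum h1).trans ?_
    rw [← Finset.mul_sum]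
    have h2 := hJ0 ((range (M + 2)).filter (fun j => ¬ j < J0)) fun j hj =>
      not_lt.1 (mem_filter.1 hj).2
    calc 4 * K' / tot Y * (M : ℝ) ^ (-(3 / 2) : ℝ) *
          ∑ j ∈ (range (M + 2)).filter (fun j => ¬ j < J0), τ j * (j : ℝ) ^ (4 / 3 : ℝ) ≤
          4 * K' / tot Y * (M : ℝ) ^ (-(3 / 2) : ℝ) * δ1 :=
          mul_le_mul_of_nonneg_left h2 (by positivity)
      _ = δ / 2 * (M : ℝ) ^ (-(3 / 2) : ℝ) := by
          rw [hδ1]
          field_simp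
  linarith

end

end Pool.Agent.DiamP
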