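import Pool.Agent.DiamP.Ker

/-!
# The linear inequality for the rigid term (chapter 4 of MP_d7a93a_pr)
-/

set_option autoImplicit false

open Finset Filter Topology
open scoped Real

namespace Pool.Agent.DiamP

section
variable {x y : ℝ} {ρ a z S P R Y : ℕ → ℝ}

/-- masses of the kernel -/
theorem Sys.kk_up (h : Sys x y ρ a z S P R Y) {c K : ℝ} (hm : h.Mass c K) (m : ℕ) :
    kk ρ Y m ≤ K / c * ((m + 1 : ℕ) : ℝ) ^ (-(3 / 2) : ℝ) := by
  have h1 := kk_mul_le h.ρ_nonneg h.Y_nonneg h.Y_zero m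
  have h2 : c ≤ Y 1 := by
    have := (hm.low 1 le_rfl).trans (h.z_le_Y 1)
    rwa [Nat.cast_one, Real.one_rpow, mul_one] at this
  have hm1 : (0 : ℝ) < ((m + 1 : ℕ) : ℝ) := by positivity
  have h3 : RR ρ Y (m + 1) ≤ K * ((m + 1 : ℕ) : ℝ) ^ (-(5 / 2) : ℝ) := by
    rw [← h.R_eq_RR]
    exact hm.fR.up (m + 1) (by omega)
  have h4 : ((m + 1 : ℕ) : ℝ) ^ (-(3 / 2) : ℝ) =
      ((m + 1 : ℕ) : ℝ) * ((m + 1 : ℕ) : ℝ) ^ (-(5 / 2) : ℝ) := by
    nth_rewrite 2 [← Real.rpow_one ((m + 1 : ℕ) : ℝ)]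
    rw [← Real.rpow_add hm1]; norm_num
  have h5 := kk_nonneg h.ρ_nonneg h.Y_nonneg (Y := Y) m
  have hc := hm.c_pos
  rw [h4, div_mul_eq_mul_div, le_div_iff₀ hc]
  calc kk ρ Y m * c ≤ Y 1 * kk ρ Y m := by
        rw [mul_comm]
        exact mul_le_mul_of_nonneg_right h2 h5
    _ ≤ ((m + 1 : ℕ) : ℝ) * RR ρ Y (m + 1) := h1
    _ ≤ ((m + 1 : ℕ) : ℝ) * (K * ((m + 1 : ℕ) : ℝ) ^ (-(5 / 2) : ℝ)) :=
        mul_le_mul_of_nonneg_left h3 hm1.le
    _ = _ := by ring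

/-- the linear inequality for `R` -/
theorem Sys.R_lin (h : Sys x y ρ a z S P R Y) {c K : ℝ} (hm : h.Mass c K) :
    ∃ C : ℝ, 0 < C ∧ ∀ δ : ℝ, 0 < δ → ∃ N0 : ℕ, ∀ N : ℕ, N0 ≤ N → ∀ L : ℕ, 1 ≤ L → 2 * L ≤ N →
      R N ≤ ∑ m ∈ range (L + 1), kk ρ Y m * Y (N - m) +
        (C * (L : ℝ) ^ (-(1 / 2) : ℝ) + δ) * (N : ℝ) ^ (-(5 / 2) : ℝ) +
        ∑ j ∈ (range (N + 1)).filter (fun j : ℕ => 1 / (4 * mean (nrm Y)) * N < j),
          (ρ j * tot Y ^ j) * pw (nrm Y) j N := by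
  have htd := h.td hm
  have hT := h.totY_pos hm
  have hμ := htd.one_le_mean
  set μ := mean (nrm Y) with hμdef
  have hμ0 : 0 < μ := by linarith
  have hK := hm.fY.K_nonneg
  have hc := hm.c_pos
  have hpc := pc_pos (γ := 1 / 2) (by norm_num)
  refine ⟨8 * K * (K / c * pc (1 / 2)) + 1, by positivity, fun δ hδ => ?_⟩
  -- `Σ i Y i = μ tot Y`
  have hsbY : ∀ s : Finset ℕ, ∑ i ∈ s, sb Y i ≤ μ * tot Y := by
    intro s
    have h1 : ∀ i, sb Y i = tot Y * (nrm Y i * i) := by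
      intro i
      simp only [sb, nrm, Pi.smul_apply, smul_eq_mul]
      field_simp
    have h2 : ∑ i ∈ s, sb Y i = tot Y * ∑ i ∈ s, nrm Y i * i := by
      rw [Finset.mul_sum]
      exact sum_congr rfl fun i _ => h1 i
    rw [h2, mul_comm μ]
    refine mul_le_mul_of_nonneg_left ?_ hT.le
    exact htd.law.ht.summable_mean.sum_le_tsum s fun n _ =>
      mul_nonneg (htd.isLaw.nonneg n) (Nat.cast_nonneg n)
  set δ' := δ / (4 * (μ * tot Y)) with hδ'
  have hδ'0 : 0 < δ' := by positivity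
  obtain ⟨M0, hM0, hlow⟩ := h.kk_low hm hδ'0
  refine ⟨2 * M0 + 2, fun N hN L hL hLN => ?_⟩
  have hN1 : 1 ≤ N := by omega
  have hN' : (0 : ℝ) < N := by exact_mod_cast hN1
  set E := ⌊(N : ℝ) / (4 * μ)⌋₊ with hE
  have hEle : (E : ℝ) ≤ N / (4 * μ) := Nat.floor_le (by positivity)
  have hsb0 : ∀ n, 0 ≤ sb Y n := fun n => mul_nonneg (Nat.cast_nonneg n) (h.Y_nonneg n)
  have hk0 := kk_nonneg h.ρ_nonneg h.Y_nonneg (Y := Y)
  have hklo0 := kk_nonneg (lo_nonneg h.ρ_nonneg E) h.Y_nonneg (Y := Y)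
  have hkup0 := kk_nonneg (up_nonneg h.ρ_nonneg E) h.Y_nonneg (Y := Y)
  -- the identity
  have h1 : (N : ℝ) * R N = ∑ m ∈ range (N + 1), kk ρ Y m * sb Y (N - m) := by
    rw [h.R_eq_RR, sb_RR ρ h.Y_zero, cv_comm, cv_eq_range]
  have h2 : ∑ m ∈ range (N + 1), kk ρ Y m * sb Y (N - m) =
      ∑ m ∈ range (L + 1), kk ρ Y m * sb Y (N - m) +
      ∑ m ∈ Ico (L + 1) (N / 2 + 1), kk ρ Y m * sb Y (N - m) +
      ∑ m ∈ Ico (N / 2 + 1) (N + 1), kk ρ Y m * sb Y (N - m) := by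
    rw [Finset.range_eq_Ico, Finset.range_eq_Ico, sum_Ico_consecutive _ (Nat.zero_le _) (by omega),
      sum_Ico_consecutive _ (Nat.zero_le _) (by omega)]
  -- part 1
  have p1 : ∑ m ∈ range (L + 1), kk ρ Y m * sb Y (N - m) ≤
      N * ∑ m ∈ range (L + 1), kk ρ Y m * Y (N - m) := by
    rw [Finset.mul_sum]
    refine sum_le_sum fun m _ => ?_
    have h3 : ((N - m : ℕ) : ℝ) ≤ N := by exact_mod_cast Nat.sub_le _ _
    have h4 : 0 ≤ kk ρ Y m * Y (N - m) := mul_nonneg (hk0 m) (h.Y_nonneg _)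
    unfold sb
    calc kk ρ Y m * (((N - m : ℕ) : ℝ) * Y (N - m)) =
          ((N - m : ℕ) : ℝ) * (kk ρ Y m * Y (N - m)) := by ring
      _ ≤ _ := mul_le_mul_of_nonneg_right h3 h4
  -- part 2
  have p2 : ∑ m ∈ Ico (L + 1) (N / 2 + 1), kk ρ Y m * sb Y (N - m) ≤
      N * (8 * K * (K / c * pc (1 / 2)) * (L : ℝ) ^ (-(1 / 2) : ℝ) * (N : ℝ) ^ (-(5 / 2) : ℝ)) := by
    have h3 : ∀ m ∈ Ico (L + 1) (N / 2 + 1), kk ρ Y m * sb Y (N - m) ≤
        (N * (K * (8 * (N : ℝ) ^ (-(5 / 2) : ℝ)))) * (K / c * ((m + 1 : ℕ) : ℝ) ^ (-(3 / 2) : ℝ)) := by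
      intro m hm'
      have hm1 := mem_Ico.1 hm'
      have h4 : sb Y (N - m) ≤ N * (K * (8 * (N : ℝ) ^ (-(5 / 2) : ℝ))) := by
        unfold sb
        refine mul_le_mul ?_ ?_ (h.Y_nonneg _) hN'.le
        · exact_mod_cast Nat.sub_le _ _
        · exact (hm.fY.up (N - m) (by omega)).trans
            (mul_le_mul_of_nonneg_left (half_pow hN1 (by omega)) hK)
      rw [mul_comm (N * (K * (8 * (N : ℝ) ^ (-(5 / 2) : ℝ))))]
      exact mul_le_mul (h.kk_up hm m) h4 (hsb0 _) (by positivity)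
    refine (sum_le_sum h3).trans ?_
    rw [← Finset.mul_sum, ← Finset.mul_sum]
    have h4 : ∑ m ∈ Ico (L + 1) (N / 2 + 1), ((m + 1 : ℕ) : ℝ) ^ (-(3 / 2) : ℝ) ≤
        pc (1 / 2) * (L : ℝ) ^ (-(1 / 2) : ℝ) := by
      rw [Finset.sum_Ico_eq_sum_range]
      have h5 : ∑ k ∈ range (N / 2 + 1 - (L + 1)), ((L + 1 + k + 1 : ℕ) : ℝ) ^ (-(3 / 2) : ℝ) =
          ∑ n ∈ range (N / 2 + 1 - (L + 1)), ((n + (L + 2) : ℕ) : ℝ) ^ (-(1 + 1 / 2) : ℝ) := by
        refine sum_congr rfl fun k _ => ?_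
        rw [show (-(1 + 1 / 2) : ℝ) = -(3 / 2) by norm_num, show L + 1 + k + 1 = k + (L + 2) by ring]
      rw [h5]
      refine (sum_range_pow_le (γ := 1 / 2) (by norm_num) (s := L + 2) (by omega) _).trans ?_
      refine mul_le_mul_of_nonneg_left ?_ hpc.le
      have h6 : (0 : ℝ) ≤ ((N / 2 + 1 - (L + 1) + (L + 2) : ℕ) : ℝ) ^ (-(1 / 2) : ℝ) := by positivity
      have h7 : ((L + 2 : ℕ) : ℝ) ^ (-(1 / 2) : ℝ) ≤ (L : ℝ) ^ (-(1 / 2) : ℝ) := by
        refine Real.rpow_le_rpow_of_nonpos (by exact_mod_cast hL) ?_ (by norm_num)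
        push_cast; linarith
      linarith
    calc _ ≤ (N * (K * (8 * (N : ℝ) ^ (-(5 / 2) : ℝ)))) *
          (K / c * (pc (1 / 2) * (L : ℝ) ^ (-(1 / 2) : ℝ))) :=
          mul_le_mul_of_nonneg_left (mul_le_mul_of_nonneg_left h4 (by positivity)) (by positivity)
      _ = _ := by ring
  -- part 3
  have p3 : ∑ m ∈ Ico (N / 2 + 1) (N + 1), kk ρ Y m * sb Y (N - m) ≤
      N * (δ * (N : ℝ) ^ (-(5 / 2) : ℝ)) + N * RR (up ρ E) Y N := by
    have h3 : ∑ m ∈ Ico (N / 2 + 1) (N + 1), kk ρ Y m * sb Y (N - m) =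
        ∑ m ∈ Ico (N / 2 + 1) (N + 1), kk (lo ρ E) Y m * sb Y (N - m) +
        ∑ m ∈ Ico (N / 2 + 1) (N + 1), kk (up ρ E) Y m * sb Y (N - m) := by
      rw [← sum_add_distrib]
      refine sum_congr rfl fun m _ => ?_
      rw [kk_cut ρ Y E m]
      ring
    rw [h3]
    refine add_le_add ?_ ?_
    · have h4 : ∀ m ∈ Ico (N / 2 + 1) (N + 1), kk (lo ρ E) Y m * sb Y (N - m) ≤
          (δ' * (4 * (N : ℝ) ^ (-(3 / 2) : ℝ))) * sb Y (N - m) := by
        intro m hm'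
        have hm1 := mem_Ico.1 hm'
        refine mul_le_mul_of_nonneg_right ?_ (hsb0 _)
        have hmN : (N : ℝ) / 2 ≤ m := by
          have : N ≤ 2 * m := by omega
          have : (N : ℝ) ≤ 2 * m := by exact_mod_cast this
          linarith
        have h5 : 2 * (μ * E) ≤ m := by
          have h6 : μ * E ≤ μ * (N / (4 * μ)) := mul_le_mul_of_nonneg_left hEle hμ0.le
          have h7 : μ * ((N : ℝ) / (4 * μ)) = N / 4 := by field_simp
          rw [h7] at h6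
          linarith
        refine (hlow m (by omega) E h5).trans (mul_le_mul_of_nonneg_left ?_ hδ'0.le)
        refine (Real.rpow_le_rpow_of_nonpos (by positivity) hmN (by norm_num)).trans ?_
        rw [Real.div_rpow hN'.le (by norm_num), Real.rpow_neg (by norm_num : (0:ℝ) ≤ 2),
          div_inv_eq_mul, mul_comm]
        refine mul_le_mul_of_nonneg_right ?_ (by positivity)
        have : (2 : ℝ) ^ (3 / 2 : ℝ) ≤ 2 ^ (2 : ℝ) :=
          Real.rpow_le_rpow_of_exponent_le (by norm_num) (by norm_num)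
        refine this.trans (le_of_eq ?_)
        norm_num
      refine (sum_le_sum h4).trans ?_
      rw [← Finset.mul_sum]
      have h5 : ∑ m ∈ Ico (N / 2 + 1) (N + 1), sb Y (N - m) ≤ μ * tot Y := by
        have h6 : ∑ m ∈ Ico (N / 2 + 1) (N + 1), sb Y (N - m) =
            ∑ i ∈ (Ico (N / 2 + 1) (N + 1)).image (fun m => N - m), sb Y i := by
          rw [sum_image]
          intro m hm1 m' hm2 hmm
          have := mem_Ico.1 hm1
          have := mem_Ico.1 hm2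
          simp only at hmm
          omega
        rw [h6]
        exact hsbY _
      have h6 : (N : ℝ) ^ (-(3 / 2) : ℝ) = N * (N : ℝ) ^ (-(5 / 2) : ℝ) := by
        nth_rewrite 2 [← Real.rpow_one (N : ℝ)]
        rw [← Real.rpow_add hN']; norm_num
      calc δ' * (4 * (N : ℝ) ^ (-(3 / 2) : ℝ)) * ∑ m ∈ Ico (N / 2 + 1) (N + 1), sb Y (N - m) ≤
            δ' * (4 * (N : ℝ) ^ (-(3 / 2) : ℝ)) * (μ * tot Y) :=
            mul_le_mul_of_nonneg_left h5 (by positivity)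
        _ = N * (δ * (N : ℝ) ^ (-(5 / 2) : ℝ)) := by
            rw [h6, hδ']
            field_simp
    · rw [sb_RR _ h.Y_zero, cv_comm, cv_eq_range]
      refine sum_le_sum_of_subset_of_nonneg ?_ fun m _ _ => mul_nonneg (hkup0 m) (hsb0 _)
      intro m hm'
      have := mem_Ico.1 hm'
      exact mem_range.2 (by omega)
  -- the source
  have p4 : RR (up ρ E) Y N ≤
      ∑ j ∈ (range (N + 1)).filter (fun j : ℕ => 1 / (4 * μ) * N < j),
          (ρ j * tot Y ^ j) * pw (nrm Y) j N := by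
    unfold RR
    rw [sum_filter]
    refine sum_le_sum fun j _ => ?_
    by_cases hj : j ≤ E
    · have : up ρ E j = 0 := by unfold up; rw [if_pos hj]
      rw [this, zero_mul]
      split_ifs
      · exact mul_nonneg (htd.τ_nonneg j) ((htd.isLaw.pw j).nonneg N)
      · exact le_rfl
    · have h3 : up ρ E j = ρ j := by unfold up; rw [if_neg hj]
      have h4 : 1 / (4 * μ) * N < j := by
        have h5 : (N : ℝ) / (4 * μ) < E + 1 := Nat.lt_floor_add_one _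
        have h6 : (E : ℝ) + 1 ≤ j := by
          have : E + 1 ≤ j := by omega
          exact_mod_cast this
        have h7 : 1 / (4 * μ) * (N : ℝ) = N / (4 * μ) := by ring
        rw [h7]
        linarith
      rw [h3, if_pos h4, pw_nrm hT]
      exact le_of_eq (by ring)
  -- together
  have h3 : (N : ℝ) * R N ≤ N * (∑ m ∈ range (L + 1), kk ρ Y m * Y (N - m) +
      (8 * K * (K / c * pc (1 / 2)) * (L : ℝ) ^ (-(1 / 2) : ℝ) + δ) * (N : ℝ) ^ (-(5 / 2) : ℝ) +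
      RR (up ρ E) Y N) := by
    rw [h1, h2]
    calc _ ≤ _ := add_le_add (add_le_add p1 p2) p3
      _ = _ := by ring
  have h4 := le_of_mul_le_mul_left h3 hN'
  refine h4.trans ?_
  have h5 : 0 ≤ (L : ℝ) ^ (-(1 / 2) : ℝ) * (N : ℝ) ^ (-(5 / 2) : ℝ) := by positivity
  nlinarith

end

theorem MB.add {K T K' T' : ℝ} {F G : ℕ → ℝ} (hF : MB K T F) (hG : MB K' T' G) :
    MB (K + K') (T + T') (F + G) := by
  refine ⟨fun n => add_nonneg (hF.nonneg n) (hG.nonneg n), fun n hn => ?_, fun s => ?_⟩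
  · have h1 := hF.up n hn
    have h2 := hG.up n hn
    simp only [Pi.add_apply]
    linarith
  · simp only [Pi.add_apply]
    rw [sum_add_distrib]
    exact add_le_add (hF.sum s) (hG.sum s)

/-- the linear part against a bound on a window -/
theorem win_sum {F G : ℕ → ℝ} {T g : ℝ} (hF0 : F 0 = 0) (hF : ∀ n, 0 ≤ F n)
    (hs : ∀ s : Finset ℕ, ∑ n ∈ s, F n ≤ T) (hg : 0 ≤ g) {N L : ℕ}
    (hG : ∀ N' : ℕ, N - L ≤ N' → N' < N → G N' ≤ g) (hLN : L < N) :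
    ∑ m ∈ range (L + 1), F m * G (N - m) ≤ T * g := by
  have h1 : ∀ m ∈ range (L + 1), F m * G (N - m) ≤ F m * g := by
    intro m hm
    have := mem_range.1 hm
    rcases Nat.eq_zero_or_pos m with rfl | hm0
    · rw [hF0]; simp
    · exact mul_le_mul_of_nonneg_left (hG _ (by omega) (by omega)) (hF m)
  refine (sum_le_sum h1).trans ?_
  rw [← Finset.sum_mul]
  exact mul_le_mul_of_nonneg_right (hs _) hg

theorem win_sum' {F G : ℕ → ℝ} {T g : ℝ} (hF : ∀ n, 0 ≤ F n)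
    (hs : ∀ s : Finset ℕ, ∑ n ∈ s, F n ≤ T) (hg : 0 ≤ g) {N L : ℕ}
    (hG : ∀ N' : ℕ, N - L ≤ N' → N' ≤ N → G N' ≤ g) :
    ∑ m ∈ range (L + 1), F m * G (N - m) ≤ T * g := by
  have h1 : ∀ m ∈ range (L + 1), F m * G (N - m) ≤ F m * g := by
    intro m hm
    have := mem_range.1 hm
    exact mul_le_mul_of_nonneg_left (hG _ (by omega) (by omega)) (hF m)
  refine (sum_le_sum h1).trans ?_
  rw [← Finset.sum_mul]
  exact mul_le_mul_of_nonneg_right (hs _) hg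

end Pool.Agent.DiamP
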