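import Pool.Agent.DiamP.Iter

/-!
# The numbers: the linearised critical system is a contraction
-/

set_option autoImplicit false

namespace Pool.Agent.DiamP

section
variable (t : ℝ)

/-- vertex weight on the critical curve (`PGr.scr`) -/
noncomputable def nx : ℝ := (1 + 3 * t) * (1 - t) ^ 3 / (16 * t ^ 3)

/-- critical value of networks (`PGr.ecr`) -/
noncomputable def nE : ℝ := 3 * t ^ 2 / ((1 - t) * (1 + 3 * t))

/-- the second parameter at the critical point -/
noncomputable def nu : ℝ := (1 - t) / (1 + 3 * t)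

/-- total of `z` -/
noncomputable def nz : ℝ := t * (1 - nu t) ^ 2

/-- total of `a` -/
noncomputable def nA : ℝ := 1 + nu t + t - 3 * nu t * t

/-- total of `S` -/
noncomputable def nS : ℝ := nx t * nE t ^ 2 / (1 + nx t * nE t)

/-- total of `P` -/
noncomputable def nP : ℝ := nE t ^ 2 / (1 + nE t)

/-- total of the kernel of `R` -/
noncomputable def nk : ℝ :=
  1 / (1 + nE t) ^ 2 + 1 / (1 + nx t * nE t) ^ 2 - 1 - (1 - nu t) ^ 2 * (1 - t) ^ 2

variable {t}

theorem nxE1 (h0 : 0 < t) (h1 : t < 1) :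
    nx t * (1 + nE t) = (1 - t) ^ 2 * (1 + 2 * t) / (16 * t ^ 3) := by
  have : 1 - t ≠ 0 := by linarith
  unfold nx nE
  field_simp
  ring

theorem nxz (h0 : 0 < t) : nx t * nz t = (1 - t) ^ 3 / (1 + 3 * t) := by
  unfold nx nz nu
  field_simp
  ring

theorem nzA (h0 : 0 < t) :
    nz t / nA t = 8 * t ^ 3 / ((1 + 3 * t) * (1 + 3 * t ^ 2)) := by
  have h2 : nA t = (2 + 6 * t ^ 2) / (1 + 3 * t) := by
    unfold nA nu
    field_simp
    ring
  have h3 : nz t = 16 * t ^ 3 / (1 + 3 * t) ^ 2 := by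
    unfold nz nu
    field_simp
    ring
  rw [h2, h3]
  field_simp
  ring

theorem nA_pos (h0 : 0 < t) : 0 < nA t := by
  have h2 : nA t = (2 + 6 * t ^ 2) / (1 + 3 * t) := by
    unfold nA nu
    field_simp
    ring
  rw [h2]
  positivity

theorem nxE (h0 : 0 < t) (h1 : t < 1) : nx t * nE t = 3 * (1 - t) ^ 2 / (16 * t) := by
  have : 1 - t ≠ 0 := by linarith
  unfold nx nE
  field_simp

theorem nES (h0 : 0 < t) (h1 : t < 1) :
    nx t * (nE t - nS t) = 3 * (1 - t) ^ 2 / ((3 * t + 1) * (t + 3)) := by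
  have h2 := nxE h0 h1
  have h3 : 0 < nx t * nE t := by rw [h2]; have : 0 < 1 - t := by linarith
                                  positivity
  have h4 : nx t * (nE t - nS t) = nx t * nE t / (1 + nx t * nE t) := by
    unfold nS
    have : 1 + nx t * nE t ≠ 0 := by linarith
    field_simp
    ring
  rw [h4, h2]
  have h5 : 16 * t + 3 * (1 - t) ^ 2 = (3 * t + 1) * (t + 3) := by ring
  rw [← h5]
  have h6 : 16 * t + 3 * (1 - t) ^ 2 ≠ 0 := by positivity
  field_simp

theorem nE_pos (h0 : 0 < t) (h1 : t < 1) : 0 < nE t := by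
  unfold nE
  have : 0 < 1 - t := by linarith
  positivity

theorem nEP (h0 : 0 < t) (h1 : t < 1) : nE t - nP t = 3 * t ^ 2 / (1 + 2 * t) := by
  have h2 := nE_pos h0 h1
  have h3 : nE t - nP t = nE t / (1 + nE t) := by
    unfold nP
    have : 1 + nE t ≠ 0 := by linarith
    field_simp
    ring
  rw [h3]
  unfold nE
  have h4 : 1 - t ≠ 0 := by linarith
  have h5 : (1 - t) * (1 + 3 * t) + 3 * t ^ 2 ≠ 0 := by
    have : (1 - t) * (1 + 3 * t) + 3 * t ^ 2 = 1 + 2 * t := by ring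
    rw [this]; linarith
  field_simp
  ring

theorem nk_eq (h0 : 0 < t) (h1 : t < 1) :
    nk t = ((1 - t) * (1 + 3 * t) / (1 + 2 * t)) ^ 2 + (16 * t / ((3 * t + 1) * (t + 3))) ^ 2 - 1 -
      (4 * t * (1 - t) / (1 + 3 * t)) ^ 2 := by
  have h4 : 1 - t ≠ 0 := by linarith
  have e1 : 1 + nE t = (1 + 2 * t) / ((1 - t) * (1 + 3 * t)) := by
    unfold nE
    field_simp
    ring
  have e2 : 1 + nx t * nE t = (3 * t + 1) * (t + 3) / (16 * t) := by
    rw [nxE h0 h1]
    field_simp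
    ring
  have e3 : 1 - nu t = 4 * t / (1 + 3 * t) := by
    unfold nu
    field_simp
    ring
  unfold nk
  rw [e1, e2, e3]
  simp only [div_pow, mul_pow]
  field_simp

/-- one piece of the range -/
theorem nk_piece {t0 t1 G1 G2 G3 : ℝ} (h0 : 0 < t0) (h : t0 ≤ t) (h' : t ≤ t1) (h1 : t1 < 1)
    (ht0 : 1 / 2 ≤ t0) (hG1 : 1 + 2 * t0 - 3 * t0 ^ 2 ≤ G1 * (1 + 2 * t0)) (hG1' : 0 ≤ G1)
    (hG2 : 16 * t1 ≤ G2 * ((3 * t1 + 1) * (t1 + 3))) (hG2' : 0 ≤ G2) (hG2'' : G2 ≤ 1)
    (hG3 : G3 * (1 + 3 * t1) ≤ 4 * t1 * (1 - t1)) (hG3' : 0 ≤ G3)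
    (hsum : G1 ^ 2 + G2 ^ 2 - 1 - G3 ^ 2 ≤ 588 / 10000) : nk t ≤ 588 / 10000 := by
  have ht : 0 < t := by linarith
  have ht1 : t < 1 := by linarith
  rw [nk_eq ht ht1]
  have h1t : 0 < 1 - t := by linarith
  have b1 : (1 - t) * (1 + 3 * t) / (1 + 2 * t) ≤ G1 := by
    rw [div_le_iff₀ (by positivity)]
    -- decreasing: `(1+2t-3t²)/(1+2t) = 1 - 3t²/(1+2t)`
    have h2 : 3 * t0 ^ 2 * (1 + 2 * t) ≤ 3 * t ^ 2 * (1 + 2 * t0) := by
      have : t ^ 2 * (1 + 2 * t0) - t0 ^ 2 * (1 + 2 * t) = (t - t0) * (t + t0 + 2 * t * t0) := by ring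
      have h3 : 0 ≤ (t - t0) * (t + t0 + 2 * t * t0) := mul_nonneg (by linarith) (by positivity)
      linarith
    have h3 : (1 - G1) * (1 + 2 * t0) ≤ 3 * t0 ^ 2 := by linarith
    have h4 : (1 - G1) * (1 + 2 * t0) * (1 + 2 * t) ≤ 3 * t0 ^ 2 * (1 + 2 * t) :=
      mul_le_mul_of_nonneg_right h3 (by positivity)
    have h5 : (1 - G1) * (1 + 2 * t) * (1 + 2 * t0) ≤ 3 * t ^ 2 * (1 + 2 * t0) := by linarith
    have h6 := le_of_mul_le_mul_right h5 (show 0 < 1 + 2 * t0 by positivity)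
    linarith
  have b2 : 16 * t / ((3 * t + 1) * (t + 3)) ≤ G2 := by
    rw [div_le_iff₀ (by positivity)]
    -- `G2 ((3t+1)(t+3)) - 16 t = G2 (3 t² + 10 t + 3) - 16 t` is decreasing for `t ≤ 1` as `G2 ≤ 1`
    have h2 : G2 * ((3 * t + 1) * (t + 3)) - 16 * t - (G2 * ((3 * t1 + 1) * (t1 + 3)) - 16 * t1) =
        (t1 - t) * (16 - G2 * (3 * (t + t1) + 10)) := by ring
    have h3 : 0 ≤ (t1 - t) * (16 - G2 * (3 * (t + t1) + 10)) := by
      refine mul_nonneg (by linarith) ?_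
      have : G2 * (3 * (t + t1) + 10) ≤ 1 * 16 :=
        mul_le_mul hG2'' (by linarith) (by linarith) (by norm_num)
      linarith
    linarith
  have b3 : G3 ≤ 4 * t * (1 - t) / (1 + 3 * t) := by
    rw [le_div_iff₀ (by positivity)]
    -- decreasing for `t ≥ 1/2`
    have h2 : 4 * t * (1 - t) - G3 * (1 + 3 * t) - (4 * t1 * (1 - t1) - G3 * (1 + 3 * t1)) =
        (t1 - t) * (4 * (t + t1 - 1) + 3 * G3) := by ring
    have h3 : 0 ≤ (t1 - t) * (4 * (t + t1 - 1) + 3 * G3) :=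
      mul_nonneg (by linarith) (by linarith)
    linarith
  have c1 : ((1 - t) * (1 + 3 * t) / (1 + 2 * t)) ^ 2 ≤ G1 ^ 2 :=
    pow_le_pow_left₀ (by positivity) b1 2
  have c2 : (16 * t / ((3 * t + 1) * (t + 3))) ^ 2 ≤ G2 ^ 2 := pow_le_pow_left₀ (by positivity) b2 2
  have c3 : G3 ^ 2 ≤ (4 * t * (1 - t) / (1 + 3 * t)) ^ 2 := pow_le_pow_left₀ hG3' b3 2
  linarith

theorem nk_le (h1 : 607 / 1000 ≤ t) (h2 : t ≤ 6295 / 10000) : nk t ≤ 588 / 10000 := by
  rcases le_total t (611 / 1000) with a | a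
  · exact nk_piece (t0 := 607 / 1000) (t1 := 611 / 1000) (G1 := 5008 / 10000) (G2 := 9557 / 10000)
      (G3 := 3355 / 10000) (by norm_num) h1 a (by norm_num) (by norm_num) (by norm_num) (by norm_num)
      (by norm_num) (by norm_num) (by norm_num) (by norm_num) (by norm_num) (by norm_num)
  rcases le_total t (615 / 1000) with b | b
  · exact nk_piece (t0 := 611 / 1000) (t1 := 615 / 1000) (G1 := 4960 / 10000) (G2 := 9568 / 10000)
      (G3 := 3328 / 10000) (by norm_num) a b (by norm_num) (by norm_num) (by norm_num) (by norm_num)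
      (by norm_num) (by norm_num) (by norm_num) (by norm_num) (by norm_num) (by norm_num)
  rcases le_total t (620 / 1000) with c | c
  · exact nk_piece (t0 := 615 / 1000) (t1 := 620 / 1000) (G1 := 4913 / 10000) (G2 := 9582 / 10000)
      (G3 := 3295 / 10000) (by norm_num) b c (by norm_num) (by norm_num) (by norm_num) (by norm_num)
      (by norm_num) (by norm_num) (by norm_num) (by norm_num) (by norm_num) (by norm_num)
  rcases le_total t (625 / 1000) with d | d
  · exact nk_piece (t0 := 620 / 1000) (t1 := 625 / 1000) (G1 := 4853 / 10000) (G2 := 9596 / 10000)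
      (G3 := 3260 / 10000) (by norm_num) c d (by norm_num) (by norm_num) (by norm_num) (by norm_num)
      (by norm_num) (by norm_num) (by norm_num) (by norm_num) (by norm_num) (by norm_num)
  · exact nk_piece (t0 := 625 / 1000) (t1 := 6295 / 10000) (G1 := 4793 / 10000) (G2 := 9608 / 10000)
      (G3 := 3229 / 10000) (by norm_num) d h2 (by norm_num) (by norm_num) (by norm_num) (by norm_num)
      (by norm_num) (by norm_num) (by norm_num) (by norm_num) (by norm_num) (by norm_num)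

/-- the contraction -/
theorem mat_num (h1 : 607 / 1000 ≤ t) (h2 : t ≤ 6295 / 10000) {y tS tP tR : ℝ}
    (hy : y = nz t / nA t ^ 2) (hS : tS = nS t) (hP : tP = nP t)
    (hR : nE t = nz t + tS + tP + tR) :
    Mat (98 / 100) (nx t) y (nA t) (nz t) tS tP tR (nE t) (nk t)
      (85 / 1000) (55 / 1000) (91 / 1000) (775 / 1000) (60 / 1000) := by
  have h0 : 0 < t := by linarith
  have ht1 : t < 1 := by linarith
  have hA := nA_pos h0
  have h1t : 0 < 1 - t := by linarith
  refine ⟨by norm_num, by norm_num, by norm_num, by norm_num, by norm_num, by norm_num,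
    by norm_num, ?_, ?_, ?_, ?_, ?_, by norm_num⟩
  · -- row z
    have e1 : 2 * y * nA t * (85 / 1000) = 170 / 1000 * (nz t / nA t) := by
      rw [hy]
      field_simp
      ring
    rw [e1, nzA h0]
    rw [← mul_div_assoc, div_le_iff₀ (by positivity)]
    nlinarith [mul_nonneg (mul_nonneg h0.le h0.le) (show 0 ≤ 6295 / 10000 - t by linarith),
      mul_nonneg h0.le (show 0 ≤ 6295 / 10000 - t by linarith)]
  · -- row a
    have e1 : 55 / 1000 * (1 + nx t * (1 + nE t)) + nx t * nz t =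
        55 / 1000 * (1 + (1 - t) ^ 2 * (1 + 2 * t) / (16 * t ^ 3)) + (1 - t) ^ 3 / (1 + 3 * t) := by
      rw [nxE1 h0 ht1, nxz h0]
    rw [e1]
    have b1 : (1 - t) ^ 2 ≤ (393 / 1000) ^ 2 := pow_le_pow_left₀ h1t.le (by linarith) 2
    have b2 : (607 / 1000) ^ 3 ≤ t ^ 3 := pow_le_pow_left₀ (by norm_num) h1 3
    have b3 : (1 - t) ^ 3 ≤ (393 / 1000) ^ 3 := pow_le_pow_left₀ h1t.le (by linarith) 3
    have c1 : (1 - t) ^ 2 * (1 + 2 * t) / (16 * t ^ 3) ≤ 98 / 1000 := by
      rw [div_le_iff₀ (by positivity)]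
      have : (1 - t) ^ 2 * (1 + 2 * t) ≤ (393 / 1000) ^ 2 * (226 / 100) :=
        mul_le_mul b1 (by linarith) (by linarith) (by norm_num)
      nlinarith
    have c2 : (1 - t) ^ 3 / (1 + 3 * t) ≤ 216 / 10000 := by
      rw [div_le_iff₀ (by positivity)]
      nlinarith
    linarith
  · -- row S
    have e1 : nx t * ((55 / 1000 + 775 / 1000 + 60 / 1000) * nE t + (nz t + tP + tR)) =
        890 / 1000 * (nx t * nE t) + nx t * (nE t - nS t) := by
      have : nz t + tP + tR = nE t - nS t := by rw [← hS]; linarith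
      rw [this]
      ring
    rw [e1, nxE h0 ht1, nES h0 ht1]
    have b1 : (1 - t) ^ 2 ≤ (393 / 1000) ^ 2 := pow_le_pow_left₀ h1t.le (by linarith) 2
    have c1 : 3 * (1 - t) ^ 2 / (16 * t) ≤ 478 / 10000 := by
      rw [div_le_iff₀ (by positivity)]
      nlinarith
    have c2 : 3 * (1 - t) ^ 2 / ((3 * t + 1) * (t + 3)) ≤ 456 / 10000 := by
      rw [div_le_iff₀ (by positivity)]
      nlinarith
    linarith
  · -- row P
    have e1 : (55 / 1000 + 91 / 1000 + 60 / 1000) * nE t + (nz t + tS + tR) =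
        206 / 1000 * nE t + (nE t - nP t) := by
      have : nz t + tS + tR = nE t - nP t := by rw [← hP]; linarith
      rw [this]
      ring
    rw [e1, nEP h0 ht1]
    have b1 : t ^ 2 ≤ (6295 / 10000) ^ 2 := pow_le_pow_left₀ h0.le h2 2
    have c1 : nE t ≤ 1112 / 1000 := by
      unfold nE
      rw [div_le_iff₀ (by positivity)]
      nlinarith
    have c2 : 3 * t ^ 2 / (1 + 2 * t) ≤ 5265 / 10000 := by
      rw [div_le_iff₀ (by positivity)]
      nlinarith
    linarith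
  · -- row R
    have := nk_le h1 h2
    linarith

end

end Pool.Agent.DiamP
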