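import Pool.Agent.DiamP.HeavyLoc

/-!
# Powers of sequences
-/

set_option autoImplicit false

open Finset Filter Topology
open scoped Real

namespace Pool.Agent.DiamP

/-- convolution power -/
noncomputable def pw (Y : ℕ → ℝ) (j : ℕ) : ℕ → ℝ := cvL (List.replicate j Y)

@[simp] theorem pw_zero (Y : ℕ → ℝ) : pw Y 0 = one0 := rfl

theorem pw_succ (Y : ℕ → ℝ) (j : ℕ) : pw Y (j + 1) = cv Y (pw Y j) := by
  unfold pw
  rw [List.replicate_succ, cvL_cons]

@[simp] theorem pw_one (Y : ℕ → ℝ) : pw Y 1 = Y := by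
  rw [pw_succ, pw_zero, cv_one0]

theorem one0_nonneg (n : ℕ) : 0 ≤ one0 n := isLaw_one0.nonneg n

theorem pw_nonneg {Y : ℕ → ℝ} (hY : ∀ n, 0 ≤ Y n) (j n : ℕ) : 0 ≤ pw Y j n := by
  induction j generalizing n with
  | zero => exact one0_nonneg n
  | succ j ih => rw [pw_succ]; exact cv_nonneg hY ih n

theorem pw_eq_zero {Y : ℕ → ℝ} (hY : Y 0 = 0) {j m : ℕ} (h : m < j) : pw Y j m = 0 := by
  induction j generalizing m with
  | zero => omega
  | succ j ih =>
    rw [pw_succ, cv_eq_range]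
    refine sum_eq_zero fun a ha => ?_
    have ha' := mem_range.1 ha
    rcases Nat.eq_zero_or_pos a with rfl | ha0
    · rw [hY, zero_mul]
    · rw [ih (by omega), mul_zero]

theorem cv_smul (c : ℝ) (p q : ℕ → ℝ) : cv (c • p) q = c • cv p q := by
  funext n
  simp only [cv, Pi.smul_apply, smul_eq_mul, Finset.mul_sum]
  exact sum_congr rfl fun _ _ => by ring

theorem cv_smul' (c : ℝ) (p q : ℕ → ℝ) : cv p (c • q) = c • cv p q := by
  rw [cv_comm, cv_smul, cv_comm]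

theorem pw_smul (c : ℝ) (Y : ℕ → ℝ) (j : ℕ) : pw (c • Y) j = c ^ j • pw Y j := by
  induction j with
  | zero => simp
  | succ j ih =>
    rw [pw_succ, ih, cv_smul, cv_smul', pw_succ, smul_smul, pow_succ']

theorem sb_pw (Y : ℕ → ℝ) (j : ℕ) : sb (pw Y (j + 1)) = ((j : ℝ) + 1) • cv (sb Y) (pw Y j) := by
  induction j with
  | zero => simp
  | succ j ih =>
    rw [pw_succ, sb_cv, ih, cv_smul', cv_left_comm, ← pw_succ]
    push_cast
    module

/-- splitting a convolution in the middle -/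
theorem cv_split {F G : ℕ → ℝ} (hF : ∀ n, 0 ≤ F n) (hG : ∀ n, 0 ≤ G n) (N : ℕ) :
    cv F G N ≤ ∑ m ∈ range (N / 2 + 1), F m * G (N - m) +
      ∑ m ∈ range (N / 2 + 1), G m * F (N - m) := by
  have h1 : cv F G N = ∑ m ∈ range (N / 2 + 1), F m * G (N - m) +
      ∑ m ∈ Ico (N / 2 + 1) (N + 1), F m * G (N - m) := by
    rw [cv_eq_range, Finset.range_eq_Ico, Finset.range_eq_Ico]
    exact (sum_Ico_consecutive _ (Nat.zero_le _) (by omega)).symm
  rw [h1]
  refine add_le_add le_rfl ?_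
  have h2 : ∑ m ∈ Ico (N / 2 + 1) (N + 1), F m * G (N - m) =
      ∑ m ∈ range (N - N / 2), G m * F (N - m) := by
    have := Finset.sum_Ico_reflect (fun m => F m * G (N - m)) (N / 2 + 1) (m := N + 1) (n := N)
      (le_refl _)
    refine Finset.sum_bij' (fun m _ => N - m) (fun m _ => N - m) ?_ ?_ ?_ ?_ ?_
    · intro m hm
      have := mem_Ico.1 hm
      exact mem_range.2 (by omega)
    · intro m hm
      have := mem_range.1 hm
      exact mem_Ico.2 (by omega)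
    · intro m hm
      have := mem_Ico.1 hm
      omega
    · intro m hm
      have := mem_range.1 hm
      omega
    · intro m hm
      have := mem_Ico.1 hm
      rw [show N - (N - m) = m by omega]
      ring
  rw [h2]
  refine sum_le_sum_of_subset_of_nonneg ?_ fun m _ _ => mul_nonneg (hG _) (hF _)
  intro m hm
  have := mem_range.1 hm
  exact mem_range.2 (by omega)

/-- masses `≤ K n^(-5/2)` for `n ≥ 1`, partial sums `≤ T` -/
structure MB (K T : ℝ) (F : ℕ → ℝ) : Prop where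
  nonneg : ∀ n, 0 ≤ F n
  up : ∀ n : ℕ, 1 ≤ n → F n ≤ K * (n : ℝ) ^ (-(5 / 2) : ℝ)
  sum : ∀ s : Finset ℕ, ∑ n ∈ s, F n ≤ T

theorem MB.K_nonneg {K T : ℝ} {F : ℕ → ℝ} (h : MB K T F) : 0 ≤ K := by
  have := h.up 1 le_rfl
  rw [Nat.cast_one, Real.one_rpow, mul_one] at this
  exact (h.nonneg 1).trans this

theorem MB.T_nonneg {K T : ℝ} {F : ℕ → ℝ} (h : MB K T F) : 0 ≤ T := by
  have := h.sum ∅
  simpa using this

theorem half_pow {N m : ℕ} (hN : 1 ≤ N) (hm : m ≤ N / 2) :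
    ((N - m : ℕ) : ℝ) ^ (-(5 / 2) : ℝ) ≤ 8 * (N : ℝ) ^ (-(5 / 2) : ℝ) := by
  have hN' : (0 : ℝ) < N := by exact_mod_cast hN
  have h1 : (N : ℝ) / 2 ≤ ((N - m : ℕ) : ℝ) := by
    have : N ≤ 2 * (N - m) := by omega
    have : (N : ℝ) ≤ 2 * ((N - m : ℕ) : ℝ) := by exact_mod_cast this
    linarith
  have h2 : ((N - m : ℕ) : ℝ) ^ (-(5 / 2) : ℝ) ≤ ((N : ℝ) / 2) ^ (-(5 / 2) : ℝ) :=
    Real.rpow_le_rpow_of_nonpos (by positivity) h1 (by norm_num)
  refine h2.trans ?_
  rw [Real.div_rpow hN'.le (by norm_num), Real.rpow_neg (by norm_num : (0:ℝ) ≤ 2), div_inv_eq_mul,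
    mul_comm]
  refine mul_le_mul_of_nonneg_right ?_ (by positivity)
  have : (2 : ℝ) ^ (5 / 2 : ℝ) ≤ 2 ^ (3 : ℝ) :=
    Real.rpow_le_rpow_of_exponent_le (by norm_num) (by norm_num)
  refine this.trans (le_of_eq ?_)
  norm_num

theorem MB.cv {K T K' T' : ℝ} {F G : ℕ → ℝ} (hF : MB K T F) (hG : MB K' T' G) :
    MB (8 * (T * K' + T' * K)) (T * T') (cv F G) := by
  refine ⟨cv_nonneg hF.nonneg hG.nonneg, fun N hN => ?_, fun s => ?_⟩
  · refine (cv_split hF.nonneg hG.nonneg N).trans ?_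
    have key : ∀ {K T K' T' : ℝ} {F G : ℕ → ℝ}, MB K T F → MB K' T' G →
        ∑ m ∈ range (N / 2 + 1), F m * G (N - m) ≤ 8 * (T * K') * (N : ℝ) ^ (-(5 / 2) : ℝ) := by
      intro K T K' T' F G hF hG
      have h1 : ∀ m ∈ range (N / 2 + 1), F m * G (N - m) ≤
          F m * (K' * (8 * (N : ℝ) ^ (-(5 / 2) : ℝ))) := by
        intro m hm
        have hm' := mem_range.1 hm
        refine mul_le_mul_of_nonneg_left ?_ (hF.nonneg m)
        refine (hG.up (N - m) (by omega)).trans ?_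
        exact mul_le_mul_of_nonneg_left (half_pow hN (by omega)) hG.K_nonneg
      refine (sum_le_sum h1).trans ?_
      rw [← Finset.sum_mul]
      have h2 : 0 ≤ K' * (8 * (N : ℝ) ^ (-(5 / 2) : ℝ)) := by
        have := hG.K_nonneg
        positivity
      refine (mul_le_mul_of_nonneg_right (hF.sum _) h2).trans (le_of_eq ?_)
      ring
    have h1 := key hF hG
    have h2 := key hG hF
    calc _ ≤ 8 * (T * K') * (N : ℝ) ^ (-(5 / 2) : ℝ) + 8 * (T' * K) * (N : ℝ) ^ (-(5 / 2) : ℝ) :=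
          add_le_add h1 h2
      _ = _ := by ring
  · -- partial sums
    obtain ⟨M, hM⟩ : ∃ M, ∀ n ∈ s, n < M := by
      refine ⟨s.sup id + 1, fun n hn => ?_⟩
      have : n ≤ s.sup id := Finset.le_sup (f := id) hn
      omega
    have h1 : ∑ n ∈ s, DiamP.cv F G n ≤ ∑ n ∈ range M, DiamP.cv F G n :=
      sum_le_sum_of_subset_of_nonneg (fun n hn => mem_range.2 (hM n hn))
        fun n _ _ => cv_nonneg hF.nonneg hG.nonneg n
    refine h1.trans ?_
    have h2 : ∑ n ∈ range M, DiamP.cv F G n ≤ ∑ a ∈ range M, ∑ b ∈ range M, F a * G b := by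
      unfold DiamP.cv
      rw [← Finset.sum_product', ← Finset.sum_biUnion]
      · refine sum_le_sum_of_subset_of_nonneg ?_ fun ab _ _ => mul_nonneg (hF.nonneg _) (hG.nonneg _)
        intro ab hab
        obtain ⟨n, hn, hab'⟩ := mem_biUnion.1 hab
        have := mem_range.1 hn
        have := mem_antidiagonal.1 hab'
        exact mem_product.2 ⟨mem_range.2 (by omega), mem_range.2 (by omega)⟩
      · intro m _ n _ hmn
        simp only [Function.onFun]
        rw [Finset.disjoint_left]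
        intro ab hm hn
        apply hmn
        rw [← mem_antidiagonal.1 hm, ← mem_antidiagonal.1 hn]
    refine h2.trans ?_
    have h3 : ∑ a ∈ range M, ∑ b ∈ range M, F a * G b =
        (∑ a ∈ range M, F a) * ∑ b ∈ range M, G b := by
      rw [Finset.sum_mul]
      exact sum_congr rfl fun a _ => by rw [Finset.mul_sum]
    rw [h3]
    exact mul_le_mul (hF.sum _) (hG.sum _) (sum_nonneg fun n _ => hG.nonneg n) hF.T_nonneg

theorem MB.one0 : MB 0 1 DiamP.one0 := by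
  refine ⟨one0_nonneg, fun n hn => ?_, fun s => isLaw_one0.sum_le_one s⟩
  have : DiamP.one0 n = 0 := by simp [DiamP.one0]; omega
  rw [this, zero_mul]

theorem MB.pw {K T : ℝ} {F : ℕ → ℝ} (hF : MB K T F) (j : ℕ) :
    ∃ K', MB K' (T ^ j) (pw F j) := by
  induction j with
  | zero => exact ⟨0, by rw [pw_zero, pow_zero]; exact MB.one0⟩
  | succ j ih =>
    obtain ⟨K', h⟩ := ih
    refine ⟨8 * (T * K' + T ^ j * K), ?_⟩
    rw [pw_succ, pow_succ']
    exact hF.cv h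

/-- the linear part of a product of two sequences: only `m ≤ L` matters -/
theorem MB.lin {K T K' T' : ℝ} {F G : ℕ → ℝ} (hF : MB K T F) (hG : MB K' T' G) {N L : ℕ}
    (hL : 1 ≤ L) (hLN : 2 * L ≤ N) :
    DiamP.cv F G N ≤ ∑ m ∈ range (L + 1), F m * G (N - m) + ∑ m ∈ range (L + 1), G m * F (N - m) +
      16 * pc (3 / 2) * (K * K') * (L : ℝ) ^ (-(3 / 2) : ℝ) * (N : ℝ) ^ (-(5 / 2) : ℝ) := by
  have hN : 1 ≤ N := by omega
  refine (cv_split hF.nonneg hG.nonneg N).trans ?_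
  have key : ∀ {K T K' T' : ℝ} {F G : ℕ → ℝ}, MB K T F → MB K' T' G →
      ∑ m ∈ range (N / 2 + 1), F m * G (N - m) ≤ ∑ m ∈ range (L + 1), F m * G (N - m) +
        8 * pc (3 / 2) * (K * K') * (L : ℝ) ^ (-(3 / 2) : ℝ) * (N : ℝ) ^ (-(5 / 2) : ℝ) := by
    intro K T K' T' F G hF hG
    have hK := hF.K_nonneg
    have hK' := hG.K_nonneg
    have h1 : ∑ m ∈ range (N / 2 + 1), F m * G (N - m) = ∑ m ∈ range (L + 1), F m * G (N - m) +
        ∑ m ∈ Ico (L + 1) (N / 2 + 1), F m * G (N - m) := by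
      rw [Finset.range_eq_Ico, Finset.range_eq_Ico]
      exact (sum_Ico_consecutive _ (Nat.zero_le _) (by omega)).symm
    rw [h1]
    refine add_le_add le_rfl ?_
    have h2 : ∀ m ∈ Ico (L + 1) (N / 2 + 1), F m * G (N - m) ≤
        (K * (m : ℝ) ^ (-(5 / 2) : ℝ)) * (K' * (8 * (N : ℝ) ^ (-(5 / 2) : ℝ))) := by
      intro m hm
      have hm' := mem_Ico.1 hm
      refine mul_le_mul (hF.up m (by omega)) ?_ (hG.nonneg _) (by positivity)
      refine (hG.up (N - m) (by omega)).trans ?_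
      exact mul_le_mul_of_nonneg_left (half_pow hN (by omega)) hK'
    refine (sum_le_sum h2).trans ?_
    rw [← Finset.sum_mul, ← Finset.mul_sum]
    have h3 : ∑ m ∈ Ico (L + 1) (N / 2 + 1), (m : ℝ) ^ (-(5 / 2) : ℝ) ≤
        pc (3 / 2) * (L : ℝ) ^ (-(3 / 2) : ℝ) := by
      have hpc := pc_pos (γ := 3 / 2) (by norm_num)
      have h4 := sum_range_pow_le (γ := 3 / 2) (by norm_num) (s := L + 1) (by omega)
        (N / 2 + 1 - (L + 1))
      rw [Finset.sum_Ico_eq_sum_range]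
      have h5 : ∑ k ∈ range (N / 2 + 1 - (L + 1)), ((L + 1 + k : ℕ) : ℝ) ^ (-(5 / 2) : ℝ) =
          ∑ n ∈ range (N / 2 + 1 - (L + 1)), ((n + (L + 1) : ℕ) : ℝ) ^ (-(1 + 3 / 2) : ℝ) := by
        refine sum_congr rfl fun k _ => ?_
        rw [show (-(1 + 3 / 2) : ℝ) = -(5 / 2) by norm_num, add_comm (L + 1) k]
      rw [h5]
      refine h4.trans ?_
      refine mul_le_mul_of_nonneg_left ?_ hpc.le
      have h6 : (0 : ℝ) ≤ ((N / 2 + 1 - (L + 1) + (L + 1) : ℕ) : ℝ) ^ (-(3 / 2) : ℝ) := by positivity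
      have h7 : ((L + 1 : ℕ) : ℝ) ^ (-(3 / 2) : ℝ) ≤ (L : ℝ) ^ (-(3 / 2) : ℝ) := by
        refine Real.rpow_le_rpow_of_nonpos (by exact_mod_cast hL) ?_ (by norm_num)
        push_cast; linarith
      linarith
    calc (K * ∑ m ∈ Ico (L + 1) (N / 2 + 1), (m : ℝ) ^ (-(5 / 2) : ℝ)) *
          (K' * (8 * (N : ℝ) ^ (-(5 / 2) : ℝ))) ≤
          K * (pc (3 / 2) * (L : ℝ) ^ (-(3 / 2) : ℝ)) * (K' * (8 * (N : ℝ) ^ (-(5 / 2) : ℝ))) :=
          mul_le_mul_of_nonneg_right (mul_le_mul_of_nonneg_left h3 hK) (by positivity)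
      _ = _ := by ring
  have h1 := key hF hG
  have h2 := key hG hF
  calc _ ≤ _ := add_le_add h1 h2
    _ = _ := by ring

end Pool.Agent.DiamP
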