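import Pool.Agent.DiamP.Basic

/-!
# Tails, events, expectations, Abel summation, power sums
-/

set_option autoImplicit false

open Finset Filter Topology
open scoped Real

namespace Pool.Agent.DiamP

/-! ### power sums -/

theorem pow_diff {γ : ℝ} (hγ : 0 < γ) {m : ℝ} (hm : 0 < m) :
    γ * (m + 1) ^ (-(1 + γ)) ≤ m ^ (-γ) - (m + 1) ^ (-γ) := by
  have hm1 : 0 < m + 1 := by linarith
  have h1 : m ^ (-γ) = (m + 1) ^ (-γ) * ((m + 1) / m) ^ γ := by
    rw [Real.div_rpow hm1.le hm.le, Real.rpow_neg hm1.le, Real.rpow_neg hm.le]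
    have h2 : (m + 1) ^ γ ≠ 0 := (Real.rpow_pos_of_pos hm1 γ).ne'
    have h3 : m ^ γ ≠ 0 := (Real.rpow_pos_of_pos hm γ).ne'
    field_simp
  have h2 : 1 + γ / (m + 1) ≤ ((m + 1) / m) ^ γ := by
    rw [Real.rpow_def_of_pos (by positivity)]
    have h3 := Real.one_sub_inv_le_log_of_pos (show 0 < (m + 1) / m by positivity)
    have h4 : 1 - ((m + 1) / m)⁻¹ = 1 / (m + 1) := by
      rw [inv_div]
      field_simp
      ring
    rw [h4] at h3
    have h5 := Real.add_one_le_exp (Real.log ((m + 1) / m) * γ)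
    have h6 : γ / (m + 1) ≤ Real.log ((m + 1) / m) * γ := by
      have := mul_le_mul_of_nonneg_right h3 hγ.le
      calc γ / (m + 1) = 1 / (m + 1) * γ := by ring
        _ ≤ _ := this
    linarith
  have h3 : γ * (m + 1) ^ (-(1 + γ)) = (m + 1) ^ (-γ) * (γ / (m + 1)) := by
    have : (m + 1) ^ (-(1 + γ)) = (m + 1) ^ (-γ) * (m + 1) ^ (-1 : ℝ) := by
      rw [← Real.rpow_add hm1]; congr 1; ring
    rw [this, Real.rpow_neg_one]
    ring
  rw [h1, h3]
  have h4 : 0 < (m + 1) ^ (-γ) := Real.rpow_pos_of_pos hm1 _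
  nlinarith

theorem pow_le_diff {γ : ℝ} (hγ : 0 < γ) {m : ℝ} (hm : 1 ≤ m) :
    m ^ (-(1 + γ)) ≤ 2 ^ (1 + γ) / γ * (m ^ (-γ) - (m + 1) ^ (-γ)) := by
  have h1 := pow_diff hγ (show 0 < m by linarith)
  have h2 : (2 * m) ^ (-(1 + γ)) ≤ (m + 1) ^ (-(1 + γ)) :=
    Real.rpow_le_rpow_of_nonpos (by linarith) (by linarith) (by linarith)
  rw [Real.mul_rpow (by norm_num) (by linarith)] at h2
  have h3 : (0 : ℝ) < 2 ^ (1 + γ) := by positivity
  have h4 : (2 : ℝ) ^ (-(1 + γ)) = (2 ^ (1 + γ))⁻¹ := Real.rpow_neg (by norm_num) _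
  rw [h4] at h2
  have h5 : m ^ (-(1 + γ)) ≤ 2 ^ (1 + γ) * (m + 1) ^ (-(1 + γ)) := by
    have := mul_le_mul_of_nonneg_left h2 h3.le
    rwa [← mul_assoc, mul_inv_cancel₀ h3.ne', one_mul] at this
  calc m ^ (-(1 + γ)) ≤ 2 ^ (1 + γ) * (m + 1) ^ (-(1 + γ)) := h5
    _ = 2 ^ (1 + γ) / γ * (γ * (m + 1) ^ (-(1 + γ))) := by field_simp
    _ ≤ _ := mul_le_mul_of_nonneg_left h1 (by positivity)

/-- the constant of the power tails -/
noncomputable def pc (γ : ℝ) : ℝ := 2 ^ (1 + γ) / γ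

theorem pc_pos {γ : ℝ} (hγ : 0 < γ) : 0 < pc γ := by unfold pc; positivity

theorem sum_range_pow_le {γ : ℝ} (hγ : 0 < γ) {s : ℕ} (hs : 1 ≤ s) (N : ℕ) :
    ∑ n ∈ range N, ((n + s : ℕ) : ℝ) ^ (-(1 + γ)) ≤
      pc γ * ((s : ℝ) ^ (-γ) - ((N + s : ℕ) : ℝ) ^ (-γ)) := by
  induction N with
  | zero => simp
  | succ N ih =>
    rw [sum_range_succ]
    have h1 : (1 : ℝ) ≤ ((N + s : ℕ) : ℝ) := by
      have : 1 ≤ N + s := by omega
      exact_mod_cast this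
    have h2 := pow_le_diff hγ h1
    have h3 : ((N + 1 + s : ℕ) : ℝ) = ((N + s : ℕ) : ℝ) + 1 := by push_cast; ring
    rw [h3]
    unfold pc at ih ⊢
    linarith

theorem summable_pow {γ : ℝ} (hγ : 0 < γ) {s : ℕ} (hs : 1 ≤ s) :
    Summable fun n : ℕ => ((n + s : ℕ) : ℝ) ^ (-(1 + γ)) := by
  refine summable_of_sum_range_le (c := pc γ * (s : ℝ) ^ (-γ)) (fun n => by positivity) fun N => ?_
  refine (sum_range_pow_le hγ hs N).trans ?_
  have h1 : (0 : ℝ) ≤ ((N + s : ℕ) : ℝ) ^ (-γ) := by positivity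
  have h2 := pc_pos hγ
  nlinarith

theorem tsum_pow_le {γ : ℝ} (hγ : 0 < γ) {s : ℕ} (hs : 1 ≤ s) :
    ∑' n : ℕ, ((n + s : ℕ) : ℝ) ^ (-(1 + γ)) ≤ pc γ * (s : ℝ) ^ (-γ) := by
  refine Real.tsum_le_of_sum_range_le (fun n => by positivity) fun N => ?_
  refine (sum_range_pow_le hγ hs N).trans ?_
  have h1 : (0 : ℝ) ≤ ((N + s : ℕ) : ℝ) ^ (-γ) := by positivity
  have h2 := pc_pos hγ
  nlinarith

theorem sum_rsqrt_le (n : ℕ) :
    ∑ m ∈ range n, ((m + 1 : ℕ) : ℝ) ^ (-(1 / 2) : ℝ) ≤ 2 * (n : ℝ) ^ (1 / 2 : ℝ) := by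
  induction n with
  | zero => simp
  | succ n ih =>
    rw [sum_range_succ]
    have hn1 : (0 : ℝ) < ((n + 1 : ℕ) : ℝ) := by positivity
    set y := ((n + 1 : ℕ) : ℝ) ^ (1 / 2 : ℝ) with hy
    set x := (n : ℝ) ^ (1 / 2 : ℝ) with hx
    have hy0 : 0 < y := Real.rpow_pos_of_pos hn1 _
    have hx0 : 0 ≤ x := by positivity
    have hy2 : y * y = n + 1 := by
      rw [hy, ← Real.rpow_add hn1]; norm_num
    have hx2 : x * x = n := by
      rw [hx, ← Real.sqrt_eq_rpow, Real.mul_self_sqrt (by positivity)]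
    have h1 : ((n + 1 : ℕ) : ℝ) ^ (-(1 / 2) : ℝ) = y⁻¹ := by rw [Real.rpow_neg hn1.le]
    rw [h1]
    have h2 : y⁻¹ ≤ 2 * (y - x) := by
      rw [inv_le_iff_one_le_mul₀ hy0]
      nlinarith [sq_nonneg (y - x)]
    linarith

/-! ### tails, events -/

/-- `P(X ≥ s)` -/
noncomputable def tl (p : ℕ → ℝ) (s : ℕ) : ℝ := ∑' n, p (n + s)

/-- `P(X ∈ A)` -/
noncomputable def pr (p : ℕ → ℝ) (A : Set ℕ) : ℝ := ∑' n, A.indicator p n

/-- `E f(X)` -/
noncomputable def ex (p : ℕ → ℝ) (f : ℕ → ℝ) : ℝ := ∑' n, p n * f n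

theorem IsLaw.tl_eq {p : ℕ → ℝ} (hp : IsLaw p) (s : ℕ) : tl p s = 1 - ∑ n ∈ range s, p n := by
  have := hp.summable.sum_add_tsum_nat_add s
  rw [hp.tsum] at this
  unfold tl
  linarith

theorem IsLaw.tl_nonneg {p : ℕ → ℝ} (hp : IsLaw p) (s : ℕ) : 0 ≤ tl p s :=
  tsum_nonneg fun _ => hp.nonneg _

theorem IsLaw.tl_le_one {p : ℕ → ℝ} (hp : IsLaw p) (s : ℕ) : tl p s ≤ 1 := by
  rw [hp.tl_eq]
  have : 0 ≤ ∑ n ∈ range s, p n := sum_nonneg fun _ _ => hp.nonneg _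
  linarith

theorem IsLaw.sum_le_tl {p : ℕ → ℝ} (hp : IsLaw p) {s : ℕ} (F : Finset ℕ) (hF : ∀ n ∈ F, s ≤ n) :
    ∑ n ∈ F, p n ≤ tl p s := by
  rw [hp.tl_eq]
  have hd : Disjoint F (range s) := by
    rw [Finset.disjoint_left]
    intro n hn hn2
    have := hF n hn
    have := mem_range.1 hn2
    omega
  have h1 := hp.sum_le_one (F ∪ range s)
  rw [sum_union hd] at h1
  linarith

theorem IsLaw.summable_mul {p : ℕ → ℝ} (hp : IsLaw p) {f : ℕ → ℝ} {C : ℝ} (hf : ∀ n, |f n| ≤ C) :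
    Summable fun n => p n * f n := by
  refine Summable.of_norm_bounded (hp.summable.mul_right C) fun n => ?_
  rw [norm_mul, Real.norm_of_nonneg (hp.nonneg n)]
  exact mul_le_mul_of_nonneg_left (hf n) (hp.nonneg n)

theorem IsLaw.summable_indicator {p : ℕ → ℝ} (hp : IsLaw p) (A : Set ℕ) :
    Summable (A.indicator p) := hp.summable.indicator A

theorem IsLaw.pr_nonneg {p : ℕ → ℝ} (hp : IsLaw p) (A : Set ℕ) : 0 ≤ pr p A :=
  tsum_nonneg fun n => Set.indicator_nonneg (fun _ _ => hp.nonneg _) n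

theorem IsLaw.pr_le_one {p : ℕ → ℝ} (hp : IsLaw p) (A : Set ℕ) : pr p A ≤ 1 := by
  rw [← hp.tsum]
  exact (hp.summable_indicator A).tsum_le_tsum
    (fun n => Set.indicator_le_self' (fun _ _ => hp.nonneg _) n) hp.summable

theorem IsLaw.pr_mono {p : ℕ → ℝ} (hp : IsLaw p) {A B : Set ℕ} (h : A ⊆ B) : pr p A ≤ pr p B :=
  (hp.summable_indicator A).tsum_le_tsum
    (fun n => Set.indicator_le_indicator_of_subset h (fun _ => hp.nonneg _) n)
    (hp.summable_indicator B)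

/-- Markov's inequality -/
theorem IsLaw.pr_le_ex {p : ℕ → ℝ} (hp : IsLaw p) {A : Set ℕ} {f : ℕ → ℝ} (hf0 : ∀ n, 0 ≤ f n)
    (hfA : ∀ n ∈ A, 1 ≤ f n) (hs : Summable fun n => p n * f n) : pr p A ≤ ex p f := by
  refine (hp.summable_indicator A).tsum_le_tsum (fun n => ?_) hs
  by_cases hn : n ∈ A
  · rw [Set.indicator_of_mem hn]
    have := mul_le_mul_of_nonneg_left (hfA n hn) (hp.nonneg n)
    linarith
  · rw [Set.indicator_of_notMem hn]
    exact mul_nonneg (hp.nonneg n) (hf0 n)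

theorem IsLaw.pr_eq_ex {p : ℕ → ℝ} (A : Set ℕ) : pr p A = ex p (A.indicator fun _ => 1) := by
  unfold pr ex
  refine tsum_congr fun n => ?_
  by_cases hn : n ∈ A
  · rw [Set.indicator_of_mem hn, Set.indicator_of_mem hn, mul_one]
  · rw [Set.indicator_of_notMem hn, Set.indicator_of_notMem hn, mul_zero]

theorem IsLaw.pr_Ici {p : ℕ → ℝ} (hp : IsLaw p) (s : ℕ) : pr p {n | s ≤ n} = tl p s := by
  have h1 := (hp.summable_indicator {n | s ≤ n}).sum_add_tsum_nat_add s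
  have h2 : ∑ n ∈ range s, Set.indicator {n | s ≤ n} p n = 0 := by
    refine sum_eq_zero fun n hn => ?_
    rw [Set.indicator_of_notMem]
    have := mem_range.1 hn
    simp only [Set.mem_ofPred_eq, not_le]
    exact this
  rw [h2, zero_add] at h1
  unfold pr tl
  rw [← h1]
  refine tsum_congr fun n => ?_
  rw [Set.indicator_of_mem]
  simp

theorem ex_cv {p q : ℕ → ℝ} (hp : IsLaw p) (hq : IsLaw q) {f : ℕ → ℝ} {C : ℝ}
    (hf : ∀ n, |f n| ≤ C) : ex (cv p q) f = ex p fun a => ex q fun b => f (a + b) := by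
  unfold ex
  refine hasSum_cv ?_ ?_ hf
  · simpa [Real.norm_of_nonneg (hp.nonneg _)] using hp.summable
  · simpa [Real.norm_of_nonneg (hq.nonneg _)] using hq.summable

theorem IsLaw.ex_mono {p : ℕ → ℝ} (hp : IsLaw p) {f g : ℕ → ℝ}
    (hf : Summable fun n => p n * f n) (hg : Summable fun n => p n * g n) (h : ∀ n, f n ≤ g n) :
    ex p f ≤ ex p g :=
  hf.tsum_le_tsum (fun n => mul_le_mul_of_nonneg_left (h n) (hp.nonneg n)) hg

theorem IsLaw.ex_const {p : ℕ → ℝ} (hp : IsLaw p) (c : ℝ) : ex p (fun _ => c) = c := by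
  unfold ex
  rw [tsum_mul_right, hp.tsum, one_mul]

theorem IsLaw.ex_abs_le {p : ℕ → ℝ} (hp : IsLaw p) {f : ℕ → ℝ} {C : ℝ} (hf : ∀ n, |f n| ≤ C) :
    |ex p f| ≤ C := by
  have hs := hp.summable_mul hf
  rw [abs_le]
  constructor
  · have := hp.ex_mono (f := fun _ => -C) (g := f) (by
      simpa using hp.summable.mul_right (-C)) hs fun n => (abs_le.1 (hf n)).1
    rwa [hp.ex_const] at this
  · have := hp.ex_mono (f := f) (g := fun _ => C) hs (by
      simpa using hp.summable.mul_right C) fun n => (abs_le.1 (hf n)).2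
    rwa [hp.ex_const] at this

/-- Abel summation -/
theorem IsLaw.abel {p : ℕ → ℝ} (hp : IsLaw p) {δ T : ℕ → ℝ} (hδ : ∀ s, 0 ≤ δ s)
    (hT : ∀ s, tl p (s + 1) ≤ T s) (hsum : Summable fun s => δ s * T s) :
    (Summable fun n => p n * ∑ s ∈ range n, δ s) ∧
      ex p (fun n => ∑ s ∈ range n, δ s) ≤ ∑' s, δ s * T s := by
  have hT0 : ∀ s, 0 ≤ T s := fun s => (hp.tl_nonneg _).trans (hT s)
  have hnn : ∀ n, 0 ≤ p n * ∑ s ∈ range n, δ s := fun n =>
    mul_nonneg (hp.nonneg n) (sum_nonneg fun _ _ => hδ _)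
  have key : ∀ N, ∑ n ∈ range N, p n * ∑ s ∈ range n, δ s ≤ ∑' s, δ s * T s := by
    intro N
    have h1 : ∑ n ∈ range N, p n * ∑ s ∈ range n, δ s =
        ∑ s ∈ range N, δ s * ∑ n ∈ Ico (s + 1) N, p n := by
      simp_rw [Finset.mul_sum]
      rw [Finset.sum_comm' (s' := fun s => Ico (s + 1) N) (t' := range N)]
      · refine sum_congr rfl fun s _ => sum_congr rfl fun n _ => mul_comm _ _
      · intro n s
        simp only [mem_range, mem_Ico]
        omega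
    rw [h1]
    have h2 : ∑ s ∈ range N, δ s * ∑ n ∈ Ico (s + 1) N, p n ≤ ∑ s ∈ range N, δ s * T s := by
      refine sum_le_sum fun s _ => mul_le_mul_of_nonneg_left ?_ (hδ s)
      refine (hp.sum_le_tl (s := s + 1) _ fun n hn => ?_).trans (hT s)
      exact (mem_Ico.1 hn).1
    exact h2.trans (hsum.sum_le_tsum _ fun s _ => mul_nonneg (hδ s) (hT0 s))
  exact ⟨summable_of_sum_range_le hnn key, Real.tsum_le_of_sum_range_le hnn key⟩

end Pool.Agent.DiamP
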