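import Pool.Agent.DiamP.Lin

/-!
# One step of the contraction (chapter 4 of MP_d7a93a_pr)
-/

set_option autoImplicit false

open Finset Filter Topology
open scoped Real

namespace Pool.Agent.DiamP

/-- the matrix of the linearised system is a contraction for the weights `va, vz, vS, vP, vR, 1` -/
structure Mat (κ x y ta tz tS tP tR tY kR va vz vS vP vR : ℝ) : Prop where
  κ_pos : 0 < κ
  κ_lt : κ < 1
  va_pos : 0 < va
  vz_pos : 0 < vz
  vS_pos : 0 < vS
  vP_pos : 0 < vP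
  vR_pos : 0 < vR
  row_z : 2 * y * ta * va ≤ κ * vz
  row_a : vz * (1 + x * (1 + tY)) + x * tz ≤ κ * va
  row_S : x * ((vz + vP + vR) * tY + (tz + tP + tR)) ≤ κ * vS
  row_P : (vz + vS + vR) * tY + (tz + tS + tR) ≤ κ * vP
  row_R : kR ≤ κ * vR
  row_Y : vz + vS + vP + vR ≤ 1

section
variable {x y : ℝ} {ρ a z S P R Y : ℕ → ℝ}

/-- bounds on a window -/
structure Win (a z S P R Y : ℕ → ℝ) (va vz vS vP vR g : ℝ) (lo hi : ℕ) : Prop where
  wa : ∀ N, lo ≤ N → N ≤ hi → a N ≤ va * g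
  wz : ∀ N, lo ≤ N → N ≤ hi → z N ≤ vz * g
  wS : ∀ N, lo ≤ N → N ≤ hi → S N ≤ vS * g
  wP : ∀ N, lo ≤ N → N ≤ hi → P N ≤ vP * g
  wR : ∀ N, lo ≤ N → N ≤ hi → R N ≤ vR * g
  wY : ∀ N, lo ≤ N → N ≤ hi → Y N ≤ g

theorem Sys.P_zero' (h : Sys x y ρ a z S P R Y) : P 0 = 0 := by
  rw [h.P_eq]; simp [cv, h.Y_zero]

theorem Sys.S_zero' (h : Sys x y ρ a z S P R Y) : S 0 = 0 := by
  rw [h.S_eq]; simp [cv, h.Y_zero]

theorem Sys.R_zero' (h : Sys x y ρ a z S P R Y) : R 0 = 0 := by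
  rw [h.R_eq]; simp [h.ρ_zero]

theorem Sys.kk_zero (h : Sys x y ρ a z S P R Y) : kk ρ Y 0 = 0 := by
  unfold kk
  rw [sum_range_succ, sum_range_succ, h.ρ_one]
  simp

theorem half_rpow' {L : ℕ} (hL : 2 ≤ L) :
    ((L - 1 : ℕ) : ℝ) ^ (-(3 / 2) : ℝ) ≤ 4 * (L : ℝ) ^ (-(1 / 2) : ℝ) := by
  have hL' : (0 : ℝ) < L := by
    have : 0 < L := by omega
    exact_mod_cast this
  have h1 : (L : ℝ) / 2 ≤ ((L - 1 : ℕ) : ℝ) := by
    have : L ≤ 2 * (L - 1) := by omega
    have : (L : ℝ) ≤ 2 * ((L - 1 : ℕ) : ℝ) := by exact_mod_cast this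
    linarith
  refine (Real.rpow_le_rpow_of_nonpos (by positivity) h1 (by norm_num)).trans ?_
  rw [Real.div_rpow hL'.le (by norm_num), Real.rpow_neg (by norm_num : (0:ℝ) ≤ 2), div_inv_eq_mul,
    mul_comm]
  have h2 : (2 : ℝ) ^ (3 / 2 : ℝ) ≤ 4 := by
    have : (2 : ℝ) ^ (3 / 2 : ℝ) ≤ 2 ^ (2 : ℝ) :=
      Real.rpow_le_rpow_of_exponent_le (by norm_num) (by norm_num)
    refine this.trans (le_of_eq ?_)
    norm_num
  have h3 : (L : ℝ) ^ (-(3 / 2) : ℝ) ≤ (L : ℝ) ^ (-(1 / 2) : ℝ) :=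
    Real.rpow_le_rpow_of_exponent_le (by
      have : 1 ≤ L := by omega
      exact_mod_cast this) (by norm_num)
  exact mul_le_mul h2 h3 (by positivity) (by norm_num)

theorem three_half_le {L : ℕ} (hL : 1 ≤ L) :
    (L : ℝ) ^ (-(3 / 2) : ℝ) ≤ (L : ℝ) ^ (-(1 / 2) : ℝ) :=
  Real.rpow_le_rpow_of_exponent_le (by exact_mod_cast hL) (by norm_num)

/-- **one step**: a bound `g` on `[N - L, N - 1]` gives the bound `κ g + error` at `N` -/
theorem Sys.step (h : Sys x y ρ a z S P R Y) {c K : ℝ} (hm : h.Mass c K) {κ kR va vz vS vP vR : ℝ}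
    (hM : Mat κ x y (tot a) (tot z) (tot S) (tot P) (tot R) (tot Y) kR va vz vS vP vR)
    (hkR : ∀ J : Finset ℕ, ∑ j ∈ J, (j : ℝ) * ρ j * tot Y ^ (j - 1) ≤ kR) :
    ∃ C : ℝ, 1 ≤ C ∧ ∀ δ : ℝ, 0 < δ → ∃ N0 : ℕ, ∀ N : ℕ, N0 ≤ N → ∀ L : ℕ, 2 ≤ L → 2 * L + 2 ≤ N →
      ∀ g : ℝ, 0 ≤ g → Win a z S P R Y va vz vS vP vR g (N - L) (N - 1) →
      ∀ e : ℝ, ((L : ℝ) ^ (-(1 / 2) : ℝ) + δ) * (N : ℝ) ^ (-(5 / 2) : ℝ) +
        ∑ j ∈ (range (N + 1)).filter (fun j : ℕ => 1 / (4 * mean (nrm Y)) * N < j),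
          (ρ j * tot Y ^ j) * pw (nrm Y) j N ≤ e →
      a N ≤ va * (κ * g) + C * e ∧ z N ≤ vz * (κ * g) + C * e ∧ S N ≤ vS * (κ * g) + C * e ∧
        P N ≤ vP * (κ * g) + C * e ∧ R N ≤ vR * (κ * g) + C * e ∧ Y N ≤ κ * g + C * e := by
  obtain ⟨C1, hC1, hlin⟩ := h.R_lin hm
  have htd := h.td hm
  have hx := h.x_pos
  have hy := h.y_pos
  have hK := hm.fY.K_nonneg
  have hpc := pc_pos (γ := 3 / 2) (by norm_num)
  have hta := tot_nonneg h.a_nonneg
  have htz := tot_nonneg h.z_nonneg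
  have htY := tot_nonneg h.Y_nonneg
  set C2 := 16 * pc (3 / 2) * (K * (3 * K)) with hC2
  have hC20 : 0 ≤ C2 := by positivity
  have hkk := sum_kk_le h.ρ_nonneg h.Y_nonneg hm.fY.summable hkR
  have hkR0 : 0 ≤ kR := by simpa using hkk ∅
  -- constants of the rows
  set Cz := 32 * y * C2 with hCz
  set Ca := (1 + x) * Cz + x * C2 with hCa
  set CC := 1 + C1 + Cz + Ca + x * C2 + C2 with hCC
  have hCz0 : 0 ≤ Cz := by positivity
  have hCa0 : 0 ≤ Ca := by positivity
  have hCC1 : 1 ≤ CC := by rw [hCC]; have : 0 ≤ x * C2 := by positivity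
                           linarith
  refine ⟨4 * CC, by linarith, fun δ hδ => ?_⟩
  obtain ⟨N0, hN0⟩ := hlin δ hδ
  refine ⟨N0, fun N hN L hL hLN g hg hw e he => ?_⟩
  have hN1 : 1 ≤ N := by omega
  have hN' : (0 : ℝ) < N := by exact_mod_cast hN1
  have hL' : (0 : ℝ) < L := by
    have : 0 < L := by omega
    exact_mod_cast this
  set src := ∑ j ∈ (range (N + 1)).filter (fun j : ℕ => 1 / (4 * mean (nrm Y)) * N < j),
          (ρ j * tot Y ^ j) * pw (nrm Y) j N with hsrc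
  have hsrc0 : 0 ≤ src := sum_nonneg fun j _ =>
    mul_nonneg (htd.τ_nonneg j) ((htd.isLaw.pw j).nonneg N)
  set n5 := (N : ℝ) ^ (-(5 / 2) : ℝ) with hn5
  have hn50 : 0 < n5 := by positivity
  set l1 := (L : ℝ) ^ (-(1 / 2) : ℝ) with hl1
  have hl10 : 0 < l1 := by positivity
  have he1 : l1 * n5 ≤ e := by
    have h1 : 0 ≤ δ * n5 := by positivity
    have h2 : (l1 + δ) * n5 = l1 * n5 + δ * n5 := by ring
    rw [h2] at he
    linarith
  have he0 : 0 ≤ e := le_trans (by positivity) he1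
  -- the quadratic errors
  have herr : C2 * (L : ℝ) ^ (-(3 / 2) : ℝ) * n5 ≤ C2 * e := by
    rw [mul_assoc]
    refine mul_le_mul_of_nonneg_left (le_trans ?_ he1) hC20
    exact mul_le_mul_of_nonneg_right (three_half_le (by omega)) hn50.le
  have hwin : ∀ {F : ℕ → ℝ} {v : ℝ}, (∀ N', N - L ≤ N' → N' ≤ N - 1 → F N' ≤ v * g) →
      ∀ N', N - L ≤ N' → N' < N → F N' ≤ v * g := fun hF N' h1 h2 => hF N' h1 (by omega)
  have hY1 : ∀ N', N - L ≤ N' → N' < N → Y N' ≤ g := fun N' h1 h2 => hw.wY N' h1 (by omega)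
  -- row z
  have hz : z N ≤ vz * (κ * g) + Cz * e := by
    obtain ⟨n, rfl⟩ : ∃ n, N = n + 1 := ⟨N - 1, by omega⟩
    rw [h.z_succ]
    have h1 := hm.fa.lin hm.fa (N := n) (L := L - 1) (by omega) (by omega)
    have h2 : ∑ m ∈ range (L - 1 + 1), a m * a (n - m) ≤ tot a * (va * g) :=
      win_sum' h.a_nonneg hm.fa.sum (mul_nonneg hM.va_pos.le hg) fun N' h3 h4 =>
        hw.wa N' (by omega) (by omega)
    have h3 : ((n : ℕ) : ℝ) ^ (-(5 / 2) : ℝ) ≤ 8 * n5 := by
      have := half_pow (N := n + 1) (m := 1) (by omega) (by omega)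
      rwa [show n + 1 - 1 = n from rfl] at this
    have h4 := half_rpow' hL
    have h5 : 16 * pc (3 / 2) * (K * K) * ((L - 1 : ℕ) : ℝ) ^ (-(3 / 2) : ℝ) *
        (n : ℝ) ^ (-(5 / 2) : ℝ) ≤ 32 * C2 * e := by
      have h6 : ((L - 1 : ℕ) : ℝ) ^ (-(3 / 2) : ℝ) * (n : ℝ) ^ (-(5 / 2) : ℝ) ≤
          (4 * l1) * (8 * n5) := mul_le_mul h4 h3 (by positivity) (by positivity)
      have h7 : 16 * pc (3 / 2) * (K * K) ≤ C2 := by
        rw [hC2]
        refine mul_le_mul_of_nonneg_left ?_ (by positivity)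
        refine mul_le_mul_of_nonneg_left ?_ hK
        linarith
      calc _ = 16 * pc (3 / 2) * (K * K) *
            (((L - 1 : ℕ) : ℝ) ^ (-(3 / 2) : ℝ) * (n : ℝ) ^ (-(5 / 2) : ℝ)) := by ring
        _ ≤ C2 * ((4 * l1) * (8 * n5)) := mul_le_mul h7 h6 (by positivity) hC20
        _ = 32 * C2 * (l1 * n5) := by ring
        _ ≤ 32 * C2 * e := mul_le_mul_of_nonneg_left he1 (by positivity)
    have h6 : cv a a n ≤ 2 * (tot a * (va * g)) + 32 * C2 * e := by linarith
    have h7 := mul_le_mul_of_nonneg_left h6 hy.le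
    have h8 : 2 * y * tot a * va * g ≤ κ * vz * g := mul_le_mul_of_nonneg_right hM.row_z hg
    have e1 : y * (2 * (tot a * (va * g)) + 32 * C2 * e) =
        2 * y * tot a * va * g + 32 * y * C2 * e := by ring
    have e2 : vz * (κ * g) = κ * vz * g := by ring
    rw [hCz, e2]
    linarith
  -- row a
  have hκ1 := hM.κ_lt
  have hcvzY : cv z Y N ≤ tot z * g + tot Y * (vz * g) + C2 * e := by
    have h1 := hm.fz.lin hm.fY (N := N) (L := L) (by omega) (by omega)
    have h2 : ∑ m ∈ range (L + 1), z m * Y (N - m) ≤ tot z * g :=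
      win_sum h.z_zero h.z_nonneg hm.fz.sum hg hY1 (by omega)
    have h3 : ∑ m ∈ range (L + 1), Y m * z (N - m) ≤ tot Y * (vz * g) :=
      win_sum h.Y_zero h.Y_nonneg hm.fY.sum (mul_nonneg hM.vz_pos.le hg) (hwin hw.wz) (by omega)
    have h4 : 16 * pc (3 / 2) * (K * K) * (L : ℝ) ^ (-(3 / 2) : ℝ) * n5 ≤
        C2 * (L : ℝ) ^ (-(3 / 2) : ℝ) * n5 := by
      refine mul_le_mul_of_nonneg_right (mul_le_mul_of_nonneg_right ?_ (by positivity)) hn50.le
      rw [hC2]
      refine mul_le_mul_of_nonneg_left ?_ (by positivity)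
      refine mul_le_mul_of_nonneg_left ?_ hK
      linarith
    linarith
  have ha : a N ≤ va * (κ * g) + Ca * e := by
    rw [h.a_eq]
    have h0 : one0 N = 0 := by simp [one0]; omega
    rw [h0, zero_add]
    have h1 : z N ≤ vz * g + Cz * e := by
      have : vz * (κ * g) ≤ vz * g := by
        have : κ * g ≤ 1 * g := mul_le_mul_of_nonneg_right hκ1.le hg
        rw [one_mul] at this
        exact mul_le_mul_of_nonneg_left this hM.vz_pos.le
      linarith
    have h2 : z N + x * (z N + cv z Y N) ≤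
        (vz * g + Cz * e) + x * ((vz * g + Cz * e) + (tot z * g + tot Y * (vz * g) + C2 * e)) := by
      refine add_le_add h1 (mul_le_mul_of_nonneg_left (add_le_add h1 hcvzY) hx.le)
    have h3 : (vz * (1 + x * (1 + tot Y)) + x * tot z) * g ≤ κ * va * g :=
      mul_le_mul_of_nonneg_right hM.row_a hg
    have e1 : (vz * g + Cz * e) + x * ((vz * g + Cz * e) + (tot z * g + tot Y * (vz * g) + C2 * e)) =
        (vz * (1 + x * (1 + tot Y)) + x * tot z) * g + ((1 + x) * Cz + x * C2) * e := by ring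
    have e2 : va * (κ * g) = κ * va * g := by ring
    rw [hCa, e2]
    linarith
  -- row S
  have hS : S N ≤ vS * (κ * g) + x * C2 * e := by
    rw [h.S_eq]
    have h1 := ((hm.fz.add hm.fP).add hm.fR).lin hm.fY (N := N) (L := L) (by omega) (by omega)
    have h2 : ∑ m ∈ range (L + 1), (z + P + R) m * Y (N - m) ≤ (tot z + tot P + tot R) * g :=
      win_sum (by simp [h.z_zero, h.P_zero', h.R_zero']) ((hm.fz.add hm.fP).add hm.fR).nonneg
        ((hm.fz.add hm.fP).add hm.fR).sum hg hY1 (by omega)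
    have h3 : ∑ m ∈ range (L + 1), Y m * (z + P + R) (N - m) ≤ tot Y * ((vz + vP + vR) * g) := by
      refine win_sum h.Y_zero h.Y_nonneg hm.fY.sum
        (mul_nonneg (by have := hM.vz_pos; have := hM.vP_pos; have := hM.vR_pos; linarith) hg)
        (fun N' h4 h5 => ?_) (by omega)
      have h6 := hw.wz N' h4 (by omega)
      have h7 := hw.wP N' h4 (by omega)
      have h8 := hw.wR N' h4 (by omega)
      simp only [Pi.add_apply]
      linarith
    have h4 : 16 * pc (3 / 2) * ((K + K + K) * K) * (L : ℝ) ^ (-(3 / 2) : ℝ) * n5 =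
        C2 * (L : ℝ) ^ (-(3 / 2) : ℝ) * n5 := by
      rw [hC2]; ring
    have h5 : cv (z + P + R) Y N ≤ (tot z + tot P + tot R) * g + tot Y * ((vz + vP + vR) * g) +
        C2 * e := by linarith
    have h6 := mul_le_mul_of_nonneg_left h5 hx.le
    have h7 : x * ((vz + vP + vR) * tot Y + (tot z + tot P + tot R)) * g ≤ κ * vS * g :=
      mul_le_mul_of_nonneg_right hM.row_S hg
    have e1 : x * ((tot z + tot P + tot R) * g + tot Y * ((vz + vP + vR) * g) + C2 * e) =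
        x * ((vz + vP + vR) * tot Y + (tot z + tot P + tot R)) * g + x * C2 * e := by ring
    have e2 : vS * (κ * g) = κ * vS * g := by ring
    rw [e2]
    linarith
  -- row P
  have hP : P N ≤ vP * (κ * g) + C2 * e := by
    rw [h.P_eq]
    have h1 := ((hm.fz.add hm.fS).add hm.fR).lin hm.fY (N := N) (L := L) (by omega) (by omega)
    have h2 : ∑ m ∈ range (L + 1), (z + S + R) m * Y (N - m) ≤ (tot z + tot S + tot R) * g :=
      win_sum (by simp [h.z_zero, h.S_zero', h.R_zero']) ((hm.fz.add hm.fS).add hm.fR).nonneg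
        ((hm.fz.add hm.fS).add hm.fR).sum hg hY1 (by omega)
    have h3 : ∑ m ∈ range (L + 1), Y m * (z + S + R) (N - m) ≤ tot Y * ((vz + vS + vR) * g) := by
      refine win_sum h.Y_zero h.Y_nonneg hm.fY.sum
        (mul_nonneg (by have := hM.vz_pos; have := hM.vS_pos; have := hM.vR_pos; linarith) hg)
        (fun N' h4 h5 => ?_) (by omega)
      have h6 := hw.wz N' h4 (by omega)
      have h7 := hw.wS N' h4 (by omega)
      have h8 := hw.wR N' h4 (by omega)
      simp only [Pi.add_apply]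
      linarith
    have h4 : 16 * pc (3 / 2) * ((K + K + K) * K) * (L : ℝ) ^ (-(3 / 2) : ℝ) * n5 =
        C2 * (L : ℝ) ^ (-(3 / 2) : ℝ) * n5 := by
      rw [hC2]; ring
    have h5 : cv (z + S + R) Y N ≤ (tot z + tot S + tot R) * g + tot Y * ((vz + vS + vR) * g) +
        C2 * e := by linarith
    have h7 : ((vz + vS + vR) * tot Y + (tot z + tot S + tot R)) * g ≤ κ * vP * g :=
      mul_le_mul_of_nonneg_right hM.row_P hg
    have e1 : (tot z + tot S + tot R) * g + tot Y * ((vz + vS + vR) * g) + C2 * e =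
        ((vz + vS + vR) * tot Y + (tot z + tot S + tot R)) * g + C2 * e := by ring
    have e2 : vP * (κ * g) = κ * vP * g := by ring
    rw [e2]
    linarith
  -- row R
  have hR : R N ≤ vR * (κ * g) + (1 + C1) * e := by
    have h1 := hN0 N hN L (by omega) (by omega)
    have h2 : ∑ m ∈ range (L + 1), kk ρ Y m * Y (N - m) ≤ kR * g :=
      win_sum h.kk_zero (kk_nonneg h.ρ_nonneg h.Y_nonneg) hkk hg hY1 (by omega)
    have h3 : kR * g ≤ κ * vR * g := mul_le_mul_of_nonneg_right hM.row_R hg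
    have h4 : (C1 * l1 + δ) * n5 + src ≤ (1 + C1) * e := by
      have h5 : C1 * (l1 * n5) ≤ C1 * e := mul_le_mul_of_nonneg_left he1 hC1.le
      have e0 : (l1 + δ) * n5 = l1 * n5 + δ * n5 := by ring
      have h6 : δ * n5 + src ≤ e := by
        have : 0 ≤ l1 * n5 := by positivity
        rw [e0] at he
        linarith
      have e1 : (C1 * l1 + δ) * n5 + src = C1 * (l1 * n5) + (δ * n5 + src) := by ring
      have e2 : (1 + C1) * e = C1 * e + e := by ring
      rw [e1, e2]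
      linarith
    have e2 : vR * (κ * g) = κ * vR * g := by ring
    rw [e2]
    linarith
  -- all
  have hxC2 : 0 ≤ x * C2 := by positivity
  have e1 : Cz * e ≤ CC * e := mul_le_mul_of_nonneg_right (by rw [hCC]; linarith) he0
  have e2 : Ca * e ≤ CC * e := mul_le_mul_of_nonneg_right (by rw [hCC]; linarith) he0
  have e3 : x * C2 * e ≤ CC * e := mul_le_mul_of_nonneg_right (by rw [hCC]; linarith) he0
  have e4 : C2 * e ≤ CC * e := mul_le_mul_of_nonneg_right (by rw [hCC]; linarith) he0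
  have e5 : (1 + C1) * e ≤ CC * e := mul_le_mul_of_nonneg_right (by rw [hCC]; linarith) he0
  have e6 : 0 ≤ CC * e := mul_nonneg (by linarith) he0
  refine ⟨by linarith, by linarith, by linarith, by linarith, by linarith, ?_⟩
  rw [h.Y_eq]
  have h1 : (vz + vS + vP + vR) * (κ * g) ≤ 1 * (κ * g) :=
    mul_le_mul_of_nonneg_right hM.row_Y (mul_nonneg hM.κ_pos.le hg)
  have h2 : (vz + vS + vP + vR) * (κ * g) = vz * (κ * g) + vS * (κ * g) + vP * (κ * g) +
      vR * (κ * g) := by ring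
  rw [h2, one_mul] at h1
  linarith

end

end Pool.Agent.DiamP
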