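import Pool.Agent.DiamP.Lin
import Pool.Agent.DiamP.SubSrc

/-!
# Sub-systems: the linear inequality for the rigid term (Theorem B' of MP_d7a93a_pr)
-/

set_option autoImplicit false

open Finset Filter Topology
open scoped Real

namespace Pool.Agent.DiamP

/-- a sub-system (for example: the members of diameter at most `D`) -/
structure Sub (x y : ℝ) (ρ a z S P R Y ρ' a' z' S' P' R' Y' : ℕ → ℝ) : Prop where
  ρ_nonneg : ∀ j, 0 ≤ ρ' j
  a_nonneg : ∀ n, 0 ≤ a' n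
  z_nonneg : ∀ n, 0 ≤ z' n
  S_nonneg : ∀ n, 0 ≤ S' n
  P_nonneg : ∀ n, 0 ≤ P' n
  R_nonneg : ∀ n, 0 ≤ R' n
  Y_nonneg : ∀ n, 0 ≤ Y' n
  ρ_le : ∀ j, ρ' j ≤ ρ j
  a_le : ∀ n, a' n ≤ a n
  z_le : ∀ n, z' n ≤ z n
  S_le : ∀ n, S' n ≤ S n
  P_le : ∀ n, P' n ≤ P n
  R_le : ∀ n, R' n ≤ R n
  Y_le : ∀ n, Y' n ≤ Y n
  a_eq : ∀ n, 1 ≤ n → a' n ≤ z' n + x * (z' n + cv z' Y' n)
  z_succ : ∀ n, z' (n + 1) ≤ y * cv a' a' n
  Y_eq : ∀ n, Y' n ≤ z' n + S' n + P' n + R' n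
  S_eq : ∀ n, S' n ≤ x * cv (z' + P' + R') Y' n
  P_eq : ∀ n, P' n ≤ cv (z' + S' + R') Y' n
  R_eq : ∀ n, R' n ≤ ∑ j ∈ range (n + 1), ρ' j * pw Y' j n

theorem cv_mono' {p p' q q' : ℕ → ℝ} (hp' : ∀ n, 0 ≤ p' n) (hq' : ∀ n, 0 ≤ q' n)
    (hp : ∀ n, p' n ≤ p n) (hq : ∀ n, q' n ≤ q n) (n : ℕ) : cv p' q' n ≤ cv p q n := by
  unfold cv
  refine sum_le_sum fun ij _ => ?_
  exact mul_le_mul (hp _) (hq _) (hq' _) ((hp' _).trans (hp _))

theorem pw_mono {Y Y' : ℕ → ℝ} (h0 : ∀ n, 0 ≤ Y' n) (h : ∀ n, Y' n ≤ Y n) (j n : ℕ) :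
    pw Y' j n ≤ pw Y j n := by
  induction j generalizing n with
  | zero => simp
  | succ j ih =>
    rw [pw_succ, pw_succ]
    exact cv_mono' h0 (pw_nonneg h0 j) h ih n

theorem kk_mono {ρ ρ' Y Y' : ℕ → ℝ} (hρ0 : ∀ j, 0 ≤ ρ' j) (hρ : ∀ j, ρ' j ≤ ρ j)
    (h0 : ∀ n, 0 ≤ Y' n) (h : ∀ n, Y' n ≤ Y n) (m : ℕ) : kk ρ' Y' m ≤ kk ρ Y m := by
  unfold kk
  refine sum_le_sum fun j _ => ?_
  refine mul_le_mul (mul_le_mul_of_nonneg_left (hρ j) (Nat.cast_nonneg j)) (pw_mono h0 h _ _)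
    (pw_nonneg h0 _ _) (mul_nonneg (Nat.cast_nonneg j) ((hρ0 j).trans (hρ j)))

theorem RR_mono {ρ Y Y' : ℕ → ℝ} (hρ0 : ∀ j, 0 ≤ ρ j)
    (h0 : ∀ n, 0 ≤ Y' n) (h : ∀ n, Y' n ≤ Y n) (m : ℕ) : RR ρ Y' m ≤ RR ρ Y m := by
  unfold RR
  exact sum_le_sum fun j _ => mul_le_mul_of_nonneg_left (pw_mono h0 h _ _) (hρ0 j)

theorem lo_le {ρ ρ' : ℕ → ℝ} (h : ∀ j, ρ' j ≤ ρ j) (E j : ℕ) : lo ρ' E j ≤ lo ρ E j := by
  unfold lo
  split_ifs
  · exact h j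
  · exact le_rfl

section
variable {x y : ℝ} {ρ a z S P R Y : ℕ → ℝ}

theorem Sub.Y_zero {ρ' a' z' S' P' R' Y' : ℕ → ℝ} (hs : Sub x y ρ a z S P R Y ρ' a' z' S' P' R' Y')
    (h : Sys x y ρ a z S P R Y) : Y' 0 = 0 :=
  le_antisymm ((hs.Y_le 0).trans h.Y_zero.le) (hs.Y_nonneg 0)

theorem Sub.z_zero {ρ' a' z' S' P' R' Y' : ℕ → ℝ} (hs : Sub x y ρ a z S P R Y ρ' a' z' S' P' R' Y')
    (h : Sys x y ρ a z S P R Y) : z' 0 = 0 :=
  le_antisymm ((hs.z_le 0).trans h.z_zero.le) (hs.z_nonneg 0)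

/-- the linear inequality for `R'` -/
theorem Sys.R_lin_sub (h : Sys x y ρ a z S P R Y) {c K : ℝ} (hm : h.Mass c K) :
    ∃ C : ℝ, 0 < C ∧ ∀ δ : ℝ, 0 < δ → ∃ N0 : ℕ,
      ∀ ρ' a' z' S' P' R' Y' : ℕ → ℝ, Sub x y ρ a z S P R Y ρ' a' z' S' P' R' Y' →
      ∀ N : ℕ, N0 ≤ N → ∀ L : ℕ, 1 ≤ L → 2 * L ≤ N →
      R' N ≤ ∑ m ∈ range (L + 1), kk ρ Y m * Y' (N - m) +
        (C * (L : ℝ) ^ (-(1 / 2) : ℝ) + δ) * (N : ℝ) ^ (-(5 / 2) : ℝ) +
        ∑ j ∈ (range (N + 1)).filter (fun j : ℕ => 1 / (4 * mean (nrm Y)) * N < j),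
          (ρ' j * tot Y ^ j) * pw (nrm Y) j N := by
  have htd := h.td hm
  have hT := h.totY_pos hm
  have hμ := htd.one_le_mean
  set μ := mean (nrm Y) with hμdef
  have hμ0 : 0 < μ := by linarith
  have hK := hm.fY.K_nonneg
  have hc := hm.c_pos
  have hpc := pc_pos (γ := 1 / 2) (by norm_num)
  refine ⟨8 * K * (K / c * pc (1 / 2)) + 1, by positivity, fun δ hδ => ?_⟩
  -- `Σ i Y i = μ tot Y`
  have hsbY : ∀ s : Finset ℕ, ∑ i ∈ s, sb Y i ≤ μ * tot Y := by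
    intro s
    have h1 : ∀ i, sb Y i = tot Y * (nrm Y i * i) := by
      intro i
      simp only [sb, nrm, Pi.smul_apply, smul_eq_mul]
      field_simp
    have h2 : ∑ i ∈ s, sb Y i = tot Y * ∑ i ∈ s, nrm Y i * i := by
      rw [Finset.mul_sum]
      exact sum_congr rfl fun i _ => h1 i
    rw [h2, mul_comm μ]
    refine mul_le_mul_of_nonneg_left ?_ hT.le
    exact htd.law.ht.summable_mean.sum_le_tsum s fun n _ =>
      mul_nonneg (htd.isLaw.nonneg n) (Nat.cast_nonneg n)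
  set δ' := δ / (4 * (μ * tot Y)) with hδ'
  have hδ'0 : 0 < δ' := by positivity
  obtain ⟨M0, hM0, hlow⟩ := h.kk_low hm hδ'0
  refine ⟨2 * M0 + 2, fun ρ' a' z' S' P' R' Y' hs N hN L hL hLN => ?_⟩
  have hN1 : 1 ≤ N := by omega
  have hN' : (0 : ℝ) < N := by exact_mod_cast hN1
  set E := ⌊(N : ℝ) / (4 * μ)⌋₊ with hE
  have hEle : (E : ℝ) ≤ N / (4 * μ) := Nat.floor_le (by positivity)
  have hsb0 : ∀ n, 0 ≤ sb Y n := fun n => mul_nonneg (Nat.cast_nonneg n) (h.Y_nonneg n)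
  have hsb0' : ∀ n, 0 ≤ sb Y' n := fun n => mul_nonneg (Nat.cast_nonneg n) (hs.Y_nonneg n)
  have hsb : ∀ n, sb Y' n ≤ sb Y n := fun n =>
    mul_le_mul_of_nonneg_left (hs.Y_le n) (Nat.cast_nonneg n)
  have hk0 := kk_nonneg h.ρ_nonneg h.Y_nonneg (Y := Y)
  have hk0' := kk_nonneg hs.ρ_nonneg hs.Y_nonneg (Y := Y')
  have hkm : ∀ m, kk ρ' Y' m ≤ kk ρ Y m := kk_mono hs.ρ_nonneg hs.ρ_le hs.Y_nonneg hs.Y_le
  have hup0 : ∀ j, 0 ≤ up ρ' E j := up_nonneg hs.ρ_nonneg E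
  have hkup0 := kk_nonneg hup0 hs.Y_nonneg (Y := Y')
  have hkY := (hs.Y_zero h)
  -- the inequality
  have h1 : (N : ℝ) * R' N ≤ ∑ m ∈ range (N + 1), kk ρ' Y' m * sb Y' (N - m) := by
    have h0 : R' N ≤ RR ρ' Y' N := hs.R_eq N
    refine (mul_le_mul_of_nonneg_left h0 hN'.le).trans (le_of_eq ?_)
    rw [sb_RR ρ' hkY, cv_comm, cv_eq_range]
  have h2 : ∑ m ∈ range (N + 1), kk ρ' Y' m * sb Y' (N - m) =
      ∑ m ∈ range (L + 1), kk ρ' Y' m * sb Y' (N - m) +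
      ∑ m ∈ Ico (L + 1) (N / 2 + 1), kk ρ' Y' m * sb Y' (N - m) +
      ∑ m ∈ Ico (N / 2 + 1) (N + 1), kk ρ' Y' m * sb Y' (N - m) := by
    rw [Finset.range_eq_Ico, Finset.range_eq_Ico, sum_Ico_consecutive _ (Nat.zero_le _) (by omega),
      sum_Ico_consecutive _ (Nat.zero_le _) (by omega)]
  -- part 1
  have p1 : ∑ m ∈ range (L + 1), kk ρ' Y' m * sb Y' (N - m) ≤
      N * ∑ m ∈ range (L + 1), kk ρ Y m * Y' (N - m) := by
    rw [Finset.mul_sum]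
    refine sum_le_sum fun m _ => ?_
    have h3 : ((N - m : ℕ) : ℝ) ≤ N := by exact_mod_cast Nat.sub_le _ _
    have h4 : 0 ≤ kk ρ Y m * Y' (N - m) := mul_nonneg (hk0 m) (hs.Y_nonneg _)
    unfold sb
    calc kk ρ' Y' m * (((N - m : ℕ) : ℝ) * Y' (N - m)) ≤
          kk ρ Y m * (((N - m : ℕ) : ℝ) * Y' (N - m)) :=
          mul_le_mul_of_nonneg_right (hkm m) (hsb0' _)
      _ = ((N - m : ℕ) : ℝ) * (kk ρ Y m * Y' (N - m)) := by ring
      _ ≤ _ := mul_le_mul_of_nonneg_right h3 h4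
  -- part 2
  have p2 : ∑ m ∈ Ico (L + 1) (N / 2 + 1), kk ρ' Y' m * sb Y' (N - m) ≤
      N * (8 * K * (K / c * pc (1 / 2)) * (L : ℝ) ^ (-(1 / 2) : ℝ) * (N : ℝ) ^ (-(5 / 2) : ℝ)) := by
    have h3 : ∀ m ∈ Ico (L + 1) (N / 2 + 1), kk ρ' Y' m * sb Y' (N - m) ≤
        (N * (K * (8 * (N : ℝ) ^ (-(5 / 2) : ℝ)))) * (K / c * ((m + 1 : ℕ) : ℝ) ^ (-(3 / 2) : ℝ)) := by
      intro m hm'
      have hm1 := mem_Ico.1 hm'
      have h4 : sb Y' (N - m) ≤ N * (K * (8 * (N : ℝ) ^ (-(5 / 2) : ℝ))) := by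
        refine (hsb _).trans ?_
        unfold sb
        refine mul_le_mul ?_ ?_ (h.Y_nonneg _) hN'.le
        · exact_mod_cast Nat.sub_le _ _
        · exact (hm.fY.up (N - m) (by omega)).trans
            (mul_le_mul_of_nonneg_left (half_pow hN1 (by omega)) hK)
      rw [mul_comm (N * (K * (8 * (N : ℝ) ^ (-(5 / 2) : ℝ))))]
      exact mul_le_mul ((hkm m).trans (h.kk_up hm m)) h4 (hsb0' _) (by positivity)
    refine (sum_le_sum h3).trans ?_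
    rw [← Finset.mul_sum, ← Finset.mul_sum]
    have h4 : ∑ m ∈ Ico (L + 1) (N / 2 + 1), ((m + 1 : ℕ) : ℝ) ^ (-(3 / 2) : ℝ) ≤
        pc (1 / 2) * (L : ℝ) ^ (-(1 / 2) : ℝ) := by
      rw [Finset.sum_Ico_eq_sum_range]
      have h5 : ∑ k ∈ range (N / 2 + 1 - (L + 1)), ((L + 1 + k + 1 : ℕ) : ℝ) ^ (-(3 / 2) : ℝ) =
          ∑ n ∈ range (N / 2 + 1 - (L + 1)), ((n + (L + 2) : ℕ) : ℝ) ^ (-(1 + 1 / 2) : ℝ) := by
        refine sum_congr rfl fun k _ => ?_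
        rw [show (-(1 + 1 / 2) : ℝ) = -(3 / 2) by norm_num, show L + 1 + k + 1 = k + (L + 2) by ring]
      rw [h5]
      refine (sum_range_pow_le (γ := 1 / 2) (by norm_num) (s := L + 2) (by omega) _).trans ?_
      refine mul_le_mul_of_nonneg_left ?_ hpc.le
      have h6 : (0 : ℝ) ≤ ((N / 2 + 1 - (L + 1) + (L + 2) : ℕ) : ℝ) ^ (-(1 / 2) : ℝ) := by positivity
      have h7 : ((L + 2 : ℕ) : ℝ) ^ (-(1 / 2) : ℝ) ≤ (L : ℝ) ^ (-(1 / 2) : ℝ) := by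
        refine Real.rpow_le_rpow_of_nonpos (by exact_mod_cast hL) ?_ (by norm_num)
        push_cast; linarith
      linarith
    calc _ ≤ (N * (K * (8 * (N : ℝ) ^ (-(5 / 2) : ℝ)))) *
          (K / c * (pc (1 / 2) * (L : ℝ) ^ (-(1 / 2) : ℝ))) :=
          mul_le_mul_of_nonneg_left (mul_le_mul_of_nonneg_left h4 (by positivity)) (by positivity)
      _ = _ := by ring
  -- part 3
  have p3 : ∑ m ∈ Ico (N / 2 + 1) (N + 1), kk ρ' Y' m * sb Y' (N - m) ≤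
      N * (δ * (N : ℝ) ^ (-(5 / 2) : ℝ)) + N * RR (up ρ' E) Y N := by
    have h3 : ∑ m ∈ Ico (N / 2 + 1) (N + 1), kk ρ' Y' m * sb Y' (N - m) =
        ∑ m ∈ Ico (N / 2 + 1) (N + 1), kk (lo ρ' E) Y' m * sb Y' (N - m) +
        ∑ m ∈ Ico (N / 2 + 1) (N + 1), kk (up ρ' E) Y' m * sb Y' (N - m) := by
      rw [← sum_add_distrib]
      refine sum_congr rfl fun m _ => ?_
      rw [kk_cut ρ' Y' E m]
      ring
    rw [h3]
    refine add_le_add ?_ ?_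
    · have h4 : ∀ m ∈ Ico (N / 2 + 1) (N + 1), kk (lo ρ' E) Y' m * sb Y' (N - m) ≤
          (δ' * (4 * (N : ℝ) ^ (-(3 / 2) : ℝ))) * sb Y (N - m) := by
        intro m hm'
        have hm1 := mem_Ico.1 hm'
        have hmN : (N : ℝ) / 2 ≤ m := by
          have : N ≤ 2 * m := by omega
          have : (N : ℝ) ≤ 2 * m := by exact_mod_cast this
          linarith
        have h5 : 2 * (μ * E) ≤ m := by
          have h6 : μ * E ≤ μ * (N / (4 * μ)) := mul_le_mul_of_nonneg_left hEle hμ0.le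
          have h7 : μ * ((N : ℝ) / (4 * μ)) = N / 4 := by field_simp
          rw [h7] at h6
          linarith
        have h6 : kk (lo ρ' E) Y' m ≤ kk (lo ρ E) Y m :=
          kk_mono (lo_nonneg hs.ρ_nonneg E) (lo_le hs.ρ_le E) hs.Y_nonneg hs.Y_le m
        have h7 : kk (lo ρ E) Y m ≤ δ' * (4 * (N : ℝ) ^ (-(3 / 2) : ℝ)) := by
          refine (hlow m (by omega) E h5).trans (mul_le_mul_of_nonneg_left ?_ hδ'0.le)
          refine (Real.rpow_le_rpow_of_nonpos (by positivity) hmN (by norm_num)).trans ?_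
          rw [Real.div_rpow hN'.le (by norm_num), Real.rpow_neg (by norm_num : (0:ℝ) ≤ 2),
            div_inv_eq_mul, mul_comm]
          refine mul_le_mul_of_nonneg_right ?_ (by positivity)
          have : (2 : ℝ) ^ (3 / 2 : ℝ) ≤ 2 ^ (2 : ℝ) :=
            Real.rpow_le_rpow_of_exponent_le (by norm_num) (by norm_num)
          refine this.trans (le_of_eq ?_)
          norm_num
        exact mul_le_mul (h6.trans h7) (hsb _) (hsb0' _) (by positivity)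
      refine (sum_le_sum h4).trans ?_
      rw [← Finset.mul_sum]
      have h5 : ∑ m ∈ Ico (N / 2 + 1) (N + 1), sb Y (N - m) ≤ μ * tot Y := by
        have h6 : ∑ m ∈ Ico (N / 2 + 1) (N + 1), sb Y (N - m) =
            ∑ i ∈ (Ico (N / 2 + 1) (N + 1)).image (fun m => N - m), sb Y i := by
          rw [sum_image]
          intro m hm1 m' hm2 hmm
          have := mem_Ico.1 hm1
          have := mem_Ico.1 hm2
          simp only at hmm
          omega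
        rw [h6]
        exact hsbY _
      have h6 : (N : ℝ) ^ (-(3 / 2) : ℝ) = N * (N : ℝ) ^ (-(5 / 2) : ℝ) := by
        nth_rewrite 2 [← Real.rpow_one (N : ℝ)]
        rw [← Real.rpow_add hN']; norm_num
      calc δ' * (4 * (N : ℝ) ^ (-(3 / 2) : ℝ)) * ∑ m ∈ Ico (N / 2 + 1) (N + 1), sb Y (N - m) ≤
            δ' * (4 * (N : ℝ) ^ (-(3 / 2) : ℝ)) * (μ * tot Y) :=
            mul_le_mul_of_nonneg_left h5 (by positivity)
        _ = N * (δ * (N : ℝ) ^ (-(5 / 2) : ℝ)) := by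
            rw [h6, hδ']
            field_simp
    · refine le_trans ?_ (mul_le_mul_of_nonneg_left (RR_mono hup0 hs.Y_nonneg hs.Y_le N) hN'.le)
      rw [sb_RR _ hkY, cv_comm, cv_eq_range]
      refine sum_le_sum_of_subset_of_nonneg ?_ fun m _ _ => mul_nonneg (hkup0 m) (hsb0' _)
      intro m hm'
      have := mem_Ico.1 hm'
      exact mem_range.2 (by omega)
  -- the source
  have p4 : RR (up ρ' E) Y N ≤
      ∑ j ∈ (range (N + 1)).filter (fun j : ℕ => 1 / (4 * μ) * N < j),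
          (ρ' j * tot Y ^ j) * pw (nrm Y) j N := by
    unfold RR
    rw [sum_filter]
    refine sum_le_sum fun j _ => ?_
    by_cases hj : j ≤ E
    · have : up ρ' E j = 0 := by unfold up; rw [if_pos hj]
      rw [this, zero_mul]
      split_ifs
      · exact mul_nonneg (mul_nonneg (hs.ρ_nonneg j) (by positivity)) ((htd.isLaw.pw j).nonneg N)
      · exact le_rfl
    · have h3 : up ρ' E j = ρ' j := by unfold up; rw [if_neg hj]
      have h4 : 1 / (4 * μ) * N < j := by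
        have h5 : (N : ℝ) / (4 * μ) < E + 1 := Nat.lt_floor_add_one _
        have h6 : (E : ℝ) + 1 ≤ j := by
          have : E + 1 ≤ j := by omega
          exact_mod_cast this
        have h7 : 1 / (4 * μ) * (N : ℝ) = N / (4 * μ) := by ring
        rw [h7]
        linarith
      rw [h3, if_pos h4, pw_nrm hT]
      exact le_of_eq (by ring)
  -- together
  have h3 : (N : ℝ) * R' N ≤ N * (∑ m ∈ range (L + 1), kk ρ Y m * Y' (N - m) +
      (8 * K * (K / c * pc (1 / 2)) * (L : ℝ) ^ (-(1 / 2) : ℝ) + δ) * (N : ℝ) ^ (-(5 / 2) : ℝ) +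
      RR (up ρ' E) Y N) := by
    refine h1.trans ?_
    rw [h2]
    calc _ ≤ _ := add_le_add (add_le_add p1 p2) p3
      _ = _ := by ring
  have h4 := le_of_mul_le_mul_left h3 hN'
  refine h4.trans ?_
  have h5 : 0 ≤ (L : ℝ) ^ (-(1 / 2) : ℝ) * (N : ℝ) ^ (-(5 / 2) : ℝ) := by positivity
  nlinarith

end

theorem MB.sub {K T : ℝ} {F F' : ℕ → ℝ} (hF : MB K T F) (h0 : ∀ n, 0 ≤ F' n)
    (h : ∀ n, F' n ≤ F n) : MB K T F' :=
  ⟨h0, fun n hn => (h n).trans (hF.up n hn), fun s => (sum_le_sum fun n _ => h n).trans (hF.sum s)⟩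

end Pool.Agent.DiamP
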