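import Pool.Agent.DiamP.Iter
import Pool.Agent.DiamP.SubStep

/-!
# The lower bound for windows, for sub-systems (Theorem B' of MP_d7a93a_pr)
-/

set_option autoImplicit false

open Finset Filter Topology
open scoped Real

namespace Pool.Agent.DiamP

section
variable {x y : ℝ} {ρ a z S P R Y : ℕ → ℝ}

/-- **lower bound for windows, sub-systems** -/
theorem Sys.window_low_sub (h : Sys x y ρ a z S P R Y) {c K : ℝ} (hm : h.Mass c K)
    {κ kR va vz vS vP vR : ℝ}
    (hM : Mat κ x y (tot a) (tot z) (tot S) (tot P) (tot R) (tot Y) kR va vz vS vP vR)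
    (hkR : ∀ J : Finset ℕ, ∑ j ∈ J, (j : ℝ) * ρ j * tot Y ^ (j - 1) ≤ kR)
    {ca : ℝ} (hca : 0 < ca) :
    ∃ A c' : ℝ, 0 < A ∧ 0 < c' ∧ ∃ n0 : ℕ,
      ∀ ρ' a' z' S' P' R' Y' : ℕ → ℝ, Sub x y ρ a z S P R Y ρ' a' z' S' P' R' Y' →
      ∀ n : ℕ, n0 ≤ n → ca * (n : ℝ) ^ (-(5 / 2) : ℝ) ≤ a' n →
      c' * (n : ℝ) ^ (-(11 / 6) : ℝ) ≤
        ∑ j ∈ (range (n + 1)).filter (fun j : ℕ => |mean (nrm Y) * j - n| ≤
          A * (n : ℝ) ^ (2 / 3 : ℝ)), ρ' j * tot Y ^ j := by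
  obtain ⟨C, hC1, hstep⟩ := h.step_sub hm hM hkR
  have hT := h.totY_pos hm
  have htd := h.td hm
  have hμ := htd.one_le_mean
  set μ := mean (nrm Y) with hμdef
  have hμ0 : 0 < μ := by linarith
  have hK := hm.fY.K_nonneg
  have hC0 : 0 ≤ C := by linarith
  have hκ0 := hM.κ_pos
  have hκ1 := hM.κ_lt
  have hva := hM.va_pos
  have hvz := hM.vz_pos
  have hvS := hM.vS_pos
  have hvP := hM.vP_pos
  have hvR := hM.vR_pos
  set V := 1 / va + 1 / vz + 1 / vS + 1 / vP + 1 / vR + 1 with hV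
  have hVa : 0 < 1 / va := by positivity
  have hVz : 0 < 1 / vz := by positivity
  have hVS : 0 < 1 / vS := by positivity
  have hVP : 0 < 1 / vP := by positivity
  have hVR : 0 < 1 / vR := by positivity
  have hV1 : 1 ≤ V := by rw [hV]; linarith
  have hV0 : 0 ≤ V := by linarith
  have hone : ∀ {v : ℝ}, 0 < v → 1 / v ≤ V → 1 ≤ v * V := by
    intro v hv h1
    have := mul_le_mul_of_nonneg_left h1 hv.le
    rwa [mul_one_div_cancel hv.ne'] at this
  have ga : 1 ≤ va * V := hone hva (by rw [hV]; linarith)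
  have gz : 1 ≤ vz * V := hone hvz (by rw [hV]; linarith)
  have gS : 1 ≤ vS * V := hone hvS (by rw [hV]; linarith)
  have gP : 1 ≤ vP * V := hone hvP (by rw [hV]; linarith)
  have gR : 1 ≤ vR * V := hone hvR (by rw [hV]; linarith)
  -- choose `k0`
  obtain ⟨k0, hk0⟩ : ∃ k0 : ℕ, va * (κ ^ k0 * (8 * K * V)) ≤ ca / 4 := by
    have h1 : Tendsto (fun k : ℕ => va * (κ ^ k * (8 * K * V))) atTop (𝓝 (va * (0 * (8 * K * V)))) :=
      ((tendsto_pow_atTop_nhds_zero_of_lt_one hκ0.le hκ1).mul_const _).const_mul _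
    rw [zero_mul, mul_zero] at h1
    exact (h1.eventually (eventually_le_nhds (show (0 : ℝ) < ca / 4 by linarith))).exists
  -- the constant of the error
  set G := va * (C * V * (1 / (1 - κ))) with hG
  have hG0 : 0 < G := by
    have : 0 < 1 - κ := by linarith
    have : 0 < C := by linarith
    positivity
  set δ := ca / (4 * G * 17) with hδ
  have hδ0 : 0 < δ := by positivity
  obtain ⟨N1, hN1⟩ := hstep δ hδ0
  obtain ⟨A, C', hA, hC', n2, hn2⟩ := htd.src_bound_sub (ε := 1 / (8 * μ)) (B := k0) (δ := δ)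
    (by positivity) (Nat.cast_nonneg k0) hδ0
  -- `n` large
  obtain ⟨n3, hn3, hpow3⟩ := eventually_pow_lt (α := 2 / 3) (β := 1) (C := 2 * k0 + 8) (by norm_num)
  obtain ⟨n4, hn4, hpow4⟩ := eventually_pow_lt (α := 0) (β := 2 / 3) (C := 4 / δ ^ 2 + 4) (by norm_num)
  refine ⟨A, ca / (2 * G * C'), hA, by positivity, 2 * N1 + n2 + n3 + n4 + 2,
    fun ρ' a' z' S' P' R' Y' hs n hn hlow => ?_⟩
  have hn1 : 1 ≤ n := by omega
  have hn' : (0 : ℝ) < n := by exact_mod_cast hn1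
  set q := (n : ℝ) ^ (2 / 3 : ℝ) with hq
  have hq0 : 0 < q := by positivity
  have hp3 : (2 * k0 + 8) * q ≤ n := by
    have := hpow3 n (by have : n3 ≤ n := by omega
                        exact_mod_cast this)
    rwa [Real.rpow_one] at this
  have hp4 : 4 / δ ^ 2 + 4 ≤ q := by
    have := hpow4 n (by have : n4 ≤ n := by omega
                        exact_mod_cast this)
    rwa [Real.rpow_zero, mul_one] at this
  have hδ2 : 0 < 4 / δ ^ 2 := by positivity
  set L := ⌊q⌋₊ with hL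
  have hLq : (L : ℝ) ≤ q := Nat.floor_le hq0.le
  have hqL : q < L + 1 := Nat.lt_floor_add_one q
  have hL2 : 2 ≤ L := by
    have : (3 : ℝ) < L := by linarith
    have : 3 < L := by exact_mod_cast this
    omega
  have hL' : (0 : ℝ) < L := by
    have : 0 < L := by omega
    exact_mod_cast this
  -- `k0 L ≤ n/2`
  have hkL : 2 * (k0 * L) ≤ n := by
    have h1 : (2 * (k0 * L) : ℝ) ≤ n := by
      have h2 : (k0 : ℝ) * L ≤ k0 * q := mul_le_mul_of_nonneg_left hLq (Nat.cast_nonneg _)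
      nlinarith
    exact_mod_cast h1
  have hL8 : 8 * L ≤ n := by
    have h1 : (8 * L : ℝ) ≤ n := by
      have h2 : 0 ≤ (k0 : ℝ) * q := by positivity
      nlinarith
    exact_mod_cast h1
  have hLpow : (L : ℝ) ^ (-(1 / 2) : ℝ) ≤ δ := by
    have h1 : 4 / δ ^ 2 ≤ L := by linarith
    have h2 : 1 / δ ^ 2 ≤ L := by
      refine le_trans ?_ h1
      exact div_le_div_of_nonneg_right (by norm_num) (by positivity)
    have h3 : (L : ℝ) ^ (-(1 / 2) : ℝ) ≤ (1 / δ ^ 2) ^ (-(1 / 2) : ℝ) :=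
      Real.rpow_le_rpow_of_nonpos (by positivity) h2 (by norm_num)
    refine h3.trans (le_of_eq ?_)
    rw [one_div, Real.inv_rpow (by positivity), Real.rpow_neg (by positivity), inv_inv,
      ← Real.sqrt_eq_rpow, Real.sqrt_sq hδ0.le]
  set n5 := (n : ℝ) ^ (-(5 / 2) : ℝ) with hn5
  have hn50 : 0 < n5 := by positivity
  have hτ0' : ∀ j, 0 ≤ ρ' j * tot Y ^ j := fun j => mul_nonneg (hs.ρ_nonneg j) (by positivity)
  set ω := ∑ j ∈ (range (n + 1)).filter (fun j : ℕ => |μ * j - n| ≤ A * q), ρ' j * tot Y ^ j with hω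
  have hω0 : 0 ≤ ω := sum_nonneg fun j _ => hτ0' j
  set e := 17 * δ * n5 + C' * (n : ℝ) ^ (-(2 / 3) : ℝ) * ω with he
  have he0 : 0 ≤ e := by positivity
  -- the step
  have hN5 : ∀ N : ℕ, n - k0 * L ≤ N → (N : ℝ) ^ (-(5 / 2) : ℝ) ≤ 8 * n5 := by
    intro N hN
    have h1 : (n : ℝ) / 2 ≤ N := by
      have : n ≤ 2 * N := by omega
      have : (n : ℝ) ≤ 2 * N := by exact_mod_cast this
      linarith
    exact (Real.rpow_le_rpow_of_nonpos (by positivity) h1 (by norm_num)).trans (half_rpow hn')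
  have hst : ∀ N : ℕ, n - k0 * L ≤ N → N ≤ n → ∀ g : ℝ, 0 ≤ g →
      Win a' z' S' P' R' Y' va vz vS vP vR g (N - L) (N - 1) →
      a' N ≤ va * (κ * g) + C * e ∧ z' N ≤ vz * (κ * g) + C * e ∧ S' N ≤ vS * (κ * g) + C * e ∧
        P' N ≤ vP * (κ * g) + C * e ∧ R' N ≤ vR * (κ * g) + C * e ∧ Y' N ≤ κ * g + C * e := by
    intro N hN1' hN2' g hg hw
    refine hN1 ρ' a' z' S' P' R' Y' hs N (by omega) L hL2 (by omega) g hg hw e ?_
    have h1 : ((L : ℝ) ^ (-(1 / 2) : ℝ) + δ) * (N : ℝ) ^ (-(5 / 2) : ℝ) ≤ 2 * δ * (8 * n5) :=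
      mul_le_mul (by linarith) (hN5 N hN1') (by positivity) (by positivity)
    have h2 := hn2 (fun j => ρ' j * tot Y ^ j) hτ0'
      (fun j => mul_le_mul_of_nonneg_right (hs.ρ_le j) (by positivity)) n (by omega) N hN2' (by
      have h3 : (n : ℝ) - k0 * L ≤ N := by
        have h4 : n ≤ N + k0 * L := by omega
        have h5 : (n : ℝ) ≤ N + k0 * L := by exact_mod_cast h4
        linarith
      have h4 : (k0 : ℝ) * L ≤ k0 * q := mul_le_mul_of_nonneg_left hLq (Nat.cast_nonneg _)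
      linarith)
    have h3 : ∑ j ∈ (range (N + 1)).filter (fun j : ℕ => 1 / (4 * μ) * N < j),
        (ρ' j * tot Y ^ j) * pw (nrm Y) j N ≤
        ∑ j ∈ (range (N + 1)).filter (fun j : ℕ => 1 / (8 * μ) * n < j),
        (ρ' j * tot Y ^ j) * pw (nrm Y) j N := by
      refine sum_le_sum_of_subset_of_nonneg ?_ fun j _ _ =>
        mul_nonneg (hτ0' j) ((htd.isLaw.pw j).nonneg N)
      intro j hj
      obtain ⟨h4, h5⟩ := mem_filter.1 hj
      refine mem_filter.2 ⟨h4, lt_of_le_of_lt ?_ h5⟩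
      have h6 : (n : ℝ) / 2 ≤ N := by
        have : n ≤ 2 * N := by omega
        have : (n : ℝ) ≤ 2 * N := by exact_mod_cast this
        linarith
      have h7 : 1 / (8 * μ) * (n : ℝ) = 1 / (4 * μ) * (n / 2) := by
        field_simp
        norm_num
      rw [h7]
      exact mul_le_mul_of_nonneg_left h6 (by positivity)
    have h4 := h3.trans h2
    have e1 : e = 2 * δ * (8 * n5) + (δ * n5 + C' * (n : ℝ) ^ (-(2 / 3) : ℝ) * ω) := by
      rw [he]; ring
    rw [e1]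
    exact add_le_add h1 h4
  -- initial window
  have hinit : Win a' z' S' P' R' Y' va vz vS vP vR (8 * K * V * n5) (n - k0 * L) n := by
    have key : ∀ {F : ℕ → ℝ} {v : ℝ}, MB K (tot F) F → 1 ≤ v * V →
        ∀ N, n - k0 * L ≤ N → N ≤ n → F N ≤ v * (8 * K * V * n5) := by
      intro F v hF hv N h1 h2
      have h3 : 1 ≤ N := by omega
      have h4 := (hF.up N h3).trans (mul_le_mul_of_nonneg_left (hN5 N h1) hK)
      have h5 : 0 ≤ K * (8 * n5) := by positivity
      calc F N ≤ K * (8 * n5) := h4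
        _ = 1 * (K * (8 * n5)) := (one_mul _).symm
        _ ≤ v * V * (K * (8 * n5)) := mul_le_mul_of_nonneg_right hv h5
        _ = v * (8 * K * V * n5) := by ring
    have hYk : ∀ N, n - k0 * L ≤ N → N ≤ n → Y' N ≤ 8 * K * V * n5 := by
      intro N h1 h2
      have := key (v := 1) hm.fY (by rw [one_mul]; exact hV1) N h1 h2
      rw [one_mul] at this
      exact (hs.Y_le N).trans this
    exact ⟨fun N h1 h2 => (hs.a_le N).trans (key hm.fa ga N h1 h2),
      fun N h1 h2 => (hs.z_le N).trans (key hm.fz gz N h1 h2),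
      fun N h1 h2 => (hs.S_le N).trans (key hm.fS gS N h1 h2),
      fun N h1 h2 => (hs.P_le N).trans (key hm.fP gP N h1 h2),
      fun N h1 h2 => (hs.R_le N).trans (key hm.fR gR N h1 h2), hYk⟩
  obtain ⟨g, hg, hgle, hw⟩ := iterate hC0 hV0 hκ0 ga gz gS gP gR hV1 e (8 * K * V * n5) he0
    (by positivity) hst hinit (by omega) k0 le_rfl
  have h1 := hw.wa n (by omega) le_rfl
  have h2 := hlow
  have h3 : ∑ i ∈ range k0, κ ^ i ≤ 1 / (1 - κ) := by
    have h4 : 0 < 1 - κ := by linarith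
    rw [le_div_iff₀ h4, geom_sum_mul_neg]
    have : 0 ≤ κ ^ k0 := by positivity
    linarith
  have h4 : va * g ≤ ca / 4 * n5 + G * e := by
    have h5 : C * V * e * ∑ i ∈ range k0, κ ^ i ≤ C * V * e * (1 / (1 - κ)) :=
      mul_le_mul_of_nonneg_left h3 (by positivity)
    have h6 : va * g ≤ va * (κ ^ k0 * (8 * K * V * n5) + C * V * e * (1 / (1 - κ))) :=
      mul_le_mul_of_nonneg_left (by linarith) hva.le
    have h7 : va * (κ ^ k0 * (8 * K * V * n5) + C * V * e * (1 / (1 - κ))) =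
        va * (κ ^ k0 * (8 * K * V)) * n5 + G * e := by rw [hG]; ring
    rw [h7] at h6
    have h8 := mul_le_mul_of_nonneg_right hk0 hn50.le
    linarith
  have h5 : G * e = ca / 4 * n5 + G * C' * (n : ℝ) ^ (-(2 / 3) : ℝ) * ω := by
    rw [he, hδ]
    field_simp
  have h6 : ca / 2 * n5 ≤ G * C' * (n : ℝ) ^ (-(2 / 3) : ℝ) * ω := by
    have h7 : ca * n5 ≤ ca / 4 * n5 + (ca / 4 * n5 + G * C' * (n : ℝ) ^ (-(2 / 3) : ℝ) * ω) := by
      rw [← h5]
      linarith
    linarith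
  have h7 : (n : ℝ) ^ (-(11 / 6) : ℝ) = n5 * q := by
    rw [hn5, hq, ← Real.rpow_add hn']; norm_num
  have h8 : (n : ℝ) ^ (-(2 / 3) : ℝ) * q = 1 := by
    rw [hq, ← Real.rpow_add hn']; norm_num
  rw [h7]
  have h9 : ca / (2 * G * C') * (n5 * q) = (ca / 2 * n5) * q / (G * C') := by
    field_simp
  rw [h9, div_le_iff₀ (by positivity)]
  have h10 := mul_le_mul_of_nonneg_right h6 hq0.le
  refine h10.trans (le_of_eq ?_)
  calc G * C' * (n : ℝ) ^ (-(2 / 3) : ℝ) * ω * q = G * C' * ω * ((n : ℝ) ^ (-(2 / 3) : ℝ) * q) := by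
        ring
    _ = ω * (G * C') := by rw [h8]; ring

end

end Pool.Agent.DiamP
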