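import Pool.Agent.DiamP.Chap4
import Pool.Agent.DiamP.SubIter

/-!
# Windows of the rigid weights, sub-systems (Theorem B' of MP_d7a93a_pr)
-/

set_option autoImplicit false

open Finset Filter Topology
open scoped Real

namespace Pool.Agent.DiamP

/-- the windows, lower bound for sub-systems -/
theorem windows_sub {t : ℝ} (ht1 : 607 / 1000 ≤ t) (ht2 : t ≤ 6295 / 10000) {y : ℝ}
    {ρ a z S P R Y : ℕ → ℝ} (h : Sys (PGr.scr t) y ρ a z S P R Y)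
    (hρ : ∀ j, ρ j = (PGr.rc' (ENNReal.ofReal (PGr.scr t)) j).toReal)
    (ha : HasSum a (nA t)) (hz : HasSum z (nz t)) (hY : HasSum Y (PGr.ecr t))
    (hS : HasSum S (nS t)) (hP : HasSum P (nP t)) {ca Ka : ℝ} (hca : 0 < ca)
    (hlow : ∀ n : ℕ, 1 ≤ n → ca * (n : ℝ) ^ (-(5 / 2) : ℝ) ≤ a n)
    (hup : ∀ n : ℕ, 1 ≤ n → a n ≤ Ka * (n : ℝ) ^ (-(5 / 2) : ℝ)) {cb : ℝ} (hcb : 0 < cb) :
    ∃ A c' : ℝ, 0 < A ∧ 0 < c' ∧ ∃ n0 : ℕ,
      ∀ ρ' a' z' S' P' R' Y' : ℕ → ℝ, Sub (PGr.scr t) y ρ a z S P R Y ρ' a' z' S' P' R' Y' →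
      ∀ n : ℕ, n0 ≤ n → cb * (n : ℝ) ^ (-(5 / 2) : ℝ) ≤ a' n →
      c' * (n : ℝ) ^ (-(11 / 6) : ℝ) ≤
        ∑ j ∈ (range (n + 1)).filter (fun j : ℕ => |mean (nrm Y) * j - n| ≤
          A * (n : ℝ) ^ (2 / 3 : ℝ)), ρ' j * PGr.ecr t ^ j := by
  have h0 : 0 < t := by linarith
  have h1 : t < 1 := by linarith
  have eA : tot a = nA t := ha.tsum_eq
  have ez : tot z = nz t := hz.tsum_eq
  have eY : tot Y = PGr.ecr t := hY.tsum_eq
  have eS : tot S = nS t := hS.tsum_eq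
  have eP : tot P = nP t := hP.tsum_eq
  obtain ⟨c, K, hm⟩ := h.mass hca hlow hup
  obtain ⟨t1, t2, t3, t4, t5⟩ := h.totals hm
  have hApos := nA_pos (t := t) h0
  have hy : y = nz t / nA t ^ 2 := by
    rw [ez, eA] at t1
    rw [t1]
    field_simp
  have hMat : Mat (98 / 100) (PGr.scr t) y (tot a) (tot z) (tot S) (tot P) (tot R) (tot Y) (nk t)
      (85 / 1000) (55 / 1000) (91 / 1000) (775 / 1000) (60 / 1000) := by
    have := mat_num (t := t) (tR := tot R) ht1 ht2 hy eS eP (by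
      rw [nE_eq, ← eY, ← ez]; exact t3)
    rw [eA, ez, eY]
    exact this
  have hx10 : PGr.scr t ≤ 1 / 10 := by
    unfold PGr.scr
    rw [div_le_iff₀ (by positivity)]
    have b2 : (607 / 1000) ^ 3 ≤ t ^ 3 := pow_le_pow_left₀ (by norm_num) ht1 3
    have b3 : (1 - t) ^ 3 ≤ (393 / 1000) ^ 3 := pow_le_pow_left₀ (by linarith) (by linarith) 3
    have b4 : (1 + 3 * t) * (1 - t) ^ 3 ≤ 3 * (393 / 1000) ^ 3 :=
      mul_le_mul (by linarith) b3 (pow_nonneg (by linarith) 3) (by norm_num)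
    nlinarith
  have hkR : ∀ J : Finset ℕ, ∑ j ∈ J, (j : ℝ) * ρ j * tot Y ^ (j - 1) ≤ nk t := by
    intro J
    have h2 := sum_rc_crit h0 h1 hx10 J
    rw [PGr.uf_crit h0 h1] at h2
    rw [eY]
    simp_rw [hρ]
    exact h2
  have key := h.window_low_sub hm hMat hkR hcb
  rw [eY] at key
  exact key

end Pool.Agent.DiamP
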