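import Pool.Agent.DiamP.Pow

/-!
# The system of networks (chapter 4 of MP_d7a93a_pr): masses and totals
-/

set_option autoImplicit false

open Finset Filter Topology
open scoped Real

namespace Pool.Agent.DiamP

/-- the system of networks: `a` rooted maps, `z` edges of the core, `S` series, `P` parallel, `R` rigid,
`Y` networks; `ρ j` = rigid maps with `j` nonroot edges; `x` weight of a vertex, `y` weight of an edge -/
structure Sys (x y : ℝ) (ρ a z S P R Y : ℕ → ℝ) : Prop where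
  x_pos : 0 < x
  y_pos : 0 < y
  ρ_nonneg : ∀ j, 0 ≤ ρ j
  ρ_zero : ρ 0 = 0
  ρ_one : ρ 1 = 0
  a_nonneg : ∀ n, 0 ≤ a n
  z_nonneg : ∀ n, 0 ≤ z n
  S_nonneg : ∀ n, 0 ≤ S n
  P_nonneg : ∀ n, 0 ≤ P n
  R_nonneg : ∀ n, 0 ≤ R n
  Y_zero : Y 0 = 0
  a_eq : ∀ n, a n = one0 n + z n + x * (z n + cv z Y n)
  z_zero : z 0 = 0
  z_succ : ∀ n, z (n + 1) = y * cv a a n
  Y_eq : ∀ n, Y n = z n + S n + P n + R n
  S_eq : ∀ n, S n = x * cv (z + P + R) Y n
  P_eq : ∀ n, P n = cv (z + S + R) Y n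
  R_eq : ∀ n, R n = ∑ j ∈ range (n + 1), ρ j * pw Y j n

/-- the total -/
noncomputable def tot (F : ℕ → ℝ) : ℝ := ∑' n, F n

theorem summable_of_up {F : ℕ → ℝ} {K : ℝ} (h0 : ∀ n, 0 ≤ F n)
    (h : ∀ n : ℕ, 1 ≤ n → F n ≤ K * (n : ℝ) ^ (-(5 / 2) : ℝ)) : Summable F := by
  rw [← summable_nat_add_iff 1]
  refine Summable.of_nonneg_of_le (fun n => h0 _) (fun n => h (n + 1) (by omega)) ?_
  have := (summable_pow (γ := 3 / 2) (by norm_num) (le_refl 1)).mul_left K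
  refine this.congr fun n => ?_
  rw [show (-(1 + 3 / 2) : ℝ) = -(5 / 2) by norm_num]

theorem mb_of_up {F : ℕ → ℝ} {K : ℝ} (h0 : ∀ n, 0 ≤ F n)
    (h : ∀ n : ℕ, 1 ≤ n → F n ≤ K * (n : ℝ) ^ (-(5 / 2) : ℝ)) : MB K (tot F) F :=
  ⟨h0, h, fun s => (summable_of_up h0 h).sum_le_tsum s fun n _ => h0 n⟩

theorem MB.summable {K T : ℝ} {F : ℕ → ℝ} (h : MB K T F) : Summable F := summable_of_up h.nonneg h.up

theorem MB.tot_le {K T : ℝ} {F : ℕ → ℝ} (h : MB K T F) : tot F ≤ T :=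
  h.summable.tsum_le_of_sum_le fun s => h.sum s

theorem MB.to_tot {K T : ℝ} {F : ℕ → ℝ} (h : MB K T F) : MB K (tot F) F := mb_of_up h.nonneg h.up

theorem tot_nonneg {F : ℕ → ℝ} (h : ∀ n, 0 ≤ F n) : 0 ≤ tot F := tsum_nonneg h

theorem tot_cv {F G : ℕ → ℝ} (hF0 : ∀ n, 0 ≤ F n) (hG0 : ∀ n, 0 ≤ G n) (hF : Summable F)
    (hG : Summable G) : Summable (cv F G) ∧ tot (cv F G) = tot F * tot G := by
  have hp' : Summable fun n => ‖F n‖ := by
    simpa [Real.norm_of_nonneg (hF0 _)] using hF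
  have hq' : Summable fun n => ‖G n‖ := by
    simpa [Real.norm_of_nonneg (hG0 _)] using hG
  have h1 := tsum_mul_tsum_eq_tsum_sum_antidiagonal_of_summable_norm hp' hq'
  have h2 := (summable_norm_sum_mul_antidiagonal_of_summable_norm hp' hq').of_norm
  exact ⟨h2, h1.symm⟩

theorem tot_one0 : tot one0 = 1 := isLaw_one0.tsum

theorem tot_pw {F : ℕ → ℝ} (hF0 : ∀ n, 0 ≤ F n) (hF : Summable F) (j : ℕ) :
    Summable (pw F j) ∧ tot (pw F j) = tot F ^ j := by
  induction j with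
  | zero => exact ⟨isLaw_one0.summable, by rw [pw_zero, tot_one0, pow_zero]⟩
  | succ j ih =>
    rw [pw_succ]
    obtain ⟨h1, h2⟩ := tot_cv hF0 (pw_nonneg hF0 j) hF ih.1
    exact ⟨h1, by rw [h2, ih.2, pow_succ']⟩

section
variable {x y : ℝ} {ρ a z S P R Y : ℕ → ℝ}

theorem Sys.Y_nonneg (h : Sys x y ρ a z S P R Y) (n : ℕ) : 0 ≤ Y n := by
  rw [h.Y_eq]
  have := h.z_nonneg n
  have := h.S_nonneg n
  have := h.P_nonneg n
  have := h.R_nonneg n
  linarith

theorem Sys.a_zero (h : Sys x y ρ a z S P R Y) : a 0 = 1 := by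
  rw [h.a_eq, h.z_zero]
  simp [one0, cv, h.Y_zero]

theorem Sys.z_one (h : Sys x y ρ a z S P R Y) : z 1 = y := by
  rw [show (1 : ℕ) = 0 + 1 from rfl, h.z_succ]
  simp [cv, h.a_zero]

theorem Sys.z_le_Y (h : Sys x y ρ a z S P R Y) (n : ℕ) : z n ≤ Y n := by
  rw [h.Y_eq]
  have := h.S_nonneg n
  have := h.P_nonneg n
  have := h.R_nonneg n
  linarith

theorem Sys.R_le_Y (h : Sys x y ρ a z S P R Y) (n : ℕ) : R n ≤ Y n := by
  rw [h.Y_eq]
  have := h.S_nonneg n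
  have := h.P_nonneg n
  have := h.z_nonneg n
  linarith

theorem Sys.S_le_Y (h : Sys x y ρ a z S P R Y) (n : ℕ) : S n ≤ Y n := by
  rw [h.Y_eq]
  have := h.R_nonneg n
  have := h.P_nonneg n
  have := h.z_nonneg n
  linarith

theorem Sys.P_le_Y (h : Sys x y ρ a z S P R Y) (n : ℕ) : P n ≤ Y n := by
  rw [h.Y_eq]
  have := h.R_nonneg n
  have := h.S_nonneg n
  have := h.z_nonneg n
  linarith

/-- one term of a convolution -/
theorem le_cv {F G : ℕ → ℝ} (hF : ∀ n, 0 ≤ F n) (hG : ∀ n, 0 ≤ G n) (i j : ℕ) :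
    F i * G j ≤ cv F G (i + j) := by
  unfold cv
  exact single_le_sum (f := fun ij : ℕ × ℕ => F ij.1 * G ij.2)
    (fun ij _ => mul_nonneg (hF _) (hG _)) (mem_antidiagonal.2 (rfl : ((i, j) : ℕ × ℕ).1 + _ = i + j))

theorem Sys.xyY_le (h : Sys x y ρ a z S P R Y) (n : ℕ) : x * y * Y n ≤ a (n + 1) := by
  have hx := h.x_pos
  rw [h.a_eq]
  have h1 := le_cv h.z_nonneg h.Y_nonneg 1 n
  rw [h.z_one, add_comm 1 n] at h1
  have h2 := one0_nonneg (n + 1)
  have h3 := h.z_nonneg (n + 1)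
  have h4 : x * (y * Y n) ≤ x * cv z Y (n + 1) := mul_le_mul_of_nonneg_left h1 hx.le
  have h5 : 0 ≤ x * z (n + 1) := mul_nonneg hx.le h3
  nlinarith

theorem Sys.ya_le (h : Sys x y ρ a z S P R Y) (n : ℕ) : y * a n ≤ z (n + 1) := by
  have hy := h.y_pos
  rw [h.z_succ]
  have h1 := le_cv h.a_nonneg h.a_nonneg 0 n
  rw [h.a_zero, one_mul, zero_add] at h1
  exact mul_le_mul_of_nonneg_left h1 hy.le

theorem pow_succ_le {n : ℕ} (hn : 1 ≤ n) :
    ((n + 1 : ℕ) : ℝ) ^ (-(5 / 2) : ℝ) ≤ (n : ℝ) ^ (-(5 / 2) : ℝ) := by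
  refine Real.rpow_le_rpow_of_nonpos (by exact_mod_cast hn) ?_ (by norm_num)
  push_cast; linarith

/-- all the masses -/
structure Sys.Mass (h : Sys x y ρ a z S P R Y) (c K : ℝ) : Prop where
  c_pos : 0 < c
  fa : MB K (tot a) a
  fz : MB K (tot z) z
  fS : MB K (tot S) S
  fP : MB K (tot P) P
  fR : MB K (tot R) R
  fY : MB K (tot Y) Y
  low : ∀ n : ℕ, 1 ≤ n → c * (n : ℝ) ^ (-(5 / 2) : ℝ) ≤ z n

theorem Sys.mass (h : Sys x y ρ a z S P R Y) {ca Ka : ℝ} (hca : 0 < ca)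
    (hlow : ∀ n : ℕ, 1 ≤ n → ca * (n : ℝ) ^ (-(5 / 2) : ℝ) ≤ a n)
    (hup : ∀ n : ℕ, 1 ≤ n → a n ≤ Ka * (n : ℝ) ^ (-(5 / 2) : ℝ)) :
    ∃ c K, h.Mass c K := by
  have hx := h.x_pos
  have hy := h.y_pos
  have hKa : 0 < Ka := by
    have h1 := hlow 1 le_rfl
    have h2 := hup 1 le_rfl
    rw [Nat.cast_one, Real.one_rpow, mul_one] at h1 h2
    linarith
  set K := Ka + Ka / (x * y) with hK
  have hxy : 0 < x * y := mul_pos hx hy
  have hKY : ∀ n : ℕ, 1 ≤ n → Y n ≤ K * (n : ℝ) ^ (-(5 / 2) : ℝ) := by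
    intro n hn
    have h1 := h.xyY_le n
    have h2 := hup (n + 1) (by omega)
    have h3 := pow_succ_le hn
    have h4 : x * y * Y n ≤ Ka * (n : ℝ) ^ (-(5 / 2) : ℝ) :=
      h1.trans (h2.trans (mul_le_mul_of_nonneg_left h3 hKa.le))
    have h5 : Y n ≤ Ka / (x * y) * (n : ℝ) ^ (-(5 / 2) : ℝ) := by
      rw [div_mul_eq_mul_div, le_div_iff₀ hxy]
      linarith
    have h6 : 0 ≤ Ka * (n : ℝ) ^ (-(5 / 2) : ℝ) := by positivity
    rw [hK]
    nlinarith
  refine ⟨min y (y * ca), K, ?_, ?_, ?_, ?_, ?_, ?_, ?_, ?_⟩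
  · exact lt_min hy (mul_pos hy hca)
  · refine mb_of_up h.a_nonneg fun n hn => (hup n hn).trans ?_
    refine mul_le_mul_of_nonneg_right ?_ (by positivity)
    have : 0 < Ka / (x * y) := by positivity
    linarith
  · exact mb_of_up h.z_nonneg fun n hn => (h.z_le_Y n).trans (hKY n hn)
  · exact mb_of_up h.S_nonneg fun n hn => (h.S_le_Y n).trans (hKY n hn)
  · exact mb_of_up h.P_nonneg fun n hn => (h.P_le_Y n).trans (hKY n hn)
  · exact mb_of_up h.R_nonneg fun n hn => (h.R_le_Y n).trans (hKY n hn)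
  · exact mb_of_up h.Y_nonneg hKY
  · intro n hn
    rcases Nat.lt_or_ge n 2 with h1 | h1
    · have : n = 1 := by omega
      subst this
      rw [h.z_one, Nat.cast_one, Real.one_rpow, mul_one]
      exact min_le_left _ _
    · obtain ⟨m, rfl⟩ : ∃ m, n = m + 1 := ⟨n - 1, by omega⟩
      have h2 := h.ya_le m
      have h3 := hlow m (by omega)
      have h4 := pow_succ_le (n := m) (by omega)
      have h5 : min y (y * ca) ≤ y * ca := min_le_right _ _
      calc min y (y * ca) * ((m + 1 : ℕ) : ℝ) ^ (-(5 / 2) : ℝ) ≤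
            y * ca * ((m + 1 : ℕ) : ℝ) ^ (-(5 / 2) : ℝ) :=
            mul_le_mul_of_nonneg_right h5 (by positivity)
        _ ≤ y * ca * (m : ℝ) ^ (-(5 / 2) : ℝ) :=
            mul_le_mul_of_nonneg_left h4 (mul_pos hy hca).le
        _ = y * (ca * (m : ℝ) ^ (-(5 / 2) : ℝ)) := by ring
        _ ≤ y * a m := mul_le_mul_of_nonneg_left h3 hy.le
        _ ≤ z (m + 1) := h2

/-- the totals -/
theorem Sys.totals (h : Sys x y ρ a z S P R Y) {c K : ℝ} (hm : h.Mass c K) :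
    tot z = y * tot a ^ 2 ∧ tot a = 1 + tot z + x * tot z * (1 + tot Y) ∧
      tot Y = tot z + tot S + tot P + tot R ∧ tot S = x * (tot z + tot P + tot R) * tot Y ∧
      tot P = (tot z + tot S + tot R) * tot Y := by
  have hsa := hm.fa.summable
  have hsz := hm.fz.summable
  have hsS := hm.fS.summable
  have hsP := hm.fP.summable
  have hsR := hm.fR.summable
  have hsY := hm.fY.summable
  refine ⟨?_, ?_, ?_, ?_, ?_⟩
  · have h1 := hsz.tsum_eq_zero_add
    rw [h.z_zero, zero_add] at h1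
    unfold tot
    rw [h1]
    simp_rw [h.z_succ]
    rw [tsum_mul_left]
    have h2 := (tot_cv h.a_nonneg h.a_nonneg hsa hsa).2
    unfold tot at h2
    rw [h2, sq]
  · obtain ⟨h1, h2⟩ := tot_cv h.z_nonneg h.Y_nonneg hsz hsY
    have h3 : tot a = ∑' n, (one0 n + z n + x * (z n + cv z Y n)) := tsum_congr h.a_eq
    rw [h3, (isLaw_one0.summable.add hsz).tsum_add ((hsz.add h1).mul_left x),
      isLaw_one0.summable.tsum_add hsz, tsum_mul_left, hsz.tsum_add h1, isLaw_one0.tsum]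
    unfold tot at h2 ⊢
    rw [h2]
    ring
  · have h3 : tot Y = ∑' n, (z n + S n + P n + R n) := tsum_congr h.Y_eq
    rw [h3, ((hsz.add hsS).add hsP).tsum_add hsR, (hsz.add hsS).tsum_add hsP, hsz.tsum_add hsS]
    rfl
  · have h0 : ∀ n, 0 ≤ (z + P + R) n := fun n => by
      have := h.z_nonneg n
      have := h.P_nonneg n
      have := h.R_nonneg n
      simp only [Pi.add_apply]
      linarith
    have hs : Summable (z + P + R) := (hsz.add hsP).add hsR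
    obtain ⟨h1, h2⟩ := tot_cv h0 h.Y_nonneg hs hsY
    have h3 : tot S = ∑' n, x * cv (z + P + R) Y n := tsum_congr h.S_eq
    rw [h3, tsum_mul_left]
    have h4 : ∑' n, cv (z + P + R) Y n = tot (z + P + R) * tot Y := h2
    have h5 : tot (z + P + R) = tot z + tot P + tot R := by
      have : tot (z + P + R) = ∑' n, (z n + P n + R n) := rfl
      rw [this, (hsz.add hsP).tsum_add hsR, hsz.tsum_add hsP]
      rfl
    rw [h4, h5]
    ring
  · have h0 : ∀ n, 0 ≤ (z + S + R) n := fun n => by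
      have := h.z_nonneg n
      have := h.S_nonneg n
      have := h.R_nonneg n
      simp only [Pi.add_apply]
      linarith
    have hs : Summable (z + S + R) := (hsz.add hsS).add hsR
    obtain ⟨h1, h2⟩ := tot_cv h0 h.Y_nonneg hs hsY
    have h3 : tot P = ∑' n, cv (z + S + R) Y n := tsum_congr h.P_eq
    rw [h3]
    have h4 : ∑' n, cv (z + S + R) Y n = tot (z + S + R) * tot Y := h2
    have h5 : tot (z + S + R) = tot z + tot S + tot R := by
      have : tot (z + S + R) = ∑' n, (z n + S n + R n) := rfl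
      rw [this, (hsz.add hsS).tsum_add hsR, hsz.tsum_add hsS]
      rfl
    rw [h4, h5]

theorem Sys.totY_pos (h : Sys x y ρ a z S P R Y) {c K : ℝ} (hm : h.Mass c K) : 0 < tot Y := by
  have h1 := hm.fY.summable.le_tsum 1 (fun n _ => h.Y_nonneg n)
  have h2 := h.z_le_Y 1
  rw [h.z_one] at h2
  have := h.y_pos
  unfold tot
  linarith

/-- partial sums of `Σ ρ_j Y^j` are at most `tot R` -/
theorem Sys.sum_ρ_le (h : Sys x y ρ a z S P R Y) {c K : ℝ} (hm : h.Mass c K) (J : Finset ℕ) :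
    ∑ j ∈ J, ρ j * tot Y ^ j ≤ tot R := by
  have h1 : ∀ M : ℕ, (∀ j ∈ J, j ≤ M) → ∀ M' ≥ M, ∑ j ∈ J, ρ j * ∑ n ∈ range (M' + 1), pw Y j n ≤
      tot R := by
    intro M hM M' hM'
    have h2 : ∑ j ∈ J, ρ j * ∑ n ∈ range (M' + 1), pw Y j n =
        ∑ n ∈ range (M' + 1), ∑ j ∈ J, ρ j * pw Y j n := by
      simp_rw [Finset.mul_sum]
      rw [Finset.sum_comm]
    rw [h2]
    refine le_trans (sum_le_sum fun n _ => ?_) (hm.fR.sum (range (M' + 1)))
    rw [h.R_eq]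
    have h3 : ∑ j ∈ J, ρ j * pw Y j n ≤ ∑ j ∈ J.filter (fun j => j < n + 1), ρ j * pw Y j n := by
      rw [Finset.sum_filter]
      refine sum_le_sum fun j _ => ?_
      split_ifs with hj
      · exact le_rfl
      · rw [pw_eq_zero h.Y_zero (by omega), mul_zero]
    refine h3.trans ?_
    refine sum_le_sum_of_subset_of_nonneg ?_ fun j _ _ =>
      mul_nonneg (h.ρ_nonneg j) (pw_nonneg h.Y_nonneg j n)
    intro j hj
    exact mem_range.2 (mem_filter.1 hj).2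
  obtain ⟨M, hM⟩ : ∃ M, ∀ n ∈ J, n ≤ M := ⟨J.sup id, fun n hn => Finset.le_sup (f := id) hn⟩
  have h2 : Tendsto (fun M' : ℕ => ∑ j ∈ J, ρ j * ∑ n ∈ range (M' + 1), pw Y j n) atTop
      (𝓝 (∑ j ∈ J, ρ j * tot Y ^ j)) := by
    refine tendsto_finsetSum _ fun j _ => ?_
    refine Tendsto.const_mul _ ?_
    obtain ⟨h3, h4⟩ := tot_pw h.Y_nonneg hm.fY.summable j
    have h5 := h3.hasSum.tendsto_sum_nat
    rw [← h4]
    exact h5.comp (tendsto_add_atTop_nat 1)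
  refine le_of_tendsto h2 ?_
  filter_upwards [eventually_ge_atTop M] with M' hM'
  exact h1 M hM M' hM'

end

end Pool.Agent.DiamP
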